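import Pool.Agent.Helper48.BPF.Defs

/-!
PROJECT BP, block F, module BP-F3: algebra of `nz`, `sn`, `fn`, `nrm`, and smoothness. Everything is elementary
(`Fin.sum_univ_castSucc`, `Fin.snoc_castSucc`, `Fin.snoc_last`, `Complex.normSq_mul`, `Complex.normSq_eq_norm_sq`). Smoothness: `nz` and `fn` are finite sums of polynomials in real and
imaginary parts (`Complex.reCLM`, `Complex.imCLM`; `fun w => C l (w ^ 2)` is smooth: `(C l).contDiff.comp (contDiff_id.pow 2)`), `nrm` is smooth where `nz ≠ 0` because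
`nz > 0` there (`Real.contDiffAt_sqrt`, `ContDiffAt.inv`). `sn` : `contDiff_pi`, `Fin.lastCases`.
-/

set_option autoImplicit false

namespace Pool.Agent.Helper48.BPF

open Pool.Agent.Helper79.BP Pool.Agent.Helper93.BPF
open scoped ContDiff Topology

variable {n : ℕ}

theorem nz_nonneg (z : Fin n → ℂ) : 0 ≤ nz z := by
  exact Finset.sum_nonneg fun i _ => Complex.normSq_nonneg _

theorem nz_eq_zero (z : Fin n → ℂ) : nz z = 0 ↔ z = 0 := by
  constructor
  · intro h
    have h1 := (Finset.sum_eq_zero_iff_of_nonneg fun i _ => Complex.normSq_nonneg (z i)).1 h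
    funext i
    exact Complex.normSq_eq_zero.1 (h1 i (Finset.mem_univ i))
  · rintro rfl
    simp [nz]

theorem nz_sn (z : Fin n → ℂ) (w : ℂ) : nz (sn z w) = nz z + Complex.normSq w := by
  unfold nz sn
  rw [Fin.sum_univ_castSucc]
  simp

theorem nz_smul (c : ℝ) (z : Fin n → ℂ) : nz (c • z) = c ^ 2 * nz z := by
  unfold nz
  rw [Finset.mul_sum]
  refine Finset.sum_congr rfl fun i _ => ?_
  rw [Pi.smul_apply, Complex.real_smul, Complex.normSq_mul, Complex.normSq_ofReal, sq]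

theorem nz_smulC (c : ℂ) (z : Fin n → ℂ) : nz (c • z) = Complex.normSq c * nz z := by
  unfold nz
  rw [Finset.mul_sum]
  refine Finset.sum_congr rfl fun i _ => ?_
  rw [Pi.smul_apply, smul_eq_mul, Complex.normSq_mul]

/-- the splitting of a vector of `ℂ^(n+1)`. -/
theorem sn_surj (v : Fin (n + 1) → ℂ) : ∃ z w, v = sn z w := by
  exact ⟨Fin.init v, v (Fin.last n), (Fin.snoc_init_self v).symm⟩

theorem sn_inj {z z' : Fin n → ℂ} {w w' : ℂ} (h : sn z w = sn z' w') : z = z' ∧ w = w' := by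
  constructor
  · funext i
    have := congrFun h (Fin.castSucc i)
    simpa [sn] using this
  · have := congrFun h (Fin.last n)
    simpa [sn] using this

theorem sn_smul (c : ℝ) (z : Fin n → ℂ) (w : ℂ) : c • sn z w = sn (c • z) (c • w) := by
  funext i
  refine Fin.lastCases ?_ (fun i => ?_) i
  · simp [sn]
  · simp [sn]

theorem sn_smulC (c : ℂ) (z : Fin n → ℂ) (w : ℂ) : c • sn z w = sn (c • z) (c * w) := by
  funext i
  refine Fin.lastCases ?_ (fun i => ?_) i
  · simp [sn]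
  · simp [sn]

theorem nz_nrm (v : Fin n → ℂ) (hv : nz v ≠ 0) : nz (nrm v) = 1 := by
  unfold nrm
  rw [nz_smul, inv_pow, Real.sq_sqrt (nz_nonneg v), inv_mul_cancel₀ hv]

theorem nrm_of_one (v : Fin n → ℂ) (hv : nz v = 1) : nrm v = v := by
  unfold nrm
  rw [hv, Real.sqrt_one, inv_one, one_smul]

theorem nrm_smulC (c : ℂ) (hc : Complex.normSq c = 1) (v : Fin n → ℂ) : nrm (c • v) = c • nrm v := by
  unfold nrm
  rw [nz_smulC, hc, one_mul, smul_comm]

theorem normSq_of_pow_four (c : ℂ) (hc : c ^ 4 = 1) : Complex.normSq c = 1 := by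
  have h := congrArg Complex.normSq hc
  rw [map_pow, map_one] at h
  exact (pow_eq_one_iff_of_nonneg (Complex.normSq_nonneg c) (by norm_num)).1 h

theorem sq_of_pow_four (c : ℂ) (hc : c ^ 4 = 1) : c ^ 2 = 1 ∨ c ^ 2 = -1 := by
  have h : (c ^ 2 - 1) * (c ^ 2 + 1) = 0 := by
    linear_combination hc
  rcases mul_eq_zero.1 h with h | h
  · exact Or.inl (sub_eq_zero.1 h)
  · exact Or.inr (eq_neg_of_add_eq_zero_left h)

variable {p : ℕ} (C : ℕ → ℂ →L[ℝ] (Fin p → ℝ))

theorem fn_sn (z : Fin n → ℂ) (w : ℂ) : fn C (n + 1) (sn z w) = fn C n z + C n (w ^ 2) := by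
  unfold fn sn
  rw [Fin.sum_univ_castSucc]
  simp

theorem fn_smul (c : ℝ) (z : Fin n → ℂ) : fn C n (c • z) = c ^ 2 • fn C n z := by
  unfold fn
  rw [Finset.smul_sum]
  refine Finset.sum_congr rfl fun l _ => ?_
  rw [Pi.smul_apply, smul_pow, map_smul]

theorem fn_smulC (c : ℂ) (e : ℝ) (hc : c ^ 2 = e) (z : Fin n → ℂ) : fn C n (c • z) = e • fn C n z := by
  unfold fn
  rw [Finset.smul_sum]
  refine Finset.sum_congr rfl fun l _ => ?_
  rw [Pi.smul_apply, smul_eq_mul, mul_pow, hc, ← Complex.real_smul, map_smul]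

theorem contDiff_nz : ContDiff ℝ ∞ (nz : (Fin n → ℂ) → ℝ) := by
  unfold nz
  refine ContDiff.sum fun i _ => ?_
  have h1 : ContDiff ℝ ∞ (fun z : Fin n → ℂ => (z i).re) :=
    Complex.reCLM.contDiff.comp (contDiff_apply ℝ ℂ i)
  have h2 : ContDiff ℝ ∞ (fun z : Fin n → ℂ => (z i).im) :=
    Complex.imCLM.contDiff.comp (contDiff_apply ℝ ℂ i)
  simp only [Complex.normSq_apply]
  exact (h1.mul h1).add (h2.mul h2)

theorem contDiff_fn : ContDiff ℝ ∞ (fn C n) := by
  unfold fn
  exact ContDiff.sum fun l _ => (C l).contDiff.comp ((contDiff_apply ℝ ℂ l).pow 2)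

theorem contDiff_sn : ContDiff ℝ ∞ (fun x : (Fin n → ℂ) × ℂ => sn x.1 x.2) := by
  refine contDiff_pi.2 fun i => ?_
  refine Fin.lastCases ?_ (fun i => ?_) i
  · simp only [sn, Fin.snoc_last]
    exact contDiff_snd
  · simp only [sn, Fin.snoc_castSucc]
    exact (contDiff_apply ℝ ℂ i).comp contDiff_fst

theorem contDiffOn_nrm : ContDiffOn ℝ ∞ (nrm : (Fin n → ℂ) → (Fin n → ℂ)) {v | nz v ≠ 0} := by
  have h0 : ContDiffOn ℝ ∞ (fun v : Fin n → ℂ => Real.sqrt (nz v)) {v | nz v ≠ 0} :=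
    contDiff_nz.contDiffOn.sqrt fun v hv => hv
  have h1 : ContDiffOn ℝ ∞ (fun v : Fin n → ℂ => (Real.sqrt (nz v))⁻¹) {v | nz v ≠ 0} :=
    h0.inv fun v hv => by
      rw [Real.sqrt_ne_zero (nz_nonneg v)]
      exact hv
  have h2 : ContDiffOn ℝ ∞ (fun v : Fin n → ℂ => v) {v | nz v ≠ 0} := contDiff_id.contDiffOn
  exact h1.smul h2

/-- The derivatives. -/
theorem hasFDerivAt_nz (z v : Fin n → ℂ) :
    fderiv ℝ (nz : (Fin n → ℂ) → ℝ) z v = 2 * ∑ i, ((z i).re * (v i).re + (z i).im * (v i).im) := by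
  have hd : DifferentiableAt ℝ (nz : (Fin n → ℂ) → ℝ) z :=
    contDiff_nz.differentiable (by simp) z
  have h1 : HasDerivAt (fun t : ℝ => nz (z + t • v)) (fderiv ℝ nz z v) 0 :=
    hd.hasFDerivAt.hasLineDerivAt v
  have h2 : ∀ t : ℝ, nz (z + t • v) = nz z +
      t * (2 * ∑ i, ((z i).re * (v i).re + (z i).im * (v i).im)) + t ^ 2 * nz v := by
    intro t
    unfold nz
    rw [Finset.mul_sum, Finset.mul_sum, Finset.mul_sum, ← Finset.sum_add_distrib,
      ← Finset.sum_add_distrib]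
    refine Finset.sum_congr rfl fun i _ => ?_
    simp only [Complex.normSq_apply, Pi.add_apply, Pi.smul_apply, Complex.add_re, Complex.add_im,
      Complex.real_smul, Complex.mul_re, Complex.mul_im, Complex.ofReal_re, Complex.ofReal_im]
    ring
  have h3 : HasDerivAt (fun t : ℝ => nz (z + t • v))
      (2 * ∑ i, ((z i).re * (v i).re + (z i).im * (v i).im)) 0 := by
    simp_rw [h2]
    have ha := ((hasDerivAt_id (0 : ℝ)).mul_const
      (2 * ∑ i, ((z i).re * (v i).re + (z i).im * (v i).im))).const_add (nz z)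
    have hb := ((hasDerivAt_id (0 : ℝ)).pow 2).mul_const (nz v)
    exact (ha.add hb).congr_deriv (by simp)
  exact h1.unique h3

theorem hasFDerivAt_fn (z v : Fin n → ℂ) : fderiv ℝ (fn C n) z v = ∑ l : Fin n, C l (2 * z l * v l) := by
  have hd : DifferentiableAt ℝ (fn C n) z := (contDiff_fn C).differentiable (by simp) z
  have h1 : HasDerivAt (fun t : ℝ => fn C n (z + t • v)) (fderiv ℝ (fn C n) z v) 0 :=
    hd.hasFDerivAt.hasLineDerivAt v
  have h2 : ∀ t : ℝ, fn C n (z + t • v) = fn C n z +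
      t • (∑ l : Fin n, C l (2 * z l * v l)) + t ^ 2 • fn C n v := by
    intro t
    unfold fn
    rw [Finset.smul_sum, Finset.smul_sum, ← Finset.sum_add_distrib, ← Finset.sum_add_distrib]
    refine Finset.sum_congr rfl fun l _ => ?_
    rw [← map_smul, ← map_smul, ← map_add, ← map_add]
    congr 1
    simp only [Pi.add_apply, Pi.smul_apply, Complex.real_smul, Complex.ofReal_pow]
    ring
  have h3 : HasDerivAt (fun t : ℝ => fn C n (z + t • v))
      (∑ l : Fin n, C l (2 * z l * v l)) 0 := by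
    simp_rw [h2]
    have ha := ((hasDerivAt_id (0 : ℝ)).smul_const
      (∑ l : Fin n, C l (2 * z l * v l))).const_add (fn C n z)
    have hb := ((hasDerivAt_id (0 : ℝ)).pow 2).smul_const (fn C n v)
    exact (ha.add hb).congr_deriv (by simp)
  exact h1.unique h3

end Pool.Agent.Helper48.BPF
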