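import Pool.Agent.Helper48.BPF.Inst

/-!
PROJECT BP, block F, module BP-F8: the new context over the sphere of `ℂ^n` (from a context over the sphere of `ℂ^(n+1)`).

`isOpen`: `Phi` is continuous on the open set `{nz x.1 ≠ 0}`. `smooth`: `contDiffOn_Phi`. `compact`: `K' = {x | nz z = 1, |u|² + s² = 1, (Φ(z,u,s), a) ∈ Kset O E}` (`nz Φ = 1`), use `pb_compact` with the compact set
`S = {(z,(u,s)) | nz z = 1, normSq u + s² = 1}` and `Homeomorph.prodAssoc`. `stab`, `free`, `inv`, `cont`, `maps` exactly as in Data.lean (`Phi_eqv`).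
`vert`: at `x = (z, ((u, s), a)) ∈ K'` and `w = (r, w')`: the derivative of `E'` in the direction `(0, ((y, q), b))` is `(2 Re(ū y) + 2 s q, dE (dΦ(0,(y,q)), b))`. Take `(y, q) = (r/2) (u, s)` (first component `r (|u|² + s²) = r`),
then `b` with `dE (0, b) = w' - dE (dΦ(0, (y, q)), 0)` by `h.vert`.
-/

set_option autoImplicit false

namespace Pool.Agent.Helper48.BPF

open Pool.Agent.Helper79.BP Pool.Agent.Helper93.BPF
open scoped ContDiff Topology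

variable {n : ℕ} {A B : Type} [NormedAddCommGroup A] [NormedSpace ℝ A] [FiniteDimensional ℝ A]
  [NormedAddCommGroup B] [NormedSpace ℝ B] [FiniteDimensional ℝ B]
  {G : Type} [Group G] {ι : Type} {V : Set (ι → ℝ)} {χ : G →* ℂ} {ρ : G →* (A →L[ℝ] A)}
  {O : Set ((Fin (n + 1) → ℂ) × A)} {E : (Fin (n + 1) → ℂ) × A → B} {F : (Fin (n + 1) → ℂ) × A → (ι → ℝ)}

private theorem act_new (g : G × ℤˣ) (x : (Fin n → ℂ) × ((ℂ × ℝ) × A)) :
    act (chi' χ) (rho' χ ρ) n g x =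
      (χ g.1 • x.1, ((((((g.2 : ℤ) : ℝ) : ℂ) * χ g.1 * x.2.1.1, ((g.2 : ℤ) : ℝ) * x.2.1.2)), ρ g.1 x.2.2)) := by
  rfl

private theorem act_old (m : ℕ) (g : G) (x : (Fin m → ℂ) × A) : act χ ρ m g x = (χ g • x.1, ρ g x.2) := by
  rfl

private theorem unit_sq (e : ℤˣ) : (((e : ℤ) : ℝ)) ^ 2 = 1 := by
  rcases Int.units_eq_one_or e with h | h <;> simp [h]

private theorem mem_new (x : (Fin n → ℂ) × ((ℂ × ℝ) × A)) :
    x ∈ Kset (O' O) (E' E) ↔ nz x.1 = 1 ∧ Complex.normSq x.2.1.1 + x.2.1.2 ^ 2 = 1 ∧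
      (Phi x.1 x.2.1.1 x.2.1.2, x.2.2) ∈ Kset O E := by
  constructor
  · rintro ⟨h1, ⟨h2, h3⟩, h4⟩
    have h5 : Complex.normSq x.2.1.1 + x.2.1.2 ^ 2 - 1 = 0 := congrArg Prod.fst h4
    have h6 : E (Phi x.1 x.2.1.1 x.2.1.2, x.2.2) = 0 := congrArg Prod.snd h4
    exact ⟨h1, by linarith, nz_Phi _ h2 _ _, h3, h6⟩
  · rintro ⟨h1, h2, _, h3, h4⟩
    refine ⟨h1, ⟨by rw [h1]; exact one_ne_zero, h3⟩, ?_⟩
    exact Prod.ext (by simp only [E', Prod.fst_zero]; linarith) h4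

private theorem smooth_psi : ContDiffOn ℝ ∞
    (fun x : (Fin n → ℂ) × ((ℂ × ℝ) × A) => (Phi x.1 x.2.1.1 x.2.1.2, x.2.2)) {x | nz x.1 ≠ 0} := by
  have h1 : ContDiff ℝ ∞ (fun x : (Fin n → ℂ) × ((ℂ × ℝ) × A) => ((x.1, x.2.1) : (Fin n → ℂ) × (ℂ × ℝ))) := by
    fun_prop
  have h2 := (contDiffOn_Phi (n := n)).comp h1.contDiffOn
    (s := {x : (Fin n → ℂ) × ((ℂ × ℝ) × A) | nz x.1 ≠ 0}) (fun x hx => hx)
  have h3 : ContDiff ℝ ∞ (fun x : (Fin n → ℂ) × ((ℂ × ℝ) × A) => x.2.2) := by fun_prop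
  exact h2.prodMk h3.contDiffOn

private theorem open_nz : IsOpen {x : (Fin n → ℂ) × ((ℂ × ℝ) × A) | nz x.1 ≠ 0} := by
  have h : Continuous (fun x : (Fin n → ℂ) × ((ℂ × ℝ) × A) => nz x.1) :=
    contDiff_nz.continuous.comp continuous_fst
  exact isOpen_ne_fun h continuous_const

private theorem open_new (hO : IsOpen O) : IsOpen (O' O : Set ((Fin n → ℂ) × ((ℂ × ℝ) × A))) :=
  (smooth_psi (n := n) (A := A)).continuousOn.isOpen_inter_preimage open_nz hO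

private theorem smooth_g1 : ContDiff ℝ ∞
    (fun x : (Fin n → ℂ) × ((ℂ × ℝ) × A) => Complex.normSq x.2.1.1 + x.2.1.2 ^ 2 - 1) := by
  have h1 : (fun x : (Fin n → ℂ) × ((ℂ × ℝ) × A) => Complex.normSq x.2.1.1 + x.2.1.2 ^ 2 - 1) =
      fun x => (Complex.reCLM x.2.1.1 * Complex.reCLM x.2.1.1 + Complex.imCLM x.2.1.1 * Complex.imCLM x.2.1.1)
        + x.2.1.2 ^ 2 - 1 := by
    funext x
    rw [Complex.normSq_apply]
    rfl
  rw [h1]
  fun_prop

private theorem smooth_new (hE : ContDiffOn ℝ ∞ E O) :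
    ContDiffOn ℝ ∞ (E' E) (O' O : Set ((Fin n → ℂ) × ((ℂ × ℝ) × A))) := by
  refine (smooth_g1 (n := n) (A := A)).contDiffOn.prodMk ?_
  exact hE.comp ((smooth_psi (n := n) (A := A)).mono fun x hx => hx.1) fun x hx => hx.2

private theorem compact_S : IsCompact {x : (Fin n → ℂ) × (ℂ × ℝ) | nz x.1 = 1 ∧
    Complex.normSq x.2.1 + x.2.2 ^ 2 = 1} := by
  refine Metric.isCompact_of_isClosed_isBounded ?_ ?_
  · have h1 : Continuous (fun x : (Fin n → ℂ) × (ℂ × ℝ) => nz x.1) :=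
      contDiff_nz.continuous.comp continuous_fst
    have h2 : Continuous (fun x : (Fin n → ℂ) × (ℂ × ℝ) => Complex.normSq x.2.1 + x.2.2 ^ 2) := by
      exact (Complex.continuous_normSq.comp (continuous_fst.comp continuous_snd)).add
        ((continuous_snd.comp continuous_snd).pow 2)
    exact (isClosed_eq h1 continuous_const).inter (isClosed_eq h2 continuous_const)
  · refine (Metric.isBounded_closedBall (x := (0 : (Fin n → ℂ) × (ℂ × ℝ))) (r := 1)).subset ?_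
    rintro ⟨z, u, s⟩ ⟨h1, h2⟩
    simp only at h1 h2
    rw [mem_closedBall_zero_iff]
    have hu : ‖u‖ ≤ 1 := by
      have h3 : ‖u‖ ^ 2 ≤ 1 := by
        rw [← Complex.normSq_eq_norm_sq]; nlinarith [sq_nonneg s]
      nlinarith [norm_nonneg u]
    have hs : ‖s‖ ≤ 1 := by
      have h3 : ‖s‖ ^ 2 ≤ 1 := by
        rw [Real.norm_eq_abs, sq_abs]; nlinarith [Complex.normSq_nonneg u]
      nlinarith [norm_nonneg s]
    have hz : ‖z‖ ≤ 1 := by
      rw [pi_norm_le_iff_of_nonneg zero_le_one]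
      intro i
      have h3 : ‖z i‖ ^ 2 ≤ 1 := by
        rw [← Complex.normSq_eq_norm_sq, ← h1]
        exact Finset.single_le_sum (f := fun i => Complex.normSq (z i)) (fun j _ => Complex.normSq_nonneg _)
          (Finset.mem_univ i)
      nlinarith [norm_nonneg (z i)]
    exact max_le hz (max_le hu hs)

private theorem compact_new (hK : IsCompact (Kset O E)) :
    IsCompact (Kset (O' O) (E' E) : Set ((Fin n → ℂ) × ((ℂ × ℝ) × A))) := by
  have hφ : ContinuousOn (fun x : (Fin n → ℂ) × (ℂ × ℝ) => Phi x.1 x.2.1 x.2.2)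
      {x : (Fin n → ℂ) × (ℂ × ℝ) | nz x.1 = 1 ∧ Complex.normSq x.2.1 + x.2.2 ^ 2 = 1} := by
    refine contDiffOn_Phi.continuousOn.mono ?_
    intro x hx
    have : nz x.1 = 1 := hx.1
    simp only [Set.mem_setOf_eq, this]
    exact one_ne_zero
  have h1 := pb_compact _ (compact_S (n := n)) _ hφ (Kset O E) hK
  have h2 := h1.image (Homeomorph.prodAssoc (Fin n → ℂ) (ℂ × ℝ) A).continuous
  have h3 : (Kset (O' O) (E' E) : Set ((Fin n → ℂ) × ((ℂ × ℝ) × A))) =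
      (Homeomorph.prodAssoc (Fin n → ℂ) (ℂ × ℝ) A) ''
        {x | x.1 ∈ {x : (Fin n → ℂ) × (ℂ × ℝ) | nz x.1 = 1 ∧ Complex.normSq x.2.1 + x.2.2 ^ 2 = 1} ∧
          (Phi x.1.1 x.1.2.1 x.1.2.2, x.2) ∈ Kset O E} := by
    ext x
    rw [mem_new]
    constructor
    · rintro ⟨h1, h2, h3⟩
      exact ⟨((x.1, x.2.1), x.2.2), ⟨⟨h1, h2⟩, h3⟩, rfl⟩
    · rintro ⟨y, ⟨⟨h1, h2⟩, h3⟩, rfl⟩
      exact ⟨h1, h2, h3⟩
  rw [h3]
  exact h2

private theorem psi_act (hχ : ∀ g, χ g ^ 4 = 1) (g : G × ℤˣ) (x : (Fin n → ℂ) × ((ℂ × ℝ) × A)) :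
    (Phi (act (chi' χ) (rho' χ ρ) n g x).1 (act (chi' χ) (rho' χ ρ) n g x).2.1.1
      (act (chi' χ) (rho' χ ρ) n g x).2.1.2, (act (chi' χ) (rho' χ ρ) n g x).2.2) =
      act χ ρ (n + 1) g.1 (Phi x.1 x.2.1.1 x.2.1.2, x.2.2) := by
  rw [act_new, act_old]
  simp only
  rw [Phi_eqv (χ g.1) (hχ g.1) _ (unit_sq g.2)]

private theorem stab_new (hχ : ∀ g, χ g ^ 4 = 1) (hs : Stab (act χ ρ (n + 1)) (Kset O E)) :
    Stab (act (chi' χ) (rho' χ ρ) n) (Kset (O' O) (E' E)) := by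
  intro g x hx
  rw [mem_new] at hx ⊢
  obtain ⟨h1, h2, h3⟩ := hx
  refine ⟨?_, ?_, ?_⟩
  · rw [act_new]
    simp only
    rw [nz_smulC, normSq_of_pow_four _ (hχ g.1), h1, mul_one]
  · rw [act_new]
    simp only
    rw [Complex.normSq_mul, Complex.normSq_mul, normSq_of_pow_four _ (hχ g.1), Complex.normSq_ofReal, mul_pow,
      unit_sq, ← pow_two, unit_sq, one_mul, one_mul, one_mul, h2]
  · rw [psi_act hχ]
    exact hs g.1 _ h3

private theorem free_new (hχ : ∀ g, χ g ^ 4 = 1) (hs : Free (act χ ρ (n + 1)) (Kset O E)) :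
    Free (act (chi' χ) (rho' χ ρ) n) (Kset (O' O) (E' E)) := by
  intro g x hx hgx
  rw [mem_new] at hx
  obtain ⟨h1, h2, h3⟩ := hx
  have h4 : act χ ρ (n + 1) g.1 (Phi x.1 x.2.1.1 x.2.1.2, x.2.2) = (Phi x.1 x.2.1.1 x.2.1.2, x.2.2) := by
    rw [← psi_act hχ, hgx]
  have h5 := hs g.1 _ h3 h4
  obtain ⟨g1, e⟩ := g
  simp only at h5
  subst h5
  rw [act_new] at hgx
  simp only [map_one, mul_one] at hgx
  rcases Int.units_eq_one_or e with he | he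
  · rw [he]; rfl
  · exfalso
    rw [he] at hgx
    have hu : x.2.1.1 = 0 := by
      have := congrArg (fun y => y.2.1.1) hgx
      simp only [Units.val_neg, Units.val_one, Int.cast_neg, Int.cast_one, Complex.ofReal_neg,
        Complex.ofReal_one, neg_mul, one_mul] at this
      exact neg_eq_self.mp this
    have hv : x.2.1.2 = 0 := by
      have := congrArg (fun y => y.2.1.2) hgx
      simp only [Units.val_neg, Units.val_one, Int.cast_neg, Int.cast_one, neg_mul, one_mul] at this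
      exact neg_eq_self.mp this
    rw [hu, hv] at h2
    simp at h2

private theorem vert_new (h : IsCtx V χ ρ O E F) (x : (Fin n → ℂ) × ((ℂ × ℝ) × A))
    (hx : x ∈ Kset (O' O) (E' E)) (w : ℝ × B) :
    ∃ b : (ℂ × ℝ) × A, fderiv ℝ (E' E) x (0, b) = w := by
  rw [mem_new] at hx
  obtain ⟨h1, h2, h3⟩ := hx
  have hnz : x ∈ {x : (Fin n → ℂ) × ((ℂ × ℝ) × A) | nz x.1 ≠ 0} := by
    simp only [Set.mem_setOf_eq, h1]; exact one_ne_zero
  have hψ : DifferentiableAt ℝ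
      (fun x : (Fin n → ℂ) × ((ℂ × ℝ) × A) => (Phi x.1 x.2.1.1 x.2.1.2, x.2.2)) x :=
    ((smooth_psi (n := n) (A := A)).contDiffAt (open_nz.mem_nhds hnz)).differentiableAt (by simp)
  have hE : DifferentiableAt ℝ E (Phi x.1 x.2.1.1 x.2.1.2, x.2.2) :=
    (h.smooth.contDiffAt (h.isOpen.mem_nhds h3.2.1)).differentiableAt (by simp)
  have hg : DifferentiableAt ℝ
      (fun x : (Fin n → ℂ) × ((ℂ × ℝ) × A) => Complex.normSq x.2.1.1 + x.2.1.2 ^ 2 - 1) x :=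
    (smooth_g1 (n := n) (A := A)).contDiffAt.differentiableAt (by simp)
  have hEψ : HasFDerivAt (fun x : (Fin n → ℂ) × ((ℂ × ℝ) × A) => E (Phi x.1 x.2.1.1 x.2.1.2, x.2.2))
      ((fderiv ℝ E (Phi x.1 x.2.1.1 x.2.1.2, x.2.2)).comp (fderiv ℝ
        (fun x : (Fin n → ℂ) × ((ℂ × ℝ) × A) => (Phi x.1 x.2.1.1 x.2.1.2, x.2.2)) x)) x :=
    HasFDerivAt.comp x (f := fun x : (Fin n → ℂ) × ((ℂ × ℝ) × A) => (Phi x.1 x.2.1.1 x.2.1.2, x.2.2))
      hE.hasFDerivAt hψ.hasFDerivAt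
  have hder := (hg.hasFDerivAt.prodMk hEψ).fderiv
  have hv1 : ∀ r : ℝ, fderiv ℝ
      (fun x : (Fin n → ℂ) × ((ℂ × ℝ) × A) => Complex.normSq x.2.1.1 + x.2.1.2 ^ 2 - 1) x
        (0, (((r / 2 : ℝ) • x.2.1.1, (r / 2) * x.2.1.2), 0)) = r := by
    intro r
    have a1 : HasDerivAt (fun t : ℝ => (fun x : (Fin n → ℂ) × ((ℂ × ℝ) × A) =>
        Complex.normSq x.2.1.1 + x.2.1.2 ^ 2 - 1) (x + t • (0, (((r / 2 : ℝ) • x.2.1.1, (r / 2) * x.2.1.2), 0))))
        (fderiv ℝ (fun x : (Fin n → ℂ) × ((ℂ × ℝ) × A) => Complex.normSq x.2.1.1 + x.2.1.2 ^ 2 - 1) x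
        (0, (((r / 2 : ℝ) • x.2.1.1, (r / 2) * x.2.1.2), 0))) 0 :=
      hg.hasFDerivAt.hasLineDerivAt _
    have a2 : (fun t : ℝ => (fun x : (Fin n → ℂ) × ((ℂ × ℝ) × A) =>
        Complex.normSq x.2.1.1 + x.2.1.2 ^ 2 - 1) (x + t • (0, (((r / 2 : ℝ) • x.2.1.1, (r / 2) * x.2.1.2), 0)))) =
        fun t : ℝ => (1 + t * (r / 2)) ^ 2 - 1 := by
      funext t
      have e1 : (x + t • ((0 : Fin n → ℂ), (((r / 2 : ℝ) • x.2.1.1, (r / 2) * x.2.1.2), (0 : A)))).2.1.1 =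
          ((1 + t * (r / 2) : ℝ) : ℂ) * x.2.1.1 := by
        simp only [Prod.snd_add, Prod.smul_snd, Prod.fst_add, Prod.smul_fst, Complex.real_smul]
        push_cast
        ring
      have e2 : (x + t • ((0 : Fin n → ℂ), (((r / 2 : ℝ) • x.2.1.1, (r / 2) * x.2.1.2), (0 : A)))).2.1.2 =
          (1 + t * (r / 2)) * x.2.1.2 := by
        simp only [Prod.snd_add, Prod.smul_snd, Prod.fst_add, Prod.smul_fst, smul_eq_mul]
        ring
      simp only [e1, e2]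
      rw [Complex.normSq_mul, Complex.normSq_ofReal]
      have : (1 + t * (r / 2)) * (1 + t * (r / 2)) * Complex.normSq x.2.1.1 + ((1 + t * (r / 2)) * x.2.1.2) ^ 2
          = (1 + t * (r / 2)) ^ 2 * (Complex.normSq x.2.1.1 + x.2.1.2 ^ 2) := by ring
      rw [this, h2, mul_one]
    rw [a2] at a1
    have a3 : HasDerivAt (fun t : ℝ => (1 + t * (r / 2)) ^ 2 - 1) r 0 := by
      have b1 : HasDerivAt (fun t : ℝ => 1 + t * (r / 2)) (r / 2) 0 := by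
        simpa using ((hasDerivAt_id (0 : ℝ)).mul_const (r / 2)).const_add 1
      have b2 := (b1.pow 2).sub_const 1
      refine b2.congr_deriv ?_
      simp
      ring
    exact a1.unique a3
  have hv2 : ∀ b : A, fderiv ℝ
      (fun x : (Fin n → ℂ) × ((ℂ × ℝ) × A) => Complex.normSq x.2.1.1 + x.2.1.2 ^ 2 - 1) x (0, (0, b)) = 0 := by
    intro b
    have a1 : HasDerivAt (fun t : ℝ => (fun x : (Fin n → ℂ) × ((ℂ × ℝ) × A) =>
        Complex.normSq x.2.1.1 + x.2.1.2 ^ 2 - 1) (x + t • (0, (0, b))))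
        (fderiv ℝ (fun x : (Fin n → ℂ) × ((ℂ × ℝ) × A) => Complex.normSq x.2.1.1 + x.2.1.2 ^ 2 - 1) x
        (0, (0, b))) 0 := hg.hasFDerivAt.hasLineDerivAt _
    have a2 : (fun t : ℝ => (fun x : (Fin n → ℂ) × ((ℂ × ℝ) × A) =>
        Complex.normSq x.2.1.1 + x.2.1.2 ^ 2 - 1) (x + t • (0, (0, b)))) =
        fun _ => Complex.normSq x.2.1.1 + x.2.1.2 ^ 2 - 1 := by
      funext t
      simp
    rw [a2] at a1
    exact a1.unique (hasDerivAt_const _ _)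
  have hv3 : ∀ b : A, fderiv ℝ
      (fun x : (Fin n → ℂ) × ((ℂ × ℝ) × A) => (Phi x.1 x.2.1.1 x.2.1.2, x.2.2)) x (0, (0, b)) = (0, b) := by
    intro b
    have a1 : HasDerivAt (fun t : ℝ => (fun x : (Fin n → ℂ) × ((ℂ × ℝ) × A) =>
        (Phi x.1 x.2.1.1 x.2.1.2, x.2.2)) (x + t • (0, (0, b))))
        (fderiv ℝ (fun x : (Fin n → ℂ) × ((ℂ × ℝ) × A) => (Phi x.1 x.2.1.1 x.2.1.2, x.2.2)) x
        (0, (0, b))) 0 := hψ.hasFDerivAt.hasLineDerivAt _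
    have a2 : (fun t : ℝ => (fun x : (Fin n → ℂ) × ((ℂ × ℝ) × A) =>
        (Phi x.1 x.2.1.1 x.2.1.2, x.2.2)) (x + t • (0, (0, b)))) =
        fun t => (Phi x.1 x.2.1.1 x.2.1.2, x.2.2 + t • b) := by
      funext t
      simp
    rw [a2] at a1
    have a3 : HasDerivAt (fun t : ℝ => (Phi x.1 x.2.1.1 x.2.1.2, x.2.2 + t • b))
        ((0 : Fin (n + 1) → ℂ), b) 0 := by
      refine (hasDerivAt_const _ _).prodMk ?_
      simpa using ((hasDerivAt_id (0 : ℝ)).smul_const b).const_add x.2.2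
    exact a1.unique a3
  obtain ⟨b, hb⟩ := h.vert _ h3 (w.2 - fderiv ℝ E (Phi x.1 x.2.1.1 x.2.1.2, x.2.2) (fderiv ℝ
    (fun x : (Fin n → ℂ) × ((ℂ × ℝ) × A) => (Phi x.1 x.2.1.1 x.2.1.2, x.2.2)) x
      (0, (((w.1 / 2 : ℝ) • x.2.1.1, (w.1 / 2) * x.2.1.2), 0))))
  refine ⟨(((w.1 / 2 : ℝ) • x.2.1.1, (w.1 / 2) * x.2.1.2), b), ?_⟩
  have hsplit : ((0 : Fin n → ℂ), (((w.1 / 2 : ℝ) • x.2.1.1, (w.1 / 2) * x.2.1.2), b)) =
      (0, (((w.1 / 2 : ℝ) • x.2.1.1, (w.1 / 2) * x.2.1.2), 0)) + (0, (0, b)) := by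
    simp
  have hE'eq : (E' E : (Fin n → ℂ) × ((ℂ × ℝ) × A) → ℝ × B) =
      fun x => (Complex.normSq x.2.1.1 + x.2.1.2 ^ 2 - 1, E (Phi x.1 x.2.1.1 x.2.1.2, x.2.2)) := rfl
  rw [hE'eq, hder, hsplit, map_add]
  refine Prod.ext ?_ ?_
  · simp only [ContinuousLinearMap.prod_apply, Prod.fst_add]
    rw [hv1, hv2, add_zero]
  · simp only [ContinuousLinearMap.prod_apply, Prod.snd_add, ContinuousLinearMap.comp_apply]
    rw [hv3, hb]
    abel

theorem ctx_new (h : IsCtx V χ ρ O E F) : IsCtx V (chi' χ) (rho' χ ρ) (O' O) (E' E) (F' F) where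
  chi g := h.chi g.1
  isOpen := open_new h.isOpen
  smooth := smooth_new h.smooth
  compact := compact_new h.compact
  stab := stab_new h.chi h.stab
  free := free_new h.chi h.free
  vert := vert_new h
  cont := by
    have h1 : ContinuousOn (fun x : (Fin n → ℂ) × ((ℂ × ℝ) × A) => (Phi x.1 x.2.1.1 x.2.1.2, x.2.2))
        (Kset (O' O) (E' E)) := by
      refine (smooth_psi (n := n) (A := A)).continuousOn.mono ?_
      intro x hx
      exact hx.2.1.1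
    exact h.cont.comp h1 fun x hx => ((mem_new x).1 hx).2.2
  maps := fun x hx => h.maps ((mem_new x).1 hx).2.2
  inv := by
    intro g x hx
    have h1 := h.inv g.1 _ ((mem_new x).1 hx).2.2
    unfold F'
    rw [psi_act h.chi, h1]

end Pool.Agent.Helper48.BPF
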