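import Pool.Agent.Helper48.BPF.Inst

/-!
PROJECT BP, block F, module BP-F9: `X₁ / G' ≅ X / G`.

Use `descentQ` with `ψ x = (th 0 z u s, a)` on the open set `{s ≠ 0}` (near `s₀ ≠ 0` with sign `σ`: `th 0 z u s = σ • sn (s • z) u`, since `|s| = σ s`, `(s/|s|)(1 - 0 + 0) = σ`; so `ψ` is a polynomial map there).
On `X₁`: `Th 0 = th 0` (`Th_zero`), `nz = 1`, `fn C (n+1) = 0`, so `ψ` maps `X₁` to `Xset C O E`.
`honto`: `th_zero_surj`. `hinv`: `th_eqv` (`g' = g.1`). `hsep`: if `χ(g') th 0 z u s = th 0 z₂ u₂ s₂` and `ρ g' a = a₂`: `c |s| z = |s₂| z₂` gives `|s| = |s₂|` (norms) and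
`z₂ = c z`; `c (s/|s|) u = (s₂/|s₂|) u₂`; with `e = (s/|s|)(s₂/|s₂|) = ±1` (as an element of `ℤˣ`) we get `u₂ = e c u`, `s₂ = e s`: `x₂ = act' (g', e) x`.
`himm`: if `v = (v_z, ((v_u, v_s), v_a))` is tangent and killed by `dψ = (σ • sn (v_s z + s v_z) v_u, v_a)`: `v_a = 0`, `v_u = 0`, `v_s z + s v_z = 0`; `pb_ker` (with `pull_X1`) gives `fderiv (bfun 0 ..) v = 0`, in
particular `Re <z, v_z> = 0`, so `v_s = - s Re<z, v_z> / nz z = 0` and `v_z = 0`. `hf`: `F1 F x = F (Th 0 .., a) = F (ψ x)`.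
-/

set_option autoImplicit false

namespace Pool.Agent.Helper48.BPF

open Pool.Agent.Helper79.BP Pool.Agent.Helper93.BPF
open scoped ContDiff Topology

/-! Auxiliary lemmas. -/

/-- `th 0` in simplified form. -/
private theorem th_zero_eq {n : ℕ} (z : Fin n → ℂ) (u : ℂ) (s : ℝ) : th 0 z u s = sn (|s| • z) ((s / |s|) • u) := by
  unfold th
  congr 2
  · ring_nf
  · ring_nf

private theorem contDiffOn_th0 {n : ℕ} {A : Type} [NormedAddCommGroup A] [NormedSpace ℝ A] : ContDiffOn ℝ ∞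
    (fun x : (Fin n → ℂ) × ((ℂ × ℝ) × A) => (th 0 x.1 x.2.1.1 x.2.1.2, x.2.2)) {x | x.2.1.2 ≠ 0} := by
  have hz : ContDiffOn ℝ ∞ (fun x : (Fin n → ℂ) × ((ℂ × ℝ) × A) => x.1) {x | x.2.1.2 ≠ 0} :=
    contDiff_fst.contDiffOn
  have hu : ContDiffOn ℝ ∞ (fun x : (Fin n → ℂ) × ((ℂ × ℝ) × A) => x.2.1.1) {x | x.2.1.2 ≠ 0} :=
    (contDiff_fst.comp (contDiff_fst.comp contDiff_snd)).contDiffOn
  have hs : ContDiffOn ℝ ∞ (fun x : (Fin n → ℂ) × ((ℂ × ℝ) × A) => x.2.1.2) {x | x.2.1.2 ≠ 0} :=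
    (contDiff_snd.comp (contDiff_fst.comp contDiff_snd)).contDiffOn
  have ha : ContDiffOn ℝ ∞ (fun x : (Fin n → ℂ) × ((ℂ × ℝ) × A) => x.2.2) {x | x.2.1.2 ≠ 0} :=
    (contDiff_snd.comp contDiff_snd).contDiffOn
  have hb : ContDiffOn ℝ ∞ (fun x : (Fin n → ℂ) × ((ℂ × ℝ) × A) => |x.2.1.2|) {x | x.2.1.2 ≠ 0} := by
    intro x hx
    have h0 : ContDiffAt ℝ ∞ (abs : ℝ → ℝ) x.2.1.2 := contDiffAt_abs hx
    have h1 : ContDiffAt ℝ ∞ (fun y : (Fin n → ℂ) × ((ℂ × ℝ) × A) => y.2.1.2) x :=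
      (contDiff_snd.comp (contDiff_fst.comp contDiff_snd)).contDiffAt
    exact (ContDiffAt.comp x h0 h1).contDiffWithinAt
  have hd : ContDiffOn ℝ ∞ (fun x : (Fin n → ℂ) × ((ℂ × ℝ) × A) => x.2.1.2 / |x.2.1.2|) {x | x.2.1.2 ≠ 0} :=
    hs.div hb (fun x hx => abs_ne_zero.mpr hx)
  refine ContDiffOn.prodMk ?_ ha
  simp only [th_zero_eq]
  exact contDiff_sn.comp_contDiffOn ((hb.smul hz).prodMk (hd.smul hu))

private theorem act'_apply {n : ℕ} {G A : Type} [Group G] [NormedAddCommGroup A] [NormedSpace ℝ A] (χ : G →* ℂ)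
    (ρ : G →* (A →L[ℝ] A)) (g : G × ℤˣ) (x : (Fin n → ℂ) × ((ℂ × ℝ) × A)) :
    act (chi' χ) (rho' χ ρ) n g x = (χ g.1 • x.1, (((((g.2 : ℤ) : ℝ) : ℂ) * χ g.1 * x.2.1.1,
      ((g.2 : ℤ) : ℝ) * x.2.1.2), ρ g.1 x.2.2)) := rfl

private theorem act_apply {n : ℕ} {G A : Type} [Group G] [NormedAddCommGroup A] [NormedSpace ℝ A] (χ : G →* ℂ)
    (ρ : G →* (A →L[ℝ] A)) (g : G) (x : (Fin n → ℂ) × A) : act χ ρ n g x = (χ g • x.1, ρ g x.2) := rfl

/-- the linear algebra of the immersion. -/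
private theorem imm_alg {n : ℕ} (z w : Fin n → ℂ) (s r : ℝ) (hz : nz z = 1) (hs : s ≠ 0)
    (h1 : ∑ i, ((z i).re * (w i).re + (z i).im * (w i).im) = 0) (h2 : ∀ i, r • z i + s • w i = 0) :
    r = 0 ∧ w = 0 := by
  have h3 : r * nz z + s * ∑ i, ((z i).re * (w i).re + (z i).im * (w i).im) = 0 := by
    unfold nz
    rw [Finset.mul_sum, Finset.mul_sum, ← Finset.sum_add_distrib]
    refine Finset.sum_eq_zero fun i _ => ?_
    have h4 := congrArg Complex.re (h2 i)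
    have h5 := congrArg Complex.im (h2 i)
    simp only [Complex.add_re, Complex.add_im, Complex.real_smul, Complex.mul_re, Complex.mul_im,
      Complex.ofReal_re, Complex.ofReal_im, zero_mul, sub_zero, add_zero, Complex.zero_re, Complex.zero_im] at h4 h5
    rw [Complex.normSq_apply]
    linear_combination (z i).re * h4 + (z i).im * h5
  rw [hz, h1, mul_zero, mul_one, add_zero] at h3
  refine ⟨h3, ?_⟩
  funext i
  have h4 := h2 i
  rw [h3, zero_smul, zero_add] at h4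
  exact (smul_eq_zero.1 h4).resolve_left hs

/-- the derivative of `(z, u, s, a) ↦ (th 0 z u s, a)` is injective on the tangent vectors of the sphere. -/
private theorem imm_th {n : ℕ} {A : Type} [NormedAddCommGroup A] [NormedSpace ℝ A]
    (x v : (Fin n → ℂ) × ((ℂ × ℝ) × A)) (hs : x.2.1.2 ≠ 0) (hz : nz x.1 = 1)
    (h1 : ∑ i, ((x.1 i).re * (v.1 i).re + (x.1 i).im * (v.1 i).im) = 0)
    (h0 : fderiv ℝ (fun x : (Fin n → ℂ) × ((ℂ × ℝ) × A) => (th 0 x.1 x.2.1.1 x.2.1.2, x.2.2)) x v = 0) : v = 0 := by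
  have ho : IsOpen {x : (Fin n → ℂ) × ((ℂ × ℝ) × A) | x.2.1.2 ≠ 0} := isOpen_ne_fun (by fun_prop) continuous_const
  have hd : DifferentiableAt ℝ (fun x : (Fin n → ℂ) × ((ℂ × ℝ) × A) => (th 0 x.1 x.2.1.1 x.2.1.2, x.2.2)) x :=
    (contDiffOn_th0.contDiffAt (ho.mem_nhds hs)).differentiableAt (by simp)
  have hl : HasDerivAt (fun t : ℝ => (th 0 (x + t • v).1 (x + t • v).2.1.1 (x + t • v).2.1.2, (x + t • v).2.2))
      ((0 : Fin (n + 1) → ℂ), (0 : A)) 0 := by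
    have h2 := hd.hasFDerivAt.hasLineDerivAt v
    rw [h0] at h2
    exact h2
  have hl1 : HasDerivAt (fun t : ℝ => th 0 (x + t • v).1 (x + t • v).2.1.1 (x + t • v).2.1.2)
      (0 : Fin (n + 1) → ℂ) 0 := hl.fst
  have hl2 : HasDerivAt (fun t : ℝ => (x + t • v).2.2) (0 : A) 0 := hl.snd
  obtain ⟨z, ⟨u, s⟩, a⟩ := x
  obtain ⟨vz, ⟨vu, vs⟩, va⟩ := v
  simp only [Prod.smul_mk, Prod.mk_add_mk] at hs hz h1 hl1 hl2
  have hva : va = 0 := by
    have h2 : HasDerivAt (fun t : ℝ => a + t • va) va 0 := by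
      simpa using ((hasDerivAt_id (0 : ℝ)).smul_const va).const_add a
    exact h2.unique hl2
  -- the sign near `s`
  have hev : ∀ᶠ t in nhds (0 : ℝ), s + t * vs ≠ 0 ∧ (s + t * vs) / |s + t * vs| = s / |s| := by
    have hc : Continuous (fun t : ℝ => s + t * vs) := by fun_prop
    rcases lt_or_gt_of_ne hs with h | h
    · have h2 : ∀ᶠ t in nhds (0 : ℝ), s + t * vs < 0 :=
        hc.continuousAt.eventually_lt continuousAt_const (by simpa using h)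
      filter_upwards [h2] with t ht
      refine ⟨ht.ne, ?_⟩
      rw [abs_of_neg ht, abs_of_neg h, div_neg, div_neg, div_self ht.ne, div_self h.ne]
    · have h2 : ∀ᶠ t in nhds (0 : ℝ), 0 < s + t * vs :=
        continuousAt_const.eventually_lt hc.continuousAt (by simpa using h)
      filter_upwards [h2] with t ht
      refine ⟨ht.ne', ?_⟩
      rw [abs_of_pos ht, abs_of_pos h, div_self ht.ne', div_self h.ne']
  set σ : ℝ := s / |s| with hσ
  have hσ0 : σ ≠ 0 := div_ne_zero hs (abs_ne_zero.2 hs)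
  have hσ2 : σ * σ = 1 := by
    rw [hσ, div_mul_div_comm, ← abs_mul, abs_mul_self, div_self (mul_ne_zero hs hs)]
  have habs : ∀ r : ℝ, r ≠ 0 → r / |r| = σ → |r| = σ * r := by
    intro r hr h2
    rw [← h2, div_mul_eq_mul_div, ← abs_mul_self r, abs_mul, mul_div_assoc, div_self (abs_ne_zero.2 hr), mul_one]
  have hcomp : ∀ i : Fin (n + 1), HasDerivAt (fun t : ℝ => th 0 (z + t • vz) (u + t • vu) (s + t • vs) i) 0 0 :=
    fun i => (hasDerivAt_pi.1 hl1) i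
  have hz' : ∀ i : Fin n, vs • z i + s • vz i = 0 := by
    intro i
    have h2 := hcomp (Fin.castSucc i)
    have h3 : (fun t : ℝ => th 0 (z + t • vz) (u + t • vu) (s + t • vs) (Fin.castSucc i)) =ᶠ[nhds 0]
        fun t : ℝ => (σ * (s + t * vs)) • (z i + t • vz i) := by
      filter_upwards [hev] with t ht
      have h4 := habs _ ht.1 ht.2
      rw [th_zero_eq]
      simp only [sn, Fin.snoc_castSucc, Pi.smul_apply, Pi.add_apply, smul_eq_mul]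
      rw [h4]
    have h4 : HasDerivAt (fun t : ℝ => (σ * (s + t * vs)) • (z i + t • vz i))
        ((σ * (s + 0 * vs)) • vz i + (σ * vs) • (z i + (0 : ℝ) • vz i)) 0 := by
      refine HasDerivAt.fun_smul (c := fun t : ℝ => σ * (s + t * vs)) (f := fun t : ℝ => z i + t • vz i) ?_ ?_
      · simpa using (((hasDerivAt_id (0 : ℝ)).mul_const vs).const_add s).const_mul σ
      · simpa using ((hasDerivAt_id (0 : ℝ)).smul_const (vz i)).const_add (z i)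
    have h5 := (h2.congr_of_eventuallyEq h3.symm).unique h4
    rw [zero_mul, add_zero, zero_smul, add_zero, mul_smul, mul_smul, ← smul_add] at h5
    have h6 := (smul_eq_zero.1 h5.symm).resolve_left hσ0
    rw [add_comm]
    exact h6
  have hu' : vu = 0 := by
    have h2 := hcomp (Fin.last n)
    have h3 : (fun t : ℝ => th 0 (z + t • vz) (u + t • vu) (s + t • vs) (Fin.last n)) =ᶠ[nhds 0]
        fun t : ℝ => σ • (u + t • vu) := by
      filter_upwards [hev] with t ht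
      rw [th_zero_eq]
      simp only [sn, Fin.snoc_last, smul_eq_mul]
      rw [ht.2]
    have h4 : HasDerivAt (fun t : ℝ => σ • (u + t • vu)) (σ • vu) 0 := by
      have h5 : HasDerivAt (fun t : ℝ => u + t • vu) vu 0 := by
        simpa using ((hasDerivAt_id (0 : ℝ)).smul_const vu).const_add u
      exact h5.fun_const_smul σ
    have h5 := (h2.congr_of_eventuallyEq h3.symm).unique h4
    exact (smul_eq_zero.1 h5.symm).resolve_left hσ0
  obtain ⟨h6, h7⟩ := imm_alg z vz s vs hz hs h1 hz'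
  rw [h6, h7, hu', hva]
  rfl

/-- separation. -/
private theorem sep_th {n : ℕ} (c : ℂ) (hc : Complex.normSq c = 1) (z z₂ : Fin n → ℂ) (u u₂ : ℂ) (s s₂ : ℝ)
    (hz : nz z = 1) (hz₂ : nz z₂ = 1) (hs : s ≠ 0) (hs₂ : s₂ ≠ 0) (h : c • th 0 z u s = th 0 z₂ u₂ s₂) :
    ∃ e : ℤˣ, z₂ = c • z ∧ u₂ = (((e : ℤ) : ℝ) : ℂ) * c * u ∧ s₂ = ((e : ℤ) : ℝ) * s := by
  rw [th_zero_eq, th_zero_eq, sn_smulC] at h
  obtain ⟨h1, h2⟩ := sn_inj h
  have h3 : s ^ 2 = s₂ ^ 2 := by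
    have h4 := congrArg nz h1
    rw [nz_smulC, nz_smul, nz_smul, hc, hz, hz₂, sq_abs, sq_abs] at h4
    linarith
  have h4 : |s| = |s₂| := (sq_eq_sq_iff_abs_eq_abs s s₂).1 h3
  have h5 : z₂ = c • z := by
    rw [smul_comm, ← h4] at h1
    exact (smul_right_injective (Fin n → ℂ) (abs_ne_zero.2 hs) h1).symm
  have h6 : c * u = (s₂ / s) • u₂ := by
    have h7 : (s / |s|) • (c * u) = (s₂ / |s|) • u₂ := by
      rw [h4] at h2 ⊢
      rw [← h2, mul_smul_comm]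
    have h8 : (s / |s|) • (c * u) = (s / |s|) • ((s₂ / s) • u₂) := by
      rw [h7, smul_smul]
      congr 1
      have h9 : |s| ≠ 0 := abs_ne_zero.2 hs
      field_simp
    exact smul_right_injective ℂ (div_ne_zero hs (abs_ne_zero.2 hs)) h8
  rcases abs_eq_abs.1 h4 with h7 | h7
  · refine ⟨1, h5, ?_, ?_⟩
    · rw [h7, div_self hs₂, one_smul] at h6
      simp [h6]
    · simp [h7]
  · refine ⟨-1, h5, ?_, ?_⟩
    · rw [h7, div_neg, div_self hs₂, neg_smul, one_smul] at h6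
      simp [h6]
    · simp [h7]

private theorem bfun_parts {n p : ℕ} (C : ℕ → ℂ →L[ℝ] (Fin p → ℝ)) (z : Fin n → ℂ) (u : ℂ) (s : ℝ)
    (h : bfun C n 0 z u s = 0) : nz z = 1 :=
  sub_eq_zero.1 (congrArg Prod.fst h)

variable {n p : ℕ} {A B : Type} [NormedAddCommGroup A] [NormedSpace ℝ A] [FiniteDimensional ℝ A]
  [NormedAddCommGroup B] [NormedSpace ℝ B] [FiniteDimensional ℝ B] (C : ℕ → ℂ →L[ℝ] (Fin p → ℝ)) (hC : GoodC C)
  {G : Type} [Group G] [Fintype G] {ι : Type} {V : Set (ι → ℝ)} {χ : G →* ℂ} {ρ : G →* (A →L[ℝ] A)}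
  {O : Set ((Fin (n + 1) → ℂ) × A)} {E : (Fin (n + 1) → ℂ) × A → B} {F : (Fin (n + 1) → ℂ) × A → (ι → ℝ)}

include hC

theorem step1 (h : IsCtx V χ ρ O E F) (m : ℕ) (hX : UpData (act χ ρ (n + 1)) V m (Xset C O E) F)
    (hX1 : UpData (act (chi' χ) (rho' χ ρ) n) V m (X1 C O E) (F1 F)) : Bord (Q hX1) (Q hX) := by
  have hTh : ∀ x ∈ X1 (n := n) C O E, Th 0 x.1 x.2.1.1 x.2.1.2 = th 0 x.1 x.2.1.1 x.2.1.2 :=
    fun x hx => (Th_zero C hC _ _ _ hx.1).1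
  refine descentQ hX1 hX (fun x => (th 0 x.1 x.2.1.1 x.2.1.2, x.2.2)) {x | x.2.1.2 ≠ 0}
    (isOpen_ne_fun (by fun_prop) continuous_const) (fun x hx => s_ne C hC _ _ _ hx.1) contDiffOn_th0
    ?_ ?_ ?_ ?_ ?_ ?_
  · intro x hx
    have h1 : (Th 0 x.1 x.2.1.1 x.2.1.2, x.2.2) ∈ Kset O E := hx.2
    rw [hTh x hx] at h1
    exact ⟨h1, (Th_zero C hC _ _ _ hx.1).2.2⟩
  · rintro ⟨v, a⟩ ⟨hv, hf⟩
    obtain ⟨z, u, s, h1, h2⟩ := th_zero_surj C hC v hv.1 hf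
    have h3 := (Th_zero C hC _ _ _ h1).1
    refine ⟨(z, ((u, s), a)), ⟨h1, ?_⟩, 1, ?_⟩
    · show (Th 0 z u s, a) ∈ Kset O E
      rw [h3, h2]
      exact hv
    · show act χ ρ (n + 1) 1 (th 0 z u s, a) = (v, a)
      rw [map_one, h2]
      rfl
  · rintro ⟨g, e⟩ x hx
    refine ⟨g, ?_⟩
    have he : (((e : ℤ) : ℝ)) ^ 2 = 1 := by
      rcases Int.units_eq_one_or e with h1 | h1 <;> simp [h1]
    rw [act'_apply, act_apply]
    exact Prod.ext (th_eqv (χ g) _ he 0 _ _ _) rfl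
  · rintro ⟨z, ⟨u, s⟩, a⟩ hx ⟨z₂, ⟨u₂, s₂⟩, a₂⟩ hy ⟨g, hg⟩
    have h1 : χ g • th 0 z u s = th 0 z₂ u₂ s₂ := congrArg Prod.fst hg
    have h2 : ρ g a = a₂ := congrArg Prod.snd hg
    obtain ⟨e, h3, h4, h5⟩ := sep_th (χ g) (normSq_of_pow_four _ (h.chi g)) z z₂ u u₂ s s₂
      (bfun_parts C _ _ _ hx.1) (bfun_parts C _ _ _ hy.1) (s_ne C hC _ _ _ hx.1) (s_ne C hC _ _ _ hy.1) h1
    refine ⟨(g, e), ?_⟩
    rw [act'_apply]
    show (z₂, ((u₂, s₂), a₂)) = _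
    rw [h3, h4, h5, h2]
  · intro x hx v hv h0
    have h1 : fderiv ℝ (fun x : (Fin n → ℂ) × ((ℂ × ℝ) × A) => bfun C n 0 x.1 x.2.1.1 x.2.1.2) x v = 0 := by
      refine pb_ker (pull_X1 C hC O E h.isOpen h.smooth h.vert) (X1 C O E) ?_ x hx v hv
      intro y
      constructor
      · intro hy
        refine ⟨⟨s_ne C hC _ _ _ hy.1, ?_⟩, hy.1, hy.2⟩
        rw [(Th_zero C hC _ _ _ hy.1).2.1]
        exact one_ne_zero
      · rintro ⟨-, h2, h3⟩
        exact ⟨h2, h3⟩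
    have h2 : fderiv ℝ (nz : (Fin n → ℂ) → ℝ) x.1 v.1 = 0 := by
      have hd : DifferentiableAt ℝ (fun x : (Fin n → ℂ) × ((ℂ × ℝ) × A) => bfun C n 0 x.1 x.2.1.1 x.2.1.2) x := by
        have h3 : ContDiff ℝ ∞ (fun x : (Fin n → ℂ) × ((ℂ × ℝ) × A) => bfun C n 0 x.1 x.2.1.1 x.2.1.2) := by
          refine (contDiff_bfun C (n := n)).comp (g := fun x => bfun C n x.2 x.1.1 x.1.2.1 x.1.2.2)
            (f := fun x : (Fin n → ℂ) × ((ℂ × ℝ) × A) => ((x.1, (x.2.1.1, x.2.1.2)), (0 : ℝ))) ?_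
          fun_prop
        exact h3.differentiable (by simp) x
      have h3 : HasFDerivAt (fun x : (Fin n → ℂ) × ((ℂ × ℝ) × A) => nz x.1 - 1)
          ((ContinuousLinearMap.fst ℝ ℝ (ℝ × (Fin p → ℝ))).comp (fderiv ℝ
            (fun x : (Fin n → ℂ) × ((ℂ × ℝ) × A) => bfun C n 0 x.1 x.2.1.1 x.2.1.2) x)) x :=
        hd.hasFDerivAt.fst
      have h4 : HasFDerivAt (fun x : (Fin n → ℂ) × ((ℂ × ℝ) × A) => nz x.1 - 1)
          ((fderiv ℝ (nz : (Fin n → ℂ) → ℝ) x.1).comp (ContinuousLinearMap.fst ℝ (Fin n → ℂ) ((ℂ × ℝ) × A))) x := by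
        have h5 : HasFDerivAt (nz : (Fin n → ℂ) → ℝ) (fderiv ℝ nz x.1) x.1 :=
          (contDiff_nz.differentiable (by simp) x.1).hasFDerivAt
        have h6 : HasFDerivAt (fun x : (Fin n → ℂ) × ((ℂ × ℝ) × A) => nz x.1)
            ((fderiv ℝ (nz : (Fin n → ℂ) → ℝ) x.1).comp (ContinuousLinearMap.fst ℝ (Fin n → ℂ) ((ℂ × ℝ) × A))) x :=
          h5.comp x hasFDerivAt_fst
        exact h6.sub_const 1
      have h5 := congrArg (fun L => L v) (h3.unique h4)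
      have h6 : (fderiv ℝ (nz : (Fin n → ℂ) → ℝ) x.1) v.1 = (fderiv ℝ
            (fun x : (Fin n → ℂ) × ((ℂ × ℝ) × A) => bfun C n 0 x.1 x.2.1.1 x.2.1.2) x v).1 := h5.symm
      rw [h6, h1]
      rfl
    rw [hasFDerivAt_nz] at h2
    exact imm_th x v (s_ne C hC _ _ _ hx.1) (bfun_parts C _ _ _ hx.1) (by linarith) h0
  · intro x hx
    show F (th 0 x.1 x.2.1.1 x.2.1.2, x.2.2) = F (Th 0 x.1 x.2.1.1 x.2.1.2, x.2.2)
    rw [hTh x hx]

end Pool.Agent.Helper48.BPF
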