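import Pool.Agent.Helper48.BPF.Inst

/-!
PROJECT BP, block F, module BP-F10: homotopy of the maps from `Θ_0` to `Θ_1 = Φ`.

`bordUp` with `W = {(x, k) | bfun C n 0 x = 0, s ≠ 0, nz (th k ..) ≠ 0, (Th k x, a) ∈ Kset O E}`, `F (x, k) = F (Th k x, a)`. `hW`: `pb_subE` with `pull_W2` (finrank of `H × ℝ` is `2n + 3 + finrank A + 1`).
`hst`, `hfr`: `bfun_eqv`, `th_eqv`, `Th_eqv`, `h.stab`, `h.free` as in Data.lean (free: `c • Th = Th` and `ρ g.1 a = a` give `g.1 = 1`, then `(e u, e s) = (u, s) ≠ 0`). `hreg`: the vector `(0, 1)` is killed by the derivative of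
`(x, k) ↦ bfun C n 0 x` (which does not depend on `k`), `pb_tan` gives `b` with `(0, 1) + j b` tangent, its last component is `1`.
`hc`: on `0 ≤ k ≤ 1` the conditions `s ≠ 0`, `nz (th k) ≠ 0` are automatic (`s_ne`, `th_ne`), so the set is the pull back of `Kset O E` over the compact set `{bfun C n 0 = 0} × [0,1]` by a continuous map: `pb_compact` and a
homeomorphism (`(base × ℝ) × A ≃ₜ total × ℝ`). `hF`: `h.cont` composed with a continuous map. `hX₀`: `k = 0` is `X1`, `hX₁`: `k = 1` is `X2` (`Th_one`).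
-/

set_option autoImplicit false

namespace Pool.Agent.Helper48.BPF

open Pool.Agent.Helper79.BP Pool.Agent.Helper93.BPF
open scoped ContDiff Topology

variable {n p : ℕ} {A B : Type} [NormedAddCommGroup A] [NormedSpace ℝ A] [FiniteDimensional ℝ A]
  [NormedAddCommGroup B] [NormedSpace ℝ B] [FiniteDimensional ℝ B] (C : ℕ → ℂ →L[ℝ] (Fin p → ℝ)) (hC : GoodC C)
  {G : Type} [Group G] [Fintype G] {ι : Type} {V : Set (ι → ℝ)} {χ : G →* ℂ} {ρ : G →* (A →L[ℝ] A)}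
  {O : Set ((Fin (n + 1) → ℂ) × A)} {E : (Fin (n + 1) → ℂ) × A → B} {F : (Fin (n + 1) → ℂ) × A → (ι → ℝ)}

/-- The open set of the parameters of the homotopy. -/
private def Ow (n : ℕ) (A : Type) [NormedAddCommGroup A] [NormedSpace ℝ A] :
    Set (((Fin n → ℂ) × ((ℂ × ℝ) × A)) × ℝ) :=
  {x | x.1.2.1.2 ≠ 0 ∧ nz (th x.2 x.1.1 x.1.2.1.1 x.1.2.1.2) ≠ 0}

/-- The total space of the homotopy. -/
private def Ww (O : Set ((Fin (n + 1) → ℂ) × A)) (E : (Fin (n + 1) → ℂ) × A → B) :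
    Set (((Fin n → ℂ) × ((ℂ × ℝ) × A)) × ℝ) :=
  {x | x ∈ Ow n A ∧ bfun C n 0 x.1.1 x.1.2.1.1 x.1.2.1.2 = 0 ∧
    (Th x.2 x.1.1 x.1.2.1.1 x.1.2.1.2, x.1.2.2) ∈ Kset O E}

omit [FiniteDimensional ℝ A] in
private theorem act_apply' {G : Type} [Group G] (χ : G →* ℂ) (ρ : G →* (A →L[ℝ] A)) (g : G × ℤˣ)
    (z : Fin n → ℂ) (u : ℂ) (s : ℝ) (a : A) :
    act (chi' χ) (rho' χ ρ) n g (z, ((u, s), a)) =
      (χ g.1 • z, (((((g.2 : ℤ) : ℝ) : ℂ) * χ g.1 * u, ((g.2 : ℤ) : ℝ) * s), ρ g.1 a)) := rfl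

private theorem unit_sq (e : ℤˣ) : (((e : ℤ) : ℝ)) ^ 2 = 1 := by
  rcases Int.units_eq_one_or e with h | h <;> simp [h]

private theorem nz_one {τ : ℝ} {z : Fin n → ℂ} {u : ℂ} {s : ℝ} (hb : bfun C n τ z u s = 0) : nz z = 1 := by
  have := congrArg Prod.fst hb
  simp only [bfun, Prod.fst_zero] at this
  linarith

private theorem fderiv_dir' {X Y : Type} [NormedAddCommGroup X] [NormedSpace ℝ X] [NormedAddCommGroup Y]
    [NormedSpace ℝ Y] {f : X → Y} {x w : X} (hf : DifferentiableAt ℝ f x)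
    (hc : ∀ t : ℝ, f (x + t • w) = f x) : fderiv ℝ f x w = 0 := by
  have h1 : HasDerivAt (fun t : ℝ => f (x + t • w)) (fderiv ℝ f x w) 0 :=
    hf.hasFDerivAt.hasLineDerivAt w
  have h2 : HasDerivAt (fun t : ℝ => f (x + t • w)) 0 0 := by
    simp_rw [hc]
    exact hasDerivAt_const _ _
  exact h1.unique h2

include hC

theorem step2 (h : IsCtx V χ ρ O E F) (m : ℕ)
    (hdim : 2 * (n + 1) + Module.finrank ℝ A = m + 1 + p + Module.finrank ℝ B)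
    (hX1 : UpData (act (chi' χ) (rho' χ ρ) n) V m (X1 C O E) (F1 F))
    (hX2 : UpData (act (chi' χ) (rho' χ ρ) n) V m (X2 C O E) (F' F)) : Bord (Q hX1) (Q hX2) := by
  have hP := pull_W2 (n := n) C hC O E h.isOpen h.smooth h.vert
  have hM : ∀ x, x ∈ Ww C O E ↔ x ∈ {x : ((Fin n → ℂ) × ((ℂ × ℝ) × A)) × ℝ | x.1.2.1.2 ≠ 0 ∧
      nz (th x.2 x.1.1 x.1.2.1.1 x.1.2.1.2) ≠ 0} ∧ bfun C n 0 x.1.1 x.1.2.1.1 x.1.2.1.2 = 0 ∧
      (Th x.2 x.1.1 x.1.2.1.1 x.1.2.1.2,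
        ((alp n A).comp (ContinuousLinearMap.fst ℝ ((Fin n → ℂ) × ((ℂ × ℝ) × A)) ℝ)) x) ∈ Kset O E :=
    fun x => Iff.rfl
  -- the equivariance
  have heq : ∀ (g : G × ℤˣ) (z : Fin n → ℂ) (u : ℂ) (s : ℝ) (a : A) (t : ℝ),
      (Th t (χ g.1 • z) ((((g.2 : ℤ) : ℝ) : ℂ) * χ g.1 * u) (((g.2 : ℤ) : ℝ) * s), ρ g.1 a) =
        act χ ρ (n + 1) g.1 (Th t z u s, a) := by
    intro g z u s a t
    rw [Th_eqv (χ g.1) (h.chi g.1) _ (unit_sq g.2)]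
    rfl
  have hauto : ∀ (z : Fin n → ℂ) (u : ℂ) (s : ℝ) (t : ℝ), 0 ≤ t → t ≤ 1 → bfun C n 0 z u s = 0 →
      s ≠ 0 ∧ nz (th t z u s) ≠ 0 := by
    intro z u s t h0 h1 hb
    have hs := s_ne C hC z u s hb
    exact ⟨hs, th_ne t h0 h1 z (nz_one C hb) u s hs⟩
  refine bordUp hX1 hX2 (Ww C O E) (fun x => F (Th x.2 x.1.1 x.1.2.1.1 x.1.2.1.2, x.1.2.2))
    ?_ ?_ ?_ ?_ ?_ ?_ ?_ ?_ ?_ ?_ ?_ ?_
  · -- submanifold
    refine pb_subE hP (m + 1) ?_ _ hM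
    simp only [Module.finrank_prod, Complex.finrank_real_complex, Module.finrank_self,
      Module.finrank_pi_fintype, Finset.sum_const, Finset.card_univ, Fintype.card_fin, smul_eq_mul,
      Module.finrank_fin_fun]
    omega
  · -- stable
    rintro g ⟨z, ⟨u, s⟩, a⟩ t ⟨⟨h1, h2⟩, h3, h4⟩
    rw [act_apply']
    refine ⟨⟨?_, ?_⟩, ?_, ?_⟩
    · refine mul_ne_zero ?_ h1
      intro h0
      have := unit_sq g.2
      rw [h0] at this
      norm_num at this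
    · show nz (th t (χ g.1 • z) ((((g.2 : ℤ) : ℝ) : ℂ) * χ g.1 * u) (((g.2 : ℤ) : ℝ) * s)) ≠ 0
      rw [th_eqv (χ g.1) _ (unit_sq g.2), nz_smulC, normSq_of_pow_four _ (h.chi g.1), one_mul]
      exact h2
    · exact (bfun_eqv C (χ g.1) (h.chi g.1) _ (unit_sq g.2) 0 z u s).2 h3
    · show (Th t (χ g.1 • z) ((((g.2 : ℤ) : ℝ) : ℂ) * χ g.1 * u) (((g.2 : ℤ) : ℝ) * s), ρ g.1 a) ∈ Kset O E
      rw [heq g z u s a t]
      exact h.stab g.1 _ h4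
  · -- free
    rintro g ⟨z, ⟨u, s⟩, a⟩ t ⟨⟨h1, h2⟩, h3, h4⟩ hg
    rw [act_apply'] at hg
    have e1 : χ g.1 • z = z := congrArg (fun x => x.1) hg
    have e2 : (((g.2 : ℤ) : ℝ) : ℂ) * χ g.1 * u = u := congrArg (fun x => x.2.1.1) hg
    have e3 : ((g.2 : ℤ) : ℝ) * s = s := congrArg (fun x => x.2.1.2) hg
    have e4 : ρ g.1 a = a := congrArg (fun x => x.2.2) hg
    have h5 := heq g z u s a t
    rw [e1, e2, e3, e4] at h5
    have h6 : g.1 = 1 := h.free g.1 _ h4 h5.symm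
    have h7 : ((g.2 : ℤ) : ℝ) = 1 := by
      have h8 : (((g.2 : ℤ) : ℝ) - 1) * s = 0 := by
        rw [sub_mul, e3, one_mul, sub_self]
      rcases mul_eq_zero.1 h8 with h9 | h9
      · linarith
      · exact absurd h9 h1
    have h8 : g.2 = 1 := by
      have h9 : (g.2 : ℤ) = 1 := by exact_mod_cast h7
      exact Units.ext h9
    exact Prod.ext h6 h8
  · -- regular levels
    rintro x t hx -
    have hd : DifferentiableAt ℝ (fun x : ((Fin n → ℂ) × ((ℂ × ℝ) × A)) × ℝ =>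
        bfun C n 0 x.1.1 x.1.2.1.1 x.1.2.1.2) (x, t) :=
      (hP.smoothΓ.contDiffAt (hP.isOpen₀.mem_nhds hx.1)).differentiableAt (by simp)
    have hv : fderiv ℝ (fun x : ((Fin n → ℂ) × ((ℂ × ℝ) × A)) × ℝ =>
        bfun C n 0 x.1.1 x.1.2.1.1 x.1.2.1.2) (x, t) (0, 1) = 0 := by
      refine fderiv_dir' hd fun r => ?_
      have hxe : ((x, t) : ((Fin n → ℂ) × ((ℂ × ℝ) × A)) × ℝ) + r • ((0, 1) :
          ((Fin n → ℂ) × ((ℂ × ℝ) × A)) × ℝ) = (x, t + r) := by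
        refine Prod.ext ?_ ?_
        · show x + r • (0 : (Fin n → ℂ) × ((ℂ × ℝ) × A)) = x
          rw [smul_zero, add_zero]
        · show t + r • (1 : ℝ) = t + r
          rw [smul_eq_mul, mul_one]
      rw [hxe]
    obtain ⟨b, hb⟩ := pb_tan hP _ hM (x, t) hx (0, 1) hv
    refine ⟨_, hb, ?_⟩
    show (1 : ℝ) + 0 ≠ 0
    norm_num
  · -- compact
    have hS : IsCompact ({x : (Fin n → ℂ) × (ℂ × ℝ) | bfun C n 0 x.1 x.2.1 x.2.2 = 0} ×ˢ Set.Icc (0 : ℝ) 1) :=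
      (isCompact_base C 0).prod isCompact_Icc
    have hφ : ContinuousOn (fun x : ((Fin n → ℂ) × (ℂ × ℝ)) × ℝ => Th x.2 x.1.1 x.1.2.1 x.1.2.2)
        ({x : (Fin n → ℂ) × (ℂ × ℝ) | bfun C n 0 x.1 x.2.1 x.2.2 = 0} ×ˢ Set.Icc (0 : ℝ) 1) := by
      refine contDiffOn_Th.continuousOn.mono ?_
      rintro ⟨⟨z, u, s⟩, t⟩ ⟨hb, ht⟩
      exact hauto z u s t ht.1 ht.2 hb
    have hc := pb_compact _ hS _ hφ (Kset O E) h.compact
    have hΨ : Continuous (fun y : (((Fin n → ℂ) × (ℂ × ℝ)) × ℝ) × A =>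
        (((y.1.1.1, (y.1.1.2, y.2)), y.1.2) : ((Fin n → ℂ) × ((ℂ × ℝ) × A)) × ℝ)) := by
      fun_prop
    convert hc.image hΨ using 1
    ext ⟨⟨z, ⟨u, s⟩, a⟩, t⟩
    constructor
    · rintro ⟨⟨h1, h2, h3⟩, h4, h5⟩
      exact ⟨(((z, (u, s)), t), a), ⟨⟨h2, h4, h5⟩, h3⟩, rfl⟩
    · rintro ⟨⟨⟨⟨z', u', s'⟩, t'⟩, a'⟩, ⟨⟨h2, h4, h5⟩, h3⟩, he⟩
      have e1 : z' = z := congrArg (fun x => x.1.1) he
      have e2 : u' = u := congrArg (fun x => x.1.2.1.1) he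
      have e3 : s' = s := congrArg (fun x => x.1.2.1.2) he
      have e4 : a' = a := congrArg (fun x => x.1.2.2) he
      have e5 : t' = t := congrArg (fun x => x.2) he
      subst e1 e2 e3 e4 e5
      exact ⟨⟨hauto z' u' s' t' h4 h5 h2, h2, h3⟩, h4, h5⟩
  · -- continuous
    have h1 : ContinuousOn (fun x : ((Fin n → ℂ) × ((ℂ × ℝ) × A)) × ℝ =>
        (Th x.2 x.1.1 x.1.2.1.1 x.1.2.1.2, x.1.2.2)) {z ∈ Ww C O E | 0 ≤ z.2 ∧ z.2 ≤ 1} := by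
      refine ContinuousOn.prodMk (hP.smoothφ.continuousOn.mono fun x hx => hx.1.1) ?_
      fun_prop
    exact h.cont.comp h1 fun x hx => hx.1.2.2
  · -- invariant
    rintro g ⟨z, ⟨u, s⟩, a⟩ t ⟨-, h3, h4⟩ - -
    rw [act_apply']
    show F (Th t (χ g.1 • z) ((((g.2 : ℤ) : ℝ) : ℂ) * χ g.1 * u) (((g.2 : ℤ) : ℝ) * s), ρ g.1 a) =
      F (Th t z u s, a)
    rw [heq g z u s a t]
    exact h.inv g.1 _ h4
  · -- values in `V`
    rintro x t ⟨-, -, h4⟩ - -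
    exact h.maps h4
  · -- `t = 0`
    rintro ⟨z, ⟨u, s⟩, a⟩
    constructor
    · rintro ⟨h1, h2⟩
      exact ⟨hauto z u s 0 le_rfl zero_le_one h1, h1, h2⟩
    · rintro ⟨-, h1, h2⟩
      exact ⟨h1, h2⟩
  · -- `t = 1`
    rintro ⟨z, ⟨u, s⟩, a⟩
    constructor
    · rintro ⟨h1, h2⟩
      refine ⟨hauto z u s 1 zero_le_one le_rfl h1, h1, ?_⟩
      show (Th 1 z u s, a) ∈ Kset O E
      rw [Th_one]
      exact h2
    · rintro ⟨-, h1, h2⟩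
      refine ⟨h1, ?_⟩
      have h3 : (Th 1 z u s, a) ∈ Kset O E := h2
      rw [Th_one] at h3
      exact h3
  · intro x _
    rfl
  · rintro ⟨z, ⟨u, s⟩, a⟩ _
    show F (Th 1 z u s, a) = F (Phi z u s, a)
    rw [Th_one]

end Pool.Agent.Helper48.BPF
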