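import Pool.Agent.Helper48.BPF.Inst

/-!
PROJECT BP, block F, module BP-F11: regular homotopy of the equations from `X₂` to `X₃ = Xset C (O' O) (E' E)`.

`bordUp` with `W = {(x, τ) | bfun C n τ x = 0, (Φ x, a) ∈ Kset O E}`, `F (x, τ) = F (Φ x, a)`. `hW`: `pb_subE` with `pull_W3` (`nz x.1 = 1 ≠ 0` on `W`). `hst`, `hfr`: `bfun_eqv`, `Phi_eqv`, `h.stab`, `h.free` (as in
Data.lean). `hreg` (`τ = 0` or `1`): let `Γ (x, τ) = bfun C n τ x`, `d = fderiv Γ (x, τ) (0, 1)`; by `reg_slice` there is `v` with `fderiv (Γ (·, τ)) x v = - d`, i.e. `fderiv Γ (x, τ) (v, 1) = 0` (`v` is lifted to the total space by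
the coordinate `a = 0`); `pb_tan` gives a tangent vector with last component `1`. `hc`: `pb_compact` over `isCompact_base'` and a homeomorphism. `hX₀`: `τ = 0` is `X2` by definition. `hX₁`: `τ = 1`: `bfun C n 1 = 0` means
`nz z = 1`, `|u|² + s² = 1`, `fn C n z = 0`; together with `(Φ, a) ∈ Kset O E` (`nz Φ = 1` automatic) this is `Xset C (O' O) (E' E)`.
-/

set_option autoImplicit false

namespace Pool.Agent.Helper48.BPF

open Pool.Agent.Helper79.BP Pool.Agent.Helper93.BPF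
open scoped ContDiff Topology

/-! Auxiliary lemmas. -/

private theorem s3_e2 (e : ℤˣ) : (((e : ℤ) : ℝ)) ^ 2 = 1 := by
  rcases Int.units_eq_one_or e with h | h <;> simp [h]

private theorem s3_act {n : ℕ} {A : Type} [NormedAddCommGroup A] [NormedSpace ℝ A] {G : Type} [Group G]
    (χ : G →* ℂ) (ρ : G →* (A →L[ℝ] A)) (g : G × ℤˣ) (x : (Fin n → ℂ) × ((ℂ × ℝ) × A)) :
    act (chi' χ) (rho' χ ρ) n g x =
      (χ g.1 • x.1, (((((g.2 : ℤ) : ℝ) : ℂ) * χ g.1 * x.2.1.1, ((g.2 : ℤ) : ℝ) * x.2.1.2), ρ g.1 x.2.2)) := rfl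

private theorem s3_act1 {n : ℕ} {A : Type} [NormedAddCommGroup A] [NormedSpace ℝ A] {G : Type} [Group G]
    (χ : G →* ℂ) (ρ : G →* (A →L[ℝ] A)) (g : G) (x : (Fin n → ℂ) × A) :
    act χ ρ n g x = (χ g • x.1, ρ g x.2) := rfl

private theorem s3_nz {n p : ℕ} {C : ℕ → ℂ →L[ℝ] (Fin p → ℝ)} {τ : ℝ} {z : Fin n → ℂ} {u : ℂ} {s : ℝ}
    (h : bfun C n τ z u s = 0) : nz z = 1 ∧ Complex.normSq u + s ^ 2 = 1 := by
  have h1 : nz z - 1 = 0 := congrArg Prod.fst h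
  have h2 : Complex.normSq u + s ^ 2 - 1 = 0 := congrArg (fun q => q.2.1) h
  exact ⟨by linarith, by linarith⟩

/-- The total space of the bordism. -/
private def s3W {n p : ℕ} {A B : Type} [NormedAddCommGroup A] [NormedSpace ℝ A]
    [NormedAddCommGroup B] [NormedSpace ℝ B] (C : ℕ → ℂ →L[ℝ] (Fin p → ℝ))
    (O : Set ((Fin (n + 1) → ℂ) × A)) (E : (Fin (n + 1) → ℂ) × A → B) :
    Set (((Fin n → ℂ) × ((ℂ × ℝ) × A)) × ℝ) :=
  {x | bfun C n x.2 x.1.1 x.1.2.1.1 x.1.2.1.2 = 0 ∧ (Phi x.1.1 x.1.2.1.1 x.1.2.1.2, x.1.2.2) ∈ Kset O E}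

variable {n p : ℕ} {A B : Type} [NormedAddCommGroup A] [NormedSpace ℝ A] [FiniteDimensional ℝ A]
  [NormedAddCommGroup B] [NormedSpace ℝ B] [FiniteDimensional ℝ B] (C : ℕ → ℂ →L[ℝ] (Fin p → ℝ)) (hC : GoodC C)
  {G : Type} [Group G] [Fintype G] {ι : Type} {V : Set (ι → ℝ)} {χ : G →* ℂ} {ρ : G →* (A →L[ℝ] A)}
  {O : Set ((Fin (n + 1) → ℂ) × A)} {E : (Fin (n + 1) → ℂ) × A → B} {F : (Fin (n + 1) → ℂ) × A → (ι → ℝ)}

include hC

theorem step3 (h : IsCtx V χ ρ O E F) (m : ℕ)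
    (hdim : 2 * (n + 1) + Module.finrank ℝ A = m + 1 + p + Module.finrank ℝ B)
    (hX2 : UpData (act (chi' χ) (rho' χ ρ) n) V m (X2 C O E) (F' F))
    (hX3 : UpData (act (chi' χ) (rho' χ ρ) n) V m (Xset C (O' O) (E' E)) (F' F)) : Bord (Q hX2) (Q hX3) := by
  have hpull := pull_W3 C hC O E h.isOpen h.smooth h.vert
  have hM : ∀ x : ((Fin n → ℂ) × ((ℂ × ℝ) × A)) × ℝ, x ∈ s3W C O E ↔ x ∈ {x : ((Fin n → ℂ) × ((ℂ × ℝ) × A)) × ℝ | nz x.1.1 ≠ 0} ∧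
      bfun C n x.2 x.1.1 x.1.2.1.1 x.1.2.1.2 = 0 ∧ (Phi x.1.1 x.1.2.1.1 x.1.2.1.2,
        ((alp n A).comp (ContinuousLinearMap.fst ℝ ((Fin n → ℂ) × ((ℂ × ℝ) × A)) ℝ)) x) ∈ Kset O E := by
    intro x
    constructor
    · rintro ⟨h1, h2⟩
      refine ⟨?_, h1, h2⟩
      show nz x.1.1 ≠ 0
      rw [(s3_nz h1).1]
      exact one_ne_zero
    · rintro ⟨-, h1, h2⟩
      exact ⟨h1, h2⟩
  -- equivariance of the second condition
  have hphi : ∀ (g : G × ℤˣ) (x : (Fin n → ℂ) × ((ℂ × ℝ) × A)),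
      ((Phi (act (chi' χ) (rho' χ ρ) n g x).1 (act (chi' χ) (rho' χ ρ) n g x).2.1.1
        (act (chi' χ) (rho' χ ρ) n g x).2.1.2, (act (chi' χ) (rho' χ ρ) n g x).2.2) :
          (Fin (n + 1) → ℂ) × A) =
        act χ ρ (n + 1) g.1 (Phi x.1 x.2.1.1 x.2.1.2, x.2.2) := by
    intro g x
    rw [s3_act, s3_act1]
    exact Prod.ext (Phi_eqv (χ g.1) (h.chi g.1) _ (s3_e2 g.2) x.1 x.2.1.1 x.2.1.2) rfl
  refine bordUp hX2 hX3 (s3W C O E) (fun x => F' F x.1) ?_ ?_ ?_ ?_ ?_ ?_ ?_ ?_ ?_ ?_ ?_ ?_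
  · -- submanifold
    refine pb_subE hpull (m + 1) ?_ (s3W C O E) hM
    simp only [Module.finrank_prod, Module.finrank_pi, Module.finrank_self, Complex.finrank_real_complex,
      Module.finrank_pi_fintype, Fintype.card_fin, Finset.sum_const, Finset.card_univ, smul_eq_mul]
    omega
  · -- stability
    rintro g x t ⟨h1, h2⟩
    refine ⟨?_, ?_⟩
    · exact (bfun_eqv C (χ g.1) (h.chi g.1) _ (s3_e2 g.2) t x.1 x.2.1.1 x.2.1.2).2 h1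
    · show ((Phi (act (chi' χ) (rho' χ ρ) n g x).1 (act (chi' χ) (rho' χ ρ) n g x).2.1.1
        (act (chi' χ) (rho' χ ρ) n g x).2.1.2, (act (chi' χ) (rho' χ ρ) n g x).2.2) :
          (Fin (n + 1) → ℂ) × A) ∈ Kset O E
      rw [hphi g x]
      exact h.stab g.1 _ h2
  · -- freeness
    rintro g x t ⟨h1, h2⟩ hgx
    have h3 := hphi g x
    rw [hgx] at h3
    have hg1 : g.1 = 1 := h.free g.1 _ h2 h3.symm
    have h4 := hgx
    rw [s3_act, hg1, map_one] at h4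
    have hu : ((((g.2 : ℤ) : ℝ) : ℂ) * 1) * x.2.1.1 = x.2.1.1 := congrArg (fun q => q.2.1.1) h4
    have hs : ((g.2 : ℤ) : ℝ) * x.2.1.2 = x.2.1.2 := congrArg (fun q => q.2.1.2) h4
    have hg2 : g.2 = 1 := by
      rcases Int.units_eq_one_or g.2 with he | he
      · exact he
      · exfalso
        rw [he] at hu hs
        have hs0 : x.2.1.2 = 0 := by
          have : -x.2.1.2 = x.2.1.2 := by simpa using hs
          linarith
        have hu0 : x.2.1.1 = 0 := by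
          have h5 : -x.2.1.1 = x.2.1.1 := by simpa using hu
          have h6 : (2 : ℂ) * x.2.1.1 = 0 := by
            linear_combination -h5
          simpa using h6
        have h7 := (s3_nz h1).2
        rw [hs0, hu0] at h7
        simp at h7
    exact Prod.ext hg1 hg2
  · -- regularity of the boundary
    rintro x t hx ht
    obtain ⟨h1, h2⟩ := hx
    let Pl : (((Fin n → ℂ) × ((ℂ × ℝ) × A)) × ℝ) →L[ℝ] (((Fin n → ℂ) × (ℂ × ℝ)) × ℝ) :=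
      (((ContinuousLinearMap.fst ℝ _ _).comp (ContinuousLinearMap.fst ℝ _ _)).prod
        ((ContinuousLinearMap.fst ℝ _ _).comp
          ((ContinuousLinearMap.snd ℝ _ _).comp (ContinuousLinearMap.fst ℝ _ _)))).prod
        (ContinuousLinearMap.snd ℝ _ _)
    let Il : ((Fin n → ℂ) × (ℂ × ℝ)) →L[ℝ] (((Fin n → ℂ) × (ℂ × ℝ)) × ℝ) :=
      ContinuousLinearMap.inl ℝ _ _
    let y : ((Fin n → ℂ) × (ℂ × ℝ)) := (x.1, x.2.1)
    have hd : ∀ q : ((Fin n → ℂ) × (ℂ × ℝ)) × ℝ, DifferentiableAt ℝ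
        (fun x : ((Fin n → ℂ) × (ℂ × ℝ)) × ℝ => bfun C n x.2 x.1.1 x.1.2.1 x.1.2.2) q :=
      fun q => (contDiff_bfun C).differentiable (by norm_num) q
    have hΓ : ∀ v, fderiv ℝ (fun x : ((Fin n → ℂ) × ((ℂ × ℝ) × A)) × ℝ =>
        bfun C n x.2 x.1.1 x.1.2.1.1 x.1.2.1.2) (x, t) v =
        fderiv ℝ (fun x : ((Fin n → ℂ) × (ℂ × ℝ)) × ℝ => bfun C n x.2 x.1.1 x.1.2.1 x.1.2.2) (y, t) (Pl v) := by
      intro v
      have h3 : HasFDerivAt (fun x : ((Fin n → ℂ) × (ℂ × ℝ)) × ℝ => bfun C n x.2 x.1.1 x.1.2.1 x.1.2.2)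
          (fderiv ℝ (fun x : ((Fin n → ℂ) × (ℂ × ℝ)) × ℝ => bfun C n x.2 x.1.1 x.1.2.1 x.1.2.2) (y, t))
          (Pl (x, t)) := (hd (y, t)).hasFDerivAt
      have h4 := h3.comp (x, t) Pl.hasFDerivAt
      have h5 := h4.fderiv
      exact congrArg (fun L => L v) h5
    have hsl : ∀ v, fderiv ℝ (fun x : (Fin n → ℂ) × (ℂ × ℝ) => bfun C n t x.1 x.2.1 x.2.2) y v =
        fderiv ℝ (fun x : ((Fin n → ℂ) × (ℂ × ℝ)) × ℝ => bfun C n x.2 x.1.1 x.1.2.1 x.1.2.2) (y, t) (v, 0) := by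
      intro v
      have h3 := (hd (y, t)).hasFDerivAt
      have h4 : HasFDerivAt (fun x : (Fin n → ℂ) × (ℂ × ℝ) => ((x, t) : ((Fin n → ℂ) × (ℂ × ℝ)) × ℝ)) Il y := by
        have h6 : HasFDerivAt (fun x : (Fin n → ℂ) × (ℂ × ℝ) => x)
          (ContinuousLinearMap.id ℝ ((Fin n → ℂ) × (ℂ × ℝ))) y := hasFDerivAt_id (𝕜 := ℝ) y
        have h7 : HasFDerivAt (fun _ : (Fin n → ℂ) × (ℂ × ℝ) => t)
          (0 : ((Fin n → ℂ) × (ℂ × ℝ)) →L[ℝ] ℝ) y := hasFDerivAt_const (𝕜 := ℝ) t y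
        exact h6.prodMk h7
      have h5 := (h3.comp y h4).fderiv
      exact congrArg (fun L => L v) h5
    obtain ⟨v', hv'⟩ := reg_slice C hC t ht x.1 x.2.1.1 x.2.1.2 h1
      (-fderiv ℝ (fun x : ((Fin n → ℂ) × (ℂ × ℝ)) × ℝ => bfun C n x.2 x.1.1 x.1.2.1 x.1.2.2) (y, t) (0, 1))
    have hv2 : fderiv ℝ (fun x : ((Fin n → ℂ) × ((ℂ × ℝ) × A)) × ℝ =>
        bfun C n x.2 x.1.1 x.1.2.1.1 x.1.2.1.2) (x, t) ((v'.1, (v'.2, 0)), 1) = 0 := by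
      rw [hΓ]
      have h6 : Pl (((v'.1, (v'.2, (0 : A))), (1 : ℝ))) = (v', (0 : ℝ)) + ((0 : (Fin n → ℂ) × (ℂ × ℝ)), (1 : ℝ)) := by
        show (((v'.1, v'.2), (1 : ℝ)) : ((Fin n → ℂ) × (ℂ × ℝ)) × ℝ) = _
        simp
      rw [h6, map_add, ← hsl, hv']
      exact neg_add_cancel _
    obtain ⟨b, hb⟩ := pb_tan hpull (s3W C O E) hM (x, t) ⟨h1, h2⟩ _ hv2
    refine ⟨_, hb, ?_⟩
    show (1 : ℝ) + 0 ≠ 0
    norm_num
  · -- compactness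
    have h3 := pb_compact (A' := A) {x : ((Fin n → ℂ) × (ℂ × ℝ)) × ℝ |
        bfun C n x.2 x.1.1 x.1.2.1 x.1.2.2 = 0 ∧ 0 ≤ x.2 ∧ x.2 ≤ 1} (isCompact_base' C)
      (fun x => Phi x.1.1 x.1.2.1 x.1.2.2) (by
        refine contDiffOn_Phi.continuousOn.comp continuousOn_fst ?_
        rintro x ⟨hx, -, -⟩
        show nz x.1.1 ≠ 0
        rw [(s3_nz hx).1]
        exact one_ne_zero) (Kset O E) h.compact
    have h4 := h3.image (f := fun x : (((Fin n → ℂ) × (ℂ × ℝ)) × ℝ) × A =>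
      ((((x.1.1.1, (x.1.1.2, x.2)), x.1.2)) : ((Fin n → ℂ) × ((ℂ × ℝ) × A)) × ℝ)) (by fun_prop)
    convert h4 using 1
    ext x
    constructor
    · rintro ⟨⟨h5, h6⟩, h7, h8⟩
      exact ⟨(((x.1.1, x.1.2.1), x.2), x.1.2.2), ⟨⟨h5, h7, h8⟩, h6⟩, rfl⟩
    · rintro ⟨y, ⟨⟨h5, h7, h8⟩, h6⟩, rfl⟩
      exact ⟨⟨h5, h6⟩, h7, h8⟩
  · -- continuity of the map
    have h3 : ContinuousOn (fun x : ((Fin n → ℂ) × ((ℂ × ℝ) × A)) × ℝ =>
        ((Phi x.1.1 x.1.2.1.1 x.1.2.1.2, x.1.2.2) : (Fin (n + 1) → ℂ) × A))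
        {z ∈ s3W C O E | 0 ≤ z.2 ∧ z.2 ≤ 1} := by
      refine ContinuousOn.prodMk ?_ (by fun_prop)
      refine contDiffOn_Phi.continuousOn.comp
        (f := fun x : ((Fin n → ℂ) × ((ℂ × ℝ) × A)) × ℝ => ((x.1.1, x.1.2.1) : (Fin n → ℂ) × (ℂ × ℝ)))
        (by fun_prop) ?_
      rintro x ⟨⟨hx, -⟩, -, -⟩
      show nz x.1.1 ≠ 0
      rw [(s3_nz hx).1]
      exact one_ne_zero
    exact h.cont.comp h3 (fun x hx => hx.1.2)
  · -- invariance of the map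
    rintro g x t ⟨h1, h2⟩ - -
    show F (Phi (act (chi' χ) (rho' χ ρ) n g x).1 (act (chi' χ) (rho' χ ρ) n g x).2.1.1
        (act (chi' χ) (rho' χ ρ) n g x).2.1.2, (act (chi' χ) (rho' χ ρ) n g x).2.2) = _
    rw [hphi g x]
    exact h.inv g.1 _ h2
  · rintro x t ⟨h1, h2⟩ - -
    exact h.maps h2
  · intro x
    exact Iff.rfl
  · intro x
    have hb : bfun C n 1 x.1 x.2.1.1 x.2.1.2 =
        (nz x.1 - 1, Complex.normSq x.2.1.1 + x.2.1.2 ^ 2 - 1, fn C n x.1) := by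
      unfold bfun
      simp
    constructor
    · rintro ⟨⟨h1, ⟨h2, h3⟩, h4⟩, h5⟩
      have h6 : Complex.normSq x.2.1.1 + x.2.1.2 ^ 2 - 1 = 0 := congrArg Prod.fst h4
      have h7 : E (Phi x.1 x.2.1.1 x.2.1.2, x.2.2) = 0 := congrArg Prod.snd h4
      refine ⟨?_, nz_Phi _ h2 _ _, h3, h7⟩
      show bfun C n 1 x.1 x.2.1.1 x.2.1.2 = 0
      rw [hb, h1, h6, h5, sub_self]
      rfl
    · rintro ⟨h1, h2, h3, h4⟩
      have h1' : bfun C n 1 x.1 x.2.1.1 x.2.1.2 = 0 := h1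
      have h8 := s3_nz h1'
      rw [hb] at h1'
      have h9 : fn C n x.1 = 0 := congrArg (fun q => q.2.2) h1'
      have h10 : Complex.normSq x.2.1.1 + x.2.1.2 ^ 2 - 1 = 0 := congrArg (fun q => q.2.1) h1'
      refine ⟨⟨h8.1, ⟨?_, h3⟩, Prod.ext h10 h4⟩, h9⟩
      rw [h8.1]
      exact one_ne_zero
  · intro x _
    rfl
  · intro x _
    rfl

end Pool.Agent.Helper48.BPF
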