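import Pool.Agent.Helper48.BPF.Data
import Pool.Agent.Helper48.BPF.NewCtx
import Pool.Agent.Helper48.BPF.Step1
import Pool.Agent.Helper48.BPF.Step2
import Pool.Agent.Helper48.BPF.Step3

/-!
PROJECT BP, block F: the claim, by induction on `n`.
-/

set_option autoImplicit false

namespace Pool.Agent.Helper48.BPF

open Pool.Agent.Helper79.BP Pool.Agent.Helper93.BPF
open scoped ContDiff Topology

variable {p : ℕ} (C : ℕ → ℂ →L[ℝ] (Fin p → ℝ)) (hC : GoodC C)

include hC

/-- The part `f^(n) = 0` of any context over the sphere of `ℂ^n` is null-bordant. -/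
theorem claim (n : ℕ) : ∀ (A B G : Type) [NormedAddCommGroup A] [NormedSpace ℝ A] [FiniteDimensional ℝ A]
    [NormedAddCommGroup B] [NormedSpace ℝ B] [FiniteDimensional ℝ B] [Group G] [Fintype G]
    (ι : Type) (V : Set (ι → ℝ)) (χ : G →* ℂ) (ρ : G →* (A →L[ℝ] A)) (O : Set ((Fin n → ℂ) × A))
    (E : (Fin n → ℂ) × A → B) (F : (Fin n → ℂ) × A → (ι → ℝ)) (_ : IsCtx V χ ρ O E F) (m : ℕ)
    (_ : 2 * n + Module.finrank ℝ A = m + 1 + p + Module.finrank ℝ B)
    (hX : UpData (act χ ρ n) V m (Xset C O E) F), Relation.EqvGen Bord (Q hX) (Sing.nil V m) := by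
  induction n with
  | zero =>
    intro A B G _ _ _ _ _ _ _ _ ι V χ ρ O E F h m hdim hX
    have he : (Q hX).X = ∅ := by
      rw [Set.eq_empty_iff_forall_notMem]
      rintro y ⟨x, hx, -⟩
      have h1 : nz x.1 = 1 := hx.1.1
      simp [nz] at h1
    refine Relation.EqvGen.rel _ _ (Pool.Agent.Helper93.BPF.bord_of_diffeo (Q hX) (Sing.nil V m) (fun _ => 0) ⟨contDiff_const, ?_, fun _ => 0, contDiff_const, ?_, ?_, ?_⟩ ?_)
    · intro x hx
      rw [he] at hx
      exact absurd hx (Set.notMem_empty _)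
    · intro x hx
      exact absurd hx (Set.notMem_empty _)
    · intro x hx
      rw [he] at hx
      exact absurd hx (Set.notMem_empty _)
    · intro x hx
      exact absurd hx (Set.notMem_empty _)
    · intro x hx
      rw [he] at hx
      exact absurd hx (Set.notMem_empty _)
  | succ n ih =>
    intro A B G _ _ _ _ _ _ _ _ ι V χ ρ O E F h m hdim hX
    have hX1 := data_X1 C hC h m hdim
    have hX2 := data_X2 C hC h m hdim
    have hn := ctx_new h
    have hdim' : 2 * n + Module.finrank ℝ ((ℂ × ℝ) × A) = m + 1 + p + Module.finrank ℝ (ℝ × B) := by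
      simp only [Module.finrank_prod, Complex.finrank_real_complex, Module.finrank_self]
      omega
    have hX3 := ctx_data C hC hn m hdim'
    exact Relation.EqvGen.trans _ _ _ (Relation.EqvGen.symm _ _ (Relation.EqvGen.rel _ _ (step1 C hC h m hX hX1)))
      (Relation.EqvGen.trans _ _ _ (Relation.EqvGen.rel _ _ (step2 C hC h m hdim hX1 hX2))
      (Relation.EqvGen.trans _ _ _ (Relation.EqvGen.rel _ _ (step3 C hC h m hdim hX2 hX3))
      (ih _ _ _ ι V _ _ _ _ _ hn m hdim' hX3)))

end Pool.Agent.Helper48.BPF
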