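import Pool.Agent.Helper48.BPF.Inst

/-!
PROJECT BP, block F, module BP-F7: UpData of `X₂` and `X₁`.

`sub`: `pb_subE` with `pull_X2` / `pull_X1` (for `x` in the set `nz x.1 = 1 ≠ 0`; for `X₁` `s ≠ 0` by `s_ne` and `nz (th 0 ..) = 1` by `Th_zero`), finrank: `2n + 3 + finrank A`, `D : 1 + (1 + p)`.
`compact`: `pb_compact` with `S` the compact base `isCompact_base C 0`, `φ = Phi` resp. `Th 0` (continuous on `S`), `K = Kset O E`; then the homeomorphism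
`((Fin n → ℂ) × (ℂ × ℝ)) × A ≃ₜ (Fin n → ℂ) × ((ℂ × ℝ) × A)` (`Homeomorph.prodAssoc`), image of a compact set.
`act (chi' χ) (rho' χ ρ) n g x = (χ g.1 • z, ((e (χ g.1) u, e s), ρ g.1 a))`, `e = ((g.2 : ℤ) : ℝ)`, `e^2 = 1` (`Int.units_eq_one_or`). `stab`: `bfun_eqv`, `Phi_eqv` / `Th_eqv` and `h.stab`.
`free`: if `act g x = x` then `c • Φ(x) = Φ(g x) = Φ(x)` and `ρ g.1 a = a`, so `act χ ρ (n+1) g.1 (Φ, a) = (Φ, a)`, `g.1 = 1` by `h.free`, then `e u = u`, `e s = s` and `(u, s) ≠ 0` give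
`e = 1`, `g.2 = 1`. `inv`: `h.inv` at `(Φ, a)`. `cont`: `h.cont` composed with the continuous map `x ↦ (Φ(x), a)`.
-/

set_option autoImplicit false

namespace Pool.Agent.Helper48.BPF

open Pool.Agent.Helper79.BP Pool.Agent.Helper93.BPF
open scoped ContDiff Topology

variable {n p : ℕ} {A B : Type} [NormedAddCommGroup A] [NormedSpace ℝ A] [FiniteDimensional ℝ A]
  [NormedAddCommGroup B] [NormedSpace ℝ B] [FiniteDimensional ℝ B] (C : ℕ → ℂ →L[ℝ] (Fin p → ℝ)) (hC : GoodC C)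
  {G : Type} [Group G] {ι : Type} {V : Set (ι → ℝ)} {χ : G →* ℂ} {ρ : G →* (A →L[ℝ] A)}
  {O : Set ((Fin (n + 1) → ℂ) × A)} {E : (Fin (n + 1) → ℂ) × A → B} {F : (Fin (n + 1) → ℂ) × A → (ι → ℝ)}

private theorem unit_sq (g : ℤˣ) : (((g : ℤ) : ℝ)) ^ 2 = 1 := by
  rcases Int.units_eq_one_or g with h | h <;> simp [h]

private theorem unit_one (g : ℤˣ) (h : (((g : ℤ) : ℝ)) = 1) : g = 1 := by
  rcases Int.units_eq_one_or g with h1 | h1
  · exact h1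
  · rw [h1] at h
    norm_num at h

include hC in
private theorem data_aux (ψ : (Fin n → ℂ) → ℂ → ℝ → (Fin (n + 1) → ℂ))
    (hψ : ∀ c : ℂ, c ^ 4 = 1 → ∀ e : ℝ, e ^ 2 = 1 → ∀ z u s, ψ (c • z) ((e : ℂ) * c * u) (e * s) = c • ψ z u s)
    (hψc : ContinuousOn (fun x : (Fin n → ℂ) × (ℂ × ℝ) => ψ x.1 x.2.1 x.2.2)
      {x | bfun C n 0 x.1 x.2.1 x.2.2 = 0})
    (O₀ : Set ((Fin n → ℂ) × ((ℂ × ℝ) × A)))
    (hp : IsPull (fun x : (Fin n → ℂ) × ((ℂ × ℝ) × A) => bfun C n 0 x.1 x.2.1.1 x.2.1.2)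
      (fun x => ψ x.1 x.2.1.1 x.2.1.2) (alp n A) (jay n A) O₀ O E)
    (hO : ∀ x : (Fin n → ℂ) × ((ℂ × ℝ) × A), bfun C n 0 x.1 x.2.1.1 x.2.1.2 = 0 → x ∈ O₀)
    (h : IsCtx V χ ρ O E F) (m : ℕ)
    (hdim : 2 * (n + 1) + Module.finrank ℝ A = m + 1 + p + Module.finrank ℝ B) :
    UpData (act (chi' χ) (rho' χ ρ) n) V m
      {x : (Fin n → ℂ) × ((ℂ × ℝ) × A) | bfun C n 0 x.1 x.2.1.1 x.2.1.2 = 0 ∧ (ψ x.1 x.2.1.1 x.2.1.2, x.2.2) ∈ Kset O E}
      (fun x => F (ψ x.1 x.2.1.1 x.2.1.2, x.2.2)) := by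
  have hg : ∀ (g : G × ℤˣ) (x : (Fin n → ℂ) × ((ℂ × ℝ) × A)), act (chi' χ) (rho' χ ρ) n g x =
      (χ g.1 • x.1, (((((g.2 : ℤ) : ℝ) : ℂ) * χ g.1 * x.2.1.1, (((g.2 : ℤ) : ℝ)) * x.2.1.2), ρ g.1 x.2.2)) := by
    intro g x
    rfl
  have hga : ∀ (g : G × ℤˣ) (x : (Fin n → ℂ) × ((ℂ × ℝ) × A)),
      (ψ (act (chi' χ) (rho' χ ρ) n g x).1 (act (chi' χ) (rho' χ ρ) n g x).2.1.1
        (act (chi' χ) (rho' χ ρ) n g x).2.1.2, (act (chi' χ) (rho' χ ρ) n g x).2.2) =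
      act χ ρ (n + 1) g.1 (ψ x.1 x.2.1.1 x.2.1.2, x.2.2) := by
    intro g x
    rw [hg]
    simp only
    rw [hψ _ (h.chi g.1) _ (unit_sq g.2)]
    rfl
  have hcont : ContinuousOn (fun x : (Fin n → ℂ) × ((ℂ × ℝ) × A) => (ψ x.1 x.2.1.1 x.2.1.2, x.2.2))
      {x | bfun C n 0 x.1 x.2.1.1 x.2.1.2 = 0} := by
    refine ContinuousOn.prodMk ?_ (continuous_snd.comp continuous_snd).continuousOn
    exact hψc.comp (f := fun x : (Fin n → ℂ) × ((ℂ × ℝ) × A) => (x.1, x.2.1))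
      (continuous_fst.prodMk (continuous_fst.comp continuous_snd)).continuousOn (fun x hx => hx)
  refine ⟨?_, ?_, ?_, ?_, ?_, ?_, ?_⟩
  · have h1 := pb_compact {x : (Fin n → ℂ) × (ℂ × ℝ) | bfun C n 0 x.1 x.2.1 x.2.2 = 0} (isCompact_base C 0)
      (fun x => ψ x.1 x.2.1 x.2.2) hψc (Kset O E) h.compact
    have h2 := h1.image (Homeomorph.prodAssoc (Fin n → ℂ) (ℂ × ℝ) A).continuous
    have h3 : {x : (Fin n → ℂ) × ((ℂ × ℝ) × A) | bfun C n 0 x.1 x.2.1.1 x.2.1.2 = 0 ∧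
        (ψ x.1 x.2.1.1 x.2.1.2, x.2.2) ∈ Kset O E} = (Homeomorph.prodAssoc (Fin n → ℂ) (ℂ × ℝ) A) ''
        {x | x.1 ∈ {x : (Fin n → ℂ) × (ℂ × ℝ) | bfun C n 0 x.1 x.2.1 x.2.2 = 0} ∧
          (ψ x.1.1 x.1.2.1 x.1.2.2, x.2) ∈ Kset O E} := by
      ext x
      constructor
      · intro hx
        exact ⟨((x.1, x.2.1), x.2.2), hx, rfl⟩
      · rintro ⟨y, hy, rfl⟩
        exact hy
    rw [h3]
    exact h2
  · refine pb_subE hp m ?_ _ ?_
    · have h2 : Module.finrank ℝ (Fin n → ℂ) = 2 * n := by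
        rw [Module.finrank_pi_fintype]
        simp [Complex.finrank_real_complex, mul_comm]
      simp only [Module.finrank_prod, Module.finrank_self, Module.finrank_fin_fun, Complex.finrank_real_complex, h2]
      omega
    · intro x
      constructor
      · rintro ⟨h1, h2⟩
        exact ⟨hO x h1, h1, h2⟩
      · rintro ⟨-, h1, h2⟩
        exact ⟨h1, h2⟩
  · rintro g x ⟨h1, h2⟩
    refine ⟨?_, ?_⟩
    · rw [hg]
      exact (bfun_eqv C _ (h.chi g.1) _ (unit_sq g.2) 0 _ _ _).2 h1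
    · rw [hga]
      exact h.stab g.1 _ h2
  · rintro g x ⟨h1, h2⟩ hx
    have h3 := hga g x
    rw [hx] at h3
    have h4 : g.1 = 1 := h.free g.1 _ h2 h3.symm
    have h5 := hg g x
    rw [hx, h4] at h5
    have h6 : x.2.1.2 = ((g.2 : ℤ) : ℝ) * x.2.1.2 := congrArg (fun y => y.2.1.2) h5
    have h7 : x.2.1.2 ≠ 0 := s_ne C hC _ _ _ h1
    have h8 : (((g.2 : ℤ) : ℝ)) = 1 := by
      have := mul_right_cancel₀ h7 (a := (((g.2 : ℤ) : ℝ))) (c := 1) (by rw [one_mul]; exact h6.symm)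
      exact this
    exact Prod.ext h4 (unit_one g.2 h8)
  · exact h.cont.comp (hcont.mono fun x hx => hx.1) fun x hx => hx.2
  · rintro g x ⟨h1, h2⟩
    exact (congrArg F (hga g x)).trans (h.inv g.1 _ h2)
  · rintro x ⟨h1, h2⟩
    exact h.maps h2

include hC

theorem data_X2 (h : IsCtx V χ ρ O E F) (m : ℕ)
    (hdim : 2 * (n + 1) + Module.finrank ℝ A = m + 1 + p + Module.finrank ℝ B) :
    UpData (act (chi' χ) (rho' χ ρ) n) V m (X2 C O E) (F' F) := by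
  refine data_aux C hC (fun z u s => Phi z u s) (fun c hc e he z u s => Phi_eqv c hc e he z u s) ?_ _
    (pull_X2 C hC O E h.isOpen h.smooth h.vert) ?_ h m hdim
  · refine (contDiffOn_Phi (n := n)).continuousOn.mono ?_
    intro x hx
    have h1 : nz x.1 = 1 := sub_eq_zero.1 (congrArg Prod.fst hx)
    exact (by rw [h1]; exact one_ne_zero : nz x.1 ≠ 0)
  · intro x hx
    have h1 : nz x.1 = 1 := sub_eq_zero.1 (congrArg Prod.fst hx)
    exact (by rw [h1]; exact one_ne_zero : nz x.1 ≠ 0)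

theorem data_X1 (h : IsCtx V χ ρ O E F) (m : ℕ)
    (hdim : 2 * (n + 1) + Module.finrank ℝ A = m + 1 + p + Module.finrank ℝ B) :
    UpData (act (chi' χ) (rho' χ ρ) n) V m (X1 C O E) (F1 F) := by
  have h0 : ∀ (z : Fin n → ℂ) (u : ℂ) (s : ℝ), bfun C n 0 z u s = 0 → s ≠ 0 ∧ nz (th 0 z u s) ≠ 0 := by
    intro z u s hx
    refine ⟨s_ne C hC _ _ _ hx, ?_⟩
    rw [(Th_zero C hC _ _ _ hx).2.1]
    exact one_ne_zero
  refine data_aux C hC (fun z u s => Th 0 z u s) (fun c hc e he z u s => Th_eqv c hc e he 0 z u s) ?_ _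
    (pull_X1 C hC O E h.isOpen h.smooth h.vert) (fun x hx => h0 _ _ _ hx) h m hdim
  refine (contDiffOn_Th (n := n)).continuousOn.comp
    (f := fun x : (Fin n → ℂ) × (ℂ × ℝ) => (x, (0 : ℝ)))
    (continuous_id.prodMk continuous_const).continuousOn ?_
  intro x hx
  exact h0 _ _ _ hx

end Pool.Agent.Helper48.BPF
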