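import Pool.Agent.Helper93.BPF.If
import Pool.Agent.Helper79.BP.KitK2

/-!
PROJECT BP, block F, concrete part: contexts over the spheres of `ℂ^n` (plan: plan_BPF.md and helper93's message).
-/

set_option autoImplicit false

namespace Pool.Agent.Helper48.BPF

open Pool.Agent.Helper79.BP Pool.Agent.Helper93.BPF
open scoped ContDiff

/-- `|z|^2`. -/
noncomputable def nz {n : ℕ} (z : Fin n → ℂ) : ℝ := ∑ i, Complex.normSq (z i)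

/-- `(z, w) ∈ ℂ^(n+1)`. -/
def sn {n : ℕ} (z : Fin n → ℂ) (w : ℂ) : Fin (n + 1) → ℂ := Fin.snoc (α := fun _ => ℂ) z w

/-- `f^(n)(z) = ∑_l C_l (z_l^2)`. -/
noncomputable def fn {p : ℕ} (C : ℕ → ℂ →L[ℝ] (Fin p → ℝ)) (n : ℕ) (z : Fin n → ℂ) : Fin p → ℝ :=
  ∑ l : Fin n, C l (z l ^ 2)

/-- The property (span) of the coefficients. -/
structure GoodC {p : ℕ} (C : ℕ → ℂ →L[ℝ] (Fin p → ℝ)) : Prop where
  inj : ∀ l w, C l w = 0 → w = 0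
  span : ∀ (s : Finset ℕ) (w : ℕ → ℂ), s.Nonempty → (∀ l ∈ s, w l ≠ 0) → ∑ l ∈ s, C l (w l) = 0 →
    ∀ v : Fin p → ℝ, ∃ ζ : ℕ → ℂ, ∑ l ∈ s, C l (ζ l) = v

section

variable {n : ℕ} {G : Type} [Group G] {A B : Type} [NormedAddCommGroup A] [NormedSpace ℝ A]
  [NormedAddCommGroup B] [NormedSpace ℝ B]

/-- The total space of the context `(O, E)`. -/
def Kset (O : Set ((Fin n → ℂ) × A)) (E : (Fin n → ℂ) × A → B) : Set ((Fin n → ℂ) × A) :=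
  {x | nz x.1 = 1 ∧ x ∈ O ∧ E x = 0}

/-- The action `(z, a) ↦ (χ(g) z, ρ(g) a)`. -/
noncomputable def act (χ : G →* ℂ) (ρ : G →* (A →L[ℝ] A)) (n : ℕ) :
    G →* (((Fin n → ℂ) × A) →L[ℝ] ((Fin n → ℂ) × A)) where
  toFun g := ((χ g) • ContinuousLinearMap.id ℝ (Fin n → ℂ)).prodMap (ρ g)
  map_one' := by
    ext x <;> simp
  map_mul' g h := by
    ext x <;> simp [mul_assoc]

/-- A context over the unit sphere of `ℂ^n`. -/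
structure IsCtx {ι : Type} (V : Set (ι → ℝ)) (χ : G →* ℂ) (ρ : G →* (A →L[ℝ] A)) (O : Set ((Fin n → ℂ) × A))
    (E : (Fin n → ℂ) × A → B) (F : (Fin n → ℂ) × A → (ι → ℝ)) : Prop where
  chi : ∀ g, χ g ^ 4 = 1
  isOpen : IsOpen O
  smooth : ContDiffOn ℝ ∞ E O
  compact : IsCompact (Kset O E)
  stab : Stab (act χ ρ n) (Kset O E)
  free : Free (act χ ρ n) (Kset O E)
  vert : ∀ x ∈ Kset O E, ∀ w : B, ∃ b : A, fderiv ℝ E x (0, b) = w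
  cont : ContinuousOn F (Kset O E)
  maps : Set.MapsTo F (Kset O E) V
  inv : ∀ g, ∀ x ∈ Kset O E, F (act χ ρ n g x) = F x

/-- The part `f^(n) = 0` of the total space. -/
def Xset {p : ℕ} (C : ℕ → ℂ →L[ℝ] (Fin p → ℝ)) (O : Set ((Fin n → ℂ) × A)) (E : (Fin n → ℂ) × A → B) :
    Set ((Fin n → ℂ) × A) := {x | x ∈ Kset O E ∧ fn C n x.1 = 0}

end

/-! The maps. -/

/-- `v / |v|`. -/
noncomputable def nrm {n : ℕ} (v : Fin n → ℂ) : Fin n → ℂ := ((Real.sqrt (nz v))⁻¹ : ℝ) • v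

/-- `Φ(z, u, s) = (z, s u) / norm`. -/
noncomputable def Phi {n : ℕ} (z : Fin n → ℂ) (u : ℂ) (s : ℝ) : Fin (n + 1) → ℂ := nrm (sn z (s • u))

/-- `Θ⁰_k(z, u, s) = (((1-k)|s|+k) z, sgn(s)(1-k+k|s|) u)`. -/
noncomputable def th {n : ℕ} (k : ℝ) (z : Fin n → ℂ) (u : ℂ) (s : ℝ) : Fin (n + 1) → ℂ :=
  sn (((1 - k) * |s| + k) • z) ((s / |s| * (1 - k + k * |s|)) • u)

/-- `Θ_k = Θ⁰_k / |Θ⁰_k|`. -/
noncomputable def Th {n : ℕ} (k : ℝ) (z : Fin n → ℂ) (u : ℂ) (s : ℝ) : Fin (n + 1) → ℂ := nrm (th k z u s)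

/-- The equations of the base of the bordism `F_k`, `k = 1 - τ`. -/
noncomputable def bfun {p : ℕ} (C : ℕ → ℂ →L[ℝ] (Fin p → ℝ)) (n : ℕ) (τ : ℝ) (z : Fin n → ℂ) (u : ℂ) (s : ℝ) :
    ℝ × ℝ × (Fin p → ℝ) :=
  (nz z - 1, Complex.normSq u + s ^ 2 - 1,
    (1 - (1 - τ) * Complex.normSq u) • fn C n z + (1 - τ) • C n (u ^ 2))

section

variable {n : ℕ} {G : Type} [Group G] {A B : Type} [NormedAddCommGroup A] [NormedSpace ℝ A]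
  [NormedAddCommGroup B] [NormedSpace ℝ B]

/-- The new character. -/
def chi' (χ : G →* ℂ) : G × ℤˣ →* ℂ := χ.comp (MonoidHom.fst G ℤˣ)

/-- The new action `((u, s), a) ↦ ((e χ(g) u, e s), ρ(g) a)`. -/
noncomputable def rho' (χ : G →* ℂ) (ρ : G →* (A →L[ℝ] A)) : G × ℤˣ →* (((ℂ × ℝ) × A) →L[ℝ] ((ℂ × ℝ) × A)) where
  toFun g := ((((((g.2 : ℤ) : ℝ) : ℂ) * χ g.1) • ContinuousLinearMap.id ℝ ℂ).prodMap
    ((((g.2 : ℤ) : ℝ)) • ContinuousLinearMap.id ℝ ℝ)).prodMap (ρ g.1)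
  map_one' := by
    ext x <;> simp
  map_mul' g h := by
    ext x <;> simp [mul_assoc, mul_left_comm, mul_comm]

/-- The new open set. -/
def O' (O : Set ((Fin (n + 1) → ℂ) × A)) : Set ((Fin n → ℂ) × ((ℂ × ℝ) × A)) :=
  {x | nz x.1 ≠ 0 ∧ (Phi x.1 x.2.1.1 x.2.1.2, x.2.2) ∈ O}

/-- The new equations. -/
noncomputable def E' (E : (Fin (n + 1) → ℂ) × A → B) (x : (Fin n → ℂ) × ((ℂ × ℝ) × A)) : ℝ × B :=
  (Complex.normSq x.2.1.1 + x.2.1.2 ^ 2 - 1, E (Phi x.1 x.2.1.1 x.2.1.2, x.2.2))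

/-- The new map. -/
noncomputable def F' {ι : Type} (F : (Fin (n + 1) → ℂ) × A → (ι → ℝ)) (x : (Fin n → ℂ) × ((ℂ × ℝ) × A)) :
    ι → ℝ := F (Phi x.1 x.2.1.1 x.2.1.2, x.2.2)

/-- The manifold `X₂`: `bfun 0 = 0` and `(Φ, a) ∈ K`. -/
def X2 {p : ℕ} (C : ℕ → ℂ →L[ℝ] (Fin p → ℝ)) (O : Set ((Fin (n + 1) → ℂ) × A)) (E : (Fin (n + 1) → ℂ) × A → B) :
    Set ((Fin n → ℂ) × ((ℂ × ℝ) × A)) :=
  {x | bfun C n 0 x.1 x.2.1.1 x.2.1.2 = 0 ∧ (Phi x.1 x.2.1.1 x.2.1.2, x.2.2) ∈ Kset O E}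

/-- The manifold `X₁`: `bfun 0 = 0` and `(Θ_0, a) ∈ K`. -/
def X1 {p : ℕ} (C : ℕ → ℂ →L[ℝ] (Fin p → ℝ)) (O : Set ((Fin (n + 1) → ℂ) × A)) (E : (Fin (n + 1) → ℂ) × A → B) :
    Set ((Fin n → ℂ) × ((ℂ × ℝ) × A)) :=
  {x | bfun C n 0 x.1 x.2.1.1 x.2.1.2 = 0 ∧ (Th 0 x.1 x.2.1.1 x.2.1.2, x.2.2) ∈ Kset O E}

/-- The map of `X₁`. -/
noncomputable def F1 {ι : Type} (F : (Fin (n + 1) → ℂ) × A → (ι → ℝ)) (x : (Fin n → ℂ) × ((ℂ × ℝ) × A)) :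
    ι → ℝ := F (Th 0 x.1 x.2.1.1 x.2.1.2, x.2.2)

end

end Pool.Agent.Helper48.BPF
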