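import Pool.Agent.Helper48.BPF.Alg

/-!
PROJECT BP, block F, module BP-F4: the maps `Phi`, `th`, `Th` and the equations `bfun`: equivariance, norms, smoothness, compactness.

Let `c^4 = 1`, `e^2 = 1` (`e = 1 ∨ e = -1`). `sn (c • z) ((e s) • (e c u)) = c • sn z (s u)`, `|e s| = |s|`, `(e s) / |e s| = e (s / |s|)` (also for `s = 0`), hence
`th k (c z) (e c u) (e s) = c • th k z u s`; `nrm_smulC` with `normSq c = 1`. `bfun`: `c^2 = ±1 =: η` real, `fn (c z) = η fn z`, `(e c u)^2 = η u^2`, `normSq (e c u) = normSq u`; the third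
component is multiplied by `η`. `s_ne`: if `s = 0` then `normSq u = 1` and `C_n (u^2) = 0`, so `u = 0`.
`nz (th 0 z u s) = s^2 nz z + normSq u` for `s ≠ 0` (`(s / |s|)^2 = 1`). `th_ne`: the first `n` components have `nz = ((1-k)|s|+k)^2 > 0`.
Smoothness of `Th` on the open set: where `s ≠ 0` the functions `|s|` and `s / |s|` are smooth (`contDiffAt_abs`; or locally `|s| = σ s`), then `contDiff_sn`, `contDiffOn_nrm`.
Compactness: closed (`bfun` continuous) and bounded (`nz z = 1`, `normSq u + s^2 = 1`).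
-/

set_option autoImplicit false

namespace Pool.Agent.Helper48.BPF

open Pool.Agent.Helper79.BP Pool.Agent.Helper93.BPF
open scoped ContDiff Topology

variable {n : ℕ}

private theorem abs_e (e : ℝ) (he : e ^ 2 = 1) : |e| = 1 :=
  (pow_eq_one_iff_of_nonneg (abs_nonneg e) two_ne_zero).1 (by rw [sq_abs, he])

theorem Phi_eqv (c : ℂ) (hc : c ^ 4 = 1) (e : ℝ) (he : e ^ 2 = 1) (z : Fin n → ℂ) (u : ℂ) (s : ℝ) :
    Phi (c • z) ((e : ℂ) * c * u) (e * s) = c • Phi z u s := by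
  have h : sn (c • z) ((e * s) • ((e : ℂ) * c * u)) = c • sn z (s • u) := by
    rw [sn_smulC]
    congr 1
    simp only [Complex.real_smul, Complex.ofReal_mul]
    have he' : (e : ℂ) ^ 2 = 1 := by exact_mod_cast he
    linear_combination (s * c * u) * he'
  unfold Phi
  rw [h, nrm_smulC c (normSq_of_pow_four c hc)]

theorem th_eqv (c : ℂ) (e : ℝ) (he : e ^ 2 = 1) (k : ℝ) (z : Fin n → ℂ) (u : ℂ) (s : ℝ) :
    th k (c • z) ((e : ℂ) * c * u) (e * s) = c • th k z u s := by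
  have habs : |e * s| = |s| := by rw [abs_mul, abs_e e he, one_mul]
  have he' : (e : ℂ) ^ 2 = 1 := by exact_mod_cast he
  unfold th
  rw [sn_smulC, habs]
  congr 1
  · rw [smul_comm]
  · simp only [Complex.real_smul]
    have h1 : ((e * s / |s| * (1 - k + k * |s|) : ℝ) : ℂ) = (e : ℂ) * ((s / |s| * (1 - k + k * |s|) : ℝ) : ℂ) := by
      rw [← Complex.ofReal_mul]
      congr 1
      ring
    rw [h1]
    linear_combination (((s / |s| * (1 - k + k * |s|) : ℝ) : ℂ) * c * u) * he'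

theorem Th_eqv (c : ℂ) (hc : c ^ 4 = 1) (e : ℝ) (he : e ^ 2 = 1) (k : ℝ) (z : Fin n → ℂ) (u : ℂ) (s : ℝ) :
    Th k (c • z) ((e : ℂ) * c * u) (e * s) = c • Th k z u s := by
  unfold Th
  rw [th_eqv c e he, nrm_smulC c (normSq_of_pow_four c hc)]

theorem nz_Phi (z : Fin n → ℂ) (hz : nz z ≠ 0) (u : ℂ) (s : ℝ) : nz (Phi z u s) = 1 := by
  unfold Phi
  apply nz_nrm
  rw [nz_sn]
  have h1 : 0 < nz z := lt_of_le_of_ne (nz_nonneg z) (Ne.symm hz)
  exact (add_pos_of_pos_of_nonneg h1 (Complex.normSq_nonneg (s • u))).ne'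

theorem nz_Th (k : ℝ) (z : Fin n → ℂ) (u : ℂ) (s : ℝ) (h : nz (th k z u s) ≠ 0) : nz (Th k z u s) = 1 :=
  nz_nrm _ h

theorem th_ne (k : ℝ) (hk : 0 ≤ k) (hk' : k ≤ 1) (z : Fin n → ℂ) (hz : nz z = 1) (u : ℂ) (s : ℝ) (hs : s ≠ 0) :
    nz (th k z u s) ≠ 0 := by
  unfold th
  rw [nz_sn, nz_smul, hz]
  have h1 : 0 < |s| := abs_pos.mpr hs
  have h2 : 0 < (1 - k) * |s| + k := by
    rcases eq_or_lt_of_le hk with h | h
    · rw [← h]; simpa using h1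
    · have : 0 ≤ (1 - k) * |s| := mul_nonneg (by linarith) h1.le
      linarith
  have h3 := Complex.normSq_nonneg ((s / |s| * (1 - k + k * |s|)) • u)
  have h4 : 0 < ((1 - k) * |s| + k) ^ 2 := by positivity
  have : 0 < ((1 - k) * |s| + k) ^ 2 * 1 + Complex.normSq ((s / |s| * (1 - k + k * |s|)) • u) := by linarith
  exact this.ne'

theorem Th_one (z : Fin n → ℂ) (u : ℂ) (s : ℝ) : Th 1 z u s = Phi z u s := by
  unfold Th Phi th
  congr 2
  · simp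
  · congr 1
    by_cases hs : s = 0
    · simp [hs]
    · have : |s| ≠ 0 := abs_ne_zero.mpr hs
      field_simp
      ring

theorem nz_th_zero (z : Fin n → ℂ) (u : ℂ) (s : ℝ) (hs : s ≠ 0) :
    nz (th 0 z u s) = s ^ 2 * nz z + Complex.normSq u := by
  unfold th
  have h1 : |s| ≠ 0 := abs_ne_zero.mpr hs
  have h2 : (s / |s|) ^ 2 = 1 := by
    rw [div_pow, sq_abs]; exact div_self (pow_ne_zero 2 hs)
  have h3 : Complex.normSq ((s / |s| * (1 - 0 + 0 * |s|)) • u) = Complex.normSq u := by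
    rw [Complex.real_smul, Complex.normSq_mul, Complex.normSq_ofReal]
    have : s / |s| * (1 - 0 + 0 * |s|) * (s / |s| * (1 - 0 + 0 * |s|)) = 1 := by
      have : s / |s| * (1 - 0 + 0 * |s|) * (s / |s| * (1 - 0 + 0 * |s|)) = (s / |s|) ^ 2 := by ring
      rw [this, h2]
    rw [this, one_mul]
  rw [nz_sn, nz_smul, h3]
  have h4 : ((1 - 0) * |s| + 0) ^ 2 = s ^ 2 := by
    rw [sub_zero, one_mul, add_zero, sq_abs]
  rw [h4]

variable {p : ℕ} (C : ℕ → ℂ →L[ℝ] (Fin p → ℝ))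

private theorem bfun_iff (τ : ℝ) (z : Fin n → ℂ) (u : ℂ) (s : ℝ) :
    bfun C n τ z u s = 0 ↔ nz z = 1 ∧ Complex.normSq u + s ^ 2 = 1 ∧
      (1 - (1 - τ) * Complex.normSq u) • fn C n z + (1 - τ) • C n (u ^ 2) = 0 := by
  unfold bfun
  rw [Prod.ext_iff, Prod.ext_iff]
  simp only [Prod.fst_zero, Prod.snd_zero]
  rw [sub_eq_zero, sub_eq_zero]

theorem bfun_eqv (c : ℂ) (hc : c ^ 4 = 1) (e : ℝ) (he : e ^ 2 = 1) (τ : ℝ) (z : Fin n → ℂ) (u : ℂ) (s : ℝ) :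
    bfun C n τ (c • z) ((e : ℂ) * c * u) (e * s) = 0 ↔ bfun C n τ z u s = 0 := by
  have hn : Complex.normSq c = 1 := normSq_of_pow_four c hc
  have he' : (e : ℂ) ^ 2 = 1 := by exact_mod_cast he
  have h1 : nz (c • z) = nz z := by rw [nz_smulC, hn, one_mul]
  have h2 : Complex.normSq ((e : ℂ) * c * u) = Complex.normSq u := by
    rw [Complex.normSq_mul, Complex.normSq_mul, hn, Complex.normSq_ofReal]
    have : e * e = 1 := by rw [← sq]; exact he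
    rw [this]; ring
  have h3 : (e * s) ^ 2 = s ^ 2 := by rw [mul_pow, he, one_mul]
  rw [bfun_iff, bfun_iff, h1, h2, h3]
  have key : ∃ η : ℝ, η ≠ 0 ∧ c ^ 2 = (η : ℂ) := by
    rcases sq_of_pow_four c hc with h | h
    · exact ⟨1, one_ne_zero, by simp [h]⟩
    · exact ⟨-1, by norm_num, by simp [h]⟩
  obtain ⟨η, hη, hcη⟩ := key
  have h4 : fn C n (c • z) = η • fn C n z := fn_smulC C c η hcη z
  have h5 : ((e : ℂ) * c * u) ^ 2 = η • (u ^ 2) := by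
    rw [Complex.real_smul, ← hcη]
    linear_combination (c ^ 2 * u ^ 2) * he'
  have h6 : (1 - (1 - τ) * Complex.normSq u) • fn C n (c • z) + (1 - τ) • C n (((e : ℂ) * c * u) ^ 2)
      = η • ((1 - (1 - τ) * Complex.normSq u) • fn C n z + (1 - τ) • C n (u ^ 2)) := by
    rw [h4, h5, map_smul, smul_add, smul_comm _ η, smul_comm _ η]
  rw [h6, smul_eq_zero_iff_right hη]

theorem s_ne (hC : GoodC C) (z : Fin n → ℂ) (u : ℂ) (s : ℝ) (h : bfun C n 0 z u s = 0) : s ≠ 0 := by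
  rw [bfun_iff] at h
  obtain ⟨h1, h2, h3⟩ := h
  intro hs
  rw [hs] at h2
  have hu : Complex.normSq u = 1 := by simpa using h2
  rw [hu] at h3
  have h4 : C n (u ^ 2) = 0 := by simpa using h3
  have h5 := hC.inj n _ h4
  have h6 : u = 0 := by simpa using h5
  rw [h6] at hu
  simp at hu

private theorem fn_th_zero (z : Fin n → ℂ) (u : ℂ) (s : ℝ) (hs : s ≠ 0) :
    fn C (n + 1) (th 0 z u s) = s ^ 2 • fn C n z + C n (u ^ 2) := by
  unfold th
  rw [fn_sn, fn_smul]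
  have h2 : (s / |s|) ^ 2 = 1 := by
    rw [div_pow, sq_abs]; exact div_self (pow_ne_zero 2 hs)
  have h3 : ((s / |s| * (1 - 0 + 0 * |s|)) • u) ^ 2 = u ^ 2 := by
    have h4 : s / |s| * (1 - 0 + 0 * |s|) = s / |s| := by ring
    rw [h4, smul_pow, h2, one_smul]
  have h4 : ((1 - 0) * |s| + 0) ^ 2 = s ^ 2 := by
    rw [sub_zero, one_mul, add_zero, sq_abs]
  rw [h3, h4]

theorem Th_zero (hC : GoodC C) (z : Fin n → ℂ) (u : ℂ) (s : ℝ) (h : bfun C n 0 z u s = 0) :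
    Th 0 z u s = th 0 z u s ∧ nz (th 0 z u s) = 1 ∧ fn C (n + 1) (th 0 z u s) = 0 := by
  have hs := s_ne C hC z u s h
  rw [bfun_iff] at h
  obtain ⟨h1, h2, h3⟩ := h
  have h4 : nz (th 0 z u s) = 1 := by
    rw [nz_th_zero z u s hs, h1]; linarith
  refine ⟨nrm_of_one _ h4, h4, ?_⟩
  rw [fn_th_zero C z u s hs]
  have h5 : s ^ 2 = 1 - (1 - 0) * Complex.normSq u := by linarith
  rw [h5]
  simpa using h3

/-- Inversion of `th 0`: every zero of `f^(n+1)` on the sphere comes from the base. -/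
theorem th_zero_surj (hC : GoodC C) (v : Fin (n + 1) → ℂ) (hv : nz v = 1) (hf : fn C (n + 1) v = 0) :
    ∃ (z : Fin n → ℂ) (u : ℂ) (s : ℝ), bfun C n 0 z u s = 0 ∧ th 0 z u s = v := by
  obtain ⟨z', w, rfl⟩ := sn_surj v
  rw [nz_sn] at hv
  rw [fn_sn] at hf
  have hz0 : nz z' ≠ 0 := by
    intro h0
    have hz' : z' = 0 := (nz_eq_zero z').1 h0
    have hfn : fn C n z' = 0 := by
      rw [hz']
      have := fn_smul C (0 : ℝ) (0 : Fin n → ℂ)
      rw [zero_smul] at this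
      rw [this]
      norm_num
    rw [hfn, zero_add] at hf
    have h5 := hC.inj n _ hf
    have h6 : w = 0 := by simpa using h5
    rw [h0, h6] at hv
    simp at hv
  have hpos : 0 < nz z' := lt_of_le_of_ne (nz_nonneg z') (Ne.symm hz0)
  set s : ℝ := Real.sqrt (nz z') with hs
  have hspos : 0 < s := Real.sqrt_pos.mpr hpos
  have hs2 : s ^ 2 = nz z' := Real.sq_sqrt hpos.le
  have habs : |s| = s := abs_of_pos hspos
  refine ⟨s⁻¹ • z', w, s, ?_, ?_⟩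
  · rw [bfun_iff]
    refine ⟨?_, ?_, ?_⟩
    · rw [nz_smul, inv_pow, hs2]
      exact inv_mul_cancel₀ hz0
    · rw [hs2]; linarith
    · rw [fn_smul, inv_pow, hs2]
      have h7 : 1 - (1 - 0) * Complex.normSq w = nz z' := by linarith
      rw [h7, smul_smul, mul_inv_cancel₀ hz0, one_smul]
      simpa using hf
  · unfold th
    rw [habs]
    congr 1
    · rw [smul_smul]
      have : ((1 - 0) * s + 0) * s⁻¹ = 1 := by
        rw [sub_zero, one_mul, add_zero]; exact mul_inv_cancel₀ hspos.ne'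
      rw [this, one_smul]
    · have : s / s * (1 - 0 + 0 * s) = 1 := by
        rw [div_self hspos.ne']; ring
      rw [this, one_smul]

theorem contDiffOn_Phi : ContDiffOn ℝ ∞ (fun x : (Fin n → ℂ) × (ℂ × ℝ) => Phi x.1 x.2.1 x.2.2)
    {x | nz x.1 ≠ 0} := by
  have h1 : ContDiff ℝ ∞ (fun x : (Fin n → ℂ) × (ℂ × ℝ) => sn x.1 (x.2.2 • x.2.1)) := by
    have h2 : ContDiff ℝ ∞ (fun x : (Fin n → ℂ) × (ℂ × ℝ) => (x.1, x.2.2 • x.2.1)) :=
      contDiff_fst.prodMk ((contDiff_snd.comp contDiff_snd).smul (contDiff_fst.comp contDiff_snd))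
    exact contDiff_sn.comp h2
  refine (contDiffOn_nrm (n := n + 1)).comp h1.contDiffOn ?_
  intro x hx
  show nz (sn x.1 (x.2.2 • x.2.1)) ≠ 0
  rw [nz_sn]
  have h1 : 0 < nz x.1 := lt_of_le_of_ne (nz_nonneg _) (Ne.symm hx)
  have h2 := Complex.normSq_nonneg (x.2.2 • x.2.1)
  exact (add_pos_of_pos_of_nonneg h1 h2).ne'

private theorem contDiffOn_th : ContDiffOn ℝ ∞
    (fun x : ((Fin n → ℂ) × (ℂ × ℝ)) × ℝ => th x.2 x.1.1 x.1.2.1 x.1.2.2) {x | x.1.2.2 ≠ 0} := by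
  have hk : ContDiffOn ℝ ∞ (fun x : ((Fin n → ℂ) × (ℂ × ℝ)) × ℝ => x.2) {x | x.1.2.2 ≠ 0} :=
    contDiff_snd.contDiffOn
  have hz : ContDiffOn ℝ ∞ (fun x : ((Fin n → ℂ) × (ℂ × ℝ)) × ℝ => x.1.1) {x | x.1.2.2 ≠ 0} :=
    (contDiff_fst.comp contDiff_fst).contDiffOn
  have hu : ContDiffOn ℝ ∞ (fun x : ((Fin n → ℂ) × (ℂ × ℝ)) × ℝ => x.1.2.1) {x | x.1.2.2 ≠ 0} :=
    (contDiff_fst.comp (contDiff_snd.comp contDiff_fst)).contDiffOn
  have hs : ContDiffOn ℝ ∞ (fun x : ((Fin n → ℂ) × (ℂ × ℝ)) × ℝ => x.1.2.2) {x | x.1.2.2 ≠ 0} :=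
    (contDiff_snd.comp (contDiff_snd.comp contDiff_fst)).contDiffOn
  have ha : ContDiffOn ℝ ∞ (fun x : ((Fin n → ℂ) × (ℂ × ℝ)) × ℝ => |x.1.2.2|) {x | x.1.2.2 ≠ 0} := by
    intro x hx
    have h0 : ContDiffAt ℝ ∞ (abs : ℝ → ℝ) x.1.2.2 := contDiffAt_abs hx
    have h1 : ContDiffAt ℝ ∞ (fun y : ((Fin n → ℂ) × (ℂ × ℝ)) × ℝ => y.1.2.2) x :=
      (contDiff_snd.comp (contDiff_snd.comp contDiff_fst)).contDiffAt
    exact (ContDiffAt.comp x h0 h1).contDiffWithinAt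
  have hd : ContDiffOn ℝ ∞ (fun x : ((Fin n → ℂ) × (ℂ × ℝ)) × ℝ => x.1.2.2 / |x.1.2.2|) {x | x.1.2.2 ≠ 0} :=
    hs.div ha (fun x hx => abs_ne_zero.mpr hx)
  have h1 : ContDiffOn ℝ ∞ (fun x : ((Fin n → ℂ) × (ℂ × ℝ)) × ℝ =>
      ((1 - x.2) * |x.1.2.2| + x.2) • x.1.1) {x | x.1.2.2 ≠ 0} :=
    (((contDiffOn_const.sub hk).mul ha).add hk).smul hz
  have h2 : ContDiffOn ℝ ∞ (fun x : ((Fin n → ℂ) × (ℂ × ℝ)) × ℝ =>
      (x.1.2.2 / |x.1.2.2| * (1 - x.2 + x.2 * |x.1.2.2|)) • x.1.2.1) {x | x.1.2.2 ≠ 0} :=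
    (hd.mul ((contDiffOn_const.sub hk).add (hk.mul ha))).smul hu
  exact contDiff_sn.comp_contDiffOn (h1.prodMk h2)

theorem isOpen_Th : IsOpen {x : ((Fin n → ℂ) × (ℂ × ℝ)) × ℝ | x.1.2.2 ≠ 0 ∧ nz (th x.2 x.1.1 x.1.2.1 x.1.2.2) ≠ 0} := by
  have h0 : IsOpen {x : ((Fin n → ℂ) × (ℂ × ℝ)) × ℝ | x.1.2.2 ≠ 0} :=
    isOpen_ne_fun (by fun_prop) continuous_const
  have h1 : ContinuousOn (fun x : ((Fin n → ℂ) × (ℂ × ℝ)) × ℝ => nz (th x.2 x.1.1 x.1.2.1 x.1.2.2))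
      {x | x.1.2.2 ≠ 0} :=
    (contDiff_nz (n := n + 1)).continuous.comp_continuousOn contDiffOn_th.continuousOn
  exact h1.isOpen_inter_preimage h0 isOpen_compl_singleton

theorem contDiffOn_Th : ContDiffOn ℝ ∞ (fun x : ((Fin n → ℂ) × (ℂ × ℝ)) × ℝ => Th x.2 x.1.1 x.1.2.1 x.1.2.2)
    {x | x.1.2.2 ≠ 0 ∧ nz (th x.2 x.1.1 x.1.2.1 x.1.2.2) ≠ 0} :=
  (contDiffOn_nrm (n := n + 1)).comp (contDiffOn_th.mono fun _ hx => hx.1) fun _ hx => hx.2

theorem contDiff_bfun : ContDiff ℝ ∞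
    (fun x : ((Fin n → ℂ) × (ℂ × ℝ)) × ℝ => bfun C n x.2 x.1.1 x.1.2.1 x.1.2.2) := by
  have hz : ContDiff ℝ ∞ (fun x : ((Fin n → ℂ) × (ℂ × ℝ)) × ℝ => x.1.1) := contDiff_fst.comp contDiff_fst
  have hu : ContDiff ℝ ∞ (fun x : ((Fin n → ℂ) × (ℂ × ℝ)) × ℝ => x.1.2.1) :=
    contDiff_fst.comp (contDiff_snd.comp contDiff_fst)
  have hs : ContDiff ℝ ∞ (fun x : ((Fin n → ℂ) × (ℂ × ℝ)) × ℝ => x.1.2.2) :=
    contDiff_snd.comp (contDiff_snd.comp contDiff_fst)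
  have hk : ContDiff ℝ ∞ (fun x : ((Fin n → ℂ) × (ℂ × ℝ)) × ℝ => 1 - x.2) :=
    contDiff_const.sub contDiff_snd
  have hN : ContDiff ℝ ∞ (fun w : ℂ => Complex.normSq w) := by
    have h1 : ContDiff ℝ ∞ (fun w : ℂ => w.re) := Complex.reCLM.contDiff
    have h2 : ContDiff ℝ ∞ (fun w : ℂ => w.im) := Complex.imCLM.contDiff
    have h3 : (fun w : ℂ => Complex.normSq w) = fun w : ℂ => w.re * w.re + w.im * w.im := by
      funext w; exact Complex.normSq_apply w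
    rw [h3]
    exact (h1.mul h1).add (h2.mul h2)
  have hNu : ContDiff ℝ ∞ (fun x : ((Fin n → ℂ) × (ℂ × ℝ)) × ℝ => Complex.normSq x.1.2.1) := hN.comp hu
  unfold bfun
  refine ContDiff.prodMk ?_ (ContDiff.prodMk ?_ ?_)
  · exact (contDiff_nz.comp hz).sub contDiff_const
  · exact (hNu.add (hs.pow 2)).sub contDiff_const
  · have h1 : ContDiff ℝ ∞ (fun x : ((Fin n → ℂ) × (ℂ × ℝ)) × ℝ => 1 - (1 - x.2) * Complex.normSq x.1.2.1) :=
      contDiff_const.sub (hk.mul hNu)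
    have h2 : ContDiff ℝ ∞ (fun x : ((Fin n → ℂ) × (ℂ × ℝ)) × ℝ => fn C n x.1.1) := (contDiff_fn C).comp hz
    have h3 : ContDiff ℝ ∞ (fun x : ((Fin n → ℂ) × (ℂ × ℝ)) × ℝ => C n (x.1.2.1 ^ 2)) :=
      (C n).contDiff.comp (hu.pow 2)
    exact (h1.smul h2).add (hk.smul h3)

private theorem norm_le_of_bfun (τ : ℝ) (z : Fin n → ℂ) (u : ℂ) (s : ℝ) (h : bfun C n τ z u s = 0) :
    ‖(z, (u, s))‖ ≤ 1 := by
  rw [bfun_iff] at h
  obtain ⟨h1, h2, -⟩ := h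
  have hz : ‖z‖ ≤ 1 := by
    rw [pi_norm_le_iff_of_nonneg zero_le_one]
    intro i
    have h3 : Complex.normSq (z i) ≤ nz z :=
      Finset.single_le_sum (f := fun i => Complex.normSq (z i)) (fun i _ => Complex.normSq_nonneg _)
        (Finset.mem_univ i)
    rw [h1, Complex.normSq_eq_norm_sq] at h3
    nlinarith [norm_nonneg (z i)]
  have hu : ‖u‖ ≤ 1 := by
    rw [Complex.normSq_eq_norm_sq] at h2
    nlinarith [norm_nonneg u, sq_nonneg s]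
  have hs : ‖s‖ ≤ 1 := by
    rw [Real.norm_eq_abs]
    have := Complex.normSq_nonneg u
    exact abs_le_one_iff_mul_self_le_one.mpr (by nlinarith)
  rw [Prod.norm_def, Prod.norm_def]
  exact max_le hz (max_le hu hs)

theorem isCompact_base (τ : ℝ) : IsCompact {x : (Fin n → ℂ) × (ℂ × ℝ) | bfun C n τ x.1 x.2.1 x.2.2 = 0} := by
  refine IsCompact.of_isClosed_subset (isCompact_closedBall (0 : (Fin n → ℂ) × (ℂ × ℝ)) 1) ?_ ?_
  · have h1 : Continuous (fun x : (Fin n → ℂ) × (ℂ × ℝ) => bfun C n τ x.1 x.2.1 x.2.2) :=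
      (contDiff_bfun C (n := n)).continuous.comp (continuous_id.prodMk continuous_const)
    exact isClosed_eq h1 continuous_const
  · rintro ⟨z, u, s⟩ hx
    rw [mem_closedBall_zero_iff]
    exact norm_le_of_bfun C τ z u s hx

theorem isCompact_base' : IsCompact {x : ((Fin n → ℂ) × (ℂ × ℝ)) × ℝ |
    bfun C n x.2 x.1.1 x.1.2.1 x.1.2.2 = 0 ∧ 0 ≤ x.2 ∧ x.2 ≤ 1} := by
  refine IsCompact.of_isClosed_subset (isCompact_closedBall (0 : ((Fin n → ℂ) × (ℂ × ℝ)) × ℝ) 1) ?_ ?_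
  · have h1 : Continuous (fun x : ((Fin n → ℂ) × (ℂ × ℝ)) × ℝ => bfun C n x.2 x.1.1 x.1.2.1 x.1.2.2) :=
      (contDiff_bfun C (n := n)).continuous
    exact (isClosed_eq h1 continuous_const).inter
      ((isClosed_le continuous_const continuous_snd).inter (isClosed_le continuous_snd continuous_const))
  · rintro ⟨⟨z, u, s⟩, τ⟩ ⟨hx, h0, h1⟩
    rw [mem_closedBall_zero_iff, Prod.norm_def]
    refine max_le (norm_le_of_bfun C τ z u s hx) ?_
    rw [Real.norm_eq_abs, abs_of_nonneg h0]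
    exact h1

end Pool.Agent.Helper48.BPF
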