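import Pool.Agent.Helper48.BPF.Eqv

/-!
PROJECT BP, block F, module BP-F5: regularity of the equations of the base.

NOTATION. `f = fn C n z`, `k = 1 - τ`, third component `D = (1 - k|u|²) f(z) + k C_n(u²)`. On the zero set `nz z = 1`, `|u|² + s² = 1`, `D = 0`.
The derivative in the direction `(v, (y, r), t)` is `(2 Re<z,v>, 2 Re(ū y) + 2 s r, (1 - k|u|²) df(v) - 2k Re(ū y) f + k C_n(2 u y) + t (|u|² f - C_n(u²)))`, `df(v) = ∑ C_l(2 z_l v_l)`
(`t` is the direction of `τ`, `dk = - t`).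

`reg_sphere`. Given `(a, w)`: `GoodC.span` for `s = {l < n | z_l ≠ 0}` (nonempty because `nz z = 1`), `w_l = z_l²` (`fn = 0`) gives `ζ` with `∑_{l ∈ s} C_l ζ_l = w`; take
`v_l = ζ_l / (2 z_l)` on `s`, `0` elsewhere, plus a real multiple of `z` (`df(z) = 2 f = 0`, `2 Re<z,z> = 2`).

`reg_base` (all `τ`). First `1 - k|u|² ≠ 0`: otherwise `k C_n(u²) = 0` with `k ≠ 0`, `u ≠ 0`, contradiction to `inj`. CASE `k = 0` or `u = 0`: `D = 0` gives `f = 0`, use `v` as in
`reg_sphere` (divide by `1 - k|u|²`) and the radial directions `z`, `(u, s)` for the first two components (they do not change the third one at `f = 0`, `k C_n(u²) = 0`).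
CASE `k ≠ 0`, `u ≠ 0`: the image `I` of the derivative contains (0,0,x) for `x = C_n(u²)`: the direction `t = 1` gives `|u|² f - C_n(u²) = - C_n(u²) / (1 - k|u|²)` since
`f = - k C_n(u²) / (1 - k|u|²)`. It contains `(0,0,C_n(i u²))`: `y = i u`, `r = 0` (`Re(ū i u) = 0`). Radial directions: `z` gives `(2, 0, 2 (1 - k|u|²) f)`, `(u, s)` gives `(0, 2, *)` with `*` in
`ℝ C_n(u²)`; so `(1,0,0)`, `(0,1,0)` are in `I` modulo `(0,0,C_n(u²))`. It remains `(0,0,w)`, `w` arbitrary: `span` for `s = {l < n | z_l ≠ 0} ∪ {n}`, `w_l = (1 - k|u|²) z_l²`, `w_n = k u²`; `ζ_n = α u² + β i u²`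
with real `α, β`; `v_l = ζ_l / (2 z_l (1 - k|u|²))`; the first component of the image of `v` is corrected by `(1,0,0)`.

`reg_slice`, `τ = 1`: `D = f`, as in the case `k = 0`. `τ = 0`: `k = 1`, `s ≠ 0` (`s_ne`), `1 - |u|² = s²`; the direction `t` is replaced by `y = u`, `r = - |u|²/s` (tangent to the sphere), which gives
`-2|u|² f + 2 C_n(u²) = 2 C_n(u²) / (1 - |u|²)`; the rest is the same.
-/

set_option autoImplicit false

namespace Pool.Agent.Helper48.BPF

open Pool.Agent.Helper79.BP Pool.Agent.Helper93.BPF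
open scoped ContDiff Topology

variable {n p : ℕ} (C : ℕ → ℂ →L[ℝ] (Fin p → ℝ))

theorem span0 (hC : GoodC C) (z : Fin n → ℂ) (hz : nz z = 1) (hf : fn C n z = 0) (w : Fin p → ℝ) :
    ∃ v : Fin n → ℂ, ∑ l : Fin n, C l (2 * z l * v l) = w := by
  classical
  set zN : ℕ → ℂ := fun l => if h : l < n then z ⟨l, h⟩ else 0 with hzN
  have hzv : ∀ l : Fin n, zN l = z l := by
    intro l
    simp [hzN, l.2]
  set s : Finset ℕ := (Finset.range n).filter (fun l => zN l ≠ 0) with hs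
  have hsum : ∀ G : ℕ → ℂ, ∑ l ∈ s, C l (G l) = ∑ l : Fin n, C l (if z l ≠ 0 then G l else 0) := by
    intro G
    rw [hs, Finset.sum_filter, Finset.sum_range]
    apply Finset.sum_congr rfl
    intro l _
    rw [hzv l]
    by_cases h : z l ≠ 0
    · simp [h]
    · simp [h]
  have hne : s.Nonempty := by
    by_contra hcon
    rw [Finset.not_nonempty_iff_eq_empty] at hcon
    have h0 : z = 0 := by
      funext l
      by_contra hl
      have hm : (l : ℕ) ∈ s := by
        rw [hs, Finset.mem_filter, Finset.mem_range]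
        refine ⟨l.2, ?_⟩
        rw [hzv l]
        exact hl
      rw [hcon] at hm
      simp at hm
    have h1 := (nz_eq_zero z).2 h0
    rw [hz] at h1
    exact one_ne_zero h1
  obtain ⟨ζ, hζ⟩ := hC.span s (fun l => zN l ^ 2) hne
    (by
      intro l hl
      rw [hs, Finset.mem_filter] at hl
      exact pow_ne_zero 2 hl.2)
    (by
      rw [hsum]
      rw [← hf, fn]
      apply Finset.sum_congr rfl
      intro l _
      rw [hzv l]
      by_cases h : z l ≠ 0
      · simp [h]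
      · push_neg at h
        simp [h]) w
  refine ⟨fun l => if z l ≠ 0 then ζ l / (2 * z l) else 0, ?_⟩
  rw [← hζ, hsum]
  apply Finset.sum_congr rfl
  intro l _
  congr 1
  by_cases h : z l ≠ 0
  · simp only [h, ne_eq, not_false_eq_true, if_true]
    field_simp
  · simp [h]

theorem span1 (hC : GoodC C) (z : Fin n → ℂ) (u : ℂ) (hu : u ≠ 0) (c k : ℝ) (hc : c ≠ 0) (hk : k ≠ 0)
    (hD : c • fn C n z + k • C n (u ^ 2) = 0) (w : Fin p → ℝ) :
    ∃ (v : Fin n → ℂ) (ζ : ℂ), c • (∑ l : Fin n, C l (2 * z l * v l)) + C n ζ = w := by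
  classical
  set zN : ℕ → ℂ := fun l => if h : l < n then z ⟨l, h⟩ else 0 with hzN
  have hzv : ∀ l : Fin n, zN l = z l := by
    intro l
    simp [hzN, l.2]
  set s : Finset ℕ := (Finset.range n).filter (fun l => zN l ≠ 0) with hs
  have hsum : ∀ G : ℕ → ℂ, ∑ l ∈ s, C l (G l) = ∑ l : Fin n, C l (if z l ≠ 0 then G l else 0) := by
    intro G
    rw [hs, Finset.sum_filter, Finset.sum_range]
    apply Finset.sum_congr rfl
    intro l _
    rw [hzv l]
    by_cases h : z l ≠ 0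
    · simp [h]
    · simp [h]
  have hns : n ∉ s := by
    rw [hs, Finset.mem_filter, Finset.mem_range]
    intro h
    exact lt_irrefl _ h.1
  have hcC : (c : ℂ) ≠ 0 := by exact_mod_cast hc
  have hkC : (k : ℂ) ≠ 0 := by exact_mod_cast hk
  obtain ⟨ζ, hζ⟩ := hC.span (insert n s) (fun l => if l = n then (k : ℂ) * u ^ 2 else (c : ℂ) * zN l ^ 2)
    (Finset.insert_nonempty _ _)
    (by
      intro l hl
      rw [Finset.mem_insert] at hl
      by_cases h : l = n
      · simp only [h, if_true]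
        exact mul_ne_zero hkC (pow_ne_zero 2 hu)
      · simp only [h, if_false]
        rcases hl with hl | hl
        · exact absurd hl h
        rw [hs, Finset.mem_filter] at hl
        exact mul_ne_zero hcC (pow_ne_zero 2 hl.2))
    (by
      rw [Finset.sum_insert hns]
      have h1 : ∑ l ∈ s, C l ((fun l => if l = n then (k : ℂ) * u ^ 2 else (c : ℂ) * zN l ^ 2) l) =
          c • fn C n z := by
        rw [hsum, fn, Finset.smul_sum]
        apply Finset.sum_congr rfl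
        intro l _
        have hl : (l : ℕ) ≠ n := ne_of_lt l.2
        rw [← (C l).map_smul]
        congr 1
        simp only [hl, if_false, hzv l, Complex.real_smul]
        by_cases h : z l ≠ 0
        · simp [h]
        · push_neg at h
          simp [h]
      rw [h1]
      simp only [if_true]
      rw [← hD, ← (C n).map_smul, Complex.real_smul, add_comm]) w
  rw [Finset.sum_insert hns, hsum] at hζ
  refine ⟨fun l => if z l ≠ 0 then ζ l / (2 * z l * c) else 0, ζ n, ?_⟩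
  rw [← hζ, add_comm]
  congr 1
  rw [Finset.smul_sum]
  apply Finset.sum_congr rfl
  intro l _
  rw [← (C l).map_smul]
  congr 1
  rw [Complex.real_smul]
  by_cases h : z l ≠ 0
  · simp only [h, ne_eq, not_false_eq_true, if_true]
    field_simp
  · simp [h]

/-- The real scalar product of `ℂ`. -/
noncomputable def ip (a b : ℂ) : ℝ := a.re * b.re + a.im * b.im

theorem core (hC : GoodC C) (z : Fin n → ℂ) (u : ℂ) (s k : ℝ) (hz : nz z = 1)
    (hus : Complex.normSq u + s ^ 2 = 1) (hD : (1 - k * Complex.normSq u) • fn C n z + k • C n (u ^ 2) = 0)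
    (I : Submodule ℝ (ℝ × ℝ × (Fin p → ℝ)))
    (hA : ∀ v : Fin n → ℂ, (2 * ∑ i, ((z i).re * (v i).re + (z i).im * (v i).im), (0 : ℝ),
      (1 - k * Complex.normSq u) • ∑ l : Fin n, C l (2 * z l * v l)) ∈ I)
    (hB : ∀ (y : ℂ) (r : ℝ), ((0 : ℝ), 2 * ip u y + 2 * s * r,
      (-(k * (2 * ip u y))) • fn C n z + k • C n (2 * u * y)) ∈ I)
    (hT : k ≠ 0 → u ≠ 0 → ((0 : ℝ), (0 : ℝ), C n (u ^ 2)) ∈ I) : I = ⊤ := by
  set c : ℝ := 1 - k * Complex.normSq u with hc
  have hip : ip u u = Complex.normSq u := by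
    rw [ip, Complex.normSq_apply]
  -- c ≠ 0
  have hc0 : c ≠ 0 := by
    intro h0
    rw [h0, zero_smul, zero_add] at hD
    have hk : k ≠ 0 := by
      intro hk
      rw [hk] at hc
      rw [hc] at h0
      simp at h0
    have h1 : C n (u ^ 2) = 0 := (smul_eq_zero.1 hD).resolve_left hk
    have h2 : u ^ 2 = 0 := hC.inj n _ h1
    have h3 : u = 0 := by simpa using h2
    rw [hc, h3] at h0
    simp at h0
  -- directions z and (u, s)
  have hz1 : ((2 : ℝ), (0 : ℝ), (2 : ℝ) • (c • fn C n z)) ∈ I := by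
    have h1 := hA z
    have e1 : 2 * ∑ i, ((z i).re * (z i).re + (z i).im * (z i).im) = 2 := by
      have : ∑ i, ((z i).re * (z i).re + (z i).im * (z i).im) = nz z := by
        rw [nz]
        apply Finset.sum_congr rfl
        intro i _
        rw [Complex.normSq_apply]
      rw [this, hz, mul_one]
    have e2 : ∑ l : Fin n, C l (2 * z l * z l) = (2 : ℝ) • fn C n z := by
      rw [fn, Finset.smul_sum]
      apply Finset.sum_congr rfl
      intro l _
      rw [← (C l).map_smul]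
      congr 1
      rw [Complex.real_smul]
      push_cast
      ring
    rw [e1, e2, smul_comm] at h1
    exact h1
  have hu1 : ((0 : ℝ), (2 : ℝ), (-(k * (2 * Complex.normSq u))) • fn C n z + (2 * k) • C n (u ^ 2)) ∈ I := by
    have h1 := hB u s
    have e1 : 2 * ip u u + 2 * s * s = 2 := by
      rw [hip]
      nlinarith
    have e2 : k • C n (2 * u * u) = (2 * k) • C n (u ^ 2) := by
      rw [mul_comm 2 k, mul_smul, ← (C n).map_smul (2 : ℝ)]
      congr 2
      rw [Complex.real_smul]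
      push_cast
      ring
    rw [e1, e2, hip] at h1
    exact h1
  -- reduction
  suffices H : ((1 : ℝ), (0 : ℝ), (0 : Fin p → ℝ)) ∈ I ∧ ((0 : ℝ), (1 : ℝ), (0 : Fin p → ℝ)) ∈ I ∧
      ∀ w : Fin p → ℝ, ((0 : ℝ), (0 : ℝ), w) ∈ I by
    rw [eq_top_iff]
    rintro ⟨a, b, w⟩ -
    have h1 := I.add_mem (I.add_mem (I.smul_mem a H.1) (I.smul_mem b H.2.1)) (H.2.2 w)
    simpa using h1
  by_cases hcase : k = 0 ∨ u = 0
  · have hk0 : k • C n (u ^ 2) = 0 := by
      rcases hcase with h | h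
      · rw [h, zero_smul]
      · rw [h]
        simp
    have hf : fn C n z = 0 := by
      rw [hk0, add_zero] at hD
      exact (smul_eq_zero.1 hD).resolve_left hc0
    have h100 : ((1 : ℝ), (0 : ℝ), (0 : Fin p → ℝ)) ∈ I := by
      have h1 := I.smul_mem (1 / 2 : ℝ) hz1
      rw [hf] at h1
      simpa using h1
    refine ⟨h100, ?_, ?_⟩
    · have h1 := I.smul_mem (1 / 2 : ℝ) hu1
      rw [hf, mul_smul, hk0] at h1
      simpa using h1
    · intro w
      obtain ⟨v, hv⟩ := span0 C hC z hz hf (c⁻¹ • w)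
      have h1 := hA v
      rw [hv, smul_smul, mul_inv_cancel₀ hc0, one_smul] at h1
      have h2 := I.sub_mem h1
        (I.smul_mem (2 * ∑ i, ((z i).re * (v i).re + (z i).im * (v i).im)) h100)
      simpa using h2
  · push_neg at hcase
    obtain ⟨hk, hu⟩ := hcase
    have hx := hT hk hu
    have hix : ((0 : ℝ), (0 : ℝ), C n (Complex.I * u ^ 2)) ∈ I := by
      have h1 := hB (Complex.I * u) 0
      have e1 : ip u (Complex.I * u) = 0 := by
        simp only [ip, Complex.mul_re, Complex.mul_im, Complex.I_re, Complex.I_im]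
        ring
      have e2 : C n (2 * u * (Complex.I * u)) = (2 : ℝ) • C n (Complex.I * u ^ 2) := by
        rw [← (C n).map_smul]
        congr 1
        rw [Complex.real_smul]
        push_cast
        ring
      rw [e1, e2] at h1
      simp only [mul_zero, add_zero, neg_zero, zero_smul, zero_add] at h1
      have h2 := I.smul_mem ((2 * k)⁻¹ : ℝ) h1
      simp only [Prod.smul_mk, smul_eq_mul, mul_zero, smul_smul] at h2
      have e3 : (2 * k)⁻¹ * (k * 2) = 1 := by
        field_simp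
      rw [e3, one_smul] at h2
      exact h2
    have hcf : c • fn C n z = (-k) • C n (u ^ 2) := by
      rw [neg_smul]
      exact eq_neg_of_add_eq_zero_left hD
    have hff : fn C n z = (c⁻¹ * (-k)) • C n (u ^ 2) := by
      rw [mul_smul, ← hcf, smul_smul, inv_mul_cancel₀ hc0, one_smul]
    have h100 : ((1 : ℝ), (0 : ℝ), (0 : Fin p → ℝ)) ∈ I := by
      have h1 := I.sub_mem hz1 (I.smul_mem (2 * (-k)) hx)
      rw [hcf, smul_smul] at h1
      have h2 := I.smul_mem (1 / 2 : ℝ) h1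
      convert h2 using 1
      ext <;> simp
    refine ⟨h100, ?_, ?_⟩
    · have h1 := I.sub_mem hu1
        (I.smul_mem ((-(k * (2 * Complex.normSq u))) * (c⁻¹ * (-k)) + 2 * k) hx)
      rw [hff, smul_smul, ← add_smul] at h1
      have h2 := I.smul_mem (1 / 2 : ℝ) h1
      simpa using h2
    · intro w
      obtain ⟨v, ζ, hv⟩ := span1 C hC z u hu c k hc0 hk hD w
      have hu2 : u ^ 2 ≠ 0 := pow_ne_zero 2 hu
      have hζ : C n ζ = (ζ / u ^ 2).re • C n (u ^ 2) + (ζ / u ^ 2).im • C n (Complex.I * u ^ 2) := by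
        rw [← (C n).map_smul, ← (C n).map_smul, ← (C n).map_add]
        congr 1
        rw [Complex.real_smul, Complex.real_smul]
        have h1 : ζ = (ζ / u ^ 2) * u ^ 2 := by
          field_simp
        have h2 : (ζ / u ^ 2) = ((ζ / u ^ 2).re : ℂ) + ((ζ / u ^ 2).im : ℂ) * Complex.I :=
          (Complex.re_add_im _).symm
        calc ζ = (ζ / u ^ 2) * u ^ 2 := h1
          _ = (((ζ / u ^ 2).re : ℂ) + ((ζ / u ^ 2).im : ℂ) * Complex.I) * u ^ 2 := by rw [← h2]
          _ = _ := by ring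
      have h1 := hA v
      have h2 := I.sub_mem h1
        (I.smul_mem (2 * ∑ i, ((z i).re * (v i).re + (z i).im * (v i).im)) h100)
      have h3 := I.add_mem (I.smul_mem ((ζ / u ^ 2).re) hx) (I.smul_mem ((ζ / u ^ 2).im) hix)
      have h4 := I.add_mem h2 h3
      have h5 : ((0 : ℝ), (0 : ℝ), c • (∑ l : Fin n, C l (2 * z l * v l)) + C n ζ) ∈ I := by
        rw [hζ]
        simpa using h4
      rw [hv] at h5
      exact h5

theorem nz_hasFDerivAt (z : Fin n → ℂ) : HasFDerivAt (nz : (Fin n → ℂ) → ℝ) (fderiv ℝ nz z) z :=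
  ((contDiff_nz (n := n)).differentiable (by simp) z).hasFDerivAt

theorem fn_hasFDerivAt (z : Fin n → ℂ) : HasFDerivAt (fn C n) (fderiv ℝ (fn C n) z) z :=
  ((contDiff_fn C (n := n)).differentiable (by simp) z).hasFDerivAt

theorem reg_sphere (hC : GoodC C) (z : Fin n → ℂ) (hz : nz z = 1) (hf : fn C n z = 0) :
    Function.Surjective (fderiv ℝ (fun z : Fin n → ℂ => (nz z - 1, fn C n z)) z) := by
  have hd : HasFDerivAt (fun z : Fin n → ℂ => (nz z - 1, fn C n z))
      ((fderiv ℝ nz z).prod (fderiv ℝ (fn C n) z)) z :=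
    ((nz_hasFDerivAt z).sub_const 1).prodMk (fn_hasFDerivAt C z)
  rw [hd.fderiv]
  rintro ⟨a, w⟩
  obtain ⟨v, hv⟩ := span0 C hC z hz hf w
  have hzz : fderiv ℝ nz z z = 2 := by
    rw [hasFDerivAt_nz]
    have : ∑ i, ((z i).re * (z i).re + (z i).im * (z i).im) = nz z := by
      rw [nz]
      apply Finset.sum_congr rfl
      intro i _
      rw [Complex.normSq_apply]
    rw [this, hz, mul_one]
  have hfz : fderiv ℝ (fn C n) z z = 0 := by
    rw [hasFDerivAt_fn]
    have : ∑ l : Fin n, C l (2 * z l * z l) = (2 : ℝ) • fn C n z := by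
      rw [fn, Finset.smul_sum]
      apply Finset.sum_congr rfl
      intro l _
      rw [← (C l).map_smul]
      congr 1
      rw [Complex.real_smul]
      push_cast
      ring
    rw [this, hf, smul_zero]
  refine ⟨v + ((a - fderiv ℝ nz z v) / 2) • z, ?_⟩
  rw [ContinuousLinearMap.prod_apply, map_add, map_add, map_smul, map_smul, hzz, hfz, smul_zero, add_zero,
    hasFDerivAt_fn, hv]
  congr 1
  rw [smul_eq_mul]
  ring

/-- The derivative of `normSq`. -/
noncomputable def dN (u : ℂ) : ℂ →L[ℝ] ℝ :=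
  (2 * u.re) • Complex.reCLM + (2 * u.im) • Complex.imCLM

theorem hasFDerivAt_normSq' (u : ℂ) : HasFDerivAt (fun u : ℂ => Complex.normSq u) (dN u) u := by
  have h1 : HasFDerivAt (fun u : ℂ => u.re) Complex.reCLM u := Complex.reCLM.hasFDerivAt
  have h2 : HasFDerivAt (fun u : ℂ => u.im) Complex.imCLM u := Complex.imCLM.hasFDerivAt
  have h3 := (h1.mul h1).add (h2.mul h2)
  have e : (fun u : ℂ => Complex.normSq u) = fun u : ℂ => u.re * u.re + u.im * u.im := by
    funext u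
    rw [Complex.normSq_apply]
  rw [e]
  refine h3.congr_fderiv ?_
  ext v
  simp [dN]
  ring

theorem dN_apply (u y : ℂ) : dN u y = 2 * ip u y := by
  simp [dN, ip]
  ring

/-- The derivative of `C (u ^ 2)`. -/
noncomputable def dQ (L : ℂ →L[ℝ] (Fin p → ℝ)) (u : ℂ) : ℂ →L[ℝ] (Fin p → ℝ) :=
  L.comp (((2 * u) • ContinuousLinearMap.id ℂ ℂ).restrictScalars ℝ)

theorem hasFDerivAt_Q (L : ℂ →L[ℝ] (Fin p → ℝ)) (u : ℂ) : HasFDerivAt (fun u : ℂ => L (u ^ 2)) (dQ L u) u := by
  have h1 : HasFDerivAt (fun u : ℂ => u ^ 2) (((2 * u) • ContinuousLinearMap.id ℂ ℂ)) u := by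
    have := (hasDerivAt_pow 2 u).hasFDerivAt
    refine this.congr_fderiv ?_
    ext
    simp
  exact L.hasFDerivAt.comp u (h1.restrictScalars ℝ)

theorem dQ_apply (L : ℂ →L[ℝ] (Fin p → ℝ)) (u y : ℂ) : dQ L u y = L (2 * u * y) := by
  simp [dQ]

/-- The derivative of the equations. -/
theorem bfun_hasFDerivAt (τ : ℝ) (z : Fin n → ℂ) (u : ℂ) (s : ℝ) (v : Fin n → ℂ) (y : ℂ) (r t : ℝ) :
    fderiv ℝ (fun x : ((Fin n → ℂ) × (ℂ × ℝ)) × ℝ => bfun C n x.2 x.1.1 x.1.2.1 x.1.2.2) ((z, (u, s)), τ)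
      ((v, (y, r)), t) =
      (2 * ∑ i, ((z i).re * (v i).re + (z i).im * (v i).im), 2 * ip u y + 2 * s * r,
        (1 - (1 - τ) * Complex.normSq u) • (∑ l : Fin n, C l (2 * z l * v l)) +
          (t * Complex.normSq u - (1 - τ) * (2 * ip u y)) • fn C n z +
          ((1 - τ) • C n (2 * u * y) - t • C n (u ^ 2))) := by
  set X := ((Fin n → ℂ) × (ℂ × ℝ)) × ℝ with hX
  have hz : HasFDerivAt (fun x : X => x.1.1)
      ((ContinuousLinearMap.fst ℝ (Fin n → ℂ) (ℂ × ℝ)).comp
        (ContinuousLinearMap.fst ℝ ((Fin n → ℂ) × (ℂ × ℝ)) ℝ)) ((z, (u, s)), τ) :=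
    ((ContinuousLinearMap.fst ℝ (Fin n → ℂ) (ℂ × ℝ)).comp
        (ContinuousLinearMap.fst ℝ ((Fin n → ℂ) × (ℂ × ℝ)) ℝ)).hasFDerivAt
  have hu : HasFDerivAt (fun x : X => x.1.2.1)
      ((ContinuousLinearMap.fst ℝ ℂ ℝ).comp ((ContinuousLinearMap.snd ℝ (Fin n → ℂ) (ℂ × ℝ)).comp
        (ContinuousLinearMap.fst ℝ ((Fin n → ℂ) × (ℂ × ℝ)) ℝ))) ((z, (u, s)), τ) :=
    ((ContinuousLinearMap.fst ℝ ℂ ℝ).comp ((ContinuousLinearMap.snd ℝ (Fin n → ℂ) (ℂ × ℝ)).comp
        (ContinuousLinearMap.fst ℝ ((Fin n → ℂ) × (ℂ × ℝ)) ℝ))).hasFDerivAt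
  have hs : HasFDerivAt (fun x : X => x.1.2.2)
      ((ContinuousLinearMap.snd ℝ ℂ ℝ).comp ((ContinuousLinearMap.snd ℝ (Fin n → ℂ) (ℂ × ℝ)).comp
        (ContinuousLinearMap.fst ℝ ((Fin n → ℂ) × (ℂ × ℝ)) ℝ))) ((z, (u, s)), τ) :=
    ((ContinuousLinearMap.snd ℝ ℂ ℝ).comp ((ContinuousLinearMap.snd ℝ (Fin n → ℂ) (ℂ × ℝ)).comp
        (ContinuousLinearMap.fst ℝ ((Fin n → ℂ) × (ℂ × ℝ)) ℝ))).hasFDerivAt
  have ht : HasFDerivAt (fun x : X => x.2)
      (ContinuousLinearMap.snd ℝ ((Fin n → ℂ) × (ℂ × ℝ)) ℝ) ((z, (u, s)), τ) :=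
    (ContinuousLinearMap.snd ℝ ((Fin n → ℂ) × (ℂ × ℝ)) ℝ).hasFDerivAt
  have h1 := (HasFDerivAt.comp (g := nz) ((z, (u, s)), τ) (nz_hasFDerivAt z) hz).sub_const 1
  have hN := HasFDerivAt.comp (g := fun u : ℂ => Complex.normSq u) ((z, (u, s)), τ) (hasFDerivAt_normSq' u) hu
  have h2 := (hN.add (hs.mul hs)).sub_const 1
  have hF := HasFDerivAt.comp (g := fn C n) ((z, (u, s)), τ) (fn_hasFDerivAt C z) hz
  have hQ := HasFDerivAt.comp (g := fun u : ℂ => C n (u ^ 2)) ((z, (u, s)), τ) (hasFDerivAt_Q (C n) u) hu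
  have hk := ht.const_sub 1
  have hc := (hk.mul hN).const_sub 1
  have h3 := (hc.smul hF).add (hk.smul hQ)
  have hall := h1.prodMk (h2.prodMk h3)
  have e : (fun x : X => bfun C n x.2 x.1.1 x.1.2.1 x.1.2.2) = fun x : X =>
      (((nz ∘ fun x : X => x.1.1) x - 1, ((((fun u : ℂ => Complex.normSq u) ∘ fun x : X => x.1.2.1) x +
        x.1.2.2 * x.1.2.2) - 1,
        ((1 - (1 - x.2) * ((fun u : ℂ => Complex.normSq u) ∘ fun x : X => x.1.2.1) x) •
          (fn C n ∘ fun x : X => x.1.1) x + (1 - x.2) • ((fun u : ℂ => C n (u ^ 2)) ∘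
            fun x : X => x.1.2.1) x)))) := by
    funext x
    simp only [bfun, Function.comp, sq]
  rw [e]
  have hh := hall.fderiv
  erw [hh]
  simp only [ContinuousLinearMap.prod_apply, ContinuousLinearMap.add_apply, ContinuousLinearMap.comp_apply,
    ContinuousLinearMap.smul_apply, ContinuousLinearMap.neg_apply, ContinuousLinearMap.smulRight_apply,
    ContinuousLinearMap.coe_fst', ContinuousLinearMap.coe_snd', Function.comp, Pi.mul_apply, dN_apply, dQ_apply,
    hasFDerivAt_nz, hasFDerivAt_fn, smul_eq_mul]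
  refine Prod.ext rfl (Prod.ext ?_ ?_)
  · show 2 * ip u y + (s * r + s * r) = 2 * ip u y + 2 * s * r
    ring
  · dsimp only
    have e1 : -((1 - τ) * (2 * ip u y) + Complex.normSq u * -t) =
        t * Complex.normSq u - (1 - τ) * (2 * ip u y) := by ring
    rw [e1, neg_smul]
    abel

theorem reg_base (hC : GoodC C) (τ : ℝ) (z : Fin n → ℂ) (u : ℂ) (s : ℝ) (h : bfun C n τ z u s = 0) :
    Function.Surjective (fderiv ℝ
      (fun x : ((Fin n → ℂ) × (ℂ × ℝ)) × ℝ => bfun C n x.2 x.1.1 x.1.2.1 x.1.2.2) ((z, (u, s)), τ)) := by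
  set L := fderiv ℝ
      (fun x : ((Fin n → ℂ) × (ℂ × ℝ)) × ℝ => bfun C n x.2 x.1.1 x.1.2.1 x.1.2.2) ((z, (u, s)), τ) with hL
  have hh : nz z = 1 ∧ Complex.normSq u + s ^ 2 = 1 ∧
      (1 - (1 - τ) * Complex.normSq u) • fn C n z + (1 - τ) • C n (u ^ 2) = 0 := by
    simp only [bfun, Prod.mk_eq_zero] at h
    exact ⟨by linarith [h.1], by linarith [h.2.1], h.2.2⟩
  obtain ⟨hz, hus, hD⟩ := hh
  have hI := core C hC z u s (1 - τ) hz hus hD L.toLinearMap.range ?_ ?_ ?_
  · intro w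
    have : w ∈ L.toLinearMap.range := by
      rw [hI]
      trivial
    obtain ⟨x, hx⟩ := this
    exact ⟨x, hx⟩
  · intro v
    refine ⟨((v, (0, 0)), 0), ?_⟩
    show L _ = _
    rw [hL, bfun_hasFDerivAt]
    simp [ip]
  · intro y r
    refine ⟨((0, (y, r)), 0), ?_⟩
    show L _ = _
    rw [hL, bfun_hasFDerivAt]
    simp [ip]
  · intro hk hu
    -- direction t = 1
    set c : ℝ := 1 - (1 - τ) * Complex.normSq u with hc
    have hc0 : c ≠ 0 := by
      intro h0
      rw [h0, zero_smul, zero_add] at hD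
      have h1 : C n (u ^ 2) = 0 := (smul_eq_zero.1 hD).resolve_left hk
      have h2 : u ^ 2 = 0 := hC.inj n _ h1
      exact hu (by simpa using h2)
    have hff : fn C n z = (c⁻¹ * (-(1 - τ))) • C n (u ^ 2) := by
      rw [mul_smul]
      have hcf : c • fn C n z = (-(1 - τ)) • C n (u ^ 2) := by
        rw [neg_smul]
        exact eq_neg_of_add_eq_zero_left hD
      rw [← hcf, smul_smul, inv_mul_cancel₀ hc0, one_smul]
    refine ⟨((0, (0, 0)), -c), ?_⟩
    show L _ = _
    rw [hL, bfun_hasFDerivAt, hff]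
    have e1 : (-c * Complex.normSq u) * (c⁻¹ * (-(1 - τ))) + c = 1 := by
      have : (-c * Complex.normSq u) * (c⁻¹ * (-(1 - τ))) = (1 - τ) * Complex.normSq u * (c * c⁻¹) := by ring
      rw [this, mul_inv_cancel₀ hc0, hc]
      ring
    have e2 : ∀ x : Fin p → ℝ, (-c * Complex.normSq u) • ((c⁻¹ * (-(1 - τ))) • x) + c • x = x := by
      intro x
      rw [smul_smul, ← add_smul, e1, one_smul]
    have e3 := e2 (C n (u ^ 2))
    simpa [ip, smul_smul] using e3

theorem reg_slice (hC : GoodC C) (τ : ℝ) (hτ : τ = 0 ∨ τ = 1) (z : Fin n → ℂ) (u : ℂ) (s : ℝ)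
    (h : bfun C n τ z u s = 0) :
    Function.Surjective (fderiv ℝ
      (fun x : (Fin n → ℂ) × (ℂ × ℝ) => bfun C n τ x.1 x.2.1 x.2.2) (z, (u, s))) := by
  set L := fderiv ℝ (fun x : (Fin n → ℂ) × (ℂ × ℝ) => bfun C n τ x.1 x.2.1 x.2.2) (z, (u, s)) with hL
  have hLa : ∀ (v : Fin n → ℂ) (y : ℂ) (r : ℝ), L (v, (y, r)) =
      fderiv ℝ (fun x : ((Fin n → ℂ) × (ℂ × ℝ)) × ℝ => bfun C n x.2 x.1.1 x.1.2.1 x.1.2.2) ((z, (u, s)), τ)
      ((v, (y, r)), 0) := by
    intro v y r
    have hd : DifferentiableAt ℝ (fun x : ((Fin n → ℂ) × (ℂ × ℝ)) × ℝ => bfun C n x.2 x.1.1 x.1.2.1 x.1.2.2)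
        ((z, (u, s)), τ) := (contDiff_bfun C).differentiable (by simp) _
    have hi : HasFDerivAt (fun x : (Fin n → ℂ) × (ℂ × ℝ) => (x, τ))
        (ContinuousLinearMap.inl ℝ ((Fin n → ℂ) × (ℂ × ℝ)) ℝ) (z, (u, s)) := by
      have := (hasFDerivAt_id (𝕜 := ℝ) ((z, (u, s)) : (Fin n → ℂ) × (ℂ × ℝ))).prodMk
        (hasFDerivAt_const τ ((z, (u, s)) : (Fin n → ℂ) × (ℂ × ℝ)))
      exact this
    have hc := HasFDerivAt.comp (g := fun x : ((Fin n → ℂ) × (ℂ × ℝ)) × ℝ =>
      bfun C n x.2 x.1.1 x.1.2.1 x.1.2.2) (z, (u, s)) hd.hasFDerivAt hi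
    have e : (fun x : (Fin n → ℂ) × (ℂ × ℝ) => bfun C n τ x.1 x.2.1 x.2.2) =
      (fun x : ((Fin n → ℂ) × (ℂ × ℝ)) × ℝ => bfun C n x.2 x.1.1 x.1.2.1 x.1.2.2) ∘
        (fun x : (Fin n → ℂ) × (ℂ × ℝ) => (x, τ)) := rfl
    rw [hL, e, hc.fderiv]
    simp
  have hh : nz z = 1 ∧ Complex.normSq u + s ^ 2 = 1 ∧
      (1 - (1 - τ) * Complex.normSq u) • fn C n z + (1 - τ) • C n (u ^ 2) = 0 := by
    simp only [bfun, Prod.mk_eq_zero] at h
    exact ⟨by linarith [h.1], by linarith [h.2.1], h.2.2⟩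
  obtain ⟨hz, hus, hD⟩ := hh
  have hI := core C hC z u s (1 - τ) hz hus hD L.toLinearMap.range ?_ ?_ ?_
  · intro w
    have : w ∈ L.toLinearMap.range := by
      rw [hI]
      trivial
    obtain ⟨x, hx⟩ := this
    exact ⟨x, hx⟩
  · intro v
    refine ⟨(v, (0, 0)), ?_⟩
    show L _ = _
    rw [hLa, bfun_hasFDerivAt]
    simp [ip]
  · intro y r
    refine ⟨(0, (y, r)), ?_⟩
    show L _ = _
    rw [hLa, bfun_hasFDerivAt]
    simp [ip]
  · intro hk hu
    rcases hτ with hτ | hτ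
    · subst hτ
      have hs : s ≠ 0 := s_ne C hC z u s h
      have hs2 : 1 - Complex.normSq u = s ^ 2 := by linarith
      have hs2' : s ^ 2 ≠ 0 := pow_ne_zero 2 hs
      have hff : s ^ 2 • fn C n z = - C n (u ^ 2) := by
        have h1 : (1 - (1 - (0 : ℝ)) * Complex.normSq u) = s ^ 2 := by rw [← hs2]; ring
        rw [h1] at hD
        have h2 : (1 - (0 : ℝ)) = 1 := by ring
        rw [h2, one_smul] at hD
        exact eq_neg_of_add_eq_zero_left hD
      refine ⟨(0, ((s ^ 2 / 2) • u, - (s * Complex.normSq u) / 2)), ?_⟩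
      show L _ = _
      rw [hLa, bfun_hasFDerivAt]
      have hip : ip u ((s ^ 2 / 2) • u) = s ^ 2 / 2 * Complex.normSq u := by
        rw [ip, Complex.smul_re, Complex.smul_im, Complex.normSq_apply, smul_eq_mul, smul_eq_mul]
        ring
      rw [hip]
      have e1 : 2 * (s ^ 2 / 2 * Complex.normSq u) + 2 * s * (-(s * Complex.normSq u) / 2) = 0 := by ring
      rw [e1]
      have e2 : (0 * Complex.normSq u - (1 - 0) * (2 * (s ^ 2 / 2 * Complex.normSq u))) • fn C n z =
          (Complex.normSq u) • C n (u ^ 2) := by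
        have : (0 * Complex.normSq u - (1 - 0) * (2 * (s ^ 2 / 2 * Complex.normSq u))) =
          (-Complex.normSq u) * s ^ 2 := by ring
        rw [this, mul_smul, hff]
        simp
      have e3 : C n (2 * u * ((s ^ 2 / 2) • u)) = (s ^ 2) • C n (u ^ 2) := by
        rw [← (C n).map_smul]
        congr 1
        rw [Complex.real_smul, Complex.real_smul]
        push_cast
        ring
      rw [e2, e3]
      have e4 : (Complex.normSq u) • C n (u ^ 2) + (s ^ 2) • C n (u ^ 2) = C n (u ^ 2) := by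
        rw [← add_smul, hus, one_smul]
      simpa using e4
    · exfalso
      apply hk
      rw [hτ]
      ring

end Pool.Agent.Helper48.BPF
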