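import Pool.Agent.Helper48.BPF.Pull
import Pool.Agent.Helper48.BPF.Reg

/-!
PROJECT BP, block F, module BP-F6: the five instances of `IsPull`, and the UpData of the part `f^(n) = 0` of a context.

Each field of `IsPull` is a lemma of Eqv / Reg composed with a projection (a continuous linear map). `reg` for `Γ = γ ∘ P` with `P` a linear surjective projection: `fderiv (γ ∘ P) = fderiv γ ∘ P`
(`fderiv_comp`, `ContinuousLinearMap.fderiv`), composition of two surjections. `norm`: `nz_Phi`, `nz_Th`; for `pull_X` it is the first equation.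
`ctx_data`: `sub` from `pb_subE` with `pull_X` (`O₀ = univ`, finrank ℂ^n = 2n), `compact`: closed subset of `Kset O E` (`fn` continuous), `stab`: `h.stab` and `fn_smulC` (`sq_of_pow_four`), `free`, `cont`, `inv`, `maps` by
restriction of the fields of `IsCtx`.
-/

set_option autoImplicit false

namespace Pool.Agent.Helper48.BPF

open Pool.Agent.Helper79.BP Pool.Agent.Helper93.BPF
open scoped ContDiff Topology

variable {n : ℕ} {A B : Type} [NormedAddCommGroup A] [NormedSpace ℝ A] [FiniteDimensional ℝ A]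
  [NormedAddCommGroup B] [NormedSpace ℝ B] [FiniteDimensional ℝ B]

/-- The projection to the coordinates `a`. -/
noncomputable def alp (n : ℕ) (A : Type) [NormedAddCommGroup A] [NormedSpace ℝ A] :
    ((Fin n → ℂ) × ((ℂ × ℝ) × A)) →L[ℝ] A :=
  (ContinuousLinearMap.snd ℝ (ℂ × ℝ) A).comp (ContinuousLinearMap.snd ℝ (Fin n → ℂ) ((ℂ × ℝ) × A))

/-- The inclusion of the coordinates `a`. -/
noncomputable def jay (n : ℕ) (A : Type) [NormedAddCommGroup A] [NormedSpace ℝ A] :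
    A →L[ℝ] ((Fin n → ℂ) × ((ℂ × ℝ) × A)) :=
  (ContinuousLinearMap.inr ℝ (Fin n → ℂ) ((ℂ × ℝ) × A)).comp (ContinuousLinearMap.inr ℝ (ℂ × ℝ) A)

variable {p : ℕ} (C : ℕ → ℂ →L[ℝ] (Fin p → ℝ)) (hC : GoodC C)

omit [NormedAddCommGroup A] [NormedSpace ℝ A] [FiniteDimensional ℝ A] [NormedAddCommGroup B] [NormedSpace ℝ B]
  [FiniteDimensional ℝ B] in
private theorem surj_comp {X Y Z : Type} [NormedAddCommGroup X] [NormedSpace ℝ X] [NormedAddCommGroup Y]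
    [NormedSpace ℝ Y] [NormedAddCommGroup Z] [NormedSpace ℝ Z] (P : X →L[ℝ] Y) (hP : Function.Surjective P)
    (γ : Y → Z) (x : X) (hγ : DifferentiableAt ℝ γ (P x)) (hs : Function.Surjective (fderiv ℝ γ (P x))) :
    Function.Surjective (fderiv ℝ (fun x => γ (P x)) x) := by
  have h : HasFDerivAt (fun x => γ (P x)) ((fderiv ℝ γ (P x)).comp P) x :=
    HasFDerivAt.comp x hγ.hasFDerivAt P.hasFDerivAt
  rw [h.fderiv, ContinuousLinearMap.coe_comp]
  exact hs.comp hP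

/-- The projection to `(z, (u, s))`. -/
private noncomputable def prb (n : ℕ) (A : Type) [NormedAddCommGroup A] [NormedSpace ℝ A] :
    ((Fin n → ℂ) × ((ℂ × ℝ) × A)) →L[ℝ] ((Fin n → ℂ) × (ℂ × ℝ)) :=
  (ContinuousLinearMap.fst ℝ (Fin n → ℂ) ((ℂ × ℝ) × A)).prod
    ((ContinuousLinearMap.fst ℝ (ℂ × ℝ) A).comp (ContinuousLinearMap.snd ℝ (Fin n → ℂ) ((ℂ × ℝ) × A)))

omit [FiniteDimensional ℝ A] in
private theorem prb_surj : Function.Surjective (prb n A) := by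
  rintro ⟨z, us⟩
  exact ⟨(z, (us, 0)), rfl⟩

omit [NormedAddCommGroup A] [NormedSpace ℝ A] [FiniteDimensional ℝ A] [NormedAddCommGroup B] [NormedSpace ℝ B]
  [FiniteDimensional ℝ B] in
private theorem smooth_slice (τ : ℝ) : ContDiff ℝ ∞
    (fun x : (Fin n → ℂ) × (ℂ × ℝ) => bfun C n τ x.1 x.2.1 x.2.2) := by
  have h : ContDiff ℝ ∞ (fun x : (Fin n → ℂ) × (ℂ × ℝ) => (x, τ)) := contDiff_id.prodMk contDiff_const
  exact (contDiff_bfun C (n := n)).comp h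

include hC

theorem pull_X (O : Set ((Fin n → ℂ) × A)) (E : (Fin n → ℂ) × A → B) (hO : IsOpen O) (hE : ContDiffOn ℝ ∞ E O)
    (hv : ∀ x ∈ Kset O E, ∀ w : B, ∃ b : A, fderiv ℝ E x (0, b) = w) :
    IsPull (fun x : (Fin n → ℂ) × A => (nz x.1 - 1, fn C n x.1)) (fun x => x.1)
      (ContinuousLinearMap.snd ℝ (Fin n → ℂ) A) (ContinuousLinearMap.inr ℝ (Fin n → ℂ) A) Set.univ O E := by
  have hs : ContDiff ℝ ∞ (fun z : Fin n → ℂ => (nz z - 1, fn C n z)) :=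
    (contDiff_nz.sub contDiff_const).prodMk (contDiff_fn C)
  refine ⟨fun b => rfl, isOpen_univ, (hs.comp contDiff_fst).contDiffOn, contDiff_fst.contDiffOn, ?_, ?_, ?_, ?_,
    hO, hE, hv⟩
  · intro x b
    simp
  · intro x b
    simp
  · intro x _ hx
    have h1 := congrArg Prod.fst hx
    simpa [sub_eq_zero] using h1
  · intro x _ hx
    have h1 : nz x.1 = 1 := by
      have h1 := congrArg Prod.fst hx
      simpa [sub_eq_zero] using h1
    have h2 : fn C n x.1 = 0 := congrArg Prod.snd hx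
    exact surj_comp (ContinuousLinearMap.fst ℝ (Fin n → ℂ) A) Prod.fst_surjective
      (fun z : Fin n → ℂ => (nz z - 1, fn C n z)) x (hs.differentiable (by simp) _)
      (reg_sphere C hC x.1 h1 h2)

theorem pull_X2 (O : Set ((Fin (n + 1) → ℂ) × A)) (E : (Fin (n + 1) → ℂ) × A → B) (hO : IsOpen O)
    (hE : ContDiffOn ℝ ∞ E O) (hv : ∀ x ∈ Kset O E, ∀ w : B, ∃ b : A, fderiv ℝ E x (0, b) = w) :
    IsPull (fun x : (Fin n → ℂ) × ((ℂ × ℝ) × A) => bfun C n 0 x.1 x.2.1.1 x.2.1.2)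
      (fun x => Phi x.1 x.2.1.1 x.2.1.2) (alp n A) (jay n A) {x | nz x.1 ≠ 0} O E := by
  refine ⟨fun b => rfl, ?_, ?_, ?_, ?_, ?_, ?_, ?_, hO, hE, hv⟩
  · exact isOpen_ne_fun (contDiff_nz.continuous.comp continuous_fst) continuous_const
  · exact ((smooth_slice C 0).comp (prb n A).contDiff).contDiffOn
  · have h1 : ContDiff ℝ ∞ (fun x : (Fin n → ℂ) × ((ℂ × ℝ) × A) => ((x.1, x.2.1) : (Fin n → ℂ) × (ℂ × ℝ))) :=
      contDiff_fst.prodMk (contDiff_fst.comp contDiff_snd)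
    have h2 := (contDiffOn_Phi (n := n)).comp h1.contDiffOn
      (s := {x : (Fin n → ℂ) × ((ℂ × ℝ) × A) | nz x.1 ≠ 0}) (fun x hx => hx)
    exact h2
  · intro x b
    simp [jay]
  · intro x b
    simp [jay]
  · intro x hx _
    exact nz_Phi _ hx _ _
  · intro x _ hx
    exact surj_comp (prb n A) prb_surj (fun x : (Fin n → ℂ) × (ℂ × ℝ) => bfun C n 0 x.1 x.2.1 x.2.2) x
      ((smooth_slice C 0).differentiable (by simp) _) (reg_slice C hC 0 (Or.inl rfl) _ _ _ hx)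

theorem pull_X1 (O : Set ((Fin (n + 1) → ℂ) × A)) (E : (Fin (n + 1) → ℂ) × A → B) (hO : IsOpen O)
    (hE : ContDiffOn ℝ ∞ E O) (hv : ∀ x ∈ Kset O E, ∀ w : B, ∃ b : A, fderiv ℝ E x (0, b) = w) :
    IsPull (fun x : (Fin n → ℂ) × ((ℂ × ℝ) × A) => bfun C n 0 x.1 x.2.1.1 x.2.1.2)
      (fun x => Th 0 x.1 x.2.1.1 x.2.1.2) (alp n A) (jay n A)
      {x | x.2.1.2 ≠ 0 ∧ nz (th 0 x.1 x.2.1.1 x.2.1.2) ≠ 0} O E := by
  have hm : ContDiff ℝ ∞ (fun x : (Fin n → ℂ) × ((ℂ × ℝ) × A) => ((prb n A x, (0 : ℝ)))) :=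
    (prb n A).contDiff.prodMk contDiff_const
  refine ⟨fun b => rfl, ?_, ?_, ?_, ?_, ?_, ?_, ?_, hO, hE, hv⟩
  · exact (isOpen_Th (n := n)).preimage hm.continuous
  · exact ((smooth_slice C 0).comp (prb n A).contDiff).contDiffOn
  · have h1 : ContDiff ℝ ∞ (fun x : (Fin n → ℂ) × ((ℂ × ℝ) × A) =>
        (((x.1, x.2.1), (0 : ℝ)) : ((Fin n → ℂ) × (ℂ × ℝ)) × ℝ)) :=
      (contDiff_fst.prodMk (contDiff_fst.comp contDiff_snd)).prodMk contDiff_const
    have h2 := (contDiffOn_Th (n := n)).comp h1.contDiffOn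
      (s := {x : (Fin n → ℂ) × ((ℂ × ℝ) × A) | x.2.1.2 ≠ 0 ∧ nz (th 0 x.1 x.2.1.1 x.2.1.2) ≠ 0}) (fun x hx => hx)
    exact h2
  · intro x b
    simp [jay]
  · intro x b
    simp [jay]
  · intro x hx _
    exact nz_Th _ _ _ _ hx.2
  · intro x _ hx
    exact surj_comp (prb n A) prb_surj (fun x : (Fin n → ℂ) × (ℂ × ℝ) => bfun C n 0 x.1 x.2.1 x.2.2) x
      ((smooth_slice C 0).differentiable (by simp) _) (reg_slice C hC 0 (Or.inl rfl) _ _ _ hx)

/-- The homotopy of the maps. -/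
theorem pull_W2 (O : Set ((Fin (n + 1) → ℂ) × A)) (E : (Fin (n + 1) → ℂ) × A → B) (hO : IsOpen O)
    (hE : ContDiffOn ℝ ∞ E O) (hv : ∀ x ∈ Kset O E, ∀ w : B, ∃ b : A, fderiv ℝ E x (0, b) = w) :
    IsPull (fun x : ((Fin n → ℂ) × ((ℂ × ℝ) × A)) × ℝ => bfun C n 0 x.1.1 x.1.2.1.1 x.1.2.1.2)
      (fun x => Th x.2 x.1.1 x.1.2.1.1 x.1.2.1.2)
      ((alp n A).comp (ContinuousLinearMap.fst ℝ ((Fin n → ℂ) × ((ℂ × ℝ) × A)) ℝ))
      ((ContinuousLinearMap.inl ℝ ((Fin n → ℂ) × ((ℂ × ℝ) × A)) ℝ).comp (jay n A))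
      {x | x.1.2.1.2 ≠ 0 ∧ nz (th x.2 x.1.1 x.1.2.1.1 x.1.2.1.2) ≠ 0} O E := by
  have hm : ContDiff ℝ ∞ (fun x : ((Fin n → ℂ) × ((ℂ × ℝ) × A)) × ℝ => ((prb n A x.1, x.2))) :=
    ((prb n A).contDiff.comp contDiff_fst).prodMk contDiff_snd
  refine ⟨fun b => rfl, ?_, ?_, ?_, ?_, ?_, ?_, ?_, hO, hE, hv⟩
  · exact (isOpen_Th (n := n)).preimage hm.continuous
  · exact ((smooth_slice C 0).comp ((prb n A).contDiff.comp contDiff_fst)).contDiffOn
  · have h1 : ContDiff ℝ ∞ (fun x : ((Fin n → ℂ) × ((ℂ × ℝ) × A)) × ℝ =>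
        (((x.1.1, x.1.2.1), x.2) : ((Fin n → ℂ) × (ℂ × ℝ)) × ℝ)) :=
      ((contDiff_fst.comp contDiff_fst).prodMk (contDiff_fst.comp (contDiff_snd.comp contDiff_fst))).prodMk
        contDiff_snd
    have h2 := (contDiffOn_Th (n := n)).comp h1.contDiffOn
      (s := {x : ((Fin n → ℂ) × ((ℂ × ℝ) × A)) × ℝ |
        x.1.2.1.2 ≠ 0 ∧ nz (th x.2 x.1.1 x.1.2.1.1 x.1.2.1.2) ≠ 0}) (fun x hx => hx)
    exact h2
  · intro x b
    simp [jay]
  · intro x b
    simp [jay]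
  · intro x hx _
    exact nz_Th _ _ _ _ hx.2
  · intro x _ hx
    exact surj_comp ((prb n A).comp (ContinuousLinearMap.fst ℝ ((Fin n → ℂ) × ((ℂ × ℝ) × A)) ℝ))
      (by rw [ContinuousLinearMap.coe_comp]; exact prb_surj.comp Prod.fst_surjective)
      (fun x : (Fin n → ℂ) × (ℂ × ℝ) => bfun C n 0 x.1 x.2.1 x.2.2) x
      ((smooth_slice C 0).differentiable (by simp) _) (reg_slice C hC 0 (Or.inl rfl) _ _ _ hx)

/-- The homotopy of the equations. -/
theorem pull_W3 (O : Set ((Fin (n + 1) → ℂ) × A)) (E : (Fin (n + 1) → ℂ) × A → B) (hO : IsOpen O)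
    (hE : ContDiffOn ℝ ∞ E O) (hv : ∀ x ∈ Kset O E, ∀ w : B, ∃ b : A, fderiv ℝ E x (0, b) = w) :
    IsPull (fun x : ((Fin n → ℂ) × ((ℂ × ℝ) × A)) × ℝ => bfun C n x.2 x.1.1 x.1.2.1.1 x.1.2.1.2)
      (fun x => Phi x.1.1 x.1.2.1.1 x.1.2.1.2)
      ((alp n A).comp (ContinuousLinearMap.fst ℝ ((Fin n → ℂ) × ((ℂ × ℝ) × A)) ℝ))
      ((ContinuousLinearMap.inl ℝ ((Fin n → ℂ) × ((ℂ × ℝ) × A)) ℝ).comp (jay n A))
      {x | nz x.1.1 ≠ 0} O E := by
  have hm : ContDiff ℝ ∞ (fun x : ((Fin n → ℂ) × ((ℂ × ℝ) × A)) × ℝ => ((prb n A x.1, x.2))) :=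
    ((prb n A).contDiff.comp contDiff_fst).prodMk contDiff_snd
  refine ⟨fun b => rfl, ?_, ?_, ?_, ?_, ?_, ?_, ?_, hO, hE, hv⟩
  · exact isOpen_ne_fun (contDiff_nz.continuous.comp (continuous_fst.comp continuous_fst)) continuous_const
  · exact ((contDiff_bfun C (n := n)).comp hm).contDiffOn
  · have h1 : ContDiff ℝ ∞ (fun x : ((Fin n → ℂ) × ((ℂ × ℝ) × A)) × ℝ =>
        ((x.1.1, x.1.2.1) : (Fin n → ℂ) × (ℂ × ℝ))) :=
      (contDiff_fst.comp contDiff_fst).prodMk (contDiff_fst.comp (contDiff_snd.comp contDiff_fst))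
    have h2 := (contDiffOn_Phi (n := n)).comp h1.contDiffOn
      (s := {x : ((Fin n → ℂ) × ((ℂ × ℝ) × A)) × ℝ | nz x.1.1 ≠ 0}) (fun x hx => hx)
    exact h2
  · intro x b
    simp [jay]
  · intro x b
    simp [jay]
  · intro x hx _
    exact nz_Phi _ hx _ _
  · intro x _ hx
    exact surj_comp (((prb n A).comp (ContinuousLinearMap.fst ℝ ((Fin n → ℂ) × ((ℂ × ℝ) × A)) ℝ)).prod
      (ContinuousLinearMap.snd ℝ ((Fin n → ℂ) × ((ℂ × ℝ) × A)) ℝ))
      (by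
        rintro ⟨y, τ⟩
        obtain ⟨x, hx⟩ := prb_surj (A := A) y
        exact ⟨(x, τ), Prod.ext hx rfl⟩)
      (fun x : ((Fin n → ℂ) × (ℂ × ℝ)) × ℝ => bfun C n x.2 x.1.1 x.1.2.1 x.1.2.2) x
      ((contDiff_bfun C (n := n)).differentiable (by simp) _) (reg_base C hC _ _ _ _ hx)

theorem ctx_data {G : Type} [Group G] {ι : Type} {V : Set (ι → ℝ)} {χ : G →* ℂ} {ρ : G →* (A →L[ℝ] A)}
    {O : Set ((Fin n → ℂ) × A)} {E : (Fin n → ℂ) × A → B} {F : (Fin n → ℂ) × A → (ι → ℝ)}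
    (h : IsCtx V χ ρ O E F) (m : ℕ) (hdim : 2 * n + Module.finrank ℝ A = m + 1 + p + Module.finrank ℝ B) :
    UpData (act χ ρ n) V m (Xset C O E) F := by
  have hsub : Xset C O E ⊆ Kset O E := fun x hx => hx.1
  refine ⟨?_, ?_, ?_, ?_, ?_, ?_, ?_⟩
  · have h1 : Xset C O E = Kset O E ∩ {x | fn C n x.1 = 0} := rfl
    rw [h1]
    exact h.compact.inter_right (isClosed_eq ((contDiff_fn C).continuous.comp continuous_fst) continuous_const)
  · refine pb_subE (pull_X C hC O E h.isOpen h.smooth h.vert) m ?_ _ ?_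
    · rw [Module.finrank_prod, Module.finrank_prod, Module.finrank_self, Module.finrank_fin_fun]
      have h2 : Module.finrank ℝ (Fin n → ℂ) = 2 * n := by
        rw [Module.finrank_pi_fintype]
        simp [Complex.finrank_real_complex, mul_comm]
      omega
    · rintro ⟨z, a⟩
      constructor
      · rintro ⟨h1, h2⟩
        refine ⟨trivial, ?_, h1⟩
        have h3 : nz z = 1 := h1.1
        simp only at h2 ⊢
        rw [h2, h3, sub_self]
        rfl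
      · rintro ⟨-, h1, h2⟩
        exact ⟨h2, congrArg Prod.snd h1⟩
  · intro g x hx
    refine ⟨h.stab g x hx.1, ?_⟩
    have h0 : (act χ ρ n g x).1 = χ g • x.1 := rfl
    rw [h0]
    rcases sq_of_pow_four (χ g) (h.chi g) with h1 | h1
    · rw [fn_smulC C (χ g) 1 (by rw [h1]; simp), hx.2, smul_zero]
    · rw [fn_smulC C (χ g) (-1) (by rw [h1]; simp), hx.2, smul_zero]
  · intro g x hx
    exact h.free g x hx.1
  · exact h.cont.mono hsub
  · intro g x hx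
    exact h.inv g x hx.1
  · exact h.maps.mono_left hsub

end Pool.Agent.Helper48.BPF
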