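import Pool.Agent.Helper93.BPF.Defs

/-!
PROJECT BP, block F, module BP-F1: regular zero sets in a finite dimensional space.

`subE_zero`. At `x ∈ M` take `g = e ∘ Γ` with a continuous linear equivalence `e : D ≃L[ℝ] (Fin c → ℝ)`, `c = finrank ℝ D`
(`ContinuousLinearEquiv.ofFinrankEq`), `U = O`.
`tan_zero`. `→`: `Γ` is only defined near `x`: compose with a linear functional `ℓ : D →L[ℝ] ℝ` and multiply by a smooth bump function `χ` which is `1` near `x`
and has compact support (tsupport) in `O` (`exists_contDiff_tsupport_subset` or `ContDiffBump`): `h = χ • (ℓ ∘ Γ)` is smooth on `H` and `0` on `M`,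
`fderiv h x = ℓ ∘ fderiv Γ x` as `h = ℓ ∘ Γ` near `x`. Linear functionals separate points of `D`.
`←`: Lagrange multipliers `IsLocalExtrOn.exists_linear_map_of_hasStrictFDerivAt` (or `..._of_hasStrictFDerivAt_1d`): a smooth `h` which is `0` on `M` has a local
extremum on `{y | Γ y = Γ x}` at `x`, hence `Λ (fderiv Γ x v) + Λ₀ • fderiv h x v = 0` for all `v` with `(Λ, Λ₀) ≠ 0`; if `Λ₀ = 0` then `Λ = 0`
because `fderiv Γ x` is onto; so `fderiv h x v = 0` if `fderiv Γ x v = 0`. (`ContDiffAt.hasStrictFDerivAt` with `1 ≤ ∞`.)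
See also `Pool/Agent/Helper79/BP/KitB.lean` (`tan_iff`, for `ι → ℝ`), the same proofs.
-/

set_option autoImplicit false

namespace Pool.Agent.Helper48.BPF

open Pool.Agent.Helper79.BP Pool.Agent.Helper93.BPF
open scoped ContDiff Topology

variable {H D : Type} [NormedAddCommGroup H] [NormedSpace ℝ H] [FiniteDimensional ℝ H]
  [NormedAddCommGroup D] [NormedSpace ℝ D] [FiniteDimensional ℝ D]

/-- A map which is smooth near `x` and vanishes on `X` near `x` kills the tangent vectors. -/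
private theorem tanE_ker {X U : Set H} {x v : H} (hU : IsOpen U) (hx : x ∈ U)
    {g : H → D} (hg : ContDiffOn ℝ ∞ g U) (h0 : ∀ y ∈ U, y ∈ X → g y = 0) (hv : TanE X x v) :
    fderiv ℝ g x v = 0 := by
  have hmem : U ∈ 𝓝 x := hU.mem_nhds hx
  obtain ⟨χ, hsup, -, hχ, -, hχ1⟩ := exists_contDiff_tsupport_subset (n := ⊤) hmem
  have hgd : DifferentiableAt ℝ g x := (hg.contDiffAt hmem).differentiableAt (by norm_num)
  have hχd : DifferentiableAt ℝ χ x := hχ.differentiable (by norm_num) x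
  -- products with the cut-off function are smooth
  have key : ∀ (L : D →L[ℝ] ℝ) (n : ℕ), 0 < n → L (fderiv ℝ g x v) + n * (fderiv ℝ χ x v * L (g x)) = 0 := by
    intro L n hn
    have hsm : ContDiff ℝ ∞ (fun y => χ y ^ n * L (g y)) := by
      rw [contDiff_iff_contDiffAt]
      intro y
      by_cases hy : y ∈ U
      · exact (hχ.contDiffAt.pow n).mul (L.contDiff.contDiffAt.comp y (hg.contDiffAt (hU.mem_nhds hy)))
      · have hy' : y ∉ tsupport χ := fun h => hy (hsup h)
        have h1 : (fun z => χ z ^ n * L (g z)) =ᶠ[𝓝 y] fun _ => (0 : ℝ) := by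
          filter_upwards [notMem_tsupport_iff_eventuallyEq.1 hy'] with z hz
          rw [hz]
          simp [hn.ne']
        exact contDiffAt_const.congr_of_eventuallyEq h1
    have hvan : ∀ y ∈ X, χ y ^ n * L (g y) = 0 := by
      intro y hy
      by_cases hyU : y ∈ U
      · rw [h0 y hyU hy, map_zero, mul_zero]
      · have : χ y = 0 := by
          by_contra hne
          exact hyU (hsup (subset_tsupport _ hne))
        rw [this, zero_pow hn.ne', zero_mul]
    have h2 := hv _ hsm hvan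
    have h3 : HasFDerivAt (fun y => χ y ^ n * L (g y))
        (χ x ^ n • (L.comp (fderiv ℝ g x)) + L (g x) • ((n * χ x ^ (n - 1)) • fderiv ℝ χ x)) x := by
      have ha : HasFDerivAt (fun y => χ y ^ n) ((n * χ x ^ (n - 1)) • fderiv ℝ χ x) x := by
        have := hχd.hasFDerivAt.pow n
        simpa [nsmul_eq_mul] using this
      have hb : HasFDerivAt (fun y => L (g y)) (L.comp (fderiv ℝ g x)) x :=
        L.hasFDerivAt.comp x hgd.hasFDerivAt
      exact ha.mul hb
    rw [h3.fderiv] at h2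
    simp only [ContinuousLinearMap.add_apply, ContinuousLinearMap.smul_apply, ContinuousLinearMap.comp_apply, hχ1,
      one_pow, smul_eq_mul, one_mul, mul_one] at h2
    rw [← h2]
    ring
  have hall : ∀ L : D →L[ℝ] ℝ, L (fderiv ℝ g x v) = 0 := by
    intro L
    have h1 := key L 1 (by norm_num)
    have h2 := key L 2 (by norm_num)
    push_cast at h1 h2
    linarith
  exact NormedSpace.eq_zero_of_forall_dual_eq_zero ℝ hall

/-- Through a regular point of `g = 0` there is a curve in `g = 0` with a given velocity in the kernel. -/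
private theorem exists_curveE {x v : H} {g : H → D} (hg : ContDiffAt ℝ ∞ g x) (h0 : g x = 0)
    (hs : Function.Surjective (fderiv ℝ g x)) (hv : fderiv ℝ g x v = 0) :
    ∃ γ : ℝ → H, HasDerivAt γ v 0 ∧ γ 0 = x ∧ ∀ᶠ t in 𝓝 0, g (γ t) = 0 := by
  have hf : HasStrictFDerivAt g (fderiv ℝ g x) x := hg.hasStrictFDerivAt (by norm_num)
  have hr : (fderiv ℝ g x).range = ⊤ := LinearMap.range_eq_top.2 hs
  let φ := hf.implicitFunction g (fderiv ℝ g x) hr (g x)
  let k : (fderiv ℝ g x).ker := ⟨v, hv⟩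
  have h1 : HasStrictFDerivAt φ (fderiv ℝ g x).ker.subtypeL 0 := hf.to_implicitFunction hr
  have hφ0 : φ 0 = x := by
    have := (hf.eq_implicitFunction hr).self_of_nhds
    simpa [φ] using this
  have hl : HasDerivAt (fun t : ℝ => t • k) k 0 := by
    simpa using (hasDerivAt_id (0 : ℝ)).smul_const k
  refine ⟨fun t => φ (t • k), ?_, by simp [hφ0], ?_⟩
  · have h2 : HasFDerivAt φ (fderiv ℝ g x).ker.subtypeL ((0 : ℝ) • k) := by
      rw [zero_smul]
      exact h1.hasFDerivAt
    have h5 := h2.comp_hasDerivAt (0 : ℝ) hl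
    exact h5
  · have h3 := hf.map_implicitFunction_eq hr
    have h4 : Filter.Tendsto (fun t : ℝ => (g x, t • k)) (𝓝 0) (𝓝 (g x, 0)) := by
      refine Filter.Tendsto.prodMk_nhds tendsto_const_nhds ?_
      have := hl.continuousAt.tendsto
      simpa using this
    filter_upwards [h4.eventually h3] with t ht
    rw [← h0]
    exact ht

/-- The velocity of a curve in `X` is a tangent vector. -/
private theorem tanE_of_curve {X : Set H} {x v : H} {γ : ℝ → H} (hγ : HasDerivAt γ v 0) (h0 : γ 0 = x)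
    (hX : ∀ᶠ t in 𝓝 0, γ t ∈ X) : TanE X x v := by
  intro h hh hz
  have h1 : HasFDerivAt h (fderiv ℝ h x) (γ 0) := by
    rw [h0]
    exact (hh.differentiable (by norm_num) x).hasFDerivAt
  have h2 : HasDerivAt (h ∘ γ) (fderiv ℝ h x v) 0 := h1.comp_hasDerivAt (0 : ℝ) hγ
  have h3 : (h ∘ γ) =ᶠ[𝓝 0] fun _ => (0 : ℝ) := by
    filter_upwards [hX] with t ht
    exact hz _ ht
  exact h2.unique ((hasDerivAt_const (0 : ℝ) (0 : ℝ)).congr_of_eventuallyEq h3)

theorem subE_zero (Γ : H → D) (O : Set H) (hO : IsOpen O) (hΓ : ContDiffOn ℝ ∞ Γ O) (m : ℕ)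
    (hdim : Module.finrank ℝ D + m = Module.finrank ℝ H) (M : Set H) (hM : ∀ x, x ∈ M ↔ x ∈ O ∧ Γ x = 0)
    (hs : ∀ x ∈ M, Function.Surjective (fderiv ℝ Γ x)) : SubE m M := by
  intro x hx
  have hc : Module.finrank ℝ D = Module.finrank ℝ (Fin (Module.finrank ℝ D) → ℝ) := by simp
  let e : D ≃L[ℝ] (Fin (Module.finrank ℝ D) → ℝ) := ContinuousLinearEquiv.ofFinrankEq hc
  have hxO : x ∈ O := ((hM x).1 hx).1
  refine ⟨Module.finrank ℝ D, fun y => e (Γ y), O, hdim, hO, hxO, e.contDiff.comp_contDiffOn hΓ, ?_, ?_⟩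
  · intro y hy
    rw [hM y]
    constructor
    · rintro ⟨-, h⟩
      show e (Γ y) = 0
      rw [h, map_zero]
    · intro h
      have h' : e (Γ y) = 0 := h
      refine ⟨hy, e.injective ?_⟩
      rw [h', map_zero]
  · have hd : DifferentiableAt ℝ Γ x := (hΓ.contDiffAt (hO.mem_nhds hxO)).differentiableAt (by norm_num)
    have h1 : HasFDerivAt (fun y => e (Γ y)) ((e : D →L[ℝ] (Fin (Module.finrank ℝ D) → ℝ)).comp (fderiv ℝ Γ x)) x :=
      (e : D →L[ℝ] (Fin (Module.finrank ℝ D) → ℝ)).hasFDerivAt.comp x hd.hasFDerivAt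
    rw [h1.fderiv]
    intro w
    obtain ⟨v, hv⟩ := hs x hx (e.symm w)
    refine ⟨v, ?_⟩
    rw [ContinuousLinearMap.comp_apply, hv]
    simp

theorem tan_zero (Γ : H → D) (O : Set H) (hO : IsOpen O) (hΓ : ContDiffOn ℝ ∞ Γ O) (M : Set H)
    (hM : ∀ x, x ∈ M ↔ x ∈ O ∧ Γ x = 0) (x : H) (hx : x ∈ M) (hs : Function.Surjective (fderiv ℝ Γ x)) (v : H) :
    TanE M x v ↔ fderiv ℝ Γ x v = 0 := by
  have hxO : x ∈ O := ((hM x).1 hx).1
  refine ⟨fun h => tanE_ker hO hxO hΓ (fun y _ hyM => ((hM y).1 hyM).2) h, fun h => ?_⟩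
  obtain ⟨γ, h1, h2, h3⟩ := exists_curveE (hΓ.contDiffAt (hO.mem_nhds hxO)) ((hM x).1 hx).2 hs h
  refine tanE_of_curve h1 h2 ?_
  have h4 : ∀ᶠ t in 𝓝 (0 : ℝ), γ t ∈ O := by
    have := h1.continuousAt.tendsto
    rw [h2] at this
    exact this.eventually (hO.mem_nhds hxO)
  filter_upwards [h3, h4] with t ht ht'
  exact (hM _).2 ⟨ht', ht⟩

end Pool.Agent.Helper48.BPF
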