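import Pool.Agent.Helper48.BPF.Defs
import Pool.Agent.Helper48.BPF.Zero

/-!
PROJECT BP, block F, module BP-F2: pull back of a context along a map of the base.

`H` is the total space, `j : A → H` the inclusion of the fibre coordinates, `α : H → A` a projection (`α ∘ j = id`), `Γ` (the equations of the base) and `φ` (the map of the base to
the sphere) do not depend on the fibre coordinates. Put `Δ x = (Γ x, E (φ x, α x)) : D × B` on the open set `O₁ = {x ∈ O₀ | (φ x, α x) ∈ O}` (open by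
`ContinuousOn.isOpen_inter_preimage`). `Δ` is smooth on `O₁`, the set is `{x ∈ O₁ | Δ x = 0}` (`nz (φ x) = 1` is automatic), and
`fderiv Δ x v = (dΓ v, dE (dφ v, α v))`. As `Γ (x + j b) = Γ x` we have `dΓ (j b) = 0`, `dφ (j b) = 0` (derivative of `t ↦ Γ (x + t j b)`), so
`dΔ (v + j b) = (dΓ v, dE (dφ v, α v) + dE (0, b))`. Onto: choose `v` with `dΓ v = d` and then `b` by the vertical hypothesis. `pb_subE` from `subE_zero`
(`Module.finrank_prod`), `pb_tan`, `pb_ker` from `tan_zero`.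
-/

set_option autoImplicit false
set_option linter.unusedSectionVars false

namespace Pool.Agent.Helper48.BPF

open Pool.Agent.Helper79.BP Pool.Agent.Helper93.BPF
open scoped ContDiff Topology

variable {H D A B : Type} [NormedAddCommGroup H] [NormedSpace ℝ H] [FiniteDimensional ℝ H]
  [NormedAddCommGroup D] [NormedSpace ℝ D] [FiniteDimensional ℝ D]
  [NormedAddCommGroup A] [NormedSpace ℝ A] [FiniteDimensional ℝ A]
  [NormedAddCommGroup B] [NormedSpace ℝ B] [FiniteDimensional ℝ B]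

/-- The hypotheses of the pull back. -/
structure IsPull {N : ℕ} (Γ : H → D) (φ : H → (Fin N → ℂ)) (α : H →L[ℝ] A) (j : A →L[ℝ] H) (O₀ : Set H)
    (O : Set ((Fin N → ℂ) × A)) (E : (Fin N → ℂ) × A → B) : Prop where
  aj : ∀ b, α (j b) = b
  isOpen₀ : IsOpen O₀
  smoothΓ : ContDiffOn ℝ ∞ Γ O₀
  smoothφ : ContDiffOn ℝ ∞ φ O₀
  Γj : ∀ x b, Γ (x + j b) = Γ x
  φj : ∀ x b, φ (x + j b) = φ x
  norm : ∀ x ∈ O₀, Γ x = 0 → nz (φ x) = 1
  reg : ∀ x ∈ O₀, Γ x = 0 → Function.Surjective (fderiv ℝ Γ x)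
  isOpen : IsOpen O
  smooth : ContDiffOn ℝ ∞ E O
  vert : ∀ x ∈ Kset O E, ∀ w : B, ∃ b : A, fderiv ℝ E x (0, b) = w

/-! Auxiliary lemmas. -/

private theorem fderiv_dir {X Y : Type} [NormedAddCommGroup X] [NormedSpace ℝ X] [NormedAddCommGroup Y]
    [NormedSpace ℝ Y] {f : X → Y} {x w : X} (hf : DifferentiableAt ℝ f x)
    (hc : ∀ t : ℝ, f (x + t • w) = f x) : fderiv ℝ f x w = 0 := by
  have h1 : HasDerivAt (fun t : ℝ => f (x + t • w)) (fderiv ℝ f x w) 0 :=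
    hf.hasFDerivAt.hasLineDerivAt w
  have h2 : HasDerivAt (fun t : ℝ => f (x + t • w)) 0 0 := by
    simp_rw [hc]
    exact hasDerivAt_const _ _
  exact h1.unique h2

private theorem pb_open {N : ℕ} {Γ : H → D} {φ : H → (Fin N → ℂ)} {α : H →L[ℝ] A} {j : A →L[ℝ] H} {O₀ : Set H}
    {O : Set ((Fin N → ℂ) × A)} {E : (Fin N → ℂ) × A → B} (h : IsPull Γ φ α j O₀ O E) :
    IsOpen (O₀ ∩ (fun x => (φ x, α x)) ⁻¹' O) :=
  (h.smoothφ.prodMk α.contDiff.contDiffOn).continuousOn.isOpen_inter_preimage h.isOpen₀ h.isOpen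

private theorem pb_smooth {N : ℕ} {Γ : H → D} {φ : H → (Fin N → ℂ)} {α : H →L[ℝ] A} {j : A →L[ℝ] H} {O₀ : Set H}
    {O : Set ((Fin N → ℂ) × A)} {E : (Fin N → ℂ) × A → B} (h : IsPull Γ φ α j O₀ O E) :
    ContDiffOn ℝ ∞ (fun x => (Γ x, E (φ x, α x))) (O₀ ∩ (fun x => (φ x, α x)) ⁻¹' O) := by
  refine (h.smoothΓ.mono Set.inter_subset_left).prodMk ?_
  exact h.smooth.comp ((h.smoothφ.prodMk α.contDiff.contDiffOn).mono Set.inter_subset_left)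
    fun x hx => hx.2

private theorem pb_mem {N : ℕ} {Γ : H → D} {φ : H → (Fin N → ℂ)} {α : H →L[ℝ] A} {j : A →L[ℝ] H} {O₀ : Set H}
    {O : Set ((Fin N → ℂ) × A)} {E : (Fin N → ℂ) × A → B} (h : IsPull Γ φ α j O₀ O E) {M : Set H}
    (hM : ∀ x, x ∈ M ↔ x ∈ O₀ ∧ Γ x = 0 ∧ (φ x, α x) ∈ Kset O E) (x : H) :
    x ∈ M ↔ x ∈ O₀ ∩ (fun x => (φ x, α x)) ⁻¹' O ∧ (Γ x, E (φ x, α x)) = (0 : D × B) := by
  rw [hM]
  constructor
  · rintro ⟨h1, h2, _, h4, h5⟩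
    exact ⟨⟨h1, h4⟩, Prod.ext h2 h5⟩
  · rintro ⟨⟨h1, h4⟩, h5⟩
    have h2 : Γ x = 0 := congrArg Prod.fst h5
    exact ⟨h1, h2, h.norm x h1 h2, h4, congrArg Prod.snd h5⟩

private theorem pb_fderiv {N : ℕ} {Γ : H → D} {φ : H → (Fin N → ℂ)} {α : H →L[ℝ] A} {j : A →L[ℝ] H} {O₀ : Set H}
    {O : Set ((Fin N → ℂ) × A)} {E : (Fin N → ℂ) × A → B} (h : IsPull Γ φ α j O₀ O E) {x : H}
    (hx : x ∈ O₀ ∩ (fun x => (φ x, α x)) ⁻¹' O) (v : H) :
    fderiv ℝ (fun x => (Γ x, E (φ x, α x))) x v =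
      (fderiv ℝ Γ x v, fderiv ℝ E (φ x, α x) (fderiv ℝ φ x v, α v)) := by
  have hΓ : DifferentiableAt ℝ Γ x :=
    (h.smoothΓ.contDiffAt (h.isOpen₀.mem_nhds hx.1)).differentiableAt (by simp)
  have hφ : DifferentiableAt ℝ φ x :=
    (h.smoothφ.contDiffAt (h.isOpen₀.mem_nhds hx.1)).differentiableAt (by simp)
  have hE : DifferentiableAt ℝ E (φ x, α x) :=
    (h.smooth.contDiffAt (h.isOpen.mem_nhds hx.2)).differentiableAt (by simp)
  have h1 : HasFDerivAt (fun x => (φ x, α x)) ((fderiv ℝ φ x).prod α) x :=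
    hφ.hasFDerivAt.prodMk α.hasFDerivAt
  have h2 : HasFDerivAt (fun x => E (φ x, α x))
      ((fderiv ℝ E (φ x, α x)).comp ((fderiv ℝ φ x).prod α)) x :=
    HasFDerivAt.comp x (f := fun x => (φ x, α x)) hE.hasFDerivAt h1
  rw [(hΓ.hasFDerivAt.prodMk h2).fderiv]
  rfl

private theorem pb_j {N : ℕ} {Γ : H → D} {φ : H → (Fin N → ℂ)} {α : H →L[ℝ] A} {j : A →L[ℝ] H} {O₀ : Set H}
    {O : Set ((Fin N → ℂ) × A)} {E : (Fin N → ℂ) × A → B} (h : IsPull Γ φ α j O₀ O E) {x : H}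
    (hx : x ∈ O₀ ∩ (fun x => (φ x, α x)) ⁻¹' O) (v : H) (b : A) :
    fderiv ℝ (fun x => (Γ x, E (φ x, α x))) x (v + j b) =
      (fderiv ℝ Γ x v, fderiv ℝ E (φ x, α x) (fderiv ℝ φ x v, α v) +
        fderiv ℝ E (φ x, α x) (0, b)) := by
  have hΓ : DifferentiableAt ℝ Γ x :=
    (h.smoothΓ.contDiffAt (h.isOpen₀.mem_nhds hx.1)).differentiableAt (by simp)
  have hφ : DifferentiableAt ℝ φ x :=
    (h.smoothφ.contDiffAt (h.isOpen₀.mem_nhds hx.1)).differentiableAt (by simp)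
  have e1 : fderiv ℝ Γ x (j b) = 0 := fderiv_dir hΓ fun t => by
    rw [← map_smul, h.Γj]
  have e2 : fderiv ℝ φ x (j b) = 0 := fderiv_dir hφ fun t => by
    rw [← map_smul, h.φj]
  rw [pb_fderiv h hx, map_add, map_add, map_add, e1, e2, add_zero, add_zero, h.aj, ← map_add]
  simp

private theorem pb_surj {N : ℕ} {Γ : H → D} {φ : H → (Fin N → ℂ)} {α : H →L[ℝ] A} {j : A →L[ℝ] H} {O₀ : Set H}
    {O : Set ((Fin N → ℂ) × A)} {E : (Fin N → ℂ) × A → B} (h : IsPull Γ φ α j O₀ O E) {M : Set H}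
    (hM : ∀ x, x ∈ M ↔ x ∈ O₀ ∧ Γ x = 0 ∧ (φ x, α x) ∈ Kset O E) (x : H) (hx : x ∈ M) :
    Function.Surjective (fderiv ℝ (fun x => (Γ x, E (φ x, α x))) x) := by
  rintro ⟨d, w⟩
  have hx1 := ((pb_mem h hM x).1 hx).1
  obtain ⟨h1, h2, h3⟩ := (hM x).1 hx
  obtain ⟨v, hv⟩ := h.reg x h1 h2 d
  obtain ⟨b, hb⟩ := h.vert _ h3 (w - fderiv ℝ E (φ x, α x) (fderiv ℝ φ x v, α v))
  refine ⟨v + j b, ?_⟩
  rw [pb_j h hx1, hv, hb]
  simp

theorem pb_subE {N : ℕ} {Γ : H → D} {φ : H → (Fin N → ℂ)} {α : H →L[ℝ] A} {j : A →L[ℝ] H} {O₀ : Set H}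
    {O : Set ((Fin N → ℂ) × A)} {E : (Fin N → ℂ) × A → B} (h : IsPull Γ φ α j O₀ O E) (m : ℕ)
    (hdim : Module.finrank ℝ D + Module.finrank ℝ B + m = Module.finrank ℝ H) (M : Set H)
    (hM : ∀ x, x ∈ M ↔ x ∈ O₀ ∧ Γ x = 0 ∧ (φ x, α x) ∈ Kset O E) : SubE m M := by
  refine subE_zero (fun x => (Γ x, E (φ x, α x))) _ (pb_open h) (pb_smooth h) m ?_ M
    (pb_mem h hM) (pb_surj h hM)
  rw [Module.finrank_prod, hdim]

theorem pb_tan {N : ℕ} {Γ : H → D} {φ : H → (Fin N → ℂ)} {α : H →L[ℝ] A} {j : A →L[ℝ] H} {O₀ : Set H}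
    {O : Set ((Fin N → ℂ) × A)} {E : (Fin N → ℂ) × A → B} (h : IsPull Γ φ α j O₀ O E) (M : Set H)
    (hM : ∀ x, x ∈ M ↔ x ∈ O₀ ∧ Γ x = 0 ∧ (φ x, α x) ∈ Kset O E) (x : H) (hx : x ∈ M) (v : H)
    (hv : fderiv ℝ Γ x v = 0) : ∃ b, TanE M x (v + j b) := by
  have hx1 := ((pb_mem h hM x).1 hx).1
  obtain ⟨b, hb⟩ := h.vert _ ((hM x).1 hx).2.2 (-fderiv ℝ E (φ x, α x) (fderiv ℝ φ x v, α v))
  refine ⟨b, ?_⟩
  rw [tan_zero (fun x => (Γ x, E (φ x, α x))) _ (pb_open h) (pb_smooth h) M (pb_mem h hM) x hx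
    (pb_surj h hM x hx), pb_j h hx1, hv, hb]
  simp

theorem pb_ker {N : ℕ} {Γ : H → D} {φ : H → (Fin N → ℂ)} {α : H →L[ℝ] A} {j : A →L[ℝ] H} {O₀ : Set H}
    {O : Set ((Fin N → ℂ) × A)} {E : (Fin N → ℂ) × A → B} (h : IsPull Γ φ α j O₀ O E) (M : Set H)
    (hM : ∀ x, x ∈ M ↔ x ∈ O₀ ∧ Γ x = 0 ∧ (φ x, α x) ∈ Kset O E) (x : H) (hx : x ∈ M) (v : H)
    (hv : TanE M x v) : fderiv ℝ Γ x v = 0 := by
  have hx1 := ((pb_mem h hM x).1 hx).1
  rw [tan_zero (fun x => (Γ x, E (φ x, α x))) _ (pb_open h) (pb_smooth h) M (pb_mem h hM) x hx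
    (pb_surj h hM x hx), pb_fderiv h hx1] at hv
  exact congrArg Prod.fst hv

/-- Compactness of the pull back. PROOF: it is a closed subset of the compact set `S ×ˢ (Prod.snd '' K)`: on the closed set `S ×ˢ univ` the map
`(x, a) ↦ (φ x, a)` is continuous and `K` is closed (`ContinuousOn.preimage_isClosed_of_isClosed`). -/
theorem pb_compact {X A' Y : Type} [TopologicalSpace X] [T2Space X] [TopologicalSpace A'] [T2Space A'] [TopologicalSpace Y] [T2Space Y]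
    (S : Set X) (hS : IsCompact S) (φ : X → Y) (hφ : ContinuousOn φ S) (K : Set (Y × A')) (hK : IsCompact K) :
    IsCompact {x : X × A' | x.1 ∈ S ∧ (φ x.1, x.2) ∈ K} := by
  have hcl : IsClosed ((S ×ˢ (Set.univ : Set A')) ∩ (fun x : X × A' => (φ x.1, x.2)) ⁻¹' K) := by
    refine ContinuousOn.preimage_isClosed_of_isClosed ?_ (hS.isClosed.prod isClosed_univ)
      hK.isClosed
    exact (hφ.comp continuousOn_fst fun x hx => hx.1).prodMk continuousOn_snd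
  refine (hS.prod (hK.image continuous_snd)).of_isClosed_subset (t := {x : X × A' | x.1 ∈ S ∧
    (φ x.1, x.2) ∈ K}) ?_ ?_
  · convert hcl using 1
    ext x
    simp
  · rintro x ⟨h1, h2⟩
    exact ⟨h1, _, h2, rfl⟩

end Pool.Agent.Helper48.BPF
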