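import Pool.Agent.Helper48.BPF.SDefs
import Pool.Agent.Helper48.BPF.Alg
import Pool.Agent.Helper6.BP.Inv

/-!
PROJECT BP, block F, module BP-F12: algebra and smoothness for the coordinates `(z, (σ, η, t))`, `y = yv x = σ q(z) + η`, `S' = Sm η`.

`sm_qq`: `Sm_ofS` (block V, Coord.lean). `sm_yv`: `Sm_add`, `Sm_smul`. `mv_yv`: `∑_j σ z_i z_j conj(z_j) = σ z_i nz z`. `dot_qq`: by `inner_Sm` `q(z)·η = Re ∑_ij z_i z_j conj(S'_ij)`
(the `inl` coordinates of `q(z)` are `0`) and `∑_j z_j conj(S'_ij) = conj ((S' z̄)_i) = 0`. `nsq_qq`: `sum_normSq_Sm`. `nsq_yv`: expand the square of `σ q(z) + η`.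
`hh_yv`: `hh_eq` (block V, IdentB.lean) for `y` and for `η`: with `S = σ z zᵀ + S'`: `wsq y = wsq η`, `ssq y = σ² + ssq η` (as `q(z)·η = 0`), `S Sᴴ = σ² z zᴴ + S' S'ᴴ` (mixed terms: `∑_a z_a conj(S'_ja) = 0`), and
`∑ normSq (σ² z_i z̄_j + R_ij) = σ⁴ + ∑ normSq R_ij` for `R = S' S'ᴴ` since `∑_ij conj(z_i z̄_j) R_ij = ∑_a (∑_i z̄_i S'_ia) (..) = 0` (`S'` symmetric). So `h(y) = wsq η (σ² + ssq η) + ((σ² + ssq η)² - σ⁴ - ∑ normSq R)/2 = σ² nsq η + h(η)`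
(`nsq η = wsq η + ssq η`, `nsq_eq`).
`k0_iff`: unfold `Kset`, `E0`, `O0`, then `nsq_yv`, `ffun_eq`, `hh_yv`. `yv_act`: `χ² = sg` real, `q(c z) = c² q(z)`. `fn_CC`: `CC p l w j = Re (c_jl w)`, `ff j (z zᵀ) = Re ∑_l c_jl z_l²`.
Smoothness: `qq` and everything else is polynomial in real coordinates: `ofS (vecMulVec z z) k` is a real multiple of `Re (z_i z_j)` or `Im (z_i z_j)` (`Sym2.ind` on `k.1`), `contDiff_pi`; `qf`, `nsq`, `Sm`, `mv` are finite sums of products.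
-/

set_option autoImplicit false

namespace Pool.Agent.Helper48.BPF

open Pool.Agent.Helper79.BP Pool.Agent.Helper93.BPF Pool.Agent.Helper72.BP Pool.Agent.Helper6.BP
open Matrix
open scoped ContDiff Topology

variable {p m : ℕ}

private theorem h86_qq_inl (z : Fin m → ℂ) (i : Fin (p + 1)) : qq p m z (Sum.inl i) = 0 := rfl

private theorem h86_Sm_apply_qq (z : Fin m → ℂ) (i j : Fin m) : Sm (qq p m z) i j = z i * z j := by
  have hT : (vecMulVec z z)ᵀ = vecMulVec z z := by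
    ext i j
    rw [transpose_apply, vecMulVec_apply, vecMulVec_apply, mul_comm]
  have h : Sm (qq p m z) = vecMulVec z z := Sm_ofS _ _ hT
  rw [h, vecMulVec_apply]

private theorem h86_nz (z : Fin m → ℂ) : ∑ j, z j * (starRingEnd ℂ) (z j) = (nz z : ℂ) := by
  unfold nz
  rw [Complex.ofReal_sum]
  refine Finset.sum_congr rfl fun j _ => ?_
  rw [Complex.mul_conj]

private theorem h86_nsq_add {ι : Type} [Fintype ι] (a b : ι → ℝ) (c : ℝ) :
    nsq (c • a + b) = c ^ 2 * nsq a + 2 * c * dotProduct a b + nsq b := by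
  unfold nsq dotProduct
  rw [Finset.mul_sum, Finset.mul_sum, ← Finset.sum_add_distrib, ← Finset.sum_add_distrib]
  refine Finset.sum_congr rfl fun i _ => ?_
  rw [Pi.add_apply, Pi.smul_apply, smul_eq_mul]
  ring

private theorem h86_mv_conj (S : Matrix (Fin m) (Fin m) ℂ) (z : Fin m → ℂ) (hk : mv S z = 0) (i : Fin m) :
    ∑ j, z j * (starRingEnd ℂ) (S i j) = 0 := by
  have h := congrArg (starRingEnd ℂ) (congrFun hk i)
  unfold mv at h
  rw [map_sum, Pi.zero_apply, map_zero] at h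
  rw [← h]
  refine Finset.sum_congr rfl fun j _ => ?_
  rw [map_mul, Complex.conj_conj, mul_comm]

theorem sm_qq (z : Fin m → ℂ) : Sm (qq p m z) = vecMulVec z z := by
  ext i j
  rw [h86_Sm_apply_qq, vecMulVec_apply]

theorem sm_yv (x : (Fin m → ℂ) × A0 p m) : Sm (yv x) = (x.2.1 : ℂ) • vecMulVec x.1 x.1 + Sm x.2.2.1 := by
  unfold yv
  rw [Sm_add, Sm_smul, sm_qq]

theorem mv_yv (x : (Fin m → ℂ) × A0 p m) (hz : nz x.1 = 1) (hk : mv (Sm x.2.2.1) x.1 = 0) :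
    mv (Sm (yv x)) x.1 = (x.2.1 : ℂ) • x.1 := by
  funext i
  have h1 : mv (Sm (yv x)) x.1 i = (x.2.1 : ℂ) * x.1 i * (∑ j, x.1 j * (starRingEnd ℂ) (x.1 j)) +
      mv (Sm x.2.2.1) x.1 i := by
    unfold mv
    rw [Finset.mul_sum, ← Finset.sum_add_distrib]
    refine Finset.sum_congr rfl fun j _ => ?_
    rw [sm_yv, Matrix.add_apply, Matrix.smul_apply, vecMulVec_apply, smul_eq_mul]
    ring
  rw [h1, h86_nz, hz, hk, Pi.zero_apply, Complex.ofReal_one, mul_one, add_zero, Pi.smul_apply, smul_eq_mul]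

theorem dot_qq (z : Fin m → ℂ) (η : Ix p (Kx m) → ℝ) (hk : mv (Sm η) z = 0) : dotProduct (qq p m z) η = 0 := by
  have h1 : dotProduct (qq p m z) η = ∑ k : Kx m, qq p m z (Sum.inr k) * η (Sum.inr k) := by
    unfold dotProduct
    rw [Fintype.sum_sum_type]
    simp only [h86_qq_inl, zero_mul, Finset.sum_const_zero, zero_add]
  rw [h1, ← inner_Sm]
  have h2 : ∀ i, ∑ j, Sm (qq p m z) i j * star (Sm η i j) = 0 := by
    intro i
    have h3 := h86_mv_conj _ _ hk i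
    calc ∑ j, Sm (qq p m z) i j * star (Sm η i j) = z i * ∑ j, z j * (starRingEnd ℂ) (Sm η i j) := by
          rw [Finset.mul_sum]
          refine Finset.sum_congr rfl fun j _ => ?_
          rw [h86_Sm_apply_qq, Complex.star_def, mul_assoc]
      _ = 0 := by rw [h3, mul_zero]
  have h4 : ∑ i, ∑ j, (Sm (qq p m z) i j * star (Sm η i j)).re = 0 := by
    refine Finset.sum_eq_zero fun i _ => ?_
    rw [← Complex.re_sum, h2 i, Complex.zero_re]
  exact h4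

theorem nsq_qq (z : Fin m → ℂ) : nsq (qq p m z) = nz z ^ 2 := by
  have h1 : wsq (qq p m z) = 0 := by
    unfold wsq
    refine Finset.sum_eq_zero fun i _ => ?_
    rw [h86_qq_inl, zero_pow two_ne_zero]
  rw [nsq_eq, h1, zero_add, ← sum_normSq_Sm, _root_.sq]
  unfold nz
  rw [Finset.sum_mul_sum]
  refine Finset.sum_congr rfl fun i _ => Finset.sum_congr rfl fun j _ => ?_
  rw [h86_Sm_apply_qq, Complex.normSq_mul]

theorem nsq_yv (x : (Fin m → ℂ) × A0 p m) (hz : nz x.1 = 1) (hk : mv (Sm x.2.2.1) x.1 = 0) :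
    nsq (yv x) = x.2.1 ^ 2 + nsq x.2.2.1 := by
  unfold yv
  rw [h86_nsq_add, nsq_qq, dot_qq _ _ hk, hz]
  ring

theorem hh_yv (x : (Fin m → ℂ) × A0 p m) (hz : nz x.1 = 1) (hk : mv (Sm x.2.2.1) x.1 = 0) :
    hh (yv x) = x.2.1 ^ 2 * nsq x.2.2.1 + hh x.2.2.1 := by
  have hw : wsq (yv x) = wsq x.2.2.1 := by
    unfold wsq yv
    refine Finset.sum_congr rfl fun i _ => ?_
    rw [Pi.add_apply, Pi.smul_apply, h86_qq_inl, smul_zero, zero_add]
  have hs : ssq (yv x) = x.2.1 ^ 2 + ssq x.2.2.1 := by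
    have h := nsq_yv x hz hk
    rw [nsq_eq, nsq_eq, hw] at h
    linarith
  have hR : ∀ i k, (Sm (yv x) * (Sm (yv x))ᴴ) i k =
      (x.2.1 : ℂ) ^ 2 * (x.1 i * (starRingEnd ℂ) (x.1 k)) + (Sm x.2.2.1 * (Sm x.2.2.1)ᴴ) i k := by
    intro i k
    have h1 : ∑ j, Sm x.2.2.1 i j * (starRingEnd ℂ) (x.1 j) = 0 := congrFun hk i
    have h2 : ∑ j, x.1 j * (starRingEnd ℂ) (Sm x.2.2.1 k j) = 0 := h86_mv_conj _ _ hk k
    have h3 := h86_nz x.1
    rw [hz, Complex.ofReal_one] at h3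
    have h4 : (Sm (yv x) * (Sm (yv x))ᴴ) i k =
        (x.2.1 : ℂ) ^ 2 * (x.1 i * (starRingEnd ℂ) (x.1 k)) * (∑ j, x.1 j * (starRingEnd ℂ) (x.1 j)) +
        (x.2.1 : ℂ) * x.1 i * (∑ j, x.1 j * (starRingEnd ℂ) (Sm x.2.2.1 k j)) +
        (x.2.1 : ℂ) * (starRingEnd ℂ) (x.1 k) * (∑ j, Sm x.2.2.1 i j * (starRingEnd ℂ) (x.1 j)) +
        (Sm x.2.2.1 * (Sm x.2.2.1)ᴴ) i k := by
      rw [Matrix.mul_apply, Matrix.mul_apply, Finset.mul_sum, Finset.mul_sum, Finset.mul_sum,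
        ← Finset.sum_add_distrib, ← Finset.sum_add_distrib, ← Finset.sum_add_distrib]
      refine Finset.sum_congr rfl fun j _ => ?_
      rw [conjTranspose_apply, conjTranspose_apply, sm_yv, Matrix.add_apply, Matrix.add_apply, Matrix.smul_apply,
        Matrix.smul_apply, vecMulVec_apply, vecMulVec_apply, smul_eq_mul, smul_eq_mul, Complex.star_def,
        map_add, map_mul, map_mul, Complex.conj_ofReal]
      ring
    rw [h4, h1, h2, h3]
    ring
  have hX : ∑ i, ∑ k, (x.1 i * (starRingEnd ℂ) (x.1 k)) *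
      (starRingEnd ℂ) ((Sm x.2.2.1 * (Sm x.2.2.1)ᴴ) i k) = 0 := by
    have h5 : ∀ i k, (x.1 i * (starRingEnd ℂ) (x.1 k)) * (starRingEnd ℂ) ((Sm x.2.2.1 * (Sm x.2.2.1)ᴴ) i k) =
        ∑ a, (x.1 i * (starRingEnd ℂ) (Sm x.2.2.1 a i)) * ((starRingEnd ℂ) (x.1 k) * Sm x.2.2.1 a k) := by
      intro i k
      rw [Matrix.mul_apply, map_sum, Finset.mul_sum]
      refine Finset.sum_congr rfl fun a _ => ?_
      rw [conjTranspose_apply, Complex.star_def, map_mul, Complex.conj_conj, Sm_symm _ i a, Sm_symm _ k a]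
      ring
    simp only [h5]
    have h6 : ∑ i, ∑ k, ∑ a, (x.1 i * (starRingEnd ℂ) (Sm x.2.2.1 a i)) *
        ((starRingEnd ℂ) (x.1 k) * Sm x.2.2.1 a k) =
        ∑ a, (∑ i, x.1 i * (starRingEnd ℂ) (Sm x.2.2.1 a i)) *
          (∑ k, (starRingEnd ℂ) (x.1 k) * Sm x.2.2.1 a k) := by
      simp only [Finset.sum_mul_sum]
      have h7 : ∀ k : Fin m, ∑ i, ∑ a, (x.1 i * (starRingEnd ℂ) (Sm x.2.2.1 a i)) *
          ((starRingEnd ℂ) (x.1 k) * Sm x.2.2.1 a k) =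
          ∑ a, ∑ i, (x.1 i * (starRingEnd ℂ) (Sm x.2.2.1 a i)) *
          ((starRingEnd ℂ) (x.1 k) * Sm x.2.2.1 a k) := fun k => Finset.sum_comm
      calc _ = ∑ k, ∑ i, ∑ a, (x.1 i * (starRingEnd ℂ) (Sm x.2.2.1 a i)) *
          ((starRingEnd ℂ) (x.1 k) * Sm x.2.2.1 a k) := Finset.sum_comm
        _ = ∑ k, ∑ a, ∑ i, (x.1 i * (starRingEnd ℂ) (Sm x.2.2.1 a i)) *
          ((starRingEnd ℂ) (x.1 k) * Sm x.2.2.1 a k) := Finset.sum_congr rfl fun k _ => h7 k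
        _ = ∑ a, ∑ k, ∑ i, (x.1 i * (starRingEnd ℂ) (Sm x.2.2.1 a i)) *
          ((starRingEnd ℂ) (x.1 k) * Sm x.2.2.1 a k) := Finset.sum_comm
        _ = _ := Finset.sum_congr rfl fun a _ => Finset.sum_comm
    rw [h6]
    refine Finset.sum_eq_zero fun a _ => ?_
    rw [h86_mv_conj _ _ hk a, zero_mul]
  have hN : ∑ i, ∑ k, Complex.normSq ((Sm (yv x) * (Sm (yv x))ᴴ) i k) =
      x.2.1 ^ 4 + ∑ i, ∑ k, Complex.normSq ((Sm x.2.2.1 * (Sm x.2.2.1)ᴴ) i k) := by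
    have h8 : ∀ i k, Complex.normSq ((Sm (yv x) * (Sm (yv x))ᴴ) i k) =
        x.2.1 ^ 4 * (Complex.normSq (x.1 i) * Complex.normSq (x.1 k)) +
        2 * x.2.1 ^ 2 * ((x.1 i * (starRingEnd ℂ) (x.1 k)) *
          (starRingEnd ℂ) ((Sm x.2.2.1 * (Sm x.2.2.1)ᴴ) i k)).re +
        Complex.normSq ((Sm x.2.2.1 * (Sm x.2.2.1)ᴴ) i k) := by
      intro i k
      rw [hR, Complex.normSq_add, Complex.normSq_mul, Complex.normSq_mul, Complex.normSq_conj, map_pow,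
        Complex.normSq_ofReal, mul_assoc ((x.2.1 : ℂ) ^ 2), ← Complex.ofReal_pow, Complex.re_ofReal_mul]
      ring
    have h9 : ∑ i, ∑ k, Complex.normSq (x.1 i) * Complex.normSq (x.1 k) = 1 := by
      rw [← Finset.sum_mul_sum]
      have h10 : ∑ i, Complex.normSq (x.1 i) = 1 := hz
      rw [h10, one_mul]
    have h11 : ∑ i, ∑ k, ((x.1 i * (starRingEnd ℂ) (x.1 k)) *
          (starRingEnd ℂ) ((Sm x.2.2.1 * (Sm x.2.2.1)ᴴ) i k)).re = 0 := by
      have h12 := congrArg Complex.re hX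
      simpa only [Complex.re_sum, Complex.zero_re] using h12
    have h13 : ∀ (A B : ℝ) (n r s : Fin m → Fin m → ℝ), ∑ i, ∑ k, (A * n i k + B * r i k + s i k) =
        A * (∑ i, ∑ k, n i k) + B * (∑ i, ∑ k, r i k) + ∑ i, ∑ k, s i k := by
      intro A B n r s
      simp only [Finset.sum_add_distrib, Finset.mul_sum]
    simp only [h8]
    rw [h13, h9, h11]
    ring
  rw [hh_eq, hh_eq, hw, hs, hN, nsq_eq]
  ring

theorem hh_smul (c : ℝ) (y : Ix p (Kx m) → ℝ) : hh (c • y) = c ^ 4 * hh y := by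
  unfold hh
  rw [Finset.mul_sum]
  refine Finset.sum_congr rfl fun l _ => ?_
  have h : qf (GG p m l) (c • y) = c ^ 2 * qf (GG p m l) y := by
    unfold qf
    rw [Finset.mul_sum]
    refine Finset.sum_congr rfl fun i _ => ?_
    rw [Finset.mul_sum]
    refine Finset.sum_congr rfl fun j _ => ?_
    rw [Pi.smul_apply, Pi.smul_apply, smul_eq_mul, smul_eq_mul]
    ring
  rw [h]
  ring

theorem hh_nonneg (y : Ix p (Kx m) → ℝ) : 0 ≤ hh y := by
  exact Finset.sum_nonneg fun l _ => sq_nonneg _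

theorem ffun_eq (ε : ℝ) (y : Ix p (Kx m) → ℝ) (hy : nsq y = 1) (t : Tx p (rr p m) (Kx m) → ℝ) :
    Ffun (GG p m) ε y t = nsq t + hh y - ε := by
  unfold Ffun hh
  rw [hy, Algebra.algebraMap_self, RingHom.id_apply, one_pow, mul_one]

theorem k0_iff (ε : ℝ) (x : (Fin m → ℂ) × A0 p m) : x ∈ K0 p m ε ↔
    (nz x.1 = 1 ∧ 0 < x.2.1 ∧ 1 / 2 < x.2.1 ^ 2 ∧ mv (Sm x.2.2.1) x.1 = 0 ∧
      x.2.1 ^ 2 + nsq x.2.2.1 = 1 ∧ nsq x.2.2.2 + (x.2.1 ^ 2 * nsq x.2.2.1 + hh x.2.2.1) = ε) := by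
  constructor
  · rintro ⟨h1, ⟨h2, h3⟩, h4⟩
    have h5 : mv (Sm x.2.2.1) x.1 = 0 := congrArg (fun w : B0 m => w.1) h4
    have h6 : nsq (yv x) - 1 = 0 := congrArg (fun w : B0 m => w.2.1) h4
    have h7 : Ffun (GG p m) ε (yv x) x.2.2.2 = 0 := congrArg (fun w : B0 m => w.2.2) h4
    have h8 : nsq (yv x) = 1 := sub_eq_zero.1 h6
    rw [ffun_eq ε _ h8, hh_yv x h1 h5] at h7
    rw [nsq_yv x h1 h5] at h8
    exact ⟨h1, h2, h3, h5, h8, sub_eq_zero.1 h7⟩
  · rintro ⟨h1, h2, h3, h5, h8, h7⟩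
    refine ⟨h1, ⟨h2, h3⟩, ?_⟩
    have h9 : nsq (yv x) = 1 := by rw [nsq_yv x h1 h5, h8]
    unfold E0
    rw [ffun_eq ε _ h9, hh_yv x h1 h5, h9, h5, h7, sub_self, sub_self]
    rfl

theorem k0_vt (ε : ℝ) (x : (Fin m → ℂ) × A0 p m) (hx : x ∈ K0 p m ε) :
    (yv x, x.2.2.2) ∈ Vt (GG p m) ε ∧ 1 / 2 < ssq (yv x) := by
  have h := (k0_iff ε x).1 hx
  obtain ⟨h1, h2, h3, h5, h8, h7⟩ := h
  have h9 : nsq (yv x) = 1 := by rw [nsq_yv x h1 h5, h8]
  refine ⟨⟨h9, ?_⟩, ?_⟩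
  · change Ffun (GG p m) ε (yv x) x.2.2.2 = 0
    rw [ffun_eq ε _ h9, hh_yv x h1 h5, h7, sub_self]
  · have hw : wsq (yv x) = wsq x.2.2.1 := by
      unfold wsq yv
      refine Finset.sum_congr rfl fun i _ => ?_
      rw [Pi.add_apply, Pi.smul_apply, h86_qq_inl, smul_zero, zero_add]
    have h := nsq_yv x h1 h5
    rw [nsq_eq, nsq_eq, hw] at h
    have h10 : 0 ≤ ssq x.2.2.1 := Finset.sum_nonneg fun k _ => sq_nonneg _
    linarith

/-- The action on `y`. -/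
theorem yv_act (g : G4) (x : (Fin m → ℂ) × A0 p m) : yv (act chi0 (rho0 p m) m g x) = sg g • yv x := by
  have h1 : qq p m (chi0 g • x.1) = sg g • qq p m x.1 := by
    have h2 : vecMulVec (chi0 g • x.1) (chi0 g • x.1) = ((sg g : ℝ) : ℂ) • vecMulVec x.1 x.1 := by
      ext i j
      rw [vecMulVec_apply, Matrix.smul_apply, vecMulVec_apply, Pi.smul_apply, Pi.smul_apply, smul_eq_mul,
        smul_eq_mul, smul_eq_mul, ← sg_eq]
      ring
    unfold qq
    rw [h2, ofS_smul]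
    funext i
    rcases i with i | k
    · simp
    · simp
  have h3 : yv (act chi0 (rho0 p m) m g x) = x.2.1 • qq p m (chi0 g • x.1) + sg g • x.2.2.1 := rfl
  rw [h3, h1]
  unfold yv
  rw [smul_add, smul_comm]

theorem emb_sign {ι τ : Type} (e : ℝ) (he : e ^ 2 = 1) (y : ι → ℝ) (t : τ → ℝ) : emb (e • y, t) = emb (y, t) := by
  funext i
  rcases i with a | s
  · change (e • y) a.1 * (e • y) a.2 = y a.1 * y a.2
    rw [Pi.smul_apply, Pi.smul_apply, smul_eq_mul, smul_eq_mul]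
    linear_combination (y a.1 * y a.2) * he
  · rfl

theorem fn_CC (z : Fin m → ℂ) (j : Fin p) : fn (CC p) m z j = ff j (vecMulVec z z) := by
  unfold fn ff
  rw [Finset.sum_apply, Complex.re_sum]
  refine Finset.sum_congr rfl fun l _ => ?_
  rw [vecMulVec_apply, ← pow_two]
  rfl

theorem l0_act (κ : ℝ) (g : G4) (x : (Fin m → ℂ) × A0 p m) :
    L0 p m κ (act chi0 (rho0 p m) m g x) = sg g • L0 p m κ x := by
  funext j
  have h1 : (act chi0 (rho0 p m) m g x).1 = chi0 g • x.1 := rfl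
  unfold L0
  rw [yv_act, h1, fn_smulC (CC p) (chi0 g) (sg g) (sg_eq g), dotProduct_smul, Pi.smul_apply, Pi.smul_apply]
  simp only [smul_eq_mul]
  ring

theorem contDiff_yv : ContDiff ℝ ∞ (fun x : (Fin m → ℂ) × A0 p m => yv x) := by
  have hq : ContDiff ℝ ∞ (fun z : Fin m → ℂ => qq p m z) := by
    refine contDiff_pi.2 fun i => ?_
    rcases i with i | ⟨e, b⟩
    · exact contDiff_const
    · induction e using Sym2.ind with
      | _ i j =>
        have hz : ∀ i, ContDiff ℝ ∞ (fun z : Fin m → ℂ => z i) := fun i => contDiff_apply ℝ ℂ i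
        have h : ContDiff ℝ ∞ (fun z : Fin m → ℂ => (z i * z j + z j * z i) / 2) :=
          (((hz i).mul (hz j)).add ((hz j).mul (hz i))).div_const 2
        cases b
        · exact contDiff_const.mul (Complex.reCLM.contDiff.comp h)
        · exact contDiff_const.mul (Complex.imCLM.contDiff.comp h)
  unfold yv
  exact ((contDiff_fst.comp contDiff_snd).smul (hq.comp contDiff_fst)).add
    (contDiff_fst.comp (contDiff_snd.comp contDiff_snd))

theorem contDiff_E0 (ε : ℝ) : ContDiff ℝ ∞ (E0 p m ε) := by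
  have hη : ∀ i, ContDiff ℝ ∞ (fun x : (Fin m → ℂ) × A0 p m => x.2.2.1 i) := fun i =>
    (contDiff_apply ℝ ℝ i).comp (contDiff_fst.comp (contDiff_snd.comp contDiff_snd))
  have ht : ∀ i, ContDiff ℝ ∞ (fun x : (Fin m → ℂ) × A0 p m => x.2.2.2 i) := fun i =>
    (contDiff_apply ℝ ℝ i).comp (contDiff_snd.comp (contDiff_snd.comp contDiff_snd))
  have hz : ∀ i, ContDiff ℝ ∞ (fun x : (Fin m → ℂ) × A0 p m => x.1 i) := fun i =>
    (contDiff_apply ℝ ℂ i).comp contDiff_fst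
  have hy : ∀ i, ContDiff ℝ ∞ (fun x : (Fin m → ℂ) × A0 p m => yv x i) := fun i =>
    (contDiff_apply ℝ ℝ i).comp contDiff_yv
  have hS : ∀ i j, ContDiff ℝ ∞ (fun x : (Fin m → ℂ) × A0 p m => Sm x.2.2.1 i j) := by
    intro i j
    unfold Sm
    refine ContDiff.add ?_ (ContDiff.mul ?_ contDiff_const)
    · exact Complex.ofRealCLM.contDiff.comp ((hη _).div_const _)
    · exact Complex.ofRealCLM.contDiff.comp ((hη _).div_const _)
  have hn : ContDiff ℝ ∞ (fun x : (Fin m → ℂ) × A0 p m => nsq (yv x)) := by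
    unfold nsq
    exact ContDiff.sum fun i _ => (hy i).pow 2
  have hnt : ContDiff ℝ ∞ (fun x : (Fin m → ℂ) × A0 p m => nsq x.2.2.2) := by
    unfold nsq
    exact ContDiff.sum fun i _ => (ht i).pow 2
  unfold E0
  refine ContDiff.prodMk ?_ (ContDiff.prodMk ?_ ?_)
  · refine contDiff_pi.2 fun i => ?_
    unfold mv
    exact ContDiff.sum fun j _ => (hS i j).mul (Complex.conjCLE.contDiff.comp (hz j))
  · exact hn.sub contDiff_const
  · unfold Ffun
    refine (hnt.add (ContDiff.sum fun l _ => ContDiff.pow ?_ 2)).sub (contDiff_const.mul (hn.pow 2))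
    unfold qf
    exact ContDiff.sum fun i _ => ContDiff.sum fun j _ => (contDiff_const.mul (hy i)).mul (hy j)

theorem contDiff_F0 : ContDiff ℝ ∞ (F0 p m) := by
  have ht : ∀ i, ContDiff ℝ ∞ (fun x : (Fin m → ℂ) × A0 p m => x.2.2.2 i) := fun i =>
    (contDiff_apply ℝ ℝ i).comp (contDiff_snd.comp (contDiff_snd.comp contDiff_snd))
  have hy : ∀ i, ContDiff ℝ ∞ (fun x : (Fin m → ℂ) × A0 p m => yv x i) := fun i =>
    (contDiff_apply ℝ ℝ i).comp contDiff_yv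
  refine contDiff_pi.2 fun i => ?_
  rcases i with a | s
  · exact (hy a.1).mul (hy a.2)
  · exact ht s

theorem contDiff_L0 : ContDiff ℝ ∞ (fun x : ((Fin m → ℂ) × A0 p m) × ℝ => L0 p m x.2 x.1) := by
  have hy : ∀ i, ContDiff ℝ ∞ (fun x : ((Fin m → ℂ) × A0 p m) × ℝ => yv x.1 i) := fun i =>
    (contDiff_apply ℝ ℝ i).comp (contDiff_yv.comp contDiff_fst)
  have hκ : ContDiff ℝ ∞ (fun x : ((Fin m → ℂ) × A0 p m) × ℝ => x.2) := contDiff_snd
  refine contDiff_pi.2 fun j => ?_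
  have hf : ContDiff ℝ ∞ (fun x : ((Fin m → ℂ) × A0 p m) × ℝ => fn (CC p) m x.1.1 j) :=
    (contDiff_apply ℝ ℝ j).comp ((contDiff_fn (CC p)).comp (contDiff_fst.comp contDiff_fst))
  unfold L0 dotProduct
  exact ((contDiff_const.sub hκ).mul (ContDiff.sum fun i _ => contDiff_const.mul (hy i))).add (hκ.mul hf)

end Pool.Agent.Helper48.BPF
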