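import Pool.Agent.Helper48.BPF.SVert

/-!
PROJECT BP, block F, module BP-F15: `K0` is a context.

`chi`: `chi0_pow`. `smooth`: `contDiff_E0`. `vert`: `vert0`. `compact0`: `K0` is bounded (`k0_iff`: `nz z = 1`, `σ² + nsq η = 1`, `nsq t ≤ ε`) and closed: it equals
`{x | nz z = 1, 0 ≤ σ, 1/2 ≤ σ², E0 x = 0}`, because `σ² = 1/2` would give `nsq η = 1/2`, `ε ≥ σ² nsq η = 1/4` (`hh_nonneg`). Closed and bounded in a finite dimensional space (`Metric.isCompact_of_isClosed_isBounded`).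
`stab`: `k0_iff`; `sg g • η` (`sg_sq`), `mv (Sm (sg g • η)) (c z) = sg g c̄ mv (Sm η) z = 0`, `nz (c z) = nz z` (`normSq_of_pow_four`), `hh_smul` (`sg^4 = 1`), `nsq (sg • η) = nsq η`.
`free`: `chi0 g • z = z`, `z ≠ 0` gives `chi0 g = 1`, so `g = 1` (`chi0` is injective: `Units.ext`, `Subtype.ext`). `cont`: `contDiff_F0`. `maps`: `k0_vt`, `VV = emb '' Vt`. `inv`: `yv_act`, `emb_sign`.
-/

set_option autoImplicit false

namespace Pool.Agent.Helper48.BPF

open Pool.Agent.Helper79.BP Pool.Agent.Helper93.BPF Pool.Agent.Helper72.BP Pool.Agent.Helper6.BP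
open Matrix
open scoped ContDiff Topology

variable {p m : ℕ}

private theorem nsq_nonneg' {ι : Type} [Fintype ι] (y : ι → ℝ) : 0 ≤ nsq y :=
  Finset.sum_nonneg fun i _ => sq_nonneg _

private theorem abs_le_of_nsq {ι : Type} [Fintype ι] (y : ι → ℝ) (h : nsq y ≤ 1) (i : ι) : ‖y i‖ ≤ 1 := by
  have h1 : y i ^ 2 ≤ nsq y := Finset.single_le_sum (f := fun i => y i ^ 2) (fun i _ => sq_nonneg _) (Finset.mem_univ i)
  rw [Real.norm_eq_abs]
  exact abs_le_of_sq_le_sq' (by nlinarith : y i ^ 2 ≤ 1 ^ 2) zero_le_one |> fun h => abs_le.2 h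

private theorem nsq_smul' {ι : Type} [Fintype ι] (c : ℝ) (y : ι → ℝ) : nsq (c • y) = c ^ 2 * nsq y := by
  unfold nsq
  rw [Finset.mul_sum]
  refine Finset.sum_congr rfl fun i _ => ?_
  rw [Pi.smul_apply, smul_eq_mul, mul_pow]

private theorem k0_eq (ε : ℝ) (h1 : ε < 1 / 4) : K0 p m ε =
    {x | nz x.1 = 1 ∧ 0 ≤ x.2.1 ∧ 1 / 2 ≤ x.2.1 ^ 2 ∧ E0 p m ε x = 0} := by
  ext x
  constructor
  · rintro ⟨hz, ⟨hs, hs2⟩, hE⟩
    exact ⟨hz, hs.le, hs2.le, hE⟩
  · rintro ⟨hz, hs, hs2, hE⟩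
    have hE1 : mv (Sm x.2.2.1) x.1 = 0 := congrArg Prod.fst hE
    have hE2 : nsq (yv x) - 1 = 0 := congrArg (fun b : B0 m => b.2.1) hE
    have hE3 : Ffun (GG p m) ε (yv x) x.2.2.2 = 0 := congrArg (fun b : B0 m => b.2.2) hE
    have hy : nsq (yv x) = 1 := by linarith
    have h2 : nsq x.2.2.2 + hh (yv x) - ε = 0 := by
      rw [← ffun_eq ε (yv x) hy]
      exact hE3
    have h3 := nsq_yv x hz hE1
    have h4 := hh_yv x hz hE1
    have h5 := hh_nonneg x.2.2.1
    have h6 := nsq_nonneg' x.2.2.2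
    refine ⟨hz, ⟨?_, ?_⟩, hE⟩
    · rcases hs.eq_or_lt with h | h
      · rw [← h] at hs2
        norm_num at hs2
      · exact h
    · rcases hs2.eq_or_lt with h | h
      · exfalso
        rw [hy, ← h] at h3
        have h7 : nsq x.2.2.1 = 1 / 2 := by linarith
        rw [h4, ← h, h7] at h2
        linarith
      · exact h

theorem compact0 (ε : ℝ) (h1 : ε < 1 / 4) : IsCompact (K0 p m ε) := by
  have hcl : IsClosed (K0 p m ε) := by
    rw [k0_eq ε h1]
    have c1 : Continuous (fun x : (Fin m → ℂ) × A0 p m => nz x.1) :=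
      (contDiff_nz (n := m)).continuous.comp continuous_fst
    have c2 : Continuous (fun x : (Fin m → ℂ) × A0 p m => x.2.1) := continuous_fst.comp continuous_snd
    have c3 : Continuous (E0 p m ε) := (contDiff_E0 ε).continuous
    exact (isClosed_eq c1 continuous_const).inter ((isClosed_le continuous_const c2).inter
      ((isClosed_le continuous_const (c2.pow 2)).inter (isClosed_eq c3 continuous_const)))
  refine Metric.isCompact_of_isClosed_isBounded hcl (Metric.isBounded_closedBall.subset (?_ :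
    K0 p m ε ⊆ Metric.closedBall 0 1))
  intro x hx
  obtain ⟨hz, hs, hs2, hk, hn, ht⟩ := (k0_iff ε x).1 hx
  have h5 := hh_nonneg x.2.2.1
  have h6 := nsq_nonneg' x.2.2.2
  have h7 := nsq_nonneg' x.2.2.1
  rw [mem_closedBall_zero_iff]
  have a1 : ‖x.1‖ ≤ 1 := by
    refine (pi_norm_le_iff_of_nonneg zero_le_one).2 fun i => ?_
    have h8 : Complex.normSq (x.1 i) ≤ nz x.1 :=
      Finset.single_le_sum (f := fun i => Complex.normSq (x.1 i)) (fun i _ => Complex.normSq_nonneg _)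
        (Finset.mem_univ i)
    rw [hz, Complex.normSq_eq_norm_sq] at h8
    nlinarith [norm_nonneg (x.1 i)]
  have a2 : ‖x.2.1‖ ≤ 1 := by
    rw [Real.norm_eq_abs, abs_of_pos hs]
    nlinarith
  have a3 : ‖x.2.2.1‖ ≤ 1 :=
    (pi_norm_le_iff_of_nonneg zero_le_one).2 fun i => abs_le_of_nsq _ (by nlinarith) i
  have a4 : ‖x.2.2.2‖ ≤ 1 :=
    (pi_norm_le_iff_of_nonneg zero_le_one).2 fun i => abs_le_of_nsq _ (by nlinarith [mul_nonneg (sq_nonneg x.2.1) h7]) i
  exact max_le a1 (max_le a2 (max_le a3 a4))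

theorem stab0 (ε : ℝ) : Stab (act chi0 (rho0 p m) m) (K0 p m ε) := by
  intro g x hx
  obtain ⟨hz, hs, hs2, hk, hn, ht⟩ := (k0_iff ε x).1 hx
  have e1 : (act chi0 (rho0 p m) m g x).1 = chi0 g • x.1 := rfl
  have e2 : (act chi0 (rho0 p m) m g x).2.1 = x.2.1 := rfl
  have e3 : (act chi0 (rho0 p m) m g x).2.2.1 = sg g • x.2.2.1 := rfl
  have e4 : (act chi0 (rho0 p m) m g x).2.2.2 = x.2.2.2 := rfl
  have hn' : nsq (sg g • x.2.2.1) = nsq x.2.2.1 := by
    rw [nsq_smul', sg_sq, one_mul]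
  have hh' : hh (sg g • x.2.2.1) = hh x.2.2.1 := by
    rw [hh_smul, show sg g ^ 4 = (sg g ^ 2) ^ 2 by ring, sg_sq, one_pow, one_mul]
  have hm : mv (Sm (sg g • x.2.2.1)) (chi0 g • x.1) = 0 := by
    have h1 : mv (Sm (sg g • x.2.2.1)) (chi0 g • x.1) =
        ((sg g : ℂ) * (starRingEnd ℂ) (chi0 g)) • mv (Sm x.2.2.1) x.1 := by
      rw [Sm_smul]
      funext i
      unfold mv
      simp only [Pi.smul_apply, Matrix.smul_apply, smul_eq_mul, map_mul]
      rw [Finset.mul_sum]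
      refine Finset.sum_congr rfl fun j _ => ?_
      ring
    rw [h1, hk, smul_zero]
  rw [k0_iff, e1, e2, e3, e4, hn', hh', hm, nz_smulC, normSq_of_pow_four _ (chi0_pow g), one_mul]
  exact ⟨hz, hs, hs2, rfl, hn, ht⟩

theorem free0 (ε : ℝ) : Free (act chi0 (rho0 p m) m) (K0 p m ε) := by
  intro g x hx he
  obtain ⟨hz, -⟩ := (k0_iff ε x).1 hx
  have h1 : chi0 g • x.1 = x.1 := congrArg Prod.fst he
  have h2 : x.1 ≠ 0 := by
    intro h
    rw [(nz_eq_zero x.1).2 h] at hz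
    exact zero_ne_one hz
  have h3 : chi0 g = 1 := by
    have h4 : (chi0 g - 1) • x.1 = 0 := by rw [sub_smul, one_smul, h1, sub_self]
    rcases smul_eq_zero.1 h4 with h | h
    · exact sub_eq_zero.1 h
    · exact (h2 h).elim
  apply Subtype.ext
  apply Units.ext
  exact h3

theorem ctx0 (ε : ℝ) (h0 : 0 < ε) (h1 : ε < 1 / 4) :
    IsCtx (VV p m ε) chi0 (rho0 p m) (O0 p m) (E0 p m ε) (F0 p m) := by
  have c2 : Continuous (fun x : (Fin m → ℂ) × A0 p m => x.2.1) := continuous_fst.comp continuous_snd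
  refine ⟨chi0_pow, ?_, (contDiff_E0 ε).contDiffOn, compact0 ε h1, stab0 ε, free0 ε, ?_,
    contDiff_F0.continuous.continuousOn, ?_, ?_⟩
  · exact (isOpen_lt continuous_const c2).inter (isOpen_lt continuous_const (c2.pow 2))
  · intro x hx w
    exact vert0 ε h0 x hx w
  · intro x hx
    exact ⟨(yv x, x.2.2.2), (k0_vt ε x hx).1, rfl⟩
  · intro g x _
    show emb (yv (act chi0 (rho0 p m) m g x), x.2.2.2) = emb (yv x, x.2.2.2)
    rw [yv_act, emb_sign _ (sg_sq g)]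

end Pool.Agent.Helper48.BPF
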