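import Pool.Agent.Helper48.BPF.SOnto
import Pool.Agent.Helper48.BPF.SCtx
import Pool.Agent.Helper48.BPF.Zero
import Pool.Agent.Helper6.BP.GeoA

/-!
PROJECT BP, block F, module BP-F20: the manifold `XN` upstairs of `N_2` and its bordism to the part `f(z) = 0` of the context `K0`.

`data_XN`. `sub`: `subE_zero` with `Γ x = ((nz x.1 - 1, E0 x), L0 0 x) : (ℝ × B0 m) × (Fin p → ℝ)` on the open set `O0 p m`; onto: `surj0` for the first part, `Onto0` (`κ = 0`) for the second. Dimension: `finrank H = 2m + 1 + card Ix + card Tx`,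
target `1 + (2m + 1 + 1) + p`, `dd_eq` (block V, GeoA.lean). `compact`: closed subset of `compact0`. `stab`, `free`, `inv`: `stab0`, `l0_act`, `free0`, `ctx0`. `cont`: `contDiff_F0`. `maps`: `ctx0`.
`bord_XN`: `bordUp` with `W = {(x, κ) | x ∈ K0, -1 < κ < 2, L0 κ x = 0}`, `F (x, κ) = F0 x`. `hW`: `subE_zero` with `Γ (x, κ) = ((nz x.1 - 1, E0 x), L0 κ x)` on the open set `O0 ×ˢ Ioo (-1) 2`, onto already in the directions `(v, 0)`
(`surj0`, `Onto0`). `hreg`: `tan_zero`: the derivative of `Γ` in the direction `(0, 1)` is `(0, w)`; by `Onto0` there is `v` with `(dE, dL)(v) = (0, -w)`, so `(v, 1)` is tangent. `hc`: `{z ∈ W | 0 ≤ κ ≤ 1}` is the closed subset `L0 = 0` of the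
compact set `K0 ×ˢ Icc 0 1`. Slices: `κ = 0`: `XN` by definition; `κ = 1`: `L0 1 x = fn (CC p) m x.1`, so it is `Xset (CC p) (O0 p m) (E0 p m ε)`.
-/

set_option autoImplicit false

namespace Pool.Agent.Helper48.BPF

open Pool.Agent.Helper79.BP Pool.Agent.Helper93.BPF Pool.Agent.Helper72.BP Pool.Agent.Helper6.BP
open Matrix
open scoped ContDiff Topology

variable {p m : ℕ}

/-- The first equations. -/
private noncomputable def g1 (p m : ℕ) (ε : ℝ) (x : (Fin m → ℂ) × A0 p m) : ℝ × B0 m :=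
  (nz x.1 - 1, E0 p m ε x)

private theorem g1_smooth (ε : ℝ) : ContDiff ℝ ∞ (g1 p m ε) :=
  ((contDiff_nz.comp contDiff_fst).sub contDiff_const).prodMk (contDiff_E0 ε)

private theorem l0_smooth (κ : ℝ) : ContDiff ℝ ∞ (L0 p m κ) := by
  have h : ContDiff ℝ ∞ (fun x : (Fin m → ℂ) × A0 p m => (x, κ)) := contDiff_id.prodMk contDiff_const
  exact (contDiff_L0 (p := p) (m := m)).comp h

private theorem reg_all (ε : ℝ) (h0 : 0 < ε) (ho : Onto0 p m ε) (κ : ℝ) (hκ : -1 ≤ κ) (hκ' : κ ≤ 2)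
    (x : (Fin m → ℂ) × A0 p m) (hx : x ∈ K0 p m ε) (hL : L0 p m κ x = 0) (w : ℝ × B0 m) (u : Fin p → ℝ) :
    ∃ v, fderiv ℝ (g1 p m ε) x v = w ∧ fderiv ℝ (L0 p m κ) x v = u := by
  obtain ⟨v1, hv1⟩ := surj0 ε h0 x hx w
  obtain ⟨v2, hv2, hv3⟩ := ho κ hκ hκ' x hx hL (u - fderiv ℝ (L0 p m κ) x v1)
  refine ⟨v1 + v2, ?_, ?_⟩
  · have h1 : fderiv ℝ (g1 p m ε) x v1 = w := hv1
    have h2 : fderiv ℝ (g1 p m ε) x v2 = 0 := hv2
    rw [map_add, h1, h2, add_zero]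
  · rw [map_add, hv3, add_sub_cancel]

private theorem k0_iff_g1 (ε : ℝ) (x : (Fin m → ℂ) × A0 p m) :
    x ∈ K0 p m ε ↔ x ∈ O0 p m ∧ g1 p m ε x = 0 := by
  constructor
  · rintro ⟨h1, h2, h3⟩
    refine ⟨h2, ?_⟩
    unfold g1
    rw [h1, h3, sub_self]
    rfl
  · rintro ⟨h1, h2⟩
    have h3 : nz x.1 - 1 = 0 := congrArg Prod.fst h2
    exact ⟨sub_eq_zero.1 h3, h1, congrArg Prod.snd h2⟩

private theorem dimD (p m : ℕ) : Module.finrank ℝ ((ℝ × B0 m) × (Fin p → ℝ)) + dd p m =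
    Module.finrank ℝ ((Fin m → ℂ) × A0 p m) := by
  have h := dd_eq p m
  simp only [Module.finrank_prod, Module.finrank_self, Module.finrank_fintype_fun_eq_card, Fintype.card_fin]
  omega

/-- The equations with the parameter. -/
private noncomputable def gW (p m : ℕ) (ε : ℝ) (z : ((Fin m → ℂ) × A0 p m) × ℝ) : (ℝ × B0 m) × (Fin p → ℝ) :=
  (g1 p m ε z.1, L0 p m z.2 z.1)

private theorem gW_smooth (ε : ℝ) : ContDiff ℝ ∞ (gW p m ε) :=
  ((g1_smooth ε).comp contDiff_fst).prodMk contDiff_L0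

/-- The manifold of the bordism. -/
private def WW (p m : ℕ) (ε : ℝ) : Set (((Fin m → ℂ) × A0 p m) × ℝ) :=
  {z | z.1 ∈ K0 p m ε ∧ (-1 < z.2 ∧ z.2 < 2) ∧ L0 p m z.2 z.1 = 0}

private theorem gW_apply (ε : ℝ) (z v : ((Fin m → ℂ) × A0 p m) × ℝ) : fderiv ℝ (gW p m ε) z v =
    (fderiv ℝ (g1 p m ε) z.1 v.1, fderiv ℝ (L0 p m z.2) z.1 v.1 +
      fderiv ℝ (fun z : ((Fin m → ℂ) × A0 p m) × ℝ => L0 p m z.2 z.1) z (0, v.2)) := by
  have h1 : HasFDerivAt (fun z : ((Fin m → ℂ) × A0 p m) × ℝ => g1 p m ε z.1)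
      ((fderiv ℝ (g1 p m ε) z.1).comp (ContinuousLinearMap.fst ℝ ((Fin m → ℂ) × A0 p m) ℝ)) z :=
    HasFDerivAt.comp z (((g1_smooth ε).differentiable (by simp) z.1).hasFDerivAt) hasFDerivAt_fst
  have h2 : HasFDerivAt (fun z : ((Fin m → ℂ) × A0 p m) × ℝ => L0 p m z.2 z.1)
      (fderiv ℝ (fun z : ((Fin m → ℂ) × A0 p m) × ℝ => L0 p m z.2 z.1) z) z :=
    ((contDiff_L0 (p := p) (m := m)).differentiable (by simp) z).hasFDerivAt
  have h3 : HasFDerivAt (gW p m ε) _ z := h1.prodMk h2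
  rw [h3.fderiv]
  have h4 : HasFDerivAt (fun x : (Fin m → ℂ) × A0 p m => (x, z.2))
      ((ContinuousLinearMap.id ℝ ((Fin m → ℂ) × A0 p m)).prod 0) z.1 :=
    (hasFDerivAt_id z.1).prodMk (hasFDerivAt_const z.2 z.1)
  have h5 : HasFDerivAt (L0 p m z.2) ((fderiv ℝ (fun z : ((Fin m → ℂ) × A0 p m) × ℝ => L0 p m z.2 z.1) z).comp
      ((ContinuousLinearMap.id ℝ ((Fin m → ℂ) × A0 p m)).prod 0)) z.1 :=
    HasFDerivAt.comp (g := fun z : ((Fin m → ℂ) × A0 p m) × ℝ => L0 p m z.2 z.1)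
      (f := fun x : (Fin m → ℂ) × A0 p m => (x, z.2)) z.1 h2 h4
  rw [h5.fderiv]
  refine Prod.ext rfl ?_
  show fderiv ℝ (fun z : ((Fin m → ℂ) × A0 p m) × ℝ => L0 p m z.2 z.1) z v =
    fderiv ℝ (fun z : ((Fin m → ℂ) × A0 p m) × ℝ => L0 p m z.2 z.1) z (v.1, 0) +
      fderiv ℝ (fun z : ((Fin m → ℂ) × A0 p m) × ℝ => L0 p m z.2 z.1) z (0, v.2)
  rw [← map_add, Prod.mk_add_mk, add_zero, zero_add]

private theorem gW_onto (ε : ℝ) (h0 : 0 < ε) (ho : Onto0 p m ε) (z : ((Fin m → ℂ) × A0 p m) × ℝ)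
    (hz : z ∈ WW p m ε) : Function.Surjective (fderiv ℝ (gW p m ε) z) := by
  rintro ⟨w, u⟩
  obtain ⟨v, hv1, hv2⟩ := reg_all ε h0 ho z.2 hz.2.1.1.le hz.2.1.2.le z.1 hz.1 hz.2.2 w u
  refine ⟨(v, 0), ?_⟩
  rw [gW_apply]
  have h1 : (((0 : (Fin m → ℂ) × A0 p m), (0 : ℝ))) = 0 := rfl
  refine Prod.ext hv1 ?_
  show fderiv ℝ (L0 p m z.2) z.1 v +
    fderiv ℝ (fun z : ((Fin m → ℂ) × A0 p m) × ℝ => L0 p m z.2 z.1) z (0, 0) = u
  rw [h1, map_zero, add_zero, hv2]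

private theorem mem_WW (ε : ℝ) (z : ((Fin m → ℂ) × A0 p m) × ℝ) :
    z ∈ WW p m ε ↔ z ∈ (O0 p m) ×ˢ (Set.Ioo (-1 : ℝ) 2) ∧ gW p m ε z = 0 := by
  constructor
  · rintro ⟨h1, h2, h3⟩
    rw [k0_iff_g1] at h1
    exact ⟨⟨h1.1, h2⟩, Prod.ext h1.2 h3⟩
  · rintro ⟨⟨h1, h2⟩, h3⟩
    exact ⟨(k0_iff_g1 ε _).2 ⟨h1, congrArg Prod.fst h3⟩, h2, congrArg Prod.snd h3⟩

theorem data_XN (ε : ℝ) (h0 : 0 < ε) (h1 : ε < 1 / 4) (ho : Onto0 p m ε) :
    UpData (act chi0 (rho0 p m) m) (VV p m ε) (dd p m) (XN p m ε) (F0 p m) := by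
  have hctx := ctx0 (p := p) (m := m) ε h0 h1
  refine ⟨?_, ?_, ?_, ?_, ?_, ?_, ?_⟩
  · have h2 : XN p m ε = K0 p m ε ∩ {x | L0 p m 0 x = 0} := rfl
    rw [h2]
    exact (compact0 ε h1).inter_right (isClosed_eq (l0_smooth 0).continuous continuous_const)
  · refine subE_zero (fun x : (Fin m → ℂ) × A0 p m => (g1 p m ε x, L0 p m 0 x)) (O0 p m) hctx.isOpen
      (((g1_smooth ε).prodMk (l0_smooth 0)).contDiffOn) (dd p m) (dimD p m) _ ?_ ?_
    · intro x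
      constructor
      · rintro ⟨h2, h3⟩
        rw [k0_iff_g1] at h2
        exact ⟨h2.1, Prod.ext h2.2 h3⟩
      · rintro ⟨h2, h3⟩
        exact ⟨(k0_iff_g1 ε _).2 ⟨h2, congrArg Prod.fst h3⟩, congrArg Prod.snd h3⟩
    · rintro x ⟨hx1, hx2⟩ ⟨w, u⟩
      obtain ⟨v, hv1, hv2⟩ := reg_all ε h0 ho 0 (by norm_num) (by norm_num) x hx1 hx2 w u
      refine ⟨v, ?_⟩
      have h2 : HasFDerivAt (fun x : (Fin m → ℂ) × A0 p m => (g1 p m ε x, L0 p m 0 x))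
          ((fderiv ℝ (g1 p m ε) x).prod (fderiv ℝ (L0 p m 0) x)) x :=
        (((g1_smooth ε).differentiable (by simp) x).hasFDerivAt).prodMk
          (((l0_smooth 0).differentiable (by simp) x).hasFDerivAt)
      rw [h2.fderiv]
      exact Prod.ext hv1 hv2
  · intro g x hx
    refine ⟨stab0 ε g x hx.1, ?_⟩
    rw [l0_act, hx.2, smul_zero]
  · intro g x hx
    exact free0 ε g x hx.1
  · exact contDiff_F0.continuous.continuousOn
  · intro g x hx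
    exact hctx.inv g x hx.1
  · intro x hx
    exact hctx.maps hx.1

theorem bord_XN (ε : ℝ) (h0 : 0 < ε) (h1 : ε < 1 / 4) (ho : Onto0 p m ε)
    (hN : UpData (act chi0 (rho0 p m) m) (VV p m ε) (dd p m) (XN p m ε) (F0 p m))
    (hX : UpData (act chi0 (rho0 p m) m) (VV p m ε) (dd p m) (Xset (CC p) (O0 p m) (E0 p m ε)) (F0 p m)) :
    Bord (Q hN) (Q hX) := by
  have hctx := ctx0 (p := p) (m := m) ε h0 h1
  have hO : IsOpen ((O0 p m) ×ˢ (Set.Ioo (-1 : ℝ) 2)) := hctx.isOpen.prod isOpen_Ioo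
  refine bordUp hN hX (WW p m ε) (fun z => F0 p m z.1) ?_ ?_ ?_ ?_ ?_ ?_ ?_ ?_ ?_ ?_ ?_ ?_
  · refine subE_zero (gW p m ε) _ hO (gW_smooth ε).contDiffOn (dd p m + 1) ?_ _ (mem_WW ε) (gW_onto ε h0 ho)
    rw [← add_assoc, dimD p m, Module.finrank_prod (M := (Fin m → ℂ) × A0 p m) (M' := ℝ), Module.finrank_self]
  · rintro g x t ⟨hx1, hx2, hx3⟩
    refine ⟨stab0 ε g x hx1, hx2, ?_⟩
    have h2 : L0 p m t x = 0 := hx3
    show L0 p m t (act chi0 (rho0 p m) m g x) = 0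
    rw [l0_act, h2, smul_zero]
  · rintro g x t ⟨hx1, -, -⟩ hg
    exact free0 ε g x hx1 hg
  · rintro x t hx -
    obtain ⟨v, hv1, hv2⟩ := ho t hx.2.1.1.le hx.2.1.2.le x hx.1 hx.2.2
      (-(fderiv ℝ (fun z : ((Fin m → ℂ) × A0 p m) × ℝ => L0 p m z.2 z.1) (x, t) (0, 1)))
    have hv1' : fderiv ℝ (g1 p m ε) x v = 0 := hv1
    refine ⟨(v, 1), ?_, one_ne_zero⟩
    rw [tan_zero (gW p m ε) _ hO (gW_smooth ε).contDiffOn _ (mem_WW ε) (x, t) hx (gW_onto ε h0 ho (x, t) hx),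
      gW_apply]
    refine Prod.ext hv1' ?_
    show fderiv ℝ (L0 p m t) x v +
      fderiv ℝ (fun z : ((Fin m → ℂ) × A0 p m) × ℝ => L0 p m z.2 z.1) (x, t) (0, 1) = 0
    rw [hv2, neg_add_cancel]
  · have h2 : {z ∈ WW p m ε | 0 ≤ z.2 ∧ z.2 ≤ 1} =
        (K0 p m ε ×ˢ Set.Icc (0 : ℝ) 1) ∩ {z | L0 p m z.2 z.1 = 0} := by
      ext z
      constructor
      · rintro ⟨⟨h2, h3, h4⟩, h5⟩
        exact ⟨⟨h2, h5⟩, h4⟩
      · rintro ⟨⟨h2, h3⟩, h4⟩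
        exact ⟨⟨h2, ⟨by linarith [h3.1], by linarith [h3.2]⟩, h4⟩, h3⟩
    rw [h2]
    exact ((compact0 ε h1).prod isCompact_Icc).inter_right
      (isClosed_eq (contDiff_L0 (p := p) (m := m)).continuous continuous_const)
  · exact (contDiff_F0.continuous.comp continuous_fst).continuousOn
  · rintro g x t ⟨hx1, -, -⟩ - -
    exact hctx.inv g x hx1
  · rintro x t ⟨hx1, -, -⟩ - -
    exact hctx.maps hx1
  · intro x
    constructor
    · rintro ⟨h2, h3⟩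
      exact ⟨h2, ⟨by norm_num, by norm_num⟩, h3⟩
    · rintro ⟨h2, -, h3⟩
      exact ⟨h2, h3⟩
  · intro x
    have h2 : L0 p m 1 x = fn (CC p) m x.1 := by
      funext j
      show (1 - 1) * dotProduct (lam j) (yv x) + 1 * fn (CC p) m x.1 j = fn (CC p) m x.1 j
      rw [sub_self, zero_mul, zero_add, one_mul]
    constructor
    · rintro ⟨h3, h4⟩
      refine ⟨h3, ⟨by norm_num, by norm_num⟩, ?_⟩
      show L0 p m 1 x = 0
      rw [h2]
      exact h4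
    · rintro ⟨h3, -, h4⟩
      refine ⟨h3, ?_⟩
      rw [← h2]
      exact h4
  · intro x _
    rfl
  · intro x _
    rfl

end Pool.Agent.Helper48.BPF
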