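import Pool.Agent.Helper48.BPF.Defs
import Pool.Agent.Helper6.BP.VDefs

/-!
PROJECT BP, block F: the start. The component `V_2` of the tube as a context over the unit sphere of `ℂ^m`: the point `(z, (σ, η, t))` stands for
`y = σ q(z) + η`, `q(z) = (0, z zᵀ)`, `η = (w, S')`, `S' z̄ = 0`.
-/

set_option autoImplicit false

namespace Pool.Agent.Helper48.BPF

open Pool.Agent.Helper79.BP Pool.Agent.Helper93.BPF Pool.Agent.Helper72.BP Pool.Agent.Helper6.BP
open scoped ContDiff Topology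

/-- The coefficients `C_l(w) = (Re (c_jl w))_j`. -/
noncomputable def CC (p : ℕ) (l : ℕ) : ℂ →L[ℝ] (Fin p → ℝ) :=
  ContinuousLinearMap.pi fun j => Complex.reCLM.comp
    ((((l : ℂ) ^ ((j : ℕ) / 2) * (if (j : ℕ) % 2 = 0 then 1 else -Complex.I)) : ℂ) •
      ContinuousLinearMap.id ℝ ℂ)

/-- The group of the fourth roots of unity. -/
abbrev G4 : Type := rootsOfUnity 4 ℂ

noncomputable instance fintypeG4 : Fintype G4 := Fintype.ofFinite _

/-- The character. -/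
noncomputable def chi0 : G4 →* ℂ := (Units.coeHom ℂ).comp (rootsOfUnity 4 ℂ).subtype

/-- Its square, a sign. -/
noncomputable def sg (g : G4) : ℝ := (chi0 g ^ 2).re

theorem chi0_pow (g : G4) : chi0 g ^ 4 = 1 := by
  have h := (mem_rootsOfUnity 4 (g : ℂˣ)).1 g.2
  have h2 : (((g : ℂˣ) ^ 4 : ℂˣ) : ℂ) = 1 := by rw [h]; simp
  simpa [chi0] using h2

theorem sg_eq (g : G4) : (chi0 g) ^ 2 = (sg g : ℂ) := by
  have h := chi0_pow g
  have h2 : (chi0 g ^ 2 - 1) * (chi0 g ^ 2 + 1) = 0 := by ring_nf; rw [h]; ring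
  rcases mul_eq_zero.1 h2 with h3 | h3
  · have h4 : chi0 g ^ 2 = 1 := by linear_combination h3
    simp [sg, h4]
  · have h4 : chi0 g ^ 2 = -1 := by linear_combination h3
    simp [sg, h4]

theorem sg_mul (g h : G4) : sg (g * h) = sg g * sg h := by
  have h1 : ((sg (g * h) : ℝ) : ℂ) = ((sg g * sg h : ℝ) : ℂ) := by
    rw [← sg_eq, map_mul, mul_pow, sg_eq, sg_eq]
    push_cast
    ring
  exact_mod_cast h1

theorem sg_one : sg 1 = 1 := by simp [sg]

theorem sg_sq (g : G4) : sg g ^ 2 = 1 := by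
  have h : ((sg g ^ 2 : ℝ) : ℂ) = ((1 : ℝ) : ℂ) := by
    push_cast
    rw [← sg_eq, ← pow_mul]
    exact chi0_pow g
  exact_mod_cast h

/-- Every fourth root of unity is a value of the character. -/
theorem chi0_surj (c : ℂ) (hc : c ^ 4 = 1) : ∃ g : G4, chi0 g = c := by
  have h0 : c ≠ 0 := by
    rintro rfl
    norm_num at hc
  refine ⟨⟨Units.mk0 c h0, ?_⟩, rfl⟩
  rw [mem_rootsOfUnity]
  ext
  simpa using hc

/-- The fibre coordinates `(σ, η, t)`. -/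
abbrev A0 (p m : ℕ) : Type := ℝ × (Ix p (Kx m) → ℝ) × (Tx p (rr p m) (Kx m) → ℝ)

instance fdA0' (p m : ℕ) : Module.Finite ℝ ((Ix p (Kx m) → ℝ) × (Tx p (rr p m) (Kx m) → ℝ)) :=
  Module.Finite.prod

instance fdA0 (p m : ℕ) : Module.Finite ℝ (A0 p m) := Module.Finite.prod

/-- The target of the equations. -/
abbrev B0 (m : ℕ) : Type := (Fin m → ℂ) × ℝ × ℝ

/-- The action `(σ, η, t) ↦ (σ, ± η, t)`. -/
noncomputable def rho0 (p m : ℕ) : G4 →* (A0 p m →L[ℝ] A0 p m) where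
  toFun g := (ContinuousLinearMap.id ℝ ℝ).prodMap ((sg g • ContinuousLinearMap.id ℝ (Ix p (Kx m) → ℝ)).prodMap
      (ContinuousLinearMap.id ℝ (Tx p (rr p m) (Kx m) → ℝ)))
  map_one' := by
    simp only [sg_one]
    ext x <;> simp
  map_mul' g h := by
    simp only [sg_mul]
    ext x <;> simp [mul_assoc]

/-- The point `y` of the tube. -/
noncomputable def yv {p m : ℕ} (x : (Fin m → ℂ) × A0 p m) : Ix p (Kx m) → ℝ :=
  x.2.1 • qq p m x.1 + x.2.2.1

/-- The open condition. -/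
def O0 (p m : ℕ) : Set ((Fin m → ℂ) × A0 p m) := {x | 0 < x.2.1 ∧ 1 / 2 < x.2.1 ^ 2}

/-- The vector `S z̄`. -/
noncomputable def mv {m : ℕ} (S : Matrix (Fin m) (Fin m) ℂ) (z : Fin m → ℂ) : Fin m → ℂ :=
  fun i => ∑ j, S i j * (starRingEnd ℂ) (z j)

/-- The equations. -/
noncomputable def E0 (p m : ℕ) (ε : ℝ) (x : (Fin m → ℂ) × A0 p m) : B0 m :=
  (mv (Sm x.2.2.1) x.1, nsq (yv x) - 1, Ffun (GG p m) ε (yv x) x.2.2.2)

/-- The map to `V`. -/
noncomputable def F0 (p m : ℕ) (x : (Fin m → ℂ) × A0 p m) : Amb (Ix p (Kx m)) (Tx p (rr p m) (Kx m)) → ℝ :=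
  emb (yv x, x.2.2.2)

/-- The total space. -/
noncomputable abbrev K0 (p m : ℕ) (ε : ℝ) : Set ((Fin m → ℂ) × A0 p m) := Kset (O0 p m) (E0 p m ε)

/-- The homotopy from `l(y)` to `f(z)`. -/
noncomputable def L0 (p m : ℕ) (κ : ℝ) (x : (Fin m → ℂ) × A0 p m) : Fin p → ℝ :=
  fun j => (1 - κ) * dotProduct (lam j) (yv x) + κ * fn (CC p) m x.1 j

/-- The manifold upstairs of `N_2`. -/
def XN (p m : ℕ) (ε : ℝ) : Set ((Fin m → ℂ) × A0 p m) := {x | x ∈ K0 p m ε ∧ L0 p m 0 x = 0}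

end Pool.Agent.Helper48.BPF
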