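import Pool.Agent.Helper48.BPF.SAlg

/-!
PROJECT BP, block F, module BP-F13: derivatives in the coordinates `(z, (σ, η, t))`, direction `v = (ζ, (σ', η', t'))`.

`dy x v` is the derivative of `yv`. Each formula is a directional derivative (`fderiv f x v = deriv (fun s => f (x + s • v)) 0` for the smooth functions `contDiff_yv`, `contDiff_E0`, `contDiff_F0`, `contDiff_L0`, e.g. by
`HasFDerivAt.comp_hasDerivAt` and `HasDerivAt.unique`), and along a line everything is a polynomial in `s`: `yv (x + s v) = yv x + s dy x v + s² (..) + s³ (..)`; `mv (Sm (η + s η')) (z + s ζ)`;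
`nsq (y + s y' + ..)`; the derivative of `∑_l qf(G_l)²` along `y + s y'` is `dh y y'` (`dh = dG`, `4 ∑ qf bf`, symmetric matrices `GG_symm`, block V, IdentA.lean). (Alternatively compute with `HasFDerivAt` of sums and products.)
-/

set_option autoImplicit false

namespace Pool.Agent.Helper48.BPF

open Pool.Agent.Helper79.BP Pool.Agent.Helper93.BPF Pool.Agent.Helper72.BP Pool.Agent.Helper6.BP
open Matrix
open scoped ContDiff Topology

variable {p m : ℕ}

/-- The derivative of `yv`. -/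
noncomputable def dy (x v : (Fin m → ℂ) × A0 p m) : Ix p (Kx m) → ℝ :=
  v.2.1 • qq p m x.1 + x.2.1 • Sum.elim (fun _ => 0) (ofS (vecMulVec v.1 x.1 + vecMulVec x.1 v.1)) + v.2.2.1

private theorem sder_line {E F : Type*} [NormedAddCommGroup E] [NormedSpace ℝ E] [NormedAddCommGroup F] [NormedSpace ℝ F]
    {f : E → F} (hf : ContDiff ℝ ∞ f) (x v : E) {d : F} (h : HasDerivAt (fun s : ℝ => f (x + s • v)) d 0) :
    fderiv ℝ f x v = d := by
  have h1 : HasDerivAt (fun s : ℝ => x + s • v) v 0 := by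
    simpa using ((hasDerivAt_id (0 : ℝ)).smul_const v).const_add x
  have h2 : HasFDerivAt f (fderiv ℝ f x) (x + (0 : ℝ) • v) := by
    rw [zero_smul, add_zero]
    exact (hf.differentiable (by simp) x).hasFDerivAt
  exact (h2.comp_hasDerivAt (0 : ℝ) h1).unique h

private theorem sder_line' {E F : Type*} [NormedAddCommGroup E] [NormedSpace ℝ E] [NormedAddCommGroup F] [NormedSpace ℝ F]
    {f : E → F} (hf : ContDiff ℝ ∞ f) (x v : E) :
    HasDerivAt (fun s : ℝ => f (x + s • v)) (fderiv ℝ f x v) 0 := by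
  have h1 : HasDerivAt (fun s : ℝ => x + s • v) v 0 := by
    simpa using ((hasDerivAt_id (0 : ℝ)).smul_const v).const_add x
  have h2 : HasFDerivAt f (fderiv ℝ f x) (x + (0 : ℝ) • v) := by
    rw [zero_smul, add_zero]
    exact (hf.differentiable (by simp) x).hasFDerivAt
  exact h2.comp_hasDerivAt (0 : ℝ) h1

private theorem sder_lin (a b : ℝ) : HasDerivAt (fun s : ℝ => a + s * b) b 0 := by
  simpa using ((hasDerivAt_id (0 : ℝ)).mul_const b).const_add a

private theorem sder_linC (a b : ℂ) : HasDerivAt (fun s : ℝ => a + (s : ℂ) * b) b 0 := by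
  simpa using (((hasDerivAt_id (0 : ℝ)).ofReal_comp).mul_const b).const_add a

private theorem sder_quad (a b c : ℝ) : HasDerivAt (fun s : ℝ => a + s * b + s ^ 2 * c) b 0 := by
  have h := (sder_lin a b).add (((hasDerivAt_id (0 : ℝ)).pow 2).mul_const c)
  exact h.congr_deriv (by simp)

private theorem sder_vec (z ζ : Fin m → ℂ) (s : ℝ) :
    vecMulVec (z + s • ζ) (z + s • ζ) = vecMulVec z z + (s : ℂ) • (vecMulVec ζ z + vecMulVec z ζ) +
      ((s ^ 2 : ℝ) : ℂ) • vecMulVec ζ ζ := by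
  ext i j
  simp only [vecMulVec_apply, Matrix.add_apply, Matrix.smul_apply, Pi.add_apply, Pi.smul_apply, Complex.real_smul,
    smul_eq_mul]
  push_cast
  ring

private theorem sder_yv (x v : (Fin m → ℂ) × A0 p m) : HasDerivAt (fun s : ℝ => yv (x + s • v)) (dy x v) 0 := by
  rw [hasDerivAt_pi]
  intro k
  have h0 : ∀ s : ℝ, yv (x + s • v) k = (x.2.1 + s * v.2.1) * (qq p m x.1 k + s *
      (Sum.elim (fun _ => 0) (ofS (vecMulVec v.1 x.1 + vecMulVec x.1 v.1)) : Ix p (Kx m) → ℝ) k +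
      s ^ 2 * qq p m v.1 k) + (x.2.2.1 k + s * v.2.2.1 k) := by
    intro s
    have hq : qq p m (x.1 + s • v.1) k = qq p m x.1 k + s *
      (Sum.elim (fun _ => 0) (ofS (vecMulVec v.1 x.1 + vecMulVec x.1 v.1)) : Ix p (Kx m) → ℝ) k +
      s ^ 2 * qq p m v.1 k := by
      unfold qq
      rw [sder_vec, ofS_add, ofS_add, ofS_smul, ofS_smul]
      rcases k with k | k
      · simp
      · simp only [Sum.elim_inr, Pi.add_apply, Pi.smul_apply, smul_eq_mul]
    show (x.2.1 + s • v.2.1) * qq p m (x.1 + s • v.1) k + (x.2.2.1 k + s • v.2.2.1 k) = _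
    rw [hq, smul_eq_mul, smul_eq_mul]
  simp only [h0]
  have h := ((sder_lin x.2.1 v.2.1).mul (sder_quad (qq p m x.1 k)
      ((Sum.elim (fun _ => 0) (ofS (vecMulVec v.1 x.1 + vecMulVec x.1 v.1)) : Ix p (Kx m) → ℝ) k)
      (qq p m v.1 k))).add (sder_lin (x.2.2.1 k) (v.2.2.1 k))
  have e : dy x v k = v.2.1 * (qq p m x.1 k + 0 *
      ((Sum.elim (fun _ => 0) (ofS (vecMulVec v.1 x.1 + vecMulVec x.1 v.1)) : Ix p (Kx m) → ℝ) k) + 0 ^ 2 * qq p m v.1 k) +
      (x.2.1 + 0 * v.2.1) * ((Sum.elim (fun _ => 0) (ofS (vecMulVec v.1 x.1 + vecMulVec x.1 v.1)) : Ix p (Kx m) → ℝ) k) +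
      v.2.2.1 k := by
    unfold dy
    simp only [Pi.add_apply, Pi.smul_apply, smul_eq_mul]
    ring
  rw [e]
  exact h

private theorem sder_nsq {ι : Type} [Fintype ι] {Y : ℝ → ι → ℝ} {y' : ι → ℝ} (h : HasDerivAt Y y' 0) :
    HasDerivAt (fun s => nsq (Y s)) (2 * dotProduct (Y 0) y') 0 := by
  rw [hasDerivAt_pi] at h
  have h1 := HasDerivAt.fun_sum (u := Finset.univ) fun i _ => (h i).pow 2
  have e : 2 * dotProduct (Y 0) y' = ∑ i, ((2 : ℕ) : ℝ) * Y 0 i ^ (2 - 1) * y' i := by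
    unfold dotProduct
    rw [Finset.mul_sum]
    refine Finset.sum_congr rfl fun i _ => ?_
    push_cast
    ring
  rw [e]
  exact h1

private theorem sder_qf {ι : Type} [Fintype ι] (A : Matrix ι ι ℝ) (hA : ∀ i j, A i j = A j i) {Y : ℝ → ι → ℝ} {y' : ι → ℝ}
    (h : HasDerivAt Y y' 0) : HasDerivAt (fun s => qf A (Y s)) (2 * bf A (Y 0) y') 0 := by
  rw [hasDerivAt_pi] at h
  have h1 := HasDerivAt.fun_sum (u := Finset.univ) fun i _ =>
    HasDerivAt.fun_sum (u := Finset.univ) fun j _ => ((h i).const_mul (A i j)).mul (h j)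
  have e : 2 * bf A (Y 0) y' = ∑ i, ∑ j, (A i j * y' i * Y 0 j + A i j * Y 0 i * y' j) := by
    have e1 : ∑ i, ∑ j, A i j * y' i * Y 0 j = bf A (Y 0) y' := by
      unfold bf
      rw [Finset.sum_comm]
      refine Finset.sum_congr rfl fun i _ => Finset.sum_congr rfl fun j _ => ?_
      rw [hA j i]
      ring
    simp only [Finset.sum_add_distrib]
    rw [e1]
    unfold bf
    ring
  rw [e]
  exact h1

private theorem sder_hh {Y : ℝ → Ix p (Kx m) → ℝ} {y' : Ix p (Kx m) → ℝ} (h : HasDerivAt Y y' 0) :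
    HasDerivAt (fun s => ∑ l, qf (GG p m l) (Y s) ^ 2) (dh (Y 0) y') 0 := by
  have h1 := HasDerivAt.fun_sum (u := Finset.univ) fun (l : Fin (rr p m)) _ => (sder_qf (GG p m l) (GG_symm l) h).pow 2
  have e : dh (Y 0) y' = ∑ l, ((2 : ℕ) : ℝ) * qf (GG p m l) (Y 0) ^ (2 - 1) * (2 * bf (GG p m l) (Y 0) y') := by
    unfold dh dG
    refine Finset.sum_congr rfl fun l _ => ?_
    push_cast
    ring
  rw [e]
  exact h1

private theorem sder_t {τ : Type} [Fintype τ] (t t' : τ → ℝ) : HasDerivAt (fun s : ℝ => t + s • t') t' 0 := by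
  simpa using ((hasDerivAt_id (0 : ℝ)).smul_const t').const_add t

private theorem sder_F {Y : ℝ → Ix p (Kx m) → ℝ} {y' : Ix p (Kx m) → ℝ} (h : HasDerivAt Y y' 0) (ε : ℝ)
    {T : ℝ → Tx p (rr p m) (Kx m) → ℝ} {t' : Tx p (rr p m) (Kx m) → ℝ} (hT : HasDerivAt T t' 0) :
    HasDerivAt (fun s => Ffun (GG p m) ε (Y s) (T s))
      (2 * dotProduct (T 0) t' + dh (Y 0) y' - 4 * ε * nsq (Y 0) * dotProduct (Y 0) y') 0 := by
  have h1 := ((sder_nsq hT).add (sder_hh h)).sub (((sder_nsq h).pow 2).const_mul ε)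
  have e : 2 * dotProduct (T 0) t' + dh (Y 0) y' - 4 * ε * nsq (Y 0) * dotProduct (Y 0) y' =
      2 * dotProduct (T 0) t' + dh (Y 0) y' - ε * (((2 : ℕ) : ℝ) * nsq (Y 0) ^ (2 - 1) * (2 * dotProduct (Y 0) y')) := by
    push_cast
    ring
  rw [e]
  exact h1

private theorem sder_mv (η η' : Ix p (Kx m) → ℝ) (z ζ : Fin m → ℂ) :
    HasDerivAt (fun s : ℝ => mv (Sm (η + s • η')) (z + s • ζ)) (mv (Sm η') z + mv (Sm η) ζ) 0 := by
  rw [hasDerivAt_pi]
  intro i
  have h0 : ∀ s : ℝ, mv (Sm (η + s • η')) (z + s • ζ) i = ∑ j, (Sm η i j + (s : ℂ) * Sm η' i j) *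
      ((starRingEnd ℂ) (z j) + (s : ℂ) * (starRingEnd ℂ) (ζ j)) := by
    intro s
    unfold mv
    refine Finset.sum_congr rfl fun j _ => ?_
    rw [Sm_add, Sm_smul, Matrix.add_apply, Matrix.smul_apply, smul_eq_mul, Pi.add_apply, Pi.smul_apply, Complex.real_smul,
      map_add, map_mul, Complex.conj_ofReal]
  simp only [h0]
  have h1 := HasDerivAt.fun_sum (u := Finset.univ) fun (j : Fin m) _ => (sder_linC (Sm η i j) (Sm η' i j)).mul
    (sder_linC ((starRingEnd ℂ) (z j)) ((starRingEnd ℂ) (ζ j)))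
  have e : (mv (Sm η') z + mv (Sm η) ζ) i = ∑ j, (Sm η' i j * ((starRingEnd ℂ) (z j) + ((0 : ℝ) : ℂ) * (starRingEnd ℂ) (ζ j)) +
      (Sm η i j + ((0 : ℝ) : ℂ) * Sm η' i j) * (starRingEnd ℂ) (ζ j)) := by
    rw [Finset.sum_add_distrib]
    simp only [Complex.ofReal_zero, zero_mul, add_zero]
    rfl
  rw [e]
  exact h1

private theorem sder_zero (x v : (Fin m → ℂ) × A0 p m) : yv (x + (0 : ℝ) • v) = yv x := by
  rw [zero_smul, add_zero]

private theorem sder_ff (j : Fin p) (z ζ : Fin m → ℂ) :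
    HasDerivAt (fun s : ℝ => ff j (vecMulVec (z + s • ζ) (z + s • ζ))) (ff j (vecMulVec ζ z + vecMulVec z ζ)) 0 := by
  have h0 : ∀ s : ℝ, ff j (vecMulVec (z + s • ζ) (z + s • ζ)) = ff j (vecMulVec z z) + s * ff j (vecMulVec ζ z + vecMulVec z ζ) +
      s ^ 2 * ff j (vecMulVec ζ ζ) := by
    intro s
    rw [sder_vec, ff_add, ff_add, ff_smul, ff_smul]
  simp only [h0]
  exact sder_quad _ _ _

private theorem sder_dot (l : Ix p (Kx m) → ℝ) {Y : ℝ → Ix p (Kx m) → ℝ} {y' : Ix p (Kx m) → ℝ} (h : HasDerivAt Y y' 0) :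
    HasDerivAt (fun s => dotProduct l (Y s)) (dotProduct l y') 0 := by
  rw [hasDerivAt_pi] at h
  exact HasDerivAt.fun_sum (u := Finset.univ) fun i _ => (h i).const_mul (l i)

private theorem sder_nz (z ζ : Fin m → ℂ) :
    HasDerivAt (fun s : ℝ => nz (z + s • ζ)) (2 * ∑ i, ((z i).re * (ζ i).re + (z i).im * (ζ i).im)) 0 := by
  have h0 : ∀ s : ℝ, nz (z + s • ζ) = ∑ i, (Complex.normSq (z i) + s * (2 * ((z i).re * (ζ i).re + (z i).im * (ζ i).im)) +
      s ^ 2 * Complex.normSq (ζ i)) := by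
    intro s
    unfold nz
    refine Finset.sum_congr rfl fun i _ => ?_
    rw [Pi.add_apply, Pi.smul_apply, Complex.real_smul, Complex.normSq_apply, Complex.normSq_apply, Complex.normSq_apply]
    simp only [Complex.add_re, Complex.add_im, Complex.re_ofReal_mul, Complex.im_ofReal_mul]
    ring
  simp only [h0]
  rw [Finset.mul_sum]
  exact HasDerivAt.fun_sum (u := Finset.univ) fun i _ => sder_quad _ _ _

theorem fderiv_yv (x v : (Fin m → ℂ) × A0 p m) :
    fderiv ℝ (fun x : (Fin m → ℂ) × A0 p m => yv x) x v = dy x v := by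
  exact sder_line contDiff_yv x v (sder_yv x v)

theorem fderiv_E0 (ε : ℝ) (x v : (Fin m → ℂ) × A0 p m) : fderiv ℝ (E0 p m ε) x v =
    (mv (Sm v.2.2.1) x.1 + mv (Sm x.2.2.1) v.1, 2 * dotProduct (yv x) (dy x v),
      2 * dotProduct x.2.2.2 v.2.2.2 + dh (yv x) (dy x v) - 4 * ε * nsq (yv x) * dotProduct (yv x) (dy x v)) := by
  refine sder_line (contDiff_E0 ε) x v ?_
  have h1 := sder_mv x.2.2.1 v.2.2.1 x.1 v.1
  have h2 := (sder_nsq (sder_yv x v)).sub_const 1
  have h3 := sder_F (sder_yv x v) ε (sder_t x.2.2.2 v.2.2.2)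
  rw [sder_zero] at h2 h3
  rw [zero_smul, add_zero] at h3
  exact h1.prodMk (h2.prodMk h3)

theorem fderiv_F0 (x v : (Fin m → ℂ) × A0 p m) : fderiv ℝ (F0 p m) x v = tv (yv x) (dy x v) v.2.2.2 := by
  refine sder_line contDiff_F0 x v ?_
  rw [hasDerivAt_pi]
  have hy := hasDerivAt_pi.1 (sder_yv x v)
  have ht := hasDerivAt_pi.1 (sder_t x.2.2.2 v.2.2.2)
  intro k
  rcases k with b | k
  · have h := (hy b.1).mul (hy b.2)
    rw [sder_zero] at h
    exact h
  · exact ht k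

theorem fderiv_L0 (κ : ℝ) (x v : (Fin m → ℂ) × A0 p m) (j : Fin p) : fderiv ℝ (L0 p m κ) x v j =
    (1 - κ) * dotProduct (lam j) (dy x v) + κ * ff j (vecMulVec v.1 x.1 + vecMulVec x.1 v.1) := by
  have hL : ContDiff ℝ ∞ (L0 p m κ) :=
    (contDiff_L0 (p := p) (m := m)).comp (contDiff_id.prodMk contDiff_const)
  have h : HasDerivAt (fun s : ℝ => L0 p m κ (x + s • v)) (fun j => (1 - κ) * dotProduct (lam j) (dy x v) +
      κ * ff j (vecMulVec v.1 x.1 + vecMulVec x.1 v.1)) 0 := by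
    rw [hasDerivAt_pi]
    intro j
    have h1 := ((sder_dot (lam j) (sder_yv x v)).const_mul (1 - κ)).add ((sder_ff j x.1 v.1).const_mul κ)
    have e : (fun s : ℝ => L0 p m κ (x + s • v) j) = fun s : ℝ => (1 - κ) * dotProduct (lam j) (yv (x + s • v)) +
        κ * ff j (vecMulVec (x.1 + s • v.1) (x.1 + s • v.1)) := by
      funext s
      rw [← fn_CC]
      rfl
    rw [e]
    exact h1
  rw [sder_line hL x v h]

/-- The derivative of the first equation. -/
theorem fderiv_nzE (ε : ℝ) (x v : (Fin m → ℂ) × A0 p m) :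
    fderiv ℝ (fun x : (Fin m → ℂ) × A0 p m => (nz x.1 - 1, E0 p m ε x)) x v =
      (2 * ∑ i, ((x.1 i).re * (v.1 i).re + (x.1 i).im * (v.1 i).im), fderiv ℝ (E0 p m ε) x v) := by
  have hC : ContDiff ℝ ∞ (fun x : (Fin m → ℂ) × A0 p m => (nz x.1 - 1, E0 p m ε x)) :=
    ((contDiff_nz.comp contDiff_fst).sub contDiff_const).prodMk (contDiff_E0 ε)
  refine sder_line hC x v ?_
  exact ((sder_nz x.1 v.1).sub_const 1).prodMk (sder_line' (contDiff_E0 ε) x v)

end Pool.Agent.Helper48.BPF
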