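import Pool.Agent.Helper48.BPF.SAlg

/-!
PROJECT BP, block F, module BP-F16: every point of `V_2` comes from `K0` (Takagi vector).

Let `(y, t) ∈ Vt`, `s = ssq y > 1/2`, `S = Sm y` (symmetric, `Sm_symm`). For `u, v ∈ ℂ^m` let `B(u, v) = Re ∑_ij conj(u_i) S_ij conj(v_j)`; it is real bilinear and symmetric, `B(i u, i u) = - B(u, u)`.
Let `z` maximise the continuous function `B(u, u)` on the compact sphere `nz u = 1` (nonempty: `m ≥ 1` because `s > 0`), `σ = B(z, z)`. Then `|B(u,u)| ≤ σ nz u` for all `u`. `σ > 0` (otherwise `B(u,u) = 0` for all `u`, `B = 0`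
by polarisation, `S = 0`).
(1) `Q(u, v) = σ <u,v> - B(u, v)` (`<u,v> = Re ∑ conj(u_i) v_i`) is a positive semidefinite form with `Q(z, z) = 0`, so `Q(z, v) = 0` for all `v` (expand `Q(z + s v, z + s v) ≥ 0`), i.e. `mv S z = σ z`.
(2) `η = y - σ q(z)`: `Sm η = S - σ z zᵀ`, `mv (Sm η) z = σ z - σ z = 0`. `x = (z, (σ, η, t))`, `yv x = y`.
(3) `2 c B(u, v) ≤ σ (c² nz u + nz v)` for real `c` (from `4 B(cu, v) = B(cu+v, cu+v) - B(cu-v, cu-v)`); `u = mv S v`, `c = 1/σ`: `nz (mv S v) ≤ σ² nz v`. The column `i ↦ (S Sᴴ)_ik` is `mv S (row k)`, so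
`∑_ik normSq ((S Sᴴ)_ik) ≤ σ² ∑_k nz (row k) = σ² s`. By `hh_eq`: `ε ≥ h(y) = (1 - s) s + (s² - ∑ normSq)/2 ≥ (1 - s) s + (s² - σ² s)/2`. If `σ² ≤ 1/2` this is `≥ s (3/4 - s/2) = 1/4 + (1 - s)(s - 1/2)/2 ≥ 1/4`
(`1/2 < s ≤ 1`): contradiction to `ε < 1/4`. So `σ² > 1/2`.
(4) `k0_iff`: `σ² + nsq η = nsq y = 1` (`nsq_yv`), `nsq t + hh y = ε` (`ffun_eq`, `hh_yv`).
-/

set_option autoImplicit false

namespace Pool.Agent.Helper48.BPF

open Pool.Agent.Helper79.BP Pool.Agent.Helper93.BPF Pool.Agent.Helper72.BP Pool.Agent.Helper6.BP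
open Matrix
open scoped ContDiff Topology

variable {p m : ℕ}

/-- The real inner product. -/
private noncomputable def ipr (u v : Fin m → ℂ) : ℝ := ∑ i, ((u i).re * (v i).re + (u i).im * (v i).im)

private theorem ipr_comm (u v : Fin m → ℂ) : ipr u v = ipr v u := by
  unfold ipr
  refine Finset.sum_congr rfl fun i _ => ?_
  ring

private theorem ipr_add (u v w : Fin m → ℂ) : ipr u (v + w) = ipr u v + ipr u w := by
  unfold ipr
  rw [← Finset.sum_add_distrib]
  refine Finset.sum_congr rfl fun i _ => ?_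
  rw [Pi.add_apply, Complex.add_re, Complex.add_im]
  ring

private theorem ipr_smul (c : ℝ) (u v : Fin m → ℂ) : ipr u (c • v) = c * ipr u v := by
  unfold ipr
  rw [Finset.mul_sum]
  refine Finset.sum_congr rfl fun i _ => ?_
  rw [Pi.smul_apply, Complex.smul_re, Complex.smul_im, smul_eq_mul, smul_eq_mul]
  ring

private theorem ipr_self (u : Fin m → ℂ) : ipr u u = nz u := by
  unfold ipr nz
  refine Finset.sum_congr rfl fun i _ => ?_
  rw [Complex.normSq_apply]

private theorem mv_add (S : Matrix (Fin m) (Fin m) ℂ) (u v : Fin m → ℂ) : mv S (u + v) = mv S u + mv S v := by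
  funext i
  simp only [mv, Pi.add_apply, map_add, mul_add, Finset.sum_add_distrib]

private theorem mv_smul (S : Matrix (Fin m) (Fin m) ℂ) (c : ℝ) (u : Fin m → ℂ) : mv S (c • u) = c • mv S u := by
  funext i
  simp only [mv, Pi.smul_apply, Complex.real_smul, map_mul, Complex.conj_ofReal, Finset.mul_sum]
  refine Finset.sum_congr rfl fun j _ => ?_
  ring

private theorem mv_I (S : Matrix (Fin m) (Fin m) ℂ) (u : Fin m → ℂ) :
    mv S (Complex.I • u) = (-Complex.I) • mv S u := by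
  funext i
  simp only [mv, Pi.smul_apply, smul_eq_mul, map_mul, Complex.conj_I, Finset.mul_sum]
  refine Finset.sum_congr rfl fun j _ => ?_
  ring

private theorem ipr_I (u v : Fin m → ℂ) : ipr (Complex.I • u) ((-Complex.I) • v) = -ipr u v := by
  unfold ipr
  rw [← Finset.sum_neg_distrib]
  refine Finset.sum_congr rfl fun i _ => ?_
  simp only [Pi.smul_apply, smul_eq_mul, Complex.mul_re, Complex.mul_im, Complex.I_re, Complex.I_im,
    Complex.neg_re, Complex.neg_im]
  ring

/-- The real bilinear form `B`. -/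
private noncomputable def bS (S : Matrix (Fin m) (Fin m) ℂ) (u v : Fin m → ℂ) : ℝ := ipr u (mv S v)

private theorem bS_comm (S : Matrix (Fin m) (Fin m) ℂ) (hS : ∀ i j, S i j = S j i) (u v : Fin m → ℂ) :
    bS S u v = bS S v u := by
  have h : ∀ u v : Fin m → ℂ, bS S u v =
      ∑ i, ∑ j, ((starRingEnd ℂ) (u i) * (S i j * (starRingEnd ℂ) (v j))).re := by
    intro u v
    unfold bS ipr
    refine Finset.sum_congr rfl fun i _ => ?_
    rw [← Complex.re_sum, ← Finset.mul_sum, Complex.mul_re, Complex.conj_re, Complex.conj_im]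
    simp only [mv]
    ring
  rw [h u v, h v u, Finset.sum_comm]
  refine Finset.sum_congr rfl fun j _ => Finset.sum_congr rfl fun i _ => ?_
  rw [hS i j]
  congr 1
  ring

private theorem bS_add_right (S : Matrix (Fin m) (Fin m) ℂ) (u v w : Fin m → ℂ) :
    bS S u (v + w) = bS S u v + bS S u w := by
  unfold bS
  rw [mv_add, ipr_add]

private theorem bS_smul_right (S : Matrix (Fin m) (Fin m) ℂ) (c : ℝ) (u v : Fin m → ℂ) :
    bS S u (c • v) = c * bS S u v := by
  unfold bS
  rw [mv_smul, ipr_smul]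

private theorem bS_expand (S : Matrix (Fin m) (Fin m) ℂ) (hS : ∀ i j, S i j = S j i) (c : ℝ) (u v : Fin m → ℂ) :
    bS S (u + c • v) (u + c • v) = bS S u u + 2 * c * bS S u v + c ^ 2 * bS S v v := by
  rw [bS_add_right, bS_smul_right, bS_comm S hS (u + c • v) u, bS_comm S hS (u + c • v) v, bS_add_right,
    bS_smul_right, bS_add_right, bS_smul_right, bS_comm S hS v u]
  ring

private theorem nz_expand (c : ℝ) (u v : Fin m → ℂ) :
    nz (u + c • v) = nz u + 2 * c * ipr u v + c ^ 2 * nz v := by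
  rw [← ipr_self, ipr_add, ipr_smul, ipr_comm (u + c • v) u, ipr_comm (u + c • v) v, ipr_add,
    ipr_smul, ipr_add, ipr_smul, ipr_comm v u, ipr_self, ipr_self]
  ring

private theorem quad_zero (a b : ℝ) (hb : 0 ≤ b) (h : ∀ s : ℝ, 0 ≤ 2 * s * a + s ^ 2 * b) : a = 0 := by
  have h1 := h (-a / (b + 1))
  have hb1 : 0 < b + 1 := by linarith
  have h2 : 2 * (-a / (b + 1)) * a + (-a / (b + 1)) ^ 2 * b = -(a ^ 2 * (b + 2)) / (b + 1) ^ 2 := by
    field_simp
    ring
  rw [h2] at h1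
  have h3 : 0 ≤ -(a ^ 2 * (b + 2)) := by
    by_contra h4
    push Not at h4
    have := div_neg_of_neg_of_pos h4 (pow_pos hb1 2)
    linarith
  have h5 : a ^ 2 * (b + 2) = 0 := le_antisymm (by linarith) (by positivity)
  rcases mul_eq_zero.1 h5 with h6 | h6
  · exact pow_eq_zero_iff (two_ne_zero) |>.1 h6
  · linarith

private theorem cont_bS (S : Matrix (Fin m) (Fin m) ℂ) : Continuous fun u : Fin m → ℂ => bS S u u := by
  unfold bS ipr mv
  refine continuous_finsetSum _ fun i _ => ?_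
  have h1 : Continuous fun u : Fin m → ℂ => ∑ j, S i j * (starRingEnd ℂ) (u j) :=
    continuous_finsetSum _ fun j _ => continuous_const.mul
      (Complex.continuous_conj.comp (continuous_apply j))
  exact ((Complex.continuous_re.comp (continuous_apply i)).mul (Complex.continuous_re.comp h1)).add
    ((Complex.continuous_im.comp (continuous_apply i)).mul (Complex.continuous_im.comp h1))

private theorem cpt_sphere : IsCompact {u : Fin m → ℂ | nz u = 1} := by
  refine Metric.isCompact_of_isClosed_isBounded ?_ ?_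
  · exact isClosed_eq contDiff_nz.continuous continuous_const
  · refine (Metric.isBounded_closedBall (x := (0 : Fin m → ℂ)) (r := 1)).subset ?_
    intro u hu
    rw [mem_closedBall_zero_iff, pi_norm_le_iff_of_nonneg zero_le_one]
    intro i
    have h1 : Complex.normSq (u i) ≤ 1 := by
      have h2 : nz u = 1 := hu
      rw [← h2]
      exact Finset.single_le_sum (f := fun i => Complex.normSq (u i))
        (fun i _ => Complex.normSq_nonneg _) (Finset.mem_univ i)
    rw [Complex.normSq_eq_norm_sq] at h1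
    have := norm_nonneg (u i)
    nlinarith

/-- The Takagi vector. -/
private theorem takagi (S : Matrix (Fin m) (Fin m) ℂ) (hS : ∀ i j, S i j = S j i) (hm : 0 < m) :
    ∃ (z : Fin m → ℂ) (σ : ℝ), nz z = 1 ∧ mv S z = σ • z ∧ ∀ u, |bS S u u| ≤ σ * nz u := by
  have hne : ({u : Fin m → ℂ | nz u = 1}).Nonempty := by
    refine ⟨Pi.single ⟨0, hm⟩ 1, ?_⟩
    change nz _ = 1
    unfold nz
    rw [Finset.sum_eq_single ⟨0, hm⟩]
    · rw [Pi.single_eq_same, map_one]
    · intro j _ hj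
      rw [Pi.single_eq_of_ne hj, map_zero]
    · intro h
      exact absurd (Finset.mem_univ _) h
  obtain ⟨z, hz, hmax⟩ := cpt_sphere.exists_isMaxOn hne (cont_bS S).continuousOn
  have hz1 : nz z = 1 := hz
  have hle : ∀ u : Fin m → ℂ, bS S u u ≤ bS S z z * nz u := by
    intro u
    by_cases hu : nz u = 0
    · have h1 : u = 0 := (nz_eq_zero u).1 hu
      rw [hu, mul_zero, h1]
      have h2 : bS S (0 : Fin m → ℂ) 0 = 0 := by
        have := bS_smul_right S 0 (0 : Fin m → ℂ) 0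
        rw [zero_smul, zero_mul] at this
        exact this
      rw [h2]
    · have hpos : 0 < nz u := lt_of_le_of_ne (nz_nonneg u) (Ne.symm hu)
      have h1 : nz ((Real.sqrt (nz u))⁻¹ • u) = 1 := by
        rw [nz_smul, inv_pow, Real.sq_sqrt (nz_nonneg u), inv_mul_cancel₀ hu]
      have h2 := hmax h1
      have h3 : bS S ((Real.sqrt (nz u))⁻¹ • u) ((Real.sqrt (nz u))⁻¹ • u) = (nz u)⁻¹ * bS S u u := by
        rw [bS_smul_right, bS_comm S hS, bS_smul_right, ← mul_assoc, ← pow_two, inv_pow,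
          Real.sq_sqrt (nz_nonneg u)]
      have h4 : (nz u)⁻¹ * bS S u u ≤ bS S z z := by
        rw [← h3]
        exact h2
      rw [inv_mul_le_iff₀ hpos] at h4
      linarith
  have habs : ∀ u : Fin m → ℂ, |bS S u u| ≤ bS S z z * nz u := by
    intro u
    rw [abs_le]
    refine ⟨?_, hle u⟩
    have h1 := hle (Complex.I • u)
    have h2 : bS S (Complex.I • u) (Complex.I • u) = -bS S u u := by
      unfold bS
      rw [mv_I, ipr_I]
    rw [h2, nz_smulC, Complex.normSq_I, one_mul] at h1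
    linarith
  refine ⟨z, bS S z z, hz1, ?_, habs⟩
  have horth : ∀ v : Fin m → ℂ, bS S z z * ipr z v - bS S z v = 0 := by
    intro v
    refine quad_zero _ (bS S z z * nz v - bS S v v) ?_ ?_
    · have := hle v
      linarith
    · intro s
      have h1 := hle (z + s • v)
      rw [bS_expand S hS, nz_expand, hz1] at h1
      nlinarith
  have h1 : nz (mv S z + (-bS S z z) • z) = 0 := by
    have h2 := horth (mv S z + (-bS S z z) • z)
    rw [bS_comm S hS z (mv S z + (-bS S z z) • z)] at h2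
    have h3 : bS S (mv S z + (-bS S z z) • z) z = ipr (mv S z + (-bS S z z) • z) (mv S z) := rfl
    rw [h3, ipr_comm z] at h2
    rw [← ipr_self, ipr_add, ipr_smul]
    linarith
  have h2 := (nz_eq_zero _).1 h1
  rw [neg_smul] at h2
  exact add_neg_eq_zero.1 h2

private theorem nz_mv_le (S : Matrix (Fin m) (Fin m) ℂ) (hS : ∀ i j, S i j = S j i) (σ : ℝ) (hσ : 0 < σ)
    (h : ∀ u, |bS S u u| ≤ σ * nz u) (v : Fin m → ℂ) : nz (mv S v) ≤ σ ^ 2 * nz v := by
  have h1 := (abs_le.1 (h (v + (σ⁻¹) • mv S v))).2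
  have h2 := (abs_le.1 (h (v + (-σ⁻¹) • mv S v))).1
  rw [bS_expand S hS, nz_expand] at h1
  rw [bS_expand S hS, nz_expand] at h2
  have h3 : bS S v (mv S v) = nz (mv S v) := by
    rw [bS_comm S hS, ← ipr_self]
    rfl
  rw [h3] at h1 h2
  have h4 : σ * σ⁻¹ = 1 := mul_inv_cancel₀ hσ.ne'
  have h5 : 4 * σ⁻¹ * nz (mv S v) ≤ 2 * σ * nz v + 2 * σ * (σ⁻¹ ^ 2 * nz (mv S v)) := by
    nlinarith
  have h6 : σ * (σ⁻¹ ^ 2 * nz (mv S v)) = σ⁻¹ * nz (mv S v) := by
    rw [pow_two, ← mul_assoc, ← mul_assoc, h4, one_mul]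
  have h7 : σ⁻¹ * nz (mv S v) ≤ σ * nz v := by nlinarith
  rw [inv_mul_le_iff₀ hσ] at h7
  nlinarith

private theorem mv_zero_of (S : Matrix (Fin m) (Fin m) ℂ) (hS : ∀ i j, S i j = S j i) (σ : ℝ) (hσ : σ ≤ 0)
    (h : ∀ u, |bS S u u| ≤ σ * nz u) (v : Fin m → ℂ) : mv S v = 0 := by
  have h0 : ∀ u : Fin m → ℂ, bS S u u = 0 := by
    intro u
    have h1 := h u
    have h2 := nz_nonneg u
    have h3 : σ * nz u ≤ 0 := mul_nonpos_of_nonpos_of_nonneg hσ h2
    exact abs_eq_zero.1 (le_antisymm (by linarith) (abs_nonneg _))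
  have h1 := h0 (v + (1 : ℝ) • mv S v)
  rw [bS_expand S hS, h0, h0] at h1
  have h3 : bS S v (mv S v) = nz (mv S v) := by
    rw [bS_comm S hS, ← ipr_self]
    rfl
  rw [h3] at h1
  exact (nz_eq_zero _).1 (by linarith)

private theorem sum_row (S : Matrix (Fin m) (Fin m) ℂ) (σ : ℝ)
    (h : ∀ v, nz (mv S v) ≤ σ ^ 2 * nz v) :
    ∑ i, ∑ k, Complex.normSq ((S * Sᴴ) i k) ≤ σ ^ 2 * ∑ i, ∑ j, Complex.normSq (S i j) := by
  rw [Finset.sum_comm, Finset.mul_sum]
  refine Finset.sum_le_sum fun k _ => ?_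
  have h1 : ∑ i, Complex.normSq ((S * Sᴴ) i k) = nz (mv S (S k)) := by
    unfold nz
    refine Finset.sum_congr rfl fun i _ => ?_
    congr 1
  rw [h1]
  exact h (S k)

private theorem mv_vec (z : Fin m → ℂ) (hz : nz z = 1) : mv (vecMulVec z z) z = z := by
  funext i
  have h1 : (∑ j, z j * (starRingEnd ℂ) (z j)) = 1 := by
    have h2 : (∑ j, z j * (starRingEnd ℂ) (z j)) = ((nz z : ℝ) : ℂ) := by
      unfold nz
      rw [Complex.ofReal_sum]
      refine Finset.sum_congr rfl fun j _ => ?_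
      rw [Complex.mul_conj]
    rw [h2, hz, Complex.ofReal_one]
  simp only [mv, vecMulVec_apply, mul_assoc]
  rw [← Finset.mul_sum, h1, mul_one]

theorem tak0 (ε : ℝ) (h1 : ε < 1 / 4) (y : Ix p (Kx m) → ℝ) (t : Tx p (rr p m) (Kx m) → ℝ)
    (hy : (y, t) ∈ Vt (GG p m) ε) (hs : 1 / 2 < ssq y) : ∃ x ∈ K0 p m ε, yv x = y ∧ x.2.2.2 = t := by
  have hn : nsq y = 1 := hy.1
  have hF : Ffun (GG p m) ε y t = 0 := hy.2
  rw [ffun_eq ε y hn t] at hF
  have ht : 0 ≤ nsq t := Finset.sum_nonneg fun i _ => sq_nonneg _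
  have hw : 0 ≤ wsq y := Finset.sum_nonneg fun i _ => sq_nonneg _
  have hws : wsq y + ssq y = 1 := by rw [← nsq_eq, hn]
  have hsum := sum_normSq_Sm y
  have hm : 0 < m := by
    rcases Nat.eq_zero_or_pos m with h | h
    · exfalso
      subst h
      rw [Finset.univ_eq_empty, Finset.sum_empty] at hsum
      linarith
    · exact h
  have hS : ∀ i j, Sm y i j = Sm y j i := Sm_symm y
  obtain ⟨z, σ, hz, hmz, hb⟩ := takagi (Sm y) hS hm
  have hσ : 0 < σ := by
    by_contra hneg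
    push Not at hneg
    have h2 := mv_zero_of (Sm y) hS σ hneg hb
    have h3 : ∀ i j, Sm y i j = 0 := by
      intro i j
      have h4 := congrFun (h2 (Pi.single j 1)) i
      simp only [mv, Pi.zero_apply] at h4
      rw [Finset.sum_eq_single j] at h4
      · rw [Pi.single_eq_same, map_one, mul_one] at h4
        exact h4
      · intro k _ hk
        rw [Pi.single_eq_of_ne hk, map_zero, mul_zero]
      · intro h
        exact absurd (Finset.mem_univ _) h
    simp only [h3, map_zero, Finset.sum_const_zero] at hsum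
    linarith
  have hrow := sum_row (Sm y) σ (nz_mv_le (Sm y) hS σ hσ hb)
  rw [hsum] at hrow
  have hhh := hh_eq y
  have hσ2 : 1 / 2 < σ ^ 2 := by
    by_contra hneg
    push Not at hneg
    have h2 : hh y ≤ ε := by linarith
    have h3 : wsq y = 1 - ssq y := by linarith
    rw [h3] at hhh
    have h4 : σ ^ 2 * ssq y ≤ 1 / 2 * ssq y := mul_le_mul_of_nonneg_right hneg (by linarith)
    nlinarith [mul_nonneg (by linarith : (0 : ℝ) ≤ 1 - ssq y) (by linarith : (0 : ℝ) ≤ ssq y - 1 / 2)]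
  have hyv : yv ((z, (σ, (y - σ • qq p m z, t))) : (Fin m → ℂ) × A0 p m) = y := by
    unfold yv
    simp
  have hk : mv (Sm (y - σ • qq p m z)) z = 0 := by
    have h2 : Sm (y - σ • qq p m z) = Sm y + ((-σ : ℝ) : ℂ) • vecMulVec z z := by
      have h3 : y - σ • qq p m z = y + (-σ) • qq p m z := by
        rw [neg_smul, sub_eq_add_neg]
      rw [h3, Sm_add, Sm_smul, sm_qq]
    have h4 : mv (Sm y + ((-σ : ℝ) : ℂ) • vecMulVec z z) z =
        mv (Sm y) z + ((-σ : ℝ) : ℂ) • mv (vecMulVec z z) z := by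
      funext i
      simp only [mv, Matrix.add_apply, Matrix.smul_apply, Pi.add_apply, Pi.smul_apply, smul_eq_mul,
        add_mul, Finset.sum_add_distrib, Finset.mul_sum, mul_assoc]
    rw [h2, h4, mv_vec z hz, hmz]
    funext i
    simp
  refine ⟨(z, (σ, (y - σ • qq p m z, t))), ?_, hyv, rfl⟩
  rw [k0_iff]
  have e1 := nsq_yv ((z, (σ, (y - σ • qq p m z, t))) : (Fin m → ℂ) × A0 p m) hz hk
  have e2 := hh_yv ((z, (σ, (y - σ • qq p m z, t))) : (Fin m → ℂ) × A0 p m) hz hk
  rw [hyv] at e1 e2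
  refine ⟨hz, hσ, hσ2, hk, ?_, ?_⟩
  · rw [← e1, hn]
  · rw [← e2]
    linarith

end Pool.Agent.Helper48.BPF
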