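import Pool.Agent.Helper48.BPF.SDer

/-!
PROJECT BP, block F, module BP-F17: the fibres of `F0` on `K0` are the orbits, and `F0` is immersive along `K0`.

AUXILIARY. `nz (mv (Sm η) v) ≤ nsq η * nz v` (Cauchy-Schwarz: `normSq (∑_j S_ij conj v_j) ≤ (∑_j normSq S_ij) nz v`, `sum_normSq_Sm`: `∑ normSq S_ij = ssq η ≤ nsq η`). On `K0`: `nsq η = 1 - σ² < 1/2 < σ²`.
`uniq0`: `emb (y, t) = emb (y', t')` gives `t = t'` and `y yᵀ = y' y'ᵀ`, so `y' = y` or `y' = - y` (`nsq y = 1`). Replace `x` by `act g x` with `chi0 g = i` in the second case (`yv_act`, `sg g = -1`; `stab` of `K0` is proved in SCtx, or check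
with `k0_iff`), so `y = y'`: `S = Sm y`, `mv S z = σ z`, `mv S z' = σ' z'` (`mv_yv`). Let `α = ∑ conj(z_i) z'_i`, `ζ = z' - α z` (`∑ conj(z_i) ζ_i = 0`). `mv S z' = conj(α) σ z + mv S ζ`, `mv S ζ = mv (Sm η) ζ` (`∑ z_j conj ζ_j = 0`), which is
orthogonal to `z` (`∑ conj(z_i) S'_ij conj(ζ_j) = 0`). Compare with `σ' z' = σ' α z + σ' ζ`: `conj(α) σ = σ' α`, `mv (Sm η) ζ = σ' ζ`. `σ'² nz ζ = nz (mv (Sm η) ζ) ≤ nsq η nz ζ` with `nsq η < 1/2 < σ'²`: `ζ = 0`. So `z' = α z`, `normSq α = 1`,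
`σ = σ'` and `conj α = α`: `α = ±1`. Then `q(z') = q(z)`, `η' = y - σ q(z) = η`; `g = 1` or `g = -1` (`chi0_surj`, `sg = 1`).
`imm0`: by `fderiv_F0` `tv y y' t' = 0` with `y' = dy x v`: `t' = 0`, `y'_a y_b + y_a y'_b = 0` for all `a, b`, so (take `a = b`, then contract with `y`) `y' = 0`. By `fderiv_nzE`, `fderiv_E0`: `Re <z, ζ> = 0`, `mv (Sm η') z + mv (Sm η) ζ = 0`.
`Sm y' = 0`: `Sm η' = - (σ' z zᵀ + σ (ζ zᵀ + z ζᵀ))`, `mv (Sm η') z = - (σ' z + σ ζ + σ (∑ ζ_j z̄_j) z)`. So `mv (Sm η) ζ = σ' z + σ ζ + σ β z`, `β = ∑ ζ_j z̄_j`. Contract with `z̄`: left side is `0` (`mv (Sm η) z = 0`, symmetry):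
`σ' + 2 σ β = 0`, `β` is purely imaginary, so `σ' = 0`, `β = 0`. `mv (Sm η) ζ = σ ζ` gives `ζ = 0` as above. Then `η' = y' - .. = 0`.
-/

set_option autoImplicit false

namespace Pool.Agent.Helper48.BPF

open Pool.Agent.Helper79.BP Pool.Agent.Helper93.BPF Pool.Agent.Helper72.BP Pool.Agent.Helper6.BP
open Matrix
open scoped ContDiff Topology

variable {p m : ℕ}

/-- hermitian product, linear in the first argument. -/
private noncomputable def hp (a b : Fin m → ℂ) : ℂ := ∑ i, a i * (starRingEnd ℂ) (b i)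

private lemma hp_add (a b c : Fin m → ℂ) : hp (a + b) c = hp a c + hp b c := by
  unfold hp
  rw [← Finset.sum_add_distrib]
  apply Finset.sum_congr rfl
  intro i _
  rw [Pi.add_apply, add_mul]

private lemma hp_smul (c : ℂ) (a b : Fin m → ℂ) : hp (c • a) b = c * hp a b := by
  unfold hp
  rw [Finset.mul_sum]
  apply Finset.sum_congr rfl
  intro i _
  rw [Pi.smul_apply, smul_eq_mul, mul_assoc]

private lemma hp_zero (b : Fin m → ℂ) : hp 0 b = 0 := by
  unfold hp
  simp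

private lemma hp_conj (a b : Fin m → ℂ) : (starRingEnd ℂ) (hp a b) = hp b a := by
  unfold hp
  rw [map_sum]
  apply Finset.sum_congr rfl
  intro i _
  rw [map_mul, Complex.conj_conj, mul_comm]

private lemma hp_self (a : Fin m → ℂ) : hp a a = (nz a : ℂ) := by
  unfold hp nz
  push_cast
  apply Finset.sum_congr rfl
  intro i _
  rw [Complex.mul_conj]

private lemma hp_re (a b : Fin m → ℂ) : (hp a b).re = ∑ i, ((b i).re * (a i).re + (b i).im * (a i).im) := by
  unfold hp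
  rw [Complex.re_sum]
  apply Finset.sum_congr rfl
  intro i _
  rw [Complex.mul_re, Complex.conj_re, Complex.conj_im]
  ring

private lemma mv_add_l (S T : Matrix (Fin m) (Fin m) ℂ) (z : Fin m → ℂ) : mv (S + T) z = mv S z + mv T z := by
  funext i
  simp only [mv, Matrix.add_apply, Pi.add_apply, add_mul, Finset.sum_add_distrib]

private lemma mv_smul_l (c : ℂ) (S : Matrix (Fin m) (Fin m) ℂ) (z : Fin m → ℂ) : mv (c • S) z = c • mv S z := by
  funext i
  simp only [mv, Matrix.smul_apply, Pi.smul_apply, smul_eq_mul, Finset.mul_sum, mul_assoc]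

private lemma mv_add_r (S : Matrix (Fin m) (Fin m) ℂ) (z w : Fin m → ℂ) : mv S (z + w) = mv S z + mv S w := by
  funext i
  simp only [mv, Pi.add_apply, map_add, mul_add, Finset.sum_add_distrib]

private lemma mv_smul_r (c : ℂ) (S : Matrix (Fin m) (Fin m) ℂ) (z : Fin m → ℂ) :
    mv S (c • z) = (starRingEnd ℂ) c • mv S z := by
  funext i
  simp only [mv, Pi.smul_apply, smul_eq_mul, map_mul, Finset.mul_sum]
  apply Finset.sum_congr rfl
  intro j _
  ring

private lemma mv_vec (a b z : Fin m → ℂ) : mv (vecMulVec a b) z = hp b z • a := by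
  funext i
  simp only [mv, hp, vecMulVec_apply, Pi.smul_apply, smul_eq_mul, Finset.sum_mul]
  apply Finset.sum_congr rfl
  intro j _
  ring

private lemma hp_mv_symm (S : Matrix (Fin m) (Fin m) ℂ) (hS : ∀ i j, S i j = S j i) (z w : Fin m → ℂ) :
    hp (mv S z) w = hp (mv S w) z := by
  unfold hp mv
  simp only [Finset.sum_mul]
  rw [Finset.sum_comm]
  apply Finset.sum_congr rfl
  intro i _
  apply Finset.sum_congr rfl
  intro j _
  rw [hS j i]
  ring

private lemma sm_symm (y : Ix p (Kx m) → ℝ) (i j : Fin m) : Sm y i j = Sm y j i := by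
  unfold Sm
  rw [cs_comm i j, Sym2.eq_swap]

private lemma u67_nonneg (z : Fin m → ℂ) : 0 ≤ nz z := Finset.sum_nonneg fun _ _ => Complex.normSq_nonneg _

private lemma u67_eq_zero (z : Fin m → ℂ) (h : nz z = 0) : z = 0 := by
  funext i
  have h1 := (Finset.sum_eq_zero_iff_of_nonneg (fun i _ => Complex.normSq_nonneg (z i))).mp h i (Finset.mem_univ i)
  exact Complex.normSq_eq_zero.mp h1

private lemma u67_smul (c : ℂ) (z : Fin m → ℂ) : nz (c • z) = Complex.normSq c * nz z := by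
  unfold nz
  rw [Finset.mul_sum]
  apply Finset.sum_congr rfl
  intro i _
  rw [Pi.smul_apply, smul_eq_mul, Complex.normSq_mul]

private lemma normSq_sum_le (a b : Fin m → ℂ) :
    Complex.normSq (∑ j, a j * (starRingEnd ℂ) (b j)) ≤ (∑ j, Complex.normSq (a j)) * nz b := by
  have h1 : ‖∑ j, a j * (starRingEnd ℂ) (b j)‖ ≤ ∑ j, ‖a j‖ * ‖b j‖ := by
    refine (norm_sum_le _ _).trans (le_of_eq ?_)
    apply Finset.sum_congr rfl
    intro j _
    rw [norm_mul, RCLike.norm_conj]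
  have h2 := Finset.sum_mul_sq_le_sq_mul_sq Finset.univ (fun j => ‖a j‖) (fun j => ‖b j‖)
  have h3 : Complex.normSq (∑ j, a j * (starRingEnd ℂ) (b j)) = ‖∑ j, a j * (starRingEnd ℂ) (b j)‖ ^ 2 :=
    Complex.normSq_eq_norm_sq _
  rw [h3]
  calc ‖∑ j, a j * (starRingEnd ℂ) (b j)‖ ^ 2 ≤ (∑ j, ‖a j‖ * ‖b j‖) ^ 2 := by
        apply pow_le_pow_left₀ (norm_nonneg _) h1
    _ ≤ (∑ j, ‖a j‖ ^ 2) * ∑ j, ‖b j‖ ^ 2 := h2
    _ = _ := by
        unfold nz
        simp only [Complex.normSq_eq_norm_sq]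

private lemma mv_le (η : Ix p (Kx m) → ℝ) (v : Fin m → ℂ) : nz (mv (Sm η) v) ≤ nsq η * nz v := by
  have h1 : nz (mv (Sm η) v) ≤ (∑ i, ∑ j, Complex.normSq (Sm η i j)) * nz v := by
    rw [Finset.sum_mul]
    unfold nz
    apply Finset.sum_le_sum
    intro i _
    exact normSq_sum_le (fun j => Sm η i j) v
  rw [sum_normSq_Sm] at h1
  have h2 : ssq η ≤ nsq η := by
    rw [nsq_eq]
    have : 0 ≤ wsq η := Finset.sum_nonneg fun i _ => sq_nonneg _
    linarith
  exact h1.trans (mul_le_mul_of_nonneg_right h2 (u67_nonneg v))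

private lemma zeta_zero (η : Ix p (Kx m) → ℝ) (ζ : Fin m → ℂ) (s σ : ℝ) (hs : 1 / 2 < s ^ 2) (hσ : 1 / 2 < σ ^ 2)
    (hn : σ ^ 2 + nsq η = 1) (h : mv (Sm η) ζ = (s : ℂ) • ζ) : ζ = 0 := by
  apply u67_eq_zero
  have h1 := mv_le η ζ
  rw [h, u67_smul, Complex.normSq_ofReal] at h1
  have h2 := u67_nonneg ζ
  nlinarith

private lemma act_eq (g : G4) (x : (Fin m → ℂ) × A0 p m) :
    act chi0 (rho0 p m) m g x = (chi0 g • x.1, (x.2.1, (sg g • x.2.2.1, x.2.2.2))) := rfl

private lemma normSq_chi0 (g : G4) : Complex.normSq (chi0 g) = 1 := by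
  have h1 : Complex.normSq (chi0 g) ^ 4 = 1 := by
    rw [← map_pow, chi0_pow]
    simp
  have h2 := Complex.normSq_nonneg (chi0 g)
  exact (pow_eq_one_iff_of_nonneg h2 (by norm_num)).mp h1

private lemma nsq_sg (g : G4) (η : Ix p (Kx m) → ℝ) : nsq (sg g • η) = nsq η := by
  unfold nsq
  apply Finset.sum_congr rfl
  intro i _
  rw [Pi.smul_apply, smul_eq_mul, mul_pow, sg_sq, one_mul]

private lemma k0_act (ε : ℝ) (g : G4) (x : (Fin m → ℂ) × A0 p m) (hx : x ∈ K0 p m ε) :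
    act chi0 (rho0 p m) m g x ∈ K0 p m ε := by
  rw [k0_iff] at hx ⊢
  obtain ⟨h1, h2, h3, h4, h5, h6⟩ := hx
  rw [act_eq]
  refine ⟨?_, h2, h3, ?_, ?_, ?_⟩
  · change nz (chi0 g • x.1) = 1
    rw [u67_smul, normSq_chi0, one_mul, h1]
  · change mv (Sm (sg g • x.2.2.1)) (chi0 g • x.1) = 0
    rw [Sm_smul, mv_smul_l, mv_smul_r, h4, smul_zero, smul_zero]
  · change x.2.1 ^ 2 + nsq (sg g • x.2.2.1) = 1
    rw [nsq_sg, h5]
  · change nsq x.2.2.2 + (x.2.1 ^ 2 * nsq (sg g • x.2.2.1) + hh (sg g • x.2.2.1)) = ε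
    have h7 : sg g ^ 4 = 1 := by
      have := sg_sq g
      calc sg g ^ 4 = (sg g ^ 2) ^ 2 := by ring
        _ = 1 := by rw [this]; norm_num
    rw [nsq_sg, hh_smul, h7, one_mul, h6]

private lemma qq_smul (c : ℂ) (hc : c ^ 2 = 1) (z : Fin m → ℂ) : qq p m (c • z) = qq p m z := by
  unfold qq
  have h : vecMulVec (c • z) (c • z) = vecMulVec z z := by
    ext i j
    simp only [vecMulVec_apply, Pi.smul_apply, smul_eq_mul]
    linear_combination (z i * z j) * hc
  rw [h]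

private lemma uniq_same (ε : ℝ) (x x' : (Fin m → ℂ) × A0 p m) (hx : x ∈ K0 p m ε) (hx' : x' ∈ K0 p m ε)
    (hy : yv x = yv x') (ht : x.2.2.2 = x'.2.2.2) : ∃ g, x' = act chi0 (rho0 p m) m g x := by
  rw [k0_iff] at hx hx'
  obtain ⟨h1, h2, h3, h4, h5, h6⟩ := hx
  obtain ⟨k1, k2, k3, k4, k5, k6⟩ := hx'
  have a1 := mv_yv x h1 h4
  have a2 := mv_yv x' k1 k4
  rw [← hy] at a2
  obtain ⟨α, hα⟩ : ∃ α, α = hp x'.1 x.1 := ⟨_, rfl⟩
  obtain ⟨ζ, hζ⟩ : ∃ ζ, ζ = x'.1 + (-α) • x.1 := ⟨_, rfl⟩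
  have hζz : hp ζ x.1 = 0 := by
    rw [hζ, hp_add, hp_smul, hp_self, h1, ← hα]
    push_cast
    ring
  have hzζ : hp x.1 ζ = 0 := by
    rw [← hp_conj, hζz, map_zero]
  have hz' : x'.1 = α • x.1 + ζ := by
    rw [hζ]
    module
  have a3 : mv (Sm (yv x)) ζ = mv (Sm x.2.2.1) ζ := by
    rw [sm_yv, mv_add_l, mv_smul_l, mv_vec, hzζ, zero_smul, smul_zero, zero_add]
  have a4 : (starRingEnd ℂ) α • ((x.2.1 : ℂ) • x.1) + mv (Sm x.2.2.1) ζ =
      (x'.2.1 : ℂ) • (α • x.1 + ζ) := by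
    rw [← hz', ← a2, ← a3, ← a1, hz', mv_add_r, mv_smul_r]
  have a5 : hp (mv (Sm x.2.2.1) ζ) x.1 = 0 := by
    rw [hp_mv_symm _ (sm_symm _), h4, hp_zero]
  have a6 : (starRingEnd ℂ) α * x.2.1 = x'.2.1 * α := by
    have h := congrArg (fun w => hp w x.1) a4
    simp only [hp_add, hp_smul, hp_self, h1, a5, hζz] at h
    simpa using h
  have a7 : mv (Sm x.2.2.1) ζ = (x'.2.1 : ℂ) • ζ := by
    rw [smul_add, smul_smul, smul_smul, a6] at a4
    exact add_left_cancel a4
  have hζ0 : ζ = 0 := zeta_zero x.2.2.1 ζ x'.2.1 x.2.1 k3 h3 h5 a7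
  rw [hζ0, add_zero] at hz'
  have hn : Complex.normSq α = 1 := by
    have h := k1
    rw [hz', u67_smul, h1, mul_one] at h
    exact h
  have hσ : x.2.1 = x'.2.1 := by
    have h := congrArg Complex.normSq a6
    rw [Complex.normSq_mul, Complex.normSq_mul, Complex.normSq_conj, hn, Complex.normSq_ofReal,
      Complex.normSq_ofReal, one_mul, mul_one] at h
    nlinarith
  have hc : (starRingEnd ℂ) α = α := by
    have h0 : (x'.2.1 : ℂ) ≠ 0 := by
      exact_mod_cast k2.ne'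
    rw [hσ, mul_comm] at a6
    exact mul_left_cancel₀ h0 a6
  have hα2 : α ^ 2 = 1 := by
    have h := Complex.mul_conj α
    rw [hc, hn] at h
    rw [pow_two, h]
    simp
  obtain ⟨g, hg⟩ := chi0_surj α (by rw [show α ^ 4 = (α ^ 2) ^ 2 by ring, hα2]; norm_num)
  have hsg : sg g = 1 := by
    unfold sg
    rw [hg, hα2]
    simp
  have hη : x'.2.2.1 = x.2.2.1 := by
    have h := hy
    unfold yv at h
    rw [hz', qq_smul α hα2, ← hσ] at h
    exact (add_left_cancel h).symm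
  refine ⟨g, ?_⟩
  rw [act_eq, hg, hsg, one_smul]
  apply Prod.ext
  · exact hz'
  · apply Prod.ext
    · exact hσ.symm
    · apply Prod.ext
      · exact hη
      · exact ht.symm

theorem uniq0 (ε : ℝ) (x x' : (Fin m → ℂ) × A0 p m) (hx : x ∈ K0 p m ε) (hx' : x' ∈ K0 p m ε)
    (h : F0 p m x = F0 p m x') : ∃ g, x' = act chi0 (rho0 p m) m g x := by
  have hx2 := hx
  have hx2' := hx'
  rw [k0_iff] at hx2 hx2'
  obtain ⟨h1, h2, h3, h4, h5, h6⟩ := hx2
  obtain ⟨k1, k2, k3, k4, k5, k6⟩ := hx2'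
  have n1 : nsq (yv x) = 1 := by rw [nsq_yv x h1 h4, h5]
  have n2 : nsq (yv x') = 1 := by rw [nsq_yv x' k1 k4, k5]
  have ht : x.2.2.2 = x'.2.2.2 := by
    funext s
    exact congrFun h (Sum.inr s)
  have hyy : ∀ a b, yv x a * yv x b = yv x' a * yv x' b := by
    intro a b
    exact congrFun h (Sum.inl (a, b))
  obtain ⟨c, hc⟩ : ∃ c, c = ∑ b, yv x b * yv x' b := ⟨_, rfl⟩
  have hy' : ∀ a, yv x' a = c * yv x a := by
    intro a
    have e1 : yv x' a = ∑ b, (yv x' a * yv x' b) * yv x' b := by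
      calc yv x' a = yv x' a * nsq (yv x') := by rw [n2, mul_one]
        _ = _ := by
          unfold nsq
          rw [Finset.mul_sum]
          apply Finset.sum_congr rfl
          intro b _
          ring
    rw [e1, hc, Finset.sum_mul]
    apply Finset.sum_congr rfl
    intro b _
    rw [← hyy a b]
    ring
  have hc2 : c ^ 2 = 1 := by
    have e1 : nsq (yv x') = c ^ 2 * nsq (yv x) := by
      unfold nsq
      rw [Finset.mul_sum]
      apply Finset.sum_congr rfl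
      intro b _
      rw [hy' b]
      ring
    rw [n1, n2, mul_one] at e1
    exact e1.symm
  have hc3 : c = 1 ∨ c = -1 := by
    have h9 : (c - 1) * (c + 1) = 0 := by linear_combination hc2
    rcases mul_eq_zero.mp h9 with h10 | h10
    · left; linarith
    · right; linarith
  rcases hc3 with hc3 | hc3
  · apply uniq_same ε x x' hx hx' ?_ ht
    funext a
    rw [hy' a, hc3, one_mul]
  · obtain ⟨g0, hg0⟩ := chi0_surj Complex.I (by rw [show Complex.I ^ 4 = (Complex.I ^ 2) ^ 2 by ring, Complex.I_sq]; norm_num)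
    have hs0 : sg g0 = -1 := by
      unfold sg
      rw [hg0, Complex.I_sq]
      simp
    have hy0 : yv (act chi0 (rho0 p m) m g0 x) = yv x' := by
      rw [yv_act, hs0]
      funext a
      rw [hy' a, hc3]
      simp
    obtain ⟨g, hg⟩ := uniq_same ε (act chi0 (rho0 p m) m g0 x) x' (k0_act ε g0 x hx) hx' hy0 (by
      rw [act_eq]
      exact ht)
    refine ⟨g * g0, ?_⟩
    rw [hg, map_mul]
    rfl

theorem imm0 (ε : ℝ) (x v : (Fin m → ℂ) × A0 p m) (hx : x ∈ K0 p m ε)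
    (hv : fderiv ℝ (fun x : (Fin m → ℂ) × A0 p m => (nz x.1 - 1, E0 p m ε x)) x v = 0)
    (hF : fderiv ℝ (F0 p m) x v = 0) : v = 0 := by
  rw [k0_iff] at hx
  obtain ⟨h1, h2, h3, h4, h5, h6⟩ := hx
  have n1 : nsq (yv x) = 1 := by rw [nsq_yv x h1 h4, h5]
  rw [fderiv_F0] at hF
  have ht : v.2.2.2 = 0 := by
    funext s
    exact congrFun hF (Sum.inr s)
  have hyy : ∀ a b, dy x v a * yv x b + yv x a * dy x v b = 0 := by
    intro a b
    exact congrFun hF (Sum.inl (a, b))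
  obtain ⟨c, hc⟩ : ∃ c, c = ∑ b, yv x b * dy x v b := ⟨_, rfl⟩
  have hA : ∀ a, dy x v a + yv x a * c = 0 := by
    intro a
    have e1 : ∑ b, (dy x v a * yv x b + yv x a * dy x v b) * yv x b = 0 := by
      apply Finset.sum_eq_zero
      intro b _
      rw [hyy a b, zero_mul]
    have e2 : ∑ b, (dy x v a * yv x b + yv x a * dy x v b) * yv x b = dy x v a * nsq (yv x) + yv x a * c := by
      rw [hc]
      unfold nsq
      rw [Finset.mul_sum, Finset.mul_sum, ← Finset.sum_add_distrib]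
      apply Finset.sum_congr rfl
      intro b _
      ring
    rw [e2, n1, mul_one] at e1
    exact e1
  have hc0 : c = 0 := by
    have e1 : ∑ a, yv x a * (dy x v a + yv x a * c) = c + nsq (yv x) * c := by
      conv_rhs => rw [hc]
      unfold nsq
      rw [Finset.sum_mul, ← Finset.sum_add_distrib]
      apply Finset.sum_congr rfl
      intro b _
      rw [← hc]
      ring
    have e2 : ∑ a, yv x a * (dy x v a + yv x a * c) = 0 := by
      apply Finset.sum_eq_zero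
      intro a _
      rw [hA a, mul_zero]
    rw [e2, n1] at e1
    linarith
  have hdy : dy x v = 0 := by
    funext a
    have := hA a
    rw [hc0, mul_zero, add_zero] at this
    exact this
  rw [fderiv_nzE, fderiv_E0] at hv
  have hv1 : 2 * ∑ i, ((x.1 i).re * (v.1 i).re + (x.1 i).im * (v.1 i).im) = 0 := congrArg Prod.fst hv
  have hv2 : mv (Sm v.2.2.1) x.1 + mv (Sm x.2.2.1) v.1 = 0 := congrArg (fun w => w.2.1) hv
  obtain ⟨β, hβ⟩ : ∃ β, β = hp v.1 x.1 := ⟨_, rfl⟩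
  have hβr : β.re = 0 := by
    rw [hβ, hp_re]
    linarith
  have hS : (v.2.1 : ℂ) • vecMulVec x.1 x.1 + (x.2.1 : ℂ) • (vecMulVec v.1 x.1 + vecMulVec x.1 v.1) + Sm v.2.2.1 = 0 := by
    have e1 : Sm (dy x v) = (v.2.1 : ℂ) • vecMulVec x.1 x.1 +
        (x.2.1 : ℂ) • (vecMulVec v.1 x.1 + vecMulVec x.1 v.1) + Sm v.2.2.1 := by
      unfold dy
      rw [Sm_add, Sm_add, Sm_smul, Sm_smul, sm_qq, Sm_ofS]
      ext i j
      simp only [transpose_apply, Matrix.add_apply, vecMulVec_apply]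
      ring
    rw [← e1, hdy]
    ext i j
    simp [Sm]
  have hA1 : mv (Sm x.2.2.1) v.1 = (v.2.1 : ℂ) • x.1 + (x.2.1 : ℂ) • (v.1 + β • x.1) := by
    have e1 := congrArg (fun S => mv S x.1) hS
    simp only [mv_add_l, mv_smul_l, mv_vec, hp_self, h1] at e1
    have e2 : mv (0 : Matrix (Fin m) (Fin m) ℂ) x.1 = 0 := by
      funext i
      simp [mv]
    rw [e2, ← hβ] at e1
    have e3 : mv (Sm x.2.2.1) v.1 = - mv (Sm v.2.2.1) x.1 := by
      rw [eq_neg_iff_add_eq_zero, add_comm]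
      exact hv2
    have e4 : mv (Sm v.2.2.1) x.1 = -((v.2.1 : ℂ) • x.1 + (x.2.1 : ℂ) • (v.1 + β • x.1)) := by
      rw [eq_neg_iff_add_eq_zero, add_comm, ← e1]
      push_cast
      module
    rw [e3, e4, neg_neg]
  have hB : (v.2.1 : ℂ) + 2 * x.2.1 * β = 0 := by
    have e1 := congrArg (fun w => hp w x.1) hA1
    simp only [hp_add, hp_smul, hp_self, h1] at e1
    rw [hp_mv_symm _ (sm_symm _), h4, hp_zero, ← hβ] at e1
    push_cast at e1
    linear_combination -e1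
  have hs' : v.2.1 = 0 := by
    have e1 := congrArg Complex.re hB
    rw [Complex.add_re, Complex.ofReal_re, Complex.mul_re] at e1
    simp only [Complex.mul_im, Complex.mul_re, Complex.ofReal_re, Complex.ofReal_im, hβr] at e1
    simpa using e1
  have hβ0 : β = 0 := by
    rw [hs'] at hB
    have h0 : (2 * x.2.1 : ℂ) ≠ 0 := by
      have : (x.2.1 : ℂ) ≠ 0 := by exact_mod_cast h2.ne'
      exact mul_ne_zero two_ne_zero this
    simp only [Complex.ofReal_zero, zero_add] at hB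
    exact (mul_eq_zero.mp hB).resolve_left h0
  have hζ : v.1 = 0 := by
    apply zeta_zero x.2.2.1 v.1 x.2.1 x.2.1 h3 h3 h5
    rw [hA1, hs', hβ0]
    simp
  have hη : v.2.2.1 = 0 := by
    have e1 := hdy
    unfold dy at e1
    rw [hs', hζ] at e1
    have e2 : vecMulVec (0 : Fin m → ℂ) x.1 + vecMulVec x.1 (0 : Fin m → ℂ) = 0 := by
      ext i j
      simp
    have e3 : ofS (0 : Matrix (Fin m) (Fin m) ℂ) = 0 := by
      have h := ofS_smul 0 (0 : Matrix (Fin m) (Fin m) ℂ)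
      simpa using h
    rw [e2, e3] at e1
    have e4 : (Sum.elim (fun _ => 0) (0 : Kx m → ℝ) : Ix p (Kx m) → ℝ) = 0 := by
      funext i
      cases i <;> rfl
    rw [e4, zero_smul, smul_zero, zero_add, zero_add] at e1
    exact e1
  apply Prod.ext
  · exact hζ
  · apply Prod.ext
    · exact hs'
    · apply Prod.ext
      · exact hη
      · exact ht

end Pool.Agent.Helper48.BPF
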