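import Pool.Agent.Helper48.BPF.SBord
import Pool.Agent.Helper48.BPF.STak
import Pool.Agent.Helper48.BPF.SUniq

/-!
PROJECT BP, block F, module BP-F21: `N_2` is the quotient of `XN`.

`descent` with `π = F0` on `O = univ` (`contDiff_F0`). `π '' XN = N2`: a point of `K0` gives `emb (yv x, t) ∈ VV`, `sY = ssq (yv x) > 1/2` (`k0_vt`, `sY_emb`), and `L0 0 x = 0` iff `λ_j·y = 0` iff `Yl = 0` (`Yl_zero_iff`, block V, GeoA.lean); conversely
a point of `N2` is `emb (y, t)`, `(y, t) ∈ Vt`, `ssq y > 1/2`, `λ_j·y = 0`, use `tak0`. `hinv`: `ctx0.inv`. `hsep`: `uniq0`. `himm`: a vector tangent to `XN` is killed by the derivative of `(nz x.1 - 1, E0 x)` (which vanishes on `XN`: `tan_zero` with the equations of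
`data_XN`, or directly: `TanE` for the components composed with linear functionals, these functions are smooth on the whole space and vanish on `XN`), then `imm0`. `hf`: `A.f = id`.
-/

set_option autoImplicit false

namespace Pool.Agent.Helper48.BPF

open Pool.Agent.Helper79.BP Pool.Agent.Helper93.BPF Pool.Agent.Helper72.BP Pool.Agent.Helper6.BP
open Matrix
open scoped ContDiff Topology

variable {p m : ℕ}

theorem desc_N2 (ε : ℝ) (h0 : 0 < ε) (h1 : ε < 1 / 4)
    (hN : UpData (act chi0 (rho0 p m) m) (VV p m ε) (dd p m) (XN p m ε) (F0 p m))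
    (hc : IsCompact (N2 p m ε)) (hs : IsSubmfd (dd p m) (N2 p m ε)) (hV : N2 p m ε ⊆ VV p m ε) :
    Bord (Q hN) (incl (VV p m ε) (N2 p m ε) (dd p m) hc hs hV) := by
  have hctx := ctx0 (p := p) (m := m) ε h0 h1
  refine descent hN (incl (VV p m ε) (N2 p m ε) (dd p m) hc hs hV) (F0 p m) Set.univ isOpen_univ
    (Set.subset_univ _) ?_ ?_ ?_ ?_ ?_ ?_
  · exact contDiff_F0.contDiffOn
  · ext w
    constructor
    · rintro ⟨x, ⟨hx, hL⟩, rfl⟩
      obtain ⟨hvt, hss⟩ := k0_vt ε x hx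
      refine ⟨⟨_, hvt, rfl⟩, ?_, ?_⟩
      · show 1 / 2 < sY (emb (yv x, x.2.2.2))
        rw [sY_emb]
        exact hss
      · show ∀ j i, Yl (emb (yv x, x.2.2.2)) j i = 0
        rw [Yl_zero_iff _ hvt.1]
        intro j
        have h2 := congrFun hL j
        simpa [L0] using h2
    · rintro ⟨⟨⟨y, t⟩, hyt, rfl⟩, hss, hY⟩
      rw [sY_emb] at hss
      obtain ⟨x, hx, hy, ht⟩ := tak0 ε h1 y t hyt hss
      refine ⟨x, ⟨hx, ?_⟩, ?_⟩
      · funext j
        have h2 := (Yl_zero_iff (y, t) hyt.1).1 hY j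
        show (1 - 0) * dotProduct (lam j) (yv x) + 0 * fn (CC p) m x.1 j = 0
        rw [hy, h2]
        ring
      · show emb (yv x, x.2.2.2) = emb (y, t)
        rw [hy, ht]
  · intro g x hx
    exact hctx.inv g x hx.1
  · intro x hx y hy hxy
    exact uniq0 ε x y hx.1 hy.1 hxy
  · intro x hx v hv hF
    refine imm0 ε x v hx.1 ?_ hF
    have hsm : ContDiff ℝ ∞ (fun x : (Fin m → ℂ) × A0 p m => (nz x.1 - 1, E0 p m ε x)) :=
      ((contDiff_nz.comp contDiff_fst).sub contDiff_const).prodMk (contDiff_E0 ε)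
    refine NormedSpace.eq_zero_of_forall_dual_eq_zero ℝ fun L => ?_
    have hd : HasFDerivAt (fun x : (Fin m → ℂ) × A0 p m => (nz x.1 - 1, E0 p m ε x))
        (fderiv ℝ (fun x : (Fin m → ℂ) × A0 p m => (nz x.1 - 1, E0 p m ε x)) x) x :=
      (hsm.differentiable (by simp) x).hasFDerivAt
    have h2 := hv (fun x => L (nz x.1 - 1, E0 p m ε x)) (L.contDiff.comp hsm) (by
      intro y hy
      have h3 : nz y.1 - 1 = 0 := by
        rw [hy.1.1]
        ring
      have h4 : E0 p m ε y = 0 := hy.1.2.2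
      rw [h3, h4]
      exact map_zero L)
    have h5 : HasFDerivAt (fun x : (Fin m → ℂ) × A0 p m => L (nz x.1 - 1, E0 p m ε x))
        (L.comp (fderiv ℝ (fun x : (Fin m → ℂ) × A0 p m => (nz x.1 - 1, E0 p m ε x)) x)) x :=
      L.hasFDerivAt.comp x hd
    rw [h5.fderiv] at h2
    exact h2
  · intro x hx
    rfl

end Pool.Agent.Helper48.BPF
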