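import Pool.Agent.Helper48.BPF.SMain
import Pool.Agent.Helper6.BP.VMain

/-!
PROJECT BP, block F: the output for block V.
-/

set_option autoImplicit false

namespace Pool.Agent.Helper48.BPF

open Pool.Agent.Helper79.BP Pool.Agent.Helper93.BPF Pool.Agent.Helper72.BP Pool.Agent.Helper6.BP

/-- `M_2` and `N_2` are bordant over `V` for small `ε`. -/
theorem fOut (p : ℕ) (hp : 2 ≤ p) : FOut p := by
  obtain ⟨ε0, h00, h⟩ := fMain p (2 * p + 1) hp
  refine ⟨min ε0 (1 / 4), lt_min h00 (by norm_num), ?_⟩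
  intro ε h0 hε hc hs hc' hs'
  exact h ε h0 (lt_of_lt_of_le hε (min_le_left _ _)) (lt_of_lt_of_le hε (min_le_right _ _)) hc hs _ hc' hs' _

end Pool.Agent.Helper48.BPF
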