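import Pool.Agent.Helper48.BPF.SDefs
import Pool.Agent.Helper6.BP.SpanA

/-!
PROJECT BP, block F, module BP-F23: the coefficients `CC p` are good for `p ≥ 2`.

`(CC p l w) j = Re (c_jl w)`, `c_jl = l^(j/2) (1 | -i)`. `inj`: `j = 0` gives `Re w = 0` (`l^0 = 1`), `j = 1` gives `Re (-i w) = Im w = 0`. `span`: let `m` be a bound of `s` (`m = s.sup id + 1`), `A : Finset (Fin m)` the elements of `s` (`Finset.univ.filter (↑· ∈ s)`); sums over
`s` and over `A` agree (`Finset.sum_bij`, or `Finset.sum_nbij`); `cc j l` of block V is `c_jl`; `span_cc` (block V, SpanA.lean).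
-/

set_option autoImplicit false

namespace Pool.Agent.Helper48.BPF

open Pool.Agent.Helper79.BP Pool.Agent.Helper93.BPF Pool.Agent.Helper72.BP Pool.Agent.Helper6.BP

private theorem CC_apply (p : ℕ) (l : ℕ) (w : ℂ) (j : Fin p) :
    CC p l w j = ((l : ℂ) ^ ((j : ℕ) / 2) * (if (j : ℕ) % 2 = 0 then 1 else -Complex.I) * w).re := rfl

private theorem sum_CC (p : ℕ) {m : ℕ} (A : Finset (Fin m)) (w : Fin m → ℂ) (j : Fin p) :
    (∑ l ∈ A, CC p (l : ℕ) (w l)) j = (∑ l ∈ A, cc j l * w l).re := by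
  rw [Finset.sum_apply, Complex.re_sum]
  refine Finset.sum_congr rfl fun l _ => ?_
  rw [CC_apply]
  rfl

theorem goodCC (p : ℕ) (hp : 2 ≤ p) : GoodC (CC p) := by
  refine ⟨?_, ?_⟩
  · intro l w h
    have h0 := congrFun h ⟨0, by omega⟩
    have h1 := congrFun h ⟨1, by omega⟩
    rw [CC_apply] at h0 h1
    apply Complex.ext
    · simpa using h0
    · simpa using h1
  · intro s w hs hw h0 u
    have hlt : ∀ l ∈ s, l < s.sup id + 1 := fun l hl => Nat.lt_succ_of_le (Finset.le_sup (f := id) hl)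
    have hmap : (s.attachFin hlt).map Fin.valEmbedding = s := Finset.map_valEmbedding_attachFin hlt
    have hsum : ∀ f : ℕ → (Fin p → ℝ), ∑ l ∈ s, f l = ∑ l ∈ s.attachFin hlt, f (l : ℕ) := by
      intro f
      conv_lhs => rw [← hmap]
      rw [Finset.sum_map]
      rfl
    have hA : (s.attachFin hlt).Nonempty := by
      obtain ⟨l, hl⟩ := hs
      exact ⟨⟨l, hlt l hl⟩, Finset.mem_attachFin hlt |>.2 hl⟩
    obtain ⟨v, hv⟩ := span_cc (p := p) (s.attachFin hlt) hA (fun l => w (l : ℕ))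
      (fun l hl => hw _ ((Finset.mem_attachFin hlt).1 hl)) (fun j => by
        rw [← sum_CC p (s.attachFin hlt) (fun l => w (l : ℕ)) j, ← hsum (fun l => CC p l (w l)), h0]
        rfl) u
    refine ⟨fun l => if h : l < s.sup id + 1 then v ⟨l, h⟩ else 0, ?_⟩
    rw [hsum]
    funext j
    rw [sum_CC p (s.attachFin hlt) (fun l => if h : (l : ℕ) < s.sup id + 1 then v ⟨l, h⟩ else 0) j, ← hv j]
    congr 1
    refine Finset.sum_congr rfl fun l _ => ?_
    rw [dif_pos l.2]

end Pool.Agent.Helper48.BPF
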