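import Pool.Agent.Helper6.BP.MfdB
import Pool.Agent.Helper79.BP.KitK2
import Pool.Agent.Helper79.BP.KitD
import Pool.Agent.Helper79.BP.KitJ

/-!
PROJECT BP, block F, module BP-F22: `M_2` is null-bordant over `V` (`0 < p`).

PROOF. Let `j0 = ⟨0, _⟩`, `W = {x ∈ VV | 1/2 < sY x, tpp x j = 0 for all j ≠ j0}`, `τ x = (tpp x j0) / (2 √ε)`. `W` is a submanifold of dimension `dd + 1`: `IsSubmfd.zeros` (Helper79/BP/KitD.lean) in `V` (dimension `dd + p`, `isCNV_VV`, `IsCNV.isSubmfd`) with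
the open set `{1/2 < sY}` and the `p - 1` linear functions `tpp · j`, `j ≠ j0` (reindex by `Fin (p - 1)`, e.g. `j = i.succ` after writing `p = q + 1`); their differentials are onto on `T_x V` at `x = emb (y, t) ∈ W`: `tv y 0 u` with `u` equal to `w_j` at the coordinate `t''_j`,
`j ≠ j0`, and `0` elsewhere is tangent to `V` by `tan_VV` (`t·u = ∑ t''_j w_j = 0`, `dh y 0 = 0`).
Regular values: `τ = 0`: `t''_(j0) = 0`, all `t'' = 0`; `v = tv y 0 u`, `u` = 1 at `t''_(j0)`: tangent to `V` (`t·u = 0`), killed by the `tpp · j`, `j ≠ j0`, so tangent to `W` (`tan_zeros_iff`, KitD); `dτ v = 1/(2√ε) ≠ 0`. `τ = 1` is impossible on `W`: `|t|² ≤ ε` on `V` (`hh_le`), so `|τ| ≤ 1/2`.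
Compact: `W ∩ {0 ≤ τ ≤ 1}` is closed in the compact set `VV` (`1/2 < sY` is `1/2 ≤ sY` on `VV`, `sY_ne`). The bordism: `F = id`, `W ∩ {τ = 0} = M2` (identity diffeomorphism), `W ∩ {τ = 1} = ∅` (`Sing.nil`, `IsDiffeo` of empty sets).
-/

set_option autoImplicit false

namespace Pool.Agent.Helper48.BPF

open Pool.Agent.Helper79.BP Pool.Agent.Helper72.BP Pool.Agent.Helper6.BP
open scoped ContDiff Topology

variable {p m : ℕ}

private theorem tan_tpp0 {q : ℕ} (ε : ℝ) (h0 : 0 < ε) (h1 : ε < 1 / 4)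
    (x : Amb (Ix (q + 1) (Kx m)) (Tx (q + 1) (rr (q + 1) m) (Kx m)) → ℝ)
    (hx : x ∈ VV (q + 1) m ε) (w : Fin (q + 1) → ℝ) (ht : ∀ j, tpp x j * w j = 0) :
    ∃ v, Tan (VV (q + 1) m ε) x v ∧ ∀ j, tpp v j = w j := by
  obtain ⟨⟨y, t⟩, hyt, rfl⟩ := hx
  refine ⟨tv y 0 (Sum.elim (fun _ => 0) (Sum.elim (fun _ => 0) w)),
    tan_VV ε h0 h1 (y, t) hyt 0 (Sum.elim (fun _ => 0) (Sum.elim (fun _ => 0) w)) (by simp) ?_, fun j => rfl⟩
  have h2 : ∀ j, t (Sum.inr (Sum.inr j)) * w j = 0 := fun j => by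
    have := ht j
    rwa [tpp_emb] at this
  have h3 : dh (p := q + 1) (m := m) y 0 = 0 := by
    simp [dh, dG, bf]
  have h4 : dotProduct t (Sum.elim (fun _ => 0) (Sum.elim (fun _ => 0) w)) = 0 := by
    simp only [dotProduct, Fintype.sum_sum_type, Sum.elim_inl, Sum.elim_inr, mul_zero, Finset.sum_const_zero,
      zero_add]
    exact Finset.sum_eq_zero fun j _ => h2 j
  change 2 * dotProduct t _ + dh y 0 = 0
  rw [h3, h4]
  norm_num

private theorem tpp_sq_le (ε : ℝ) (x : Amb (Ix p (Kx m)) (Tx p (rr p m) (Kx m)) → ℝ)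
    (hx : x ∈ VV p m ε) (j : Fin p) : tpp x j ^ 2 ≤ ε := by
  obtain ⟨⟨y, t⟩, hyt, rfl⟩ := hx
  rw [tpp_emb]
  obtain ⟨e1, e2⟩ := hyt
  unfold Ffun at e2
  rw [e1] at e2
  have h3 : (0 : ℝ) ≤ ∑ l, qf (GG p m l) y ^ 2 := Finset.sum_nonneg fun i _ => sq_nonneg _
  have h4 : (algebraMap ℝ ℝ) ε = ε := rfl
  have h5 : t (Sum.inr (Sum.inr j)) ^ 2 ≤ nsq t :=
    Finset.single_le_sum (f := fun s => t s ^ 2) (fun s _ => sq_nonneg _) (Finset.mem_univ _)
  rw [h4] at e2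
  simp only at e2 h5 ⊢
  linarith

theorem null_M2 (hp : 0 < p) (ε : ℝ) (h0 : 0 < ε) (h1 : ε < 1 / 4)
    (hc : IsCompact (M2 p m ε)) (hs : IsSubmfd (dd p m) (M2 p m ε)) (hV : M2 p m ε ⊆ VV p m ε) :
    Bord (incl (VV p m ε) (M2 p m ε) (dd p m) hc hs hV) (Sing.nil (VV p m ε) (dd p m)) := by
  obtain ⟨q, rfl⟩ := Nat.exists_eq_succ_of_ne_zero hp.ne'
  let T : (Amb (Ix (q + 1) (Kx m)) (Tx (q + 1) (rr (q + 1) m) (Kx m)) → ℝ) →L[ℝ] (Fin q → ℝ) :=
    ContinuousLinearMap.pi fun j => ContinuousLinearMap.proj (Sum.inr (Sum.inr (Sum.inr j.succ)))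
  have hT : ∀ x, T x = fun j => tpp x j.succ := fun x => rfl
  let τ : (Amb (Ix (q + 1) (Kx m)) (Tx (q + 1) (rr (q + 1) m) (Kx m)) → ℝ) →L[ℝ] ℝ :=
    (2 * Real.sqrt ε)⁻¹ • ContinuousLinearMap.proj (Sum.inr (Sum.inr (Sum.inr 0)))
  have hsq : 0 < Real.sqrt ε := Real.sqrt_pos.2 h0
  have hτ : ∀ x, τ x = (2 * Real.sqrt ε)⁻¹ * tpp x 0 := fun x => rfl
  let O : Set (Amb (Ix (q + 1) (Kx m)) (Tx (q + 1) (rr (q + 1) m) (Kx m)) → ℝ) := {x | 1 / 2 < sY x}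
  have hO : IsOpen O := isOpen_lt continuous_const continuous_sY
  have hVs : IsSubmfd ((dd (q + 1) m + 1) + q) (VV (q + 1) m ε) := by
    have h := (isCNV_VV (p := q + 1) (m := m) ε h0 h1).isSubmfd
    have e : dd (q + 1) m + (q + 1) = (dd (q + 1) m + 1) + q := by omega
    rw [e] at h
    exact h
  have hon : ∀ x ∈ VV (q + 1) m ε, x ∈ O → T x = 0 →
      ∀ w, ∃ v, Tan (VV (q + 1) m ε) x v ∧ fderiv ℝ (fun y => T y) x v = w := by
    intro x hxV _ hx0 w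
    obtain ⟨v, hv, hw⟩ := tan_tpp0 ε h0 h1 x hxV (Fin.cons 0 w) fun j => by
      refine Fin.cases ?_ (fun i => ?_) j
      · rw [Fin.cons_zero, mul_zero]
      · have := congrFun hx0 i
        rw [hT] at this
        rw [Fin.cons_succ]
        rw [show tpp x i.succ = 0 from this, zero_mul]
    refine ⟨v, hv, ?_⟩
    rw [T.fderiv, hT]
    ext j
    rw [hw j.succ, Fin.cons_succ]
  have hτ1 : ∀ x ∈ VV (q + 1) m ε, τ x ≠ 1 := by
    intro x hx hx1
    rw [hτ] at hx1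
    have h2 : tpp x 0 = 2 * Real.sqrt ε := by
      field_simp at hx1
      linarith
    have h3 := tpp_sq_le ε x hx 0
    rw [h2, mul_pow, Real.sq_sqrt h0.le] at h3
    linarith
  have hMW : ∀ x : Amb (Ix (q + 1) (Kx m)) (Tx (q + 1) (rr (q + 1) m) (Kx m)) → ℝ, x ∈ M2 (q + 1) m ε ↔
      (x ∈ VV (q + 1) m ε ∧ x ∈ O ∧ T x = 0) ∧ τ x = 0 := by
    intro x
    constructor
    · rintro ⟨a, b, c⟩
      refine ⟨⟨a, b, ?_⟩, ?_⟩
      · rw [hT]
        ext j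
        exact c j.succ
      · rw [hτ, c 0, mul_zero]
    · rintro ⟨⟨a, b, c⟩, d⟩
      refine ⟨a, b, fun j => ?_⟩
      refine Fin.cases ?_ (fun i => ?_) j
      · rw [hτ] at d
        rcases mul_eq_zero.1 d with h' | h'
        · exact absurd h' (inv_ne_zero (by positivity))
        · exact h'
      · exact congrFun c i
  refine ⟨_, inferInstance, {x | x ∈ VV (q + 1) m ε ∧ x ∈ O ∧ T x = 0}, τ, id,
    IsSubmfd.zeros hVs hO T.contDiff.contDiffOn hon, τ.contDiff, ?_, ?_, continuousOn_id, ?_, ?_, ?_⟩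
  · rintro x ⟨hxV, hxO, hx0⟩ hx01
    have hx1 : tpp x 0 = 0 := by
      rcases hx01 with h | h
      · rw [hτ] at h
        rcases mul_eq_zero.1 h with h' | h'
        · exact absurd h' (inv_ne_zero (by positivity))
        · exact h'
      · exact absurd h (hτ1 x hxV)
    obtain ⟨v, hv, hw⟩ := tan_tpp0 ε h0 h1 x hxV (Fin.cons 1 0) fun j => by
      refine Fin.cases ?_ (fun i => ?_) j
      · rw [hx1, zero_mul]
      · rw [Fin.cons_succ, Pi.zero_apply, mul_zero]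
    refine ⟨v, (tan_zeros_iff hVs hO T.contDiff.contDiffOn hon hxV hxO hx0).2 ⟨hv, ?_⟩, ?_⟩
    · rw [T.fderiv, hT]
      ext j
      rw [hw j.succ, Fin.cons_succ, Pi.zero_apply]
    · rw [τ.fderiv, hτ, hw 0, Fin.cons_zero, mul_one]
      exact inv_ne_zero (by positivity)
  · have he : {x | x ∈ {x | x ∈ VV (q + 1) m ε ∧ x ∈ O ∧ T x = 0} ∧ 0 ≤ τ x ∧ τ x ≤ 1} =
        VV (q + 1) m ε ∩ ({x | 1 / 2 ≤ sY x} ∩ ({x | T x = 0} ∩ ({x | 0 ≤ τ x} ∩ {x | τ x ≤ 1}))) := by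
      ext x
      constructor
      · rintro ⟨⟨a, b, c⟩, d, e⟩
        exact ⟨a, le_of_lt (show 1 / 2 < sY x from b), c, d, e⟩
      · rintro ⟨a, b, c, d, e⟩
        exact ⟨⟨a, lt_of_le_of_ne b (sY_ne ε h1 x a).symm, c⟩, d, e⟩
    rw [he]
    refine IsCompact.inter_right (isCompact_Vemb (GG (q + 1) m) ε) ?_
    exact (isClosed_le continuous_const continuous_sY).inter ((isClosed_eq T.continuous continuous_const).inter
      ((isClosed_le continuous_const τ.continuous).inter (isClosed_le τ.continuous continuous_const)))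
  · rintro x ⟨⟨a, _, _⟩, _⟩
    exact a
  · exact ⟨id, ⟨contDiff_id, fun x hx => (hMW x).1 hx, id, contDiff_id, fun x hx => (hMW x).2 hx, fun _ _ => rfl,
      fun _ _ => rfl⟩, fun _ _ => rfl⟩
  · refine ⟨fun _ => 0, ⟨contDiff_const, fun x hx => hx.elim, fun _ => 0, contDiff_const, ?_, fun x hx => hx.elim, ?_⟩,
      fun x hx => hx.elim⟩
    · rintro x ⟨⟨a, _, _⟩, d⟩
      exact absurd d (hτ1 x a)
    · rintro x ⟨⟨a, _, _⟩, d⟩
      exact absurd d (hτ1 x a)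

end Pool.Agent.Helper48.BPF
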