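import Pool.Agent.Helper48.BPF.Claim
import Pool.Agent.Helper48.BPF.SDesc
import Pool.Agent.Helper48.BPF.SM2
import Pool.Agent.Helper48.BPF.SGood

/-!
PROJECT BP, block F: final assembly, `M_2` and `N_2` are bordant over `V`.
-/

set_option autoImplicit false

namespace Pool.Agent.Helper48.BPF

open Pool.Agent.Helper79.BP Pool.Agent.Helper93.BPF Pool.Agent.Helper72.BP Pool.Agent.Helper6.BP

theorem dim0 (p m : ℕ) : 2 * m + Module.finrank ℝ (A0 p m) = dd p m + 1 + p + Module.finrank ℝ (B0 m) := by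
  have h := dd_eq p m
  simp only [Module.finrank_prod, Module.finrank_self, Module.finrank_fintype_fun_eq_card]
  have h2 : Module.finrank ℝ (Fin m → ℂ) = 2 * m := by
    rw [Module.finrank_pi_fintype]
    simp [Complex.finrank_real_complex, mul_comm]
  rw [h2]
  omega

theorem fMain (p m : ℕ) (hp : 2 ≤ p) : ∃ ε0 > 0, ∀ ε, 0 < ε → ε < ε0 → ε < 1 / 4 →
    ∀ (hc : IsCompact (M2 p m ε)) (hs : IsSubmfd (dd p m) (M2 p m ε)) (hV : M2 p m ε ⊆ VV p m ε)
      (hc' : IsCompact (N2 p m ε)) (hs' : IsSubmfd (dd p m) (N2 p m ε)) (hV' : N2 p m ε ⊆ VV p m ε),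
    Relation.EqvGen Bord (incl (VV p m ε) (M2 p m ε) (dd p m) hc hs hV)
      (incl (VV p m ε) (N2 p m ε) (dd p m) hc' hs' hV') := by
  obtain ⟨ε0, h00, h⟩ := onto0 p m
  refine ⟨ε0, h00, ?_⟩
  intro ε h0 hε h1 hc hs hV hc' hs' hV'
  have ho := h ε h0 hε
  have hctx := ctx0 (p := p) (m := m) ε h0 h1
  have hN := data_XN ε h0 h1 ho
  have hX := ctx_data (CC p) (goodCC p hp) hctx (dd p m) (dim0 p m)
  have e1 : Relation.EqvGen Bord (incl (VV p m ε) (M2 p m ε) (dd p m) hc hs hV) (Sing.nil (VV p m ε) (dd p m)) :=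
    Relation.EqvGen.rel _ _ (null_M2 (by omega) ε h0 h1 hc hs hV)
  have e2 : Relation.EqvGen Bord (Q hX) (Sing.nil (VV p m ε) (dd p m)) :=
    claim (CC p) (goodCC p hp) m _ _ _ _ _ _ _ _ _ _ hctx (dd p m) (dim0 p m) hX
  have e3 : Relation.EqvGen Bord (Q hN) (Q hX) := Relation.EqvGen.rel _ _ (bord_XN ε h0 h1 ho hN hX)
  have e4 : Relation.EqvGen Bord (Q hN) (incl (VV p m ε) (N2 p m ε) (dd p m) hc' hs' hV') :=
    Relation.EqvGen.rel _ _ (desc_N2 ε h0 h1 hN hc' hs' hV')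
  exact Relation.EqvGen.trans _ _ _ e1 (Relation.EqvGen.trans _ _ _ (Relation.EqvGen.symm _ _ e2)
    (Relation.EqvGen.trans _ _ _ (Relation.EqvGen.symm _ _ e3) e4))

end Pool.Agent.Helper48.BPF
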