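import Pool.Agent.Helper48.BPF.SDer

/-!
PROJECT BP, block F, module BP-F14: vertical regularity of the context `K0`.

`x = (z, (σ, η, t)) ∈ K0` (`k0_iff`), `y = yv x`, `ρ = nsq η = 1 - σ² < 1/2 < σ²`. For `v = (0, (σ', η', t'))`: `dy x v = σ' q(z) + η'`, and by `fderiv_E0` the three components are `mv (Sm η') z`, `2 y·y'`,
`2 t·t' + dh y y' - 4 ε (y·y')` (`nsq y = 1`).
(1) `sm_onto`: for every `ζ : Fin m → ℂ` there is `η'` with `mv (Sm η') z = ζ`: `Sm η' = ζ zᵀ + z ζᵀ - (∑ ζ_i z̄_i) z zᵀ` (`Sm_ofS`, `nz z = 1`).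
(2) radial: `σ' = σ`, `η' = η`, `t' = 0`: `mv = 0`, `y' = y`, second component `2`, third component some number.
(3) there is `(σ', η', t')` with `mv (Sm η') z = 0`, `y·y' = 0` and third component `≠ 0`. If `t ≠ 0`: `σ' = 0`, `η' = 0`, `t' = t` (`2 t·t > 0`). If `t = 0`: `σ² ρ + h(η) = ε > 0`, so `ρ > 0` (`ρ = 0` gives `η = 0`, `h(η) = 0`). Take
`σ' = - ρ/σ`, `η' = η`: `y·y' = σσ' + ρ = 0` (`dot_qq`, `nsq_qq`). `dh y y'`: it is the derivative at `s = 0` of `h(yv (z, (σ + s σ', (1 + s) η, 0))) = (σ + s σ')² (1+s)² ρ + (1+s)⁴ h(η)` (`hh_yv`, `hh_smul`; compare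
`fderiv_E0` for this curve, or use `dh_add`, `dh_smul`, `dh_self` and the identity `dh y y' = (d/ds) hh (y + s y')`), i.e. `2σσ'ρ + 2σ²ρ + 4h(η) = 2ρ(σ² - ρ) + 4h(η) > 0`.
(4) combine: given `(ζ, a, b)`: first (1), then a multiple of (2) (does not change the first component), then a multiple of (3) (changes only the third).
`surj0`: for `(nz - 1, E0)`: the direction `(z, 0)` has first component `2`, then `vert0`.
-/

set_option autoImplicit false

namespace Pool.Agent.Helper48.BPF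

open Pool.Agent.Helper79.BP Pool.Agent.Helper93.BPF Pool.Agent.Helper72.BP Pool.Agent.Helper6.BP
open Matrix
open scoped ContDiff Topology

variable {p m : ℕ}

private theorem qf_line {ι : Type} [Fintype ι] (A : Matrix ι ι ℝ) (hA : ∀ i j, A i j = A j i) (y v : ι → ℝ)
    (c : ℝ) : qf A (y + c • v) = qf A y + c * (2 * bf A y v) + c ^ 2 * qf A v := by
  have h1 : ∑ i, ∑ j, A i j * v i * y j = ∑ i, ∑ j, A i j * y i * v j := by
    rw [Finset.sum_comm]
    refine Finset.sum_congr rfl fun i _ => Finset.sum_congr rfl fun j _ => ?_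
    rw [hA j i]
    ring
  have h2 : qf A (y + c • v) = (∑ i, ∑ j, A i j * y i * y j) + c * (∑ i, ∑ j, A i j * y i * v j) +
      c * (∑ i, ∑ j, A i j * v i * y j) + c ^ 2 * (∑ i, ∑ j, A i j * v i * v j) := by
    simp only [qf, Algebra.algebraMap_self, RingHom.id_apply, Finset.mul_sum, ← Finset.sum_add_distrib]
    refine Finset.sum_congr rfl fun i _ => Finset.sum_congr rfl fun j _ => ?_
    simp only [Pi.add_apply, Pi.smul_apply, smul_eq_mul]
    ring
  rw [h2, h1]
  simp only [qf, bf, Algebra.algebraMap_self, RingHom.id_apply]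
  ring

private theorem hh_line (y v : Ix p (Kx m) → ℝ) :
    12 * dh y v = 8 * (hh (y + (1 : ℝ) • v) - hh (y + (-1 : ℝ) • v)) -
      (hh (y + (2 : ℝ) • v) - hh (y + (-2 : ℝ) • v)) := by
  simp only [hh, dh, dG, Finset.mul_sum, ← Finset.sum_sub_distrib]
  refine Finset.sum_congr rfl fun l _ => ?_
  simp only [qf_line (GG p m l) (GG_symm l)]
  ring

private theorem nsq_smul' {ι : Type} [Fintype ι] (c : ℝ) (y : ι → ℝ) : nsq (c • y) = c ^ 2 * nsq y := by
  simp only [nsq, Finset.mul_sum, Pi.smul_apply, smul_eq_mul, mul_pow]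

private theorem nsq_dot {ι : Type} [Fintype ι] (y : ι → ℝ) : dotProduct y y = nsq y := by
  simp only [nsq, dotProduct]
  exact Finset.sum_congr rfl fun i _ => (pow_two _).symm

private theorem nsq_nn {ι : Type} [Fintype ι] (y : ι → ℝ) : 0 ≤ nsq y :=
  Finset.sum_nonneg fun i _ => sq_nonneg _

private theorem nsq_zero_iff {ι : Type} [Fintype ι] (y : ι → ℝ) (h : nsq y = 0) : y = 0 := by
  funext i
  have h1 := (Finset.sum_eq_zero_iff_of_nonneg (fun i _ => sq_nonneg (y i))).1 h i (Finset.mem_univ i)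
  simpa using h1

private theorem mv_smul (c : ℝ) (S : Matrix (Fin m) (Fin m) ℂ) (z : Fin m → ℂ) (h : mv S z = 0) :
    mv ((c : ℂ) • S) z = 0 := by
  funext i
  have h1 := congrFun h i
  simp only [mv, Pi.zero_apply] at h1 ⊢
  have h2 : ∑ j, ((c : ℂ) • S) i j * (starRingEnd ℂ) (z j) = (c : ℂ) * ∑ j, S i j * (starRingEnd ℂ) (z j) := by
    rw [Finset.mul_sum]
    refine Finset.sum_congr rfl fun j _ => ?_
    rw [Matrix.smul_apply, smul_eq_mul]
    ring
  rw [h2, h1, mul_zero]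

private theorem ofS_zero : ofS (0 : Matrix (Fin m) (Fin m) ℂ) = 0 := by
  have h := ofS_smul (m := m) 0 0
  simpa using h

private theorem dy_vert (x : (Fin m → ℂ) × A0 p m) (b : A0 p m) :
    dy x (0, b) = b.1 • qq p m x.1 + b.2.1 := by
  have h1 : (vecMulVec (0 : Fin m → ℂ) x.1 + vecMulVec x.1 (0 : Fin m → ℂ)) = 0 := by
    ext i j
    simp
  have h2 : (Sum.elim (fun _ => 0) (0 : Kx m → ℝ) : Ix p (Kx m) → ℝ) = 0 := by
    funext i
    rcases i with i | i <;> rfl
  unfold dy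
  simp only [h1, ofS_zero, h2, smul_zero, add_zero]

private theorem mv_zero' (S : Matrix (Fin m) (Fin m) ℂ) : mv S 0 = 0 := by
  funext i
  simp [mv]

private theorem D_vert (ε : ℝ) (x : (Fin m → ℂ) × A0 p m) (b : A0 p m) :
    fderiv ℝ (E0 p m ε) x (0, b) =
      (mv (Sm b.2.1) x.1, 2 * dotProduct (yv x) (b.1 • qq p m x.1 + b.2.1),
        2 * dotProduct x.2.2.2 b.2.2 + dh (yv x) (b.1 • qq p m x.1 + b.2.1) -
          4 * ε * nsq (yv x) * dotProduct (yv x) (b.1 • qq p m x.1 + b.2.1)) := by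
  rw [fderiv_E0, dy_vert]
  simp only [mv_zero', add_zero]

private theorem sm_onto (z : Fin m → ℂ) (hz : nz z = 1) (ζ : Fin m → ℂ) :
    ∃ η : Ix p (Kx m) → ℝ, mv (Sm η) z = ζ := by
  have hz1 : ∑ j, z j * (starRingEnd ℂ) (z j) = 1 := by
    have h1 : ∑ j, z j * (starRingEnd ℂ) (z j) = ((nz z : ℝ) : ℂ) := by
      unfold nz
      push_cast
      exact Finset.sum_congr rfl fun j _ => Complex.mul_conj _
    rw [h1, hz]
    simp
  set c : ℂ := ∑ j, ζ j * (starRingEnd ℂ) (z j) with hc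
  set Z : Matrix (Fin m) (Fin m) ℂ := fun i j => ζ i * z j + z i * ζ j - c * (z i * z j) with hZ
  have hZt : Zᵀ = Z := by
    ext i j
    change Z j i = Z i j
    simp only [hZ]
    ring
  refine ⟨Sum.elim (fun _ => 0) (ofS Z), ?_⟩
  rw [Sm_ofS _ _ hZt]
  funext i
  have h2 : ∀ j, Z i j * (starRingEnd ℂ) (z j) = ζ i * (z j * (starRingEnd ℂ) (z j)) +
      z i * (ζ j * (starRingEnd ℂ) (z j)) - c * z i * (z j * (starRingEnd ℂ) (z j)) := by
    intro j
    simp only [hZ]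
    ring
  simp only [mv, h2, Finset.sum_sub_distrib, Finset.sum_add_distrib, ← Finset.mul_sum, hz1, ← hc]
  ring

private theorem third (ε : ℝ) (h0 : 0 < ε) (x : (Fin m → ℂ) × A0 p m) (hx : x ∈ K0 p m ε) :
    ∃ (b : A0 p m) (c : ℝ), c ≠ 0 ∧ fderiv ℝ (E0 p m ε) x (0, b) = (0, 0, c) := by
  obtain ⟨z, σ, η, t⟩ := x
  obtain ⟨hz, hσ, hσ2, hk, hs, he⟩ := (k0_iff ε _).1 hx
  simp only at hz hσ hσ2 hk hs he
  by_cases ht : t = 0
  · subst ht
    have hρ : 0 < nsq η := by
      rcases (nsq_nn η).lt_or_eq with h | h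
      · exact h
      · exfalso
        have h1 : η = 0 := nsq_zero_iff η h.symm
        have h2 : hh η = 0 := by
          have h3 := hh_smul (0 : ℝ) η
          rw [zero_smul] at h3
          rw [h1, h3]
          ring
        have h4 : nsq (0 : Tx p (rr p m) (Kx m) → ℝ) = 0 := by simp [nsq]
        rw [h2, ← h, h4] at he
        linarith
    have hh0 : 0 ≤ hh η := hh_nonneg η
    set x : (Fin m → ℂ) × A0 p m := (z, (σ, η, (0 : Tx p (rr p m) (Kx m) → ℝ))) with hxdef
    have hσ0 : σ ≠ 0 := hσ.ne'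
    -- the value of `h` along the line
    have hline : ∀ c : ℝ, hh (yv x + c • η) = σ ^ 2 * ((1 + c) ^ 2 * nsq η) + (1 + c) ^ 4 * hh η := by
      intro c
      have h1 : yv x + c • η = yv ((z, (σ, (1 + c) • η, (0 : Tx p (rr p m) (Kx m) → ℝ))) :
          (Fin m → ℂ) × A0 p m) := by
        simp only [yv, hxdef, add_smul, one_smul, add_assoc]
      rw [h1, hh_yv _ hz (by
        simp only [Sm_smul]
        exact mv_smul _ _ _ hk)]
      simp only [nsq_smul', hh_smul]
    have hdh : dh (yv x) η = 2 * σ ^ 2 * nsq η + 4 * hh η := by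
      have h1 := hh_line (yv x) η
      rw [hline, hline, hline, hline] at h1
      linarith
    have hhy : hh (yv x) = σ ^ 2 * nsq η + hh η := hh_yv x hz hk
    have hdir : (-(nsq η) / σ) • qq p m z + η = (1 / σ ^ 2) • η + (-(nsq η) / σ ^ 2) • yv x := by
      have h1 : (1 : ℝ) / σ ^ 2 = 1 + nsq η / σ ^ 2 := by
        field_simp
        linarith
      have h2 : (-(nsq η) / σ ^ 2) • yv x = (-(nsq η) / σ) • qq p m z - (nsq η / σ ^ 2) • η := by
        simp only [yv, hxdef, smul_add, smul_smul]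
        have h3 : -(nsq η) / σ ^ 2 * σ = -(nsq η) / σ := by
          field_simp
        rw [h3, neg_div, neg_div, neg_smul (nsq η / σ ^ 2), sub_eq_add_neg]
      rw [h2, h1, add_smul, one_smul]
      abel
    have hdot : dotProduct (yv x) ((-(nsq η) / σ) • qq p m z + η) = 0 := by
      have h1 : dotProduct (qq p m z) η = 0 := dot_qq z η hk
      have h2 : dotProduct (qq p m z) (qq p m z) = 1 := by
        rw [nsq_dot, nsq_qq, hz]
        norm_num
      have h3 : dotProduct η (qq p m z) = 0 := by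
        rw [dotProduct_comm]
        exact h1
      simp only [yv, hxdef, add_dotProduct, dotProduct_add, smul_dotProduct, dotProduct_smul, h1, h2, h3,
        nsq_dot, smul_eq_mul]
      field_simp
      ring
    have hdhv : dh (yv x) ((-(nsq η) / σ) • qq p m z + η) = 2 * nsq η * (σ ^ 2 - nsq η) + 4 * hh η := by
      rw [hdir, dh_add, dh_smul, dh_smul, dh_self, hdh, hhy]
      have h1 : nsq η = 1 - σ ^ 2 := by linarith
      rw [h1]
      field_simp
      ring
    refine ⟨(-(nsq η) / σ, η, 0), 2 * nsq η * (σ ^ 2 - nsq η) + 4 * hh η, ?_, ?_⟩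
    · have h1 : nsq η < σ ^ 2 := by linarith
      have h2 : 0 < 2 * nsq η * (σ ^ 2 - nsq η) := by
        have : 0 < σ ^ 2 - nsq η := by linarith
        positivity
      linarith
    · rw [D_vert]
      have hxz : x.1 = z := rfl
      simp only [hxz, hdot, hdhv, hk, mul_zero, dotProduct_zero, sub_zero, zero_add]
  · refine ⟨(0, 0, t), 2 * nsq t, ?_, ?_⟩
    · intro h
      exact ht (nsq_zero_iff t (by linarith))
    · rw [D_vert]
      have h1 : Sm (0 : Ix p (Kx m) → ℝ) = 0 := by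
        have h := Sm_smul (p := p) (m := m) 0 0
        simpa using h
      have h2 : mv (0 : Matrix (Fin m) (Fin m) ℂ) z = 0 := by
        funext i
        simp [mv]
      have h3 : ∀ y : Ix p (Kx m) → ℝ, dh y 0 = 0 := by
        intro y
        have h := dh_smul y 0 0
        simpa using h
      simp only [h1, h2, h3, zero_smul, add_zero, dotProduct_zero, mul_zero, sub_zero, nsq_dot]

theorem vert0 (ε : ℝ) (h0 : 0 < ε) (x : (Fin m → ℂ) × A0 p m) (hx : x ∈ K0 p m ε) (w : B0 m) :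
    ∃ b : A0 p m, fderiv ℝ (E0 p m ε) x (0, b) = w := by
  obtain ⟨b3, c3, hc3, hb3⟩ := third ε h0 x hx
  obtain ⟨hz, hσ, hσ2, hk, hs, he⟩ := (k0_iff ε x).1 hx
  obtain ⟨η1, hη1⟩ := sm_onto (p := p) x.1 hz w.1
  set L := fderiv ℝ (E0 p m ε) x with hL
  -- the radial direction
  have hrad : ∃ c2 : ℝ, L (0, (x.2.1, x.2.2.1, 0)) = (0, 2, c2) := by
    refine ⟨(L (0, (x.2.1, x.2.2.1, 0))).2.2, ?_⟩
    refine Prod.ext ?_ (Prod.ext ?_ rfl)
    · rw [hL, D_vert]
      exact hk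
    · rw [hL, D_vert]
      have h1 : x.2.1 • qq p m x.1 + x.2.2.1 = yv x := rfl
      simp only [h1, nsq_dot, nsq_yv x hz hk, hs, mul_one]
  obtain ⟨c2, hc2⟩ := hrad
  have hfst : (L (0, ((0 : ℝ), η1, (0 : Tx p (rr p m) (Kx m) → ℝ)))).1 = w.1 := by
    rw [hL, D_vert]
    exact hη1
  set b1 : A0 p m := ((0 : ℝ), η1, (0 : Tx p (rr p m) (Kx m) → ℝ)) with hb1
  set b2 : A0 p m := (x.2.1, x.2.2.1, 0) with hb2
  set α : ℝ := (w.2.1 - (L (0, b1)).2.1) / 2 with hα
  set β : ℝ := (w.2.2 - (L (0, b1)).2.2 - α * c2) / c3 with hβ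
  refine ⟨b1 + α • b2 + β • b3, ?_⟩
  have h1 : ((0 : Fin m → ℂ), b1 + α • b2 + β • b3) =
      ((0 : Fin m → ℂ), b1) + α • ((0 : Fin m → ℂ), b2) + β • ((0 : Fin m → ℂ), b3) := by
    simp
  rw [h1, map_add, map_add, map_smul, map_smul, hc2, hb3]
  refine Prod.ext ?_ (Prod.ext ?_ ?_)
  · simp [hfst]
  · simp only [Prod.snd_add, Prod.fst_add, Prod.smul_snd, Prod.smul_fst, smul_eq_mul, mul_zero, add_zero]
    rw [hα]
    ring
  · simp only [Prod.snd_add, Prod.smul_snd, smul_eq_mul]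
    rw [hβ]
    field_simp
    ring

theorem surj0 (ε : ℝ) (h0 : 0 < ε) (x : (Fin m → ℂ) × A0 p m) (hx : x ∈ K0 p m ε) :
    Function.Surjective (fderiv ℝ (fun x : (Fin m → ℂ) × A0 p m => (nz x.1 - 1, E0 p m ε x)) x) := by
  rintro ⟨r, w⟩
  have hz : nz x.1 = 1 := ((k0_iff ε x).1 hx).1
  obtain ⟨b, hb⟩ := vert0 ε h0 x hx (w - fderiv ℝ (E0 p m ε) x ((r / 2 : ℝ) • x.1, 0))
  refine ⟨((r / 2 : ℝ) • x.1, b), ?_⟩
  rw [fderiv_nzE]
  refine Prod.ext ?_ ?_
  · have h1 : ∑ i, ((x.1 i).re * (((r / 2 : ℝ) • x.1) i).re + (x.1 i).im * (((r / 2 : ℝ) • x.1) i).im) =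
        r / 2 * nz x.1 := by
      unfold nz
      rw [Finset.mul_sum]
      refine Finset.sum_congr rfl fun i _ => ?_
      rw [Complex.normSq_apply]
      simp only [Pi.smul_apply, Complex.real_smul, Complex.mul_re, Complex.mul_im, Complex.ofReal_re,
        Complex.ofReal_im]
      ring
    simp only [h1, hz]
    ring
  · have h2 : (((r / 2 : ℝ) • x.1, b) : (Fin m → ℂ) × A0 p m) = ((r / 2 : ℝ) • x.1, 0) + (0, b) := by
      simp
    change fderiv ℝ (E0 p m ε) x (((r / 2 : ℝ) • x.1, b) : (Fin m → ℂ) × A0 p m) = w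
    rw [h2, map_add, hb]
    abel

end Pool.Agent.Helper48.BPF
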