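import Pool.Agent.Helper48.BPF.SSmall
import Pool.Agent.Helper48.BPF.SVert
import Pool.Agent.Helper6.BP.Inv

/-!
PROJECT BP, block F, module BP-F19: regularity of `L0 κ` on `K0` for small `ε`.

PROOF. `ε0` from `small3`. For `x = (z, (σ, η, t)) ∈ K0` (`k0_iff`; `h(yv x) ≤ ε < ε0` because `nsq t ≥ 0`) and `L0 κ x = 0` take the matrix `A` of `small3` and `v = (A z, (0, rotv 0 A η, 0))`, `(A z)_i = ∑_j A_ij z_j`.
`dy x v = σ (0, ofS(A z zᵀ + z zᵀ Aᵀ)) + rotv 0 A η = rotv 0 A (yv x)` (`rotv` is linear in `y`, `sm_qq`; `vecMulVec (A z) z = A vecMulVec z z`, `vecMulVec z (A z) = vecMulVec z z * Aᵀ`).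
`fderiv_nzE`: `2 Re <z, A z> = 0` (`A` skew-hermitian). `fderiv_E0`: second and third component vanish by `dot_rotv`, `dh_rotv` (block V, Inv.lean); the first: `mv (A S' + S' Aᵀ) z + mv S' (A z) = A (S' z̄) + S' (Aᵀ z̄ + conj(A z))` and
`Aᵀ z̄ + conj(A) z̄ = conj((Aᴴ + A) z) = 0`. `fderiv_L0`: `(1 - κ) λ_j·rotv 0 A y + κ f_j(A z zᵀ + z zᵀ Aᵀ)`, `λ_j·rotv 0 A y = 0 + f_j(A S + S Aᵀ)` (`dot_lam`, `Sm_rotv`).
-/

set_option autoImplicit false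

namespace Pool.Agent.Helper48.BPF

open Pool.Agent.Helper79.BP Pool.Agent.Helper93.BPF Pool.Agent.Helper72.BP Pool.Agent.Helper6.BP
open Matrix
open scoped ContDiff Topology

/-- The regularity used below. -/
def Onto0 (p m : ℕ) (ε : ℝ) : Prop := ∀ κ : ℝ, -1 ≤ κ → κ ≤ 2 → ∀ x ∈ K0 p m ε, L0 p m κ x = 0 →
  ∀ u : Fin p → ℝ, ∃ v, fderiv ℝ (fun x : (Fin m → ℂ) × A0 p m => (nz x.1 - 1, E0 p m ε x)) x v = 0 ∧
    fderiv ℝ (L0 p m κ) x v = u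

private theorem so_mv {m : ℕ} (S : Matrix (Fin m) (Fin m) ℂ) (z : Fin m → ℂ) : mv S z = S *ᵥ star z := rfl

private theorem so_star {m : ℕ} (A : Matrix (Fin m) (Fin m) ℂ) (hA : Aᴴ = -A) (z : Fin m → ℂ) :
    star (A *ᵥ z) = -(Aᵀ *ᵥ star z) := by
  rw [star_mulVec, hA, vecMul_neg, ← mulVec_transpose]

private theorem so_mvz {m : ℕ} (A S : Matrix (Fin m) (Fin m) ℂ) (hA : Aᴴ = -A) (z : Fin m → ℂ) (hS : mv S z = 0) :
    mv (A * S + S * Aᵀ) z + mv S (A *ᵥ z) = 0 := by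
  rw [so_mv] at hS
  rw [so_mv, so_mv, so_star A hA, add_mulVec, ← mulVec_mulVec, ← mulVec_mulVec, hS, mulVec_zero, zero_add,
    mulVec_neg, add_neg_cancel]

private theorem so_re {m : ℕ} (A : Matrix (Fin m) (Fin m) ℂ) (hA : Aᴴ = -A) (z : Fin m → ℂ) :
    ∑ i, ((z i).re * ((A *ᵥ z) i).re + (z i).im * ((A *ᵥ z) i).im) = 0 := by
  have h1 : star (star z ⬝ᵥ (A *ᵥ z)) = -(star z ⬝ᵥ (A *ᵥ z)) := by
    calc star (star z ⬝ᵥ (A *ᵥ z)) = star (A *ᵥ z) ⬝ᵥ z := (star_dotProduct (A *ᵥ z) z).symm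
      _ = -(star z ⬝ᵥ (A *ᵥ z)) := by
        rw [star_mulVec, hA, vecMul_neg, neg_dotProduct, ← dotProduct_mulVec]
  have h2 : (star z ⬝ᵥ (A *ᵥ z)).re = ∑ i, ((z i).re * ((A *ᵥ z) i).re + (z i).im * ((A *ᵥ z) i).im) := by
    rw [dotProduct, Complex.re_sum]
    refine Finset.sum_congr rfl fun i _ => ?_
    rw [Pi.star_apply, Complex.star_def, Complex.mul_re, Complex.conj_re, Complex.conj_im]
    ring
  have h3 := congrArg Complex.re h1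
  rw [Complex.star_def, Complex.conj_re, Complex.neg_re] at h3
  linarith

private theorem so_vec {m : ℕ} (A : Matrix (Fin m) (Fin m) ℂ) (z : Fin m → ℂ) :
    vecMulVec (A *ᵥ z) z + vecMulVec z (A *ᵥ z) = A * vecMulVec z z + vecMulVec z z * Aᵀ := by
  rw [mul_vecMulVec, vecMulVec_mul, vecMul_transpose]

private theorem so_dy {p m : ℕ} (A : Matrix (Fin m) (Fin m) ℂ) (x : (Fin m → ℂ) × A0 p m) :
    dy x (A *ᵥ x.1, (0, rotv 0 A x.2.2.1, 0)) = rotv 0 A (yv x) := by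
  have h1 : A * Sm (yv x) + Sm (yv x) * Aᵀ = (x.2.1 : ℂ) • (A * vecMulVec x.1 x.1 + vecMulVec x.1 x.1 * Aᵀ) +
      (A * Sm x.2.2.1 + Sm x.2.2.1 * Aᵀ) := by
    rw [sm_yv, Matrix.mul_add, Matrix.add_mul, Matrix.mul_smul, Matrix.smul_mul, smul_add]
    abel
  have h2 : ofS (A * Sm (yv x) + Sm (yv x) * Aᵀ) =
      x.2.1 • ofS (vecMulVec (A *ᵥ x.1) x.1 + vecMulVec x.1 (A *ᵥ x.1)) +
        ofS (A * Sm x.2.2.1 + Sm x.2.2.1 * Aᵀ) := by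
    rw [h1, ofS_add, ofS_smul, so_vec]
  unfold dy rotv
  rw [h2]
  funext i
  rcases i with i | i
  · simp
  · simp

theorem onto0 (p m : ℕ) : ∃ ε0 > 0, ∀ ε, 0 < ε → ε < ε0 → Onto0 p m ε := by
  obtain ⟨ε0, hε0, hsm⟩ := small3 p m
  refine ⟨ε0, hε0, fun ε hε hεε κ hκ1 hκ2 x hx hL u => ?_⟩
  obtain ⟨hz, hσ, hσ2, hk, hs, hF⟩ := (k0_iff ε x).1 hx
  have hh1 : hh (yv x) < ε0 := by
    rw [hh_yv x hz hk]
    have h0 : 0 ≤ nsq x.2.2.2 := Finset.sum_nonneg fun i _ => sq_nonneg _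
    linarith
  obtain ⟨A, hA, hAu⟩ := hsm x κ hκ1 hκ2 hz hσ.le hσ2.le hk hs hh1 hL u
  have hB : (0 : Matrix (Fin (p + 1)) (Fin (p + 1)) ℝ)ᵀ = -0 := by
    rw [transpose_zero, neg_zero]
  have hdy := so_dy A x
  refine ⟨(A *ᵥ x.1, (0, rotv 0 A x.2.2.1, 0)), ?_, ?_⟩
  · rw [fderiv_nzE, fderiv_E0, hdy, dot_rotv 0 hB A hA, dh_rotv 0 hB A hA]
    simp only
    rw [so_re A hA, Sm_rotv, so_mvz A _ hA x.1 hk]
    simp
  · funext j
    rw [fderiv_L0, hdy, dot_lam, Sm_rotv]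
    simp only
    rw [so_vec]
    have h0 : rotv (0 : Matrix (Fin (p + 1)) (Fin (p + 1)) ℝ) A (yv x) (Sum.inl j.succ) = 0 := by
      simp [rotv]
    rw [h0, zero_add]
    exact hAu j

end Pool.Agent.Helper48.BPF
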