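import Pool.Agent.Helper48.BPF.SAlg
import Pool.Agent.Helper6.BP.SpanB
import Pool.Agent.Helper6.BP.Coord

/-!
PROJECT BP, block F, module BP-F18: the unitary directions are onto along the homotopy from `l(y)` to `f(z)`, for small `ε`, by compactness.

PROOF of `small3` (compare `Pool/Agent/Helper6/BP/SmallB.lean`). Otherwise for every `n` there are `(x_n, κ_n)` satisfying the hypotheses with `h(yv x_n) < 1/(n+1)` (only `z, σ, η` matter; put `t = 0`) for which the conclusion fails.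
`(z_n, σ_n, η_n, κ_n)` lies in a compact set; a subsequence converges to `(z, σ, η, κ)` with `nz z = 1`, `0 ≤ σ`, `1/2 ≤ σ²`, `mv (Sm η) z = 0`, `σ² + nsq η = 1`, `L0 κ = 0`, and `h(y) = 0 = σ² nsq η + h(η)` (`hh_yv`, continuity of `hh`), so
`η = 0` (`hh_nonneg`), `σ = 1`, `y = q(z)`, `Sm y = z zᵀ`. `L0 κ x = 0` reads `(1 - κ) f_j(z zᵀ) + κ f_j(z zᵀ) = 0` (`dot_lam`, `fn_CC`), so `f_j(z zᵀ) = 0` for all `j`. `onto_rank_one` (block V, SpanB.lean): skew-hermitian `A_k`, `k : Fin p`, with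
`f_j(A_k z zᵀ + z zᵀ A_kᵀ) = δ_jk`. The determinant of `D_jk = (1 - κ) f_j(A_k S + S A_kᵀ) + κ f_j(A_k z zᵀ + z zᵀ A_kᵀ)` is a continuous function of `(z, σ, η, κ)` (for fixed `A_k`), equal to `1` at the limit, so it is `≠ 0` at `x_n` for
some `n`; then every `u` is reached by a real combination `A = ∑ c_k A_k` (skew-hermitian; `ff_add`, `ff_smul`): contradiction.
-/

set_option autoImplicit false

namespace Pool.Agent.Helper48.BPF

open Pool.Agent.Helper79.BP Pool.Agent.Helper93.BPF Pool.Agent.Helper72.BP Pool.Agent.Helper6.BP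
open Matrix
open scoped ContDiff Topology

/-- The unitary directions at the matrix `M` are onto. -/
private def GoodM (p m : ℕ) (M : Matrix (Fin m) (Fin m) ℂ) : Prop :=
  ∀ u : Fin p → ℝ, ∃ A : Matrix (Fin m) (Fin m) ℂ, Aᴴ = -A ∧ ∀ j, ff j (A * M + M * Aᵀ) = u j

/-- The matrix of the images of given directions. -/
private noncomputable def dmM {p m : ℕ} (A : Fin p → Matrix (Fin m) (Fin m) ℂ) (M : Matrix (Fin m) (Fin m) ℂ) :
    Matrix (Fin p) (Fin p) ℝ := fun j k => ff j (A k * M + M * (A k)ᵀ)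

private theorem dmM_cont {p m : ℕ} (A : Fin p → Matrix (Fin m) (Fin m) ℂ) : Continuous (fun M => dmM A M) := by
  refine continuous_matrix fun j k => ?_
  unfold dmM
  refine (continuous_ff j).comp ?_
  exact (continuous_const.mul continuous_id).add (continuous_id.mul continuous_const)

private theorem ff_sumM {p m : ℕ} (j : Fin p) (x : Fin p → ℝ) (B : Fin p → Matrix (Fin m) (Fin m) ℂ)
    (s : Finset (Fin p)) : ff j (∑ k ∈ s, (x k : ℂ) • B k) = ∑ k ∈ s, x k * ff j (B k) := by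
  induction s using Finset.induction_on with
  | empty =>
    rw [Finset.sum_empty, Finset.sum_empty]
    unfold ff
    simp
  | insert a s ha ih =>
    rw [Finset.sum_insert ha, Finset.sum_insert ha, ff_add, ff_smul, ih]

private theorem goodM_of_det {p m : ℕ} (A : Fin p → Matrix (Fin m) (Fin m) ℂ) (hA : ∀ k, (A k)ᴴ = -A k)
    (M : Matrix (Fin m) (Fin m) ℂ) (h : (dmM A M).det ≠ 0) : GoodM p m M := by
  intro u
  set x : Fin p → ℝ := (dmM A M)⁻¹.mulVec u with hx
  have hx1 : (dmM A M).mulVec x = u := by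
    rw [hx, Matrix.mulVec_mulVec, Matrix.mul_nonsing_inv _ (isUnit_iff_ne_zero.mpr h), Matrix.one_mulVec]
  refine ⟨∑ k, (x k : ℂ) • A k, ?_, ?_⟩
  · rw [Matrix.conjTranspose_sum, ← Finset.sum_neg_distrib]
    refine Finset.sum_congr rfl fun k _ => ?_
    rw [Matrix.conjTranspose_smul, hA k, Complex.star_def, Complex.conj_ofReal, smul_neg]
  · intro j
    have h1 : (∑ k, (x k : ℂ) • A k) * M + M * (∑ k, (x k : ℂ) • A k)ᵀ =
        ∑ k, (x k : ℂ) • (A k * M + M * (A k)ᵀ) := by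
      rw [Matrix.transpose_sum, Finset.sum_mul, Finset.mul_sum, ← Finset.sum_add_distrib]
      refine Finset.sum_congr rfl fun k _ => ?_
      rw [Matrix.transpose_smul, Matrix.smul_mul, Matrix.mul_smul, smul_add]
    rw [h1, ff_sumM]
    have h2 := congrFun hx1 j
    rw [← h2]
    unfold Matrix.mulVec dotProduct
    refine Finset.sum_congr rfl fun k _ => ?_
    exact mul_comm _ _

private theorem isOpen_goodM (p m : ℕ) : IsOpen {M : Matrix (Fin m) (Fin m) ℂ | GoodM p m M} := by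
  rw [isOpen_iff_mem_nhds]
  intro M hM
  have hM' : GoodM p m M := hM
  choose A hA hA1 using fun k : Fin p => hM' (Pi.single k 1)
  have h1 : dmM A M = 1 := by
    ext j k
    change ff j (A k * M + M * (A k)ᵀ) = _
    rw [hA1 k j, Matrix.one_apply, Pi.single_apply]
  have h2 : (dmM A M).det ≠ 0 := by
    rw [h1, Matrix.det_one]
    exact one_ne_zero
  have h3 : Continuous (fun M => (dmM A M).det) := (dmM_cont A).matrix_det
  filter_upwards [h3.continuousAt.eventually_ne h2] with M' hM'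
  exact goodM_of_det A hA M' hM'

/-- The space of the parameters `(z, σ, η, κ)`. -/
private abbrev Wsp (p m : ℕ) : Type := ((Fin m → ℂ) × ℝ × (Ix p (Kx m) → ℝ)) × ℝ

/-- The point with `t = 0`. -/
private def toX {p m : ℕ} (w : Wsp p m) : (Fin m → ℂ) × A0 p m := (w.1.1, (w.1.2.1, w.1.2.2, 0))

private theorem toX_cont (p m : ℕ) : Continuous (fun w : Wsp p m => toX w) := by
  unfold toX
  fun_prop

/-- The matrix `(1 - κ) S + κ z zᵀ`. -/
private noncomputable def mM {p m : ℕ} (x : (Fin m → ℂ) × A0 p m) (κ : ℝ) : Matrix (Fin m) (Fin m) ℂ :=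
  ((1 - κ : ℝ) : ℂ) • Sm (yv x) + (κ : ℂ) • vecMulVec x.1 x.1

private theorem mM_cont (p m : ℕ) : Continuous (fun w : Wsp p m => mM (toX w) w.2) := by
  unfold mM
  have h1 : Continuous (fun w : Wsp p m => Sm (yv (toX w))) :=
    continuous_Sm.comp ((contDiff_yv (p := p) (m := m)).continuous.comp (toX_cont p m))
  have h2 : Continuous (fun w : Wsp p m => vecMulVec (toX w).1 (toX w).1) := by
    refine continuous_matrix fun i j => ?_
    simp only [vecMulVec_apply, toX]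
    fun_prop
  have h3 : Continuous (fun w : Wsp p m => ((1 - w.2 : ℝ) : ℂ)) := by fun_prop
  have h4 : Continuous (fun w : Wsp p m => (w.2 : ℂ)) := by fun_prop
  exact (h3.smul h1).add (h4.smul h2)

private theorem goodM_iff {p m : ℕ} (x : (Fin m → ℂ) × A0 p m) (κ : ℝ) (h : GoodM p m (mM x κ)) :
    ∀ u : Fin p → ℝ, ∃ A : Matrix (Fin m) (Fin m) ℂ, Aᴴ = -A ∧
      ∀ j, (1 - κ) * ff j (A * Sm (yv x) + Sm (yv x) * Aᵀ) +
        κ * ff j (A * vecMulVec x.1 x.1 + vecMulVec x.1 x.1 * Aᵀ) = u j := by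
  intro u
  obtain ⟨A, hA, hA1⟩ := h u
  refine ⟨A, hA, fun j => ?_⟩
  rw [← hA1 j, ← ff_smul, ← ff_smul, ← ff_add]
  congr 1
  unfold mM
  rw [mul_add, add_mul, Matrix.mul_smul, Matrix.mul_smul, Matrix.smul_mul, Matrix.smul_mul, smul_add, smul_add]
  abel

private theorem nsq_nonneg' {p m : ℕ} (y : Ix p (Kx m) → ℝ) : 0 ≤ nsq y := by
  unfold nsq
  exact Finset.sum_nonneg fun i _ => sq_nonneg _

private theorem eq_zero_of_nsq {p m : ℕ} (y : Ix p (Kx m) → ℝ) (h : nsq y = 0) : y = 0 := by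
  funext i
  unfold nsq at h
  have h1 := (Finset.sum_eq_zero_iff_of_nonneg (fun i _ => sq_nonneg (y i))).mp h i (Finset.mem_univ i)
  exact pow_eq_zero_iff (two_ne_zero) |>.mp h1

private theorem goodM_zero {p m : ℕ} (x : (Fin m → ℂ) × A0 p m) (κ : ℝ) (hz : nz x.1 = 1) (hs : 0 ≤ x.2.1)
    (hs2 : 1 / 2 ≤ x.2.1 ^ 2) (hk : mv (Sm x.2.2.1) x.1 = 0) (hn : x.2.1 ^ 2 + nsq x.2.2.1 = 1)
    (hl : L0 p m κ x = 0) (h0 : hh (yv x) = 0) : GoodM p m (mM x κ) := by
  have h1 := hh_yv x hz hk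
  rw [h0] at h1
  have h2 := nsq_nonneg' x.2.2.1
  have h3 := hh_nonneg x.2.2.1
  have h4 : 1 / 2 * nsq x.2.2.1 ≤ x.2.1 ^ 2 * nsq x.2.2.1 := mul_le_mul_of_nonneg_right hs2 h2
  have h5 : nsq x.2.2.1 = 0 := by linarith
  have h6 : x.2.2.1 = 0 := eq_zero_of_nsq _ h5
  have h7 : x.2.1 = 1 := by
    rw [h5, add_zero] at hn
    nlinarith
  have h8 : yv x = qq p m x.1 := by
    unfold yv
    rw [h6, h7, one_smul, add_zero]
  have h9 : Sm (yv x) = vecMulVec x.1 x.1 := by rw [h8, sm_qq]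
  have h10 : ∀ j : Fin p, ff j (vecMulVec x.1 x.1) = 0 := by
    intro j
    have h11 := congrFun hl j
    unfold L0 at h11
    rw [fn_CC, dot_lam, h9, h8] at h11
    have h12 : qq p m x.1 (Sum.inl j.succ) = 0 := rfl
    rw [h12, zero_add, Pi.zero_apply] at h11
    linarith
  have h13 : mM x κ = vecMulVec x.1 x.1 := by
    unfold mM
    rw [h9, ← add_smul]
    have : ((1 - κ : ℝ) : ℂ) + (κ : ℂ) = 1 := by
      push_cast
      ring
    rw [this, one_smul]
  intro u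
  rw [h13]
  refine onto_rank_one x.1 ?_ h10 u
  rw [← hz]
  unfold nz
  exact Finset.sum_congr rfl fun i _ => (Complex.normSq_eq_norm_sq _).symm

/-- The compact set of the parameters. -/
private def Kw (p m : ℕ) : Set (Wsp p m) := {w | -1 ≤ w.2 ∧ w.2 ≤ 2 ∧ nz (toX w).1 = 1 ∧ 0 ≤ (toX w).2.1 ∧
  1 / 2 ≤ (toX w).2.1 ^ 2 ∧ mv (Sm (toX w).2.2.1) (toX w).1 = 0 ∧ (toX w).2.1 ^ 2 + nsq (toX w).2.2.1 = 1 ∧
  L0 p m w.2 (toX w) = 0}

private theorem isClosed_Kw (p m : ℕ) : IsClosed (Kw p m) := by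
  have c1 : Continuous (fun w : Wsp p m => w.2) := continuous_snd
  have c2 : Continuous (fun w : Wsp p m => (toX w).1) := continuous_fst.comp (toX_cont p m)
  have c3 : Continuous (fun w : Wsp p m => (toX w).2.1) := (continuous_fst.comp continuous_snd).comp (toX_cont p m)
  have c4 : Continuous (fun w : Wsp p m => (toX w).2.2.1) :=
    (continuous_fst.comp (continuous_snd.comp continuous_snd)).comp (toX_cont p m)
  have c5 : Continuous (fun w : Wsp p m => nz (toX w).1) := by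
    unfold nz
    refine continuous_finsetSum _ fun i _ => ?_
    exact Complex.continuous_normSq.comp ((continuous_apply i).comp c2)
  have c6 : Continuous (fun w : Wsp p m => Sm (toX w).2.2.1) := continuous_Sm.comp c4
  have c7 : Continuous (fun w : Wsp p m => mv (Sm (toX w).2.2.1) (toX w).1) := by
    unfold mv
    refine continuous_pi fun i => continuous_finsetSum _ fun j _ => ?_
    refine Continuous.mul ?_ ?_
    · exact (continuous_apply j).comp ((continuous_apply i).comp c6)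
    · exact Complex.continuous_conj.comp ((continuous_apply j).comp c2)
  have c8 : Continuous (fun w : Wsp p m => nsq (toX w).2.2.1) := by
    unfold nsq
    exact continuous_finsetSum _ fun i _ => ((continuous_apply i).comp c4).pow 2
  have c9 : Continuous (fun w : Wsp p m => L0 p m w.2 (toX w)) :=
    (contDiff_L0 (p := p) (m := m)).continuous.comp ((toX_cont p m).prodMk c1)
  have e : Kw p m = {w | -1 ≤ w.2} ∩ ({w | w.2 ≤ 2} ∩ ({w | nz (toX w).1 = 1} ∩ ({w | 0 ≤ (toX w).2.1} ∩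
      ({w | 1 / 2 ≤ (toX w).2.1 ^ 2} ∩ ({w | mv (Sm (toX w).2.2.1) (toX w).1 = 0} ∩
      ({w | (toX w).2.1 ^ 2 + nsq (toX w).2.2.1 = 1} ∩ {w | L0 p m w.2 (toX w) = 0})))))) := rfl
  rw [e]
  exact (isClosed_le continuous_const c1).inter ((isClosed_le c1 continuous_const).inter
    ((isClosed_eq c5 continuous_const).inter ((isClosed_le continuous_const c3).inter
    ((isClosed_le continuous_const (c3.pow 2)).inter ((isClosed_eq c7 continuous_const).inter
    ((isClosed_eq ((c3.pow 2).add c8) continuous_const).inter (isClosed_eq c9 continuous_const)))))))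

private theorem isCompact_Kw (p m : ℕ) : IsCompact (Kw p m) := by
  have hc : IsCompact (((Metric.closedBall (0 : Fin m → ℂ) 1) ×ˢ ((Set.Icc (-1 : ℝ) 1) ×ˢ
      (Metric.closedBall (0 : Ix p (Kx m) → ℝ) 1))) ×ˢ (Set.Icc (-1 : ℝ) 2)) :=
    ((isCompact_closedBall _ _).prod (isCompact_Icc.prod (isCompact_closedBall _ _))).prod isCompact_Icc
  refine hc.of_isClosed_subset (isClosed_Kw p m) ?_
  rintro ⟨⟨z, σ, η⟩, κ⟩ ⟨h1, h2, h3, h4, h5, -, h6, -⟩
  have h3' : nz z = 1 := h3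
  have h4' : 0 ≤ σ := h4
  have h6' : σ ^ 2 + nsq η = 1 := h6
  have h7 := nsq_nonneg' η
  refine ⟨⟨?_, ⟨?_, ?_⟩, ?_⟩, ⟨h1, h2⟩⟩
  · rw [mem_closedBall_zero_iff, pi_norm_le_iff_of_nonneg zero_le_one]
    intro i
    have h8 : Complex.normSq (z i) ≤ 1 := by
      rw [← h3']
      unfold nz
      exact Finset.single_le_sum (f := fun i => Complex.normSq (z i)) (fun i _ => Complex.normSq_nonneg _)
        (Finset.mem_univ i)
    rw [Complex.normSq_eq_norm_sq] at h8
    nlinarith [norm_nonneg (z i)]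
  · change (-1 : ℝ) ≤ σ
    linarith
  · change σ ≤ 1
    nlinarith
  · rw [mem_closedBall_zero_iff, pi_norm_le_iff_of_nonneg zero_le_one]
    intro i
    have h8 : η i ^ 2 ≤ nsq η := by
      unfold nsq
      exact Finset.single_le_sum (f := fun i => η i ^ 2) (fun i _ => sq_nonneg (η i)) (Finset.mem_univ i)
    rw [Real.norm_eq_abs, abs_le]
    constructor <;> nlinarith

private theorem hh_cont (p m : ℕ) : Continuous (fun w : Wsp p m => hh (yv (toX w))) := by
  have h1 : Continuous (fun y : Ix p (Kx m) → ℝ => hh y) := by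
    unfold hh qf
    fun_prop
  exact h1.comp ((contDiff_yv (p := p) (m := m)).continuous.comp (toX_cont p m))

theorem small3 (p m : ℕ) : ∃ ε0 > 0, ∀ (x : (Fin m → ℂ) × A0 p m) (κ : ℝ), -1 ≤ κ → κ ≤ 2 → nz x.1 = 1 →
    0 ≤ x.2.1 → 1 / 2 ≤ x.2.1 ^ 2 → mv (Sm x.2.2.1) x.1 = 0 → x.2.1 ^ 2 + nsq x.2.2.1 = 1 → hh (yv x) < ε0 →
    L0 p m κ x = 0 → ∀ u : Fin p → ℝ, ∃ A : Matrix (Fin m) (Fin m) ℂ, Aᴴ = -A ∧
      ∀ j, (1 - κ) * ff j (A * Sm (yv x) + Sm (yv x) * Aᵀ) +
        κ * ff j (A * vecMulVec x.1 x.1 + vecMulVec x.1 x.1 * Aᵀ) = u j := by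
  have hK : IsCompact (Kw p m ∩ {w : Wsp p m | GoodM p m (mM (toX w) w.2)}ᶜ) :=
    (isCompact_Kw p m).inter_right ((isOpen_goodM p m).preimage (mM_cont p m)).isClosed_compl
  have hmem : ∀ (x : (Fin m → ℂ) × A0 p m) (κ : ℝ), -1 ≤ κ → κ ≤ 2 → nz x.1 = 1 →
      0 ≤ x.2.1 → 1 / 2 ≤ x.2.1 ^ 2 → mv (Sm x.2.2.1) x.1 = 0 → x.2.1 ^ 2 + nsq x.2.2.1 = 1 →
      L0 p m κ x = 0 → ¬ GoodM p m (mM x κ) →
      (((x.1, x.2.1, x.2.2.1), κ) : Wsp p m) ∈ Kw p m ∩ {w : Wsp p m | GoodM p m (mM (toX w) w.2)}ᶜ := by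
    intro x κ h1 h2 h3 h4 h5 h6 h7 h8 h9
    exact ⟨⟨h1, h2, h3, h4, h5, h6, h7, h8⟩, h9⟩
  rcases Set.eq_empty_or_nonempty (Kw p m ∩ {w : Wsp p m | GoodM p m (mM (toX w) w.2)}ᶜ) with he | hne
  · refine ⟨1, one_pos, ?_⟩
    intro x κ h1 h2 h3 h4 h5 h6 h7 _ h8
    refine goodM_iff x κ ?_
    by_contra h9
    have h10 := hmem x κ h1 h2 h3 h4 h5 h6 h7 h8 h9
    rw [he] at h10
    exact h10
  · obtain ⟨w0, hw0, hmin⟩ := hK.exists_isMinOn hne (hh_cont p m).continuousOn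
    refine ⟨hh (yv (toX w0)), ?_, ?_⟩
    · refine lt_of_le_of_ne (hh_nonneg _) ?_
      intro h1
      obtain ⟨⟨-, -, k3, k4, k5, k6, k7, k8⟩, k9⟩ := hw0
      exact k9 (goodM_zero (toX w0) w0.2 k3 k4 k5 k6 k7 k8 h1.symm)
    · intro x κ h1 h2 h3 h4 h5 h6 h7 h11 h8
      refine goodM_iff x κ ?_
      by_contra h9
      have h12 := isMinOn_iff.mp hmin _ (hmem x κ h1 h2 h3 h4 h5 h6 h7 h8 h9)
      have h13 : yv (toX (((x.1, x.2.1, x.2.2.1), κ) : Wsp p m)) = yv x := rfl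
      rw [h13] at h12
      exact absurd h11 (not_lt.mpr h12)

end Pool.Agent.Helper48.BPF
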